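import Pool.Agent.ShghC.Crem

/-!
# Arithmetic of the quadratic transformation
-/

namespace ShghT

/-- The new multiplicities. -/
def newM {s : ℕ} (D : ℕ) (b : Fin 3 → Fin s) (μ : Fin s → ℕ) : Fin s → ℕ := fun l =>
  if l = b 0 then D - (μ (b 1) + μ (b 2)) else if l = b 1 then D - (μ (b 0) + μ (b 2))
  else if l = b 2 then D - (μ (b 0) + μ (b 1)) else μ l

private theorem arithC_two (n : ℕ) : (((n + 1).choose 2 : ℕ) : ℤ) * 2 = n * (n + 1) := by
  induction n with
  | zero => simp
  | succ n ih =>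
    rw [Nat.choose_succ_succ' (n + 1) 1, Nat.choose_one_right]
    push_cast
    linarith

private theorem arithC_split {s : ℕ} (b : Fin 3 → Fin s) (hb : Function.Injective b)
    (f : Fin s → ℤ) : ∑ i, f i = f (b 0) + f (b 1) + f (b 2) +
      ∑ i ∈ (Finset.univ.image b)ᶜ, f i := by
  rw [← Finset.sum_add_sum_compl (Finset.univ.image b) f,
    Finset.sum_image (fun x _ y _ h => hb h), Fin.sum_univ_three]

/-- The Euler characteristic is invariant. -/
theorem chi_newM {s : ℕ} (D : ℕ) (b : Fin 3 → Fin s) (hb : Function.Injective b)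
    (μ : Fin s → ℕ) (h : OkC D fun t => μ (b t)) :
    ((crD D (fun t => μ (b t)) + 2).choose 2 : ℤ) - ∑ i, ((newM D b μ i + 1).choose 2 : ℤ) =
      ((D + 2).choose 2 : ℤ) - ∑ i, ((μ i + 1).choose 2 : ℤ) := by
  have h10 : b 1 ≠ b 0 := fun e => by simpa using hb e
  have h20 : b 2 ≠ b 0 := fun e => by simpa using hb e
  have h21 : b 2 ≠ b 1 := fun e => by simpa using hb e
  rw [arithC_split b hb, arithC_split b hb (fun i => ((μ i + 1).choose 2 : ℤ))]
  have e0 : newM D b μ (b 0) = D - (μ (b 1) + μ (b 2)) := by simp [newM]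
  have e1 : newM D b μ (b 1) = D - (μ (b 0) + μ (b 2)) := by simp [newM, h10]
  have e2 : newM D b μ (b 2) = D - (μ (b 0) + μ (b 1)) := by simp [newM, h20, h21]
  have e3 : ∑ i ∈ (Finset.univ.image b)ᶜ, ((newM D b μ i + 1).choose 2 : ℤ) =
      ∑ i ∈ (Finset.univ.image b)ᶜ, ((μ i + 1).choose 2 : ℤ) := by
    apply Finset.sum_congr rfl
    intro i hi
    rw [Finset.mem_compl, Finset.mem_image] at hi
    have a0 : i ≠ b 0 := fun e => hi ⟨0, Finset.mem_univ _, e.symm⟩
    have a1 : i ≠ b 1 := fun e => hi ⟨1, Finset.mem_univ _, e.symm⟩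
    have a2 : i ≠ b 2 := fun e => hi ⟨2, Finset.mem_univ _, e.symm⟩
    simp [newM, a0, a1, a2]
  rw [e0, e1, e2, e3]
  have hd : crD D (fun t => μ (b t)) = 2 * D - (μ (b 0) + μ (b 1) + μ (b 2)) := rfl
  rw [hd]
  obtain ⟨h1, h2, h3⟩ := h
  have h1' : μ (b 1) + μ (b 2) ≤ D := h1
  have h2' : μ (b 0) + μ (b 2) ≤ D := h2
  have h3' : μ (b 0) + μ (b 1) ≤ D := h3
  generalize μ (b 0) = x at h2' h3' ⊢
  generalize μ (b 1) = y at h1' h3' ⊢
  generalize μ (b 2) = z at h1' h2' ⊢
  have q0 := arithC_two (D - (y + z))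
  have q1 := arithC_two (D - (x + z))
  have q2 := arithC_two (D - (x + y))
  have q3 := arithC_two (2 * D - (x + y + z) + 1)
  have q4 := arithC_two (D + 1)
  have q5 := arithC_two x
  have q6 := arithC_two y
  have q7 := arithC_two z
  have r0 : ((D - (y + z) : ℕ) : ℤ) = D - (y + z) := by
    rw [Nat.cast_sub h1']
    push_cast
    rfl
  have r1 : ((D - (x + z) : ℕ) : ℤ) = D - (x + z) := by
    rw [Nat.cast_sub h2']
    push_cast
    rfl
  have r2 : ((D - (x + y) : ℕ) : ℤ) = D - (x + y) := by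
    rw [Nat.cast_sub h3']
    push_cast
    rfl
  have r3 : ((2 * D - (x + y + z) : ℕ) : ℤ) = 2 * D - (x + y + z) := by
    rw [Nat.cast_sub (by omega)]
    push_cast
    rfl
  rw [r0] at q0
  rw [r1] at q1
  rw [r2] at q2
  push_cast at q3 q4
  rw [r3] at q3
  linarith

/-- Nine largest multiplicities in decreasing order. -/
theorem exists_nine {s : ℕ} (hs : 9 ≤ s) (μ : Fin s → ℕ) :
    ∃ c : Fin 9 → Fin s, Function.Injective c ∧ (Antitone fun l => μ (c l)) ∧
      ∀ i, i ∉ Set.range c → ∀ l, μ i ≤ μ (c l) := by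
  have hmono : Monotone (μ ∘ Tuple.sort μ) := Tuple.monotone_sort μ
  refine ⟨fun l => Tuple.sort μ (Fin.rev (Fin.castLE hs l)), ?_, ?_, ?_⟩
  · intro x y hxy
    have h1 := (Tuple.sort μ).injective hxy
    have h2 := Fin.rev_injective h1
    exact Fin.castLE_injective hs h2
  · intro x y hxy
    apply hmono
    rw [Fin.rev_le_rev]
    exact hxy
  · intro i hi l
    obtain ⟨j, rfl⟩ := (Tuple.sort μ).surjective i
    apply hmono
    by_contra hcon
    apply hi
    have h1 : (Fin.rev (Fin.castLE hs l) : ℕ) < (j : ℕ) := not_le.mp hcon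
    rw [Fin.val_rev, Fin.val_castLE] at h1
    have h2 := l.isLt
    have h3 := j.isLt
    refine ⟨⟨s - 1 - j, by omega⟩, ?_⟩
    show Tuple.sort μ _ = _
    congr 1
    apply Fin.ext
    rw [Fin.val_rev, Fin.val_castLE]
    show s - (s - 1 - (j : ℕ) + 1) = j
    omega

/-- If at most nine multiplicities are greater than two, the other ones are not. -/
theorem le_two_of_card {s : ℕ} (μ : Fin s → ℕ)
    (hcard : (Finset.univ.filter fun i => 3 ≤ μ i).card ≤ 9) (c : Fin 9 → Fin s)
    (hc : Function.Injective c) (hmax : ∀ i, i ∉ Set.range c → ∀ l, μ i ≤ μ (c l)) (i : Fin s)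
    (hi : i ∉ Set.range c) : μ i ≤ 2 := by
  by_contra hcon
  have h1 : insert i (Finset.univ.image c) ⊆ Finset.univ.filter fun i => 3 ≤ μ i := by
    intro j hj
    rw [Finset.mem_insert, Finset.mem_image] at hj
    rw [Finset.mem_filter]
    refine ⟨Finset.mem_univ _, ?_⟩
    rcases hj with rfl | ⟨l, -, rfl⟩
    · omega
    · have := hmax i hi l
      omega
  have h2 := Finset.card_le_card h1
  have h3 : i ∉ Finset.univ.image c := by
    intro h
    rw [Finset.mem_image] at h
    obtain ⟨l, -, hl⟩ := h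
    exact hi ⟨l, hl⟩
  rw [Finset.card_insert_of_notMem h3, Finset.card_image_of_injective _ hc, Finset.card_univ,
    Fintype.card_fin] at h2
  omega

end ShghT
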