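import Mathlib

/-!
# The standard quadratic transformation of homogeneous polynomials
-/

namespace ShghT

open MvPolynomial

variable {K : Type*} [Field K]

/-- The substitution `(X 0, X 1, X 2) ↦ (X 1 X 2, X 0 X 2, X 0 X 1)`. -/
noncomputable def psiC (K : Type*) [Field K] : MvPolynomial (Fin 3) K →ₐ[K] MvPolynomial (Fin 3) K :=
  aeval ![X 1 * X 2, X 0 * X 2, X 0 * X 1]

/-- The new exponents. -/
noncomputable def crE (D : ℕ) (m : Fin 3 → ℕ) (α : Fin 3 →₀ ℕ) : Fin 3 →₀ ℕ :=
  Finsupp.equivFunOnFinite.symm fun t => D - α t - m t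

/-- The quadratic transform of a homogeneous polynomial of degree `D` with multiplicities `m` at the coordinate
points. -/
noncomputable def cr (D : ℕ) (m : Fin 3 → ℕ) (G : MvPolynomial (Fin 3) K) :
    MvPolynomial (Fin 3) K := ∑ α ∈ G.support, monomial (crE D m α) (G.coeff α)

/-- The new degree `2 D - m 0 - m 1 - m 2`. -/
def crD (D : ℕ) (m : Fin 3 → ℕ) : ℕ := 2 * D - (m 0 + m 1 + m 2)

/-- The new multiplicities. -/
def crM (D : ℕ) (m : Fin 3 → ℕ) : Fin 3 → ℕ :=
  ![D - (m 1 + m 2), D - (m 0 + m 2), D - (m 0 + m 1)]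

/-- The class of `G`. -/
structure InC (D : ℕ) (m : Fin 3 → ℕ) (G : MvPolynomial (Fin 3) K) : Prop where
  hom : G.IsHomogeneous D
  exp : ∀ α ∈ G.support, ∀ t, α t + m t ≤ D

/-- The numerical condition. -/
def OkC (D : ℕ) (m : Fin 3 → ℕ) : Prop := m 1 + m 2 ≤ D ∧ m 0 + m 2 ≤ D ∧ m 0 + m 1 ≤ D


private theorem Crem_deg {D : ℕ} {G : MvPolynomial (Fin 3) K} (hG : G.IsHomogeneous D)
    {α : Fin 3 →₀ ℕ} (hα : α ∈ G.support) : α 0 + α 1 + α 2 = D := by
  by_contra h
  apply mem_support_iff.1 hα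
  apply hG.coeff_eq_zero
  rw [Finsupp.degree_eq_sum, Fin.sum_univ_three]
  exact h

private theorem crE_apply (D : ℕ) (m : Fin 3 → ℕ) (α : Fin 3 →₀ ℕ) (t : Fin 3) :
    crE D m α t = D - α t - m t := rfl

private theorem Crem_crE_inj {D : ℕ} {m : Fin 3 → ℕ} {α β : Fin 3 →₀ ℕ}
    (hα : ∀ t, α t + m t ≤ D) (hβ : ∀ t, β t + m t ≤ D) (h : crE D m α = crE D m β) : α = β := by
  ext t
  have h1 := DFunLike.congr_fun h t
  rw [crE_apply, crE_apply] at h1
  have := hα t
  have := hβ t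
  omega

private theorem Crem_cr_eq_sum (D : ℕ) (m : Fin 3 → ℕ) (G : MvPolynomial (Fin 3) K)
    (S : Finset (Fin 3 →₀ ℕ)) (hS : G.support ⊆ S) :
    cr D m G = ∑ α ∈ S, monomial (crE D m α) (G.coeff α) := by
  apply Finset.sum_subset hS
  intro α _ hα
  rw [notMem_support_iff.1 hα, map_zero]

private theorem Crem_coeff_cr {D : ℕ} {m : Fin 3 → ℕ} {G : MvPolynomial (Fin 3) K}
    (hG : InC D m G) {α : Fin 3 →₀ ℕ} (hα : α ∈ G.support) :
    (cr D m G).coeff (crE D m α) = G.coeff α := by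
  classical
  rw [cr, coeff_sum, Finset.sum_eq_single α]
  · rw [coeff_monomial, if_pos rfl]
  · intro β hβ hne
    rw [coeff_monomial, if_neg]
    intro h
    exact hne (Crem_crE_inj (hG.exp β hβ) (hG.exp α hα) h)
  · intro h
    exact absurd hα h

private theorem Crem_mem_cr {D : ℕ} {m : Fin 3 → ℕ} {G : MvPolynomial (Fin 3) K}
    (hG : InC D m G) {α : Fin 3 →₀ ℕ} (hα : α ∈ G.support) :
    crE D m α ∈ (cr D m G).support := by
  rw [mem_support_iff, Crem_coeff_cr hG hα]
  exact mem_support_iff.1 hα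

private theorem Crem_exists_of_mem_cr {D : ℕ} {m : Fin 3 → ℕ} {G : MvPolynomial (Fin 3) K}
    {β : Fin 3 →₀ ℕ} (hβ : β ∈ (cr D m G).support) : ∃ α ∈ G.support, crE D m α = β := by
  classical
  by_contra hcon
  apply mem_support_iff.1 hβ
  rw [cr, coeff_sum]
  apply Finset.sum_eq_zero
  intro α hα
  rw [coeff_monomial, if_neg]
  intro h
  exact hcon ⟨α, hα, h⟩

private theorem Crem_X_dvd {G : MvPolynomial (Fin 3) K} {t : Fin 3}
    (h : ∀ α ∈ G.support, 1 ≤ α t) : X t ∣ G := by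
  rw [G.as_sum]
  apply Finset.dvd_sum
  intro α hα
  refine ⟨monomial (α - Finsupp.single t 1) (G.coeff α), ?_⟩
  rw [X, monomial_mul, one_mul, add_tsub_cancel_of_le]
  rw [Finsupp.single_le_iff]
  exact h α hα

/-- The exponents of the substitution. -/
private noncomputable def CremT (α : Fin 3 →₀ ℕ) : Fin 3 →₀ ℕ :=
  Finsupp.equivFunOnFinite.symm ![α 1 + α 2, α 0 + α 2, α 0 + α 1]

private theorem CremT_inj {α β : Fin 3 →₀ ℕ} (h : CremT α = CremT β) : α = β := by
  have h0 : α 1 + α 2 = β 1 + β 2 := DFunLike.congr_fun h 0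
  have h1 : α 0 + α 2 = β 0 + β 2 := DFunLike.congr_fun h 1
  have h2 : α 0 + α 1 = β 0 + β 1 := DFunLike.congr_fun h 2
  ext t
  fin_cases t
  · show α 0 = β 0
    omega
  · show α 1 = β 1
    omega
  · show α 2 = β 2
    omega

private theorem psiC_monomial (α : Fin 3 →₀ ℕ) (c : K) :
    psiC K (monomial α c) = monomial (CremT α) c := by
  rw [psiC, aeval_monomial, monomial_eq, Finsupp.prod_fintype _ _ (fun i => pow_zero _),
    Finsupp.prod_fintype _ _ (fun i => pow_zero _), Fin.prod_univ_three, Fin.prod_univ_three]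
  have e0 : CremT α 0 = α 1 + α 2 := rfl
  have e1 : CremT α 1 = α 0 + α 2 := rfl
  have e2 : CremT α 2 = α 0 + α 1 := rfl
  have f0 : (![X 1 * X 2, X 0 * X 2, X 0 * X 1] : Fin 3 → MvPolynomial (Fin 3) K) 0 =
    X 1 * X 2 := rfl
  have f1 : (![X 1 * X 2, X 0 * X 2, X 0 * X 1] : Fin 3 → MvPolynomial (Fin 3) K) 1 =
    X 0 * X 2 := rfl
  have f2 : (![X 1 * X 2, X 0 * X 2, X 0 * X 1] : Fin 3 → MvPolynomial (Fin 3) K) 2 =
    X 0 * X 1 := rfl
  rw [e0, e1, e2, f0, f1, f2, algebraMap_eq]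
  ring

private theorem psiC_sum (G : MvPolynomial (Fin 3) K) :
    psiC K G = ∑ α ∈ G.support, monomial (CremT α) (G.coeff α) := by
  conv_lhs => rw [G.as_sum]
  rw [map_sum]
  exact Finset.sum_congr rfl fun α _ => psiC_monomial α _

private theorem coeff_psiC (G : MvPolynomial (Fin 3) K) (α : Fin 3 →₀ ℕ) :
    (psiC K G).coeff (CremT α) = G.coeff α := by
  classical
  rw [psiC_sum, coeff_sum]
  by_cases hα : α ∈ G.support
  · rw [Finset.sum_eq_single α]
    · rw [coeff_monomial, if_pos rfl]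
    · intro β _ hne
      rw [coeff_monomial, if_neg]
      intro h
      exact hne (CremT_inj h)
    · intro h
      exact absurd hα h
  · rw [notMem_support_iff.1 hα]
    apply Finset.sum_eq_zero
    intro β hβ
    rw [coeff_monomial, if_neg]
    intro h
    exact hα (CremT_inj h ▸ hβ)

private theorem crM_zero (D : ℕ) (m : Fin 3 → ℕ) : crM D m 0 = D - (m 1 + m 2) := rfl
private theorem crM_one (D : ℕ) (m : Fin 3 → ℕ) : crM D m 1 = D - (m 0 + m 2) := rfl
private theorem crM_two (D : ℕ) (m : Fin 3 → ℕ) : crM D m 2 = D - (m 0 + m 1) := rfl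

theorem OkC.crd {D : ℕ} {m : Fin 3 → ℕ} (h : OkC D m) : OkC (crD D m) (crM D m) := by
  obtain ⟨h0, h1, h2⟩ := h
  rw [OkC, crM_zero, crM_one, crM_two, crD]
  omega

theorem crD_crD {D : ℕ} {m : Fin 3 → ℕ} (h : OkC D m) : crD (crD D m) (crM D m) = D := by
  obtain ⟨h0, h1, h2⟩ := h
  rw [crD, crM_zero, crM_one, crM_two, crD]
  omega

theorem crM_crM {D : ℕ} {m : Fin 3 → ℕ} (h : OkC D m) : crM (crD D m) (crM D m) = m := by
  obtain ⟨h0, h1, h2⟩ := h
  funext t
  fin_cases t
  · show crD D m - (crM D m 1 + crM D m 2) = m 0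
    rw [crM_one, crM_two, crD]
    omega
  · show crD D m - (crM D m 0 + crM D m 2) = m 1
    rw [crM_zero, crM_two, crD]
    omega
  · show crD D m - (crM D m 0 + crM D m 1) = m 2
    rw [crM_zero, crM_one, crD]
    omega

/-- `cr` is `Finsupp.mapDomain (crE D m)`. -/
theorem cr_add (D : ℕ) (m : Fin 3 → ℕ) (G H : MvPolynomial (Fin 3) K) :
    cr D m (G + H) = cr D m G + cr D m H := by
  classical
  rw [Crem_cr_eq_sum D m (G + H) (G.support ∪ H.support) support_add,
    Crem_cr_eq_sum D m G (G.support ∪ H.support) Finset.subset_union_left,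
    Crem_cr_eq_sum D m H (G.support ∪ H.support) Finset.subset_union_right,
    ← Finset.sum_add_distrib]
  refine Finset.sum_congr rfl fun α _ => ?_
  rw [coeff_add, map_add]

theorem cr_C_mul (D : ℕ) (m : Fin 3 → ℕ) (c : K) (G : MvPolynomial (Fin 3) K) :
    cr D m (C c * G) = C c * cr D m G := by
  have hS : (C c * G).support ⊆ G.support := by
    intro α hα
    rw [mem_support_iff] at hα ⊢
    intro h
    apply hα
    rw [coeff_C_mul, h, mul_zero]
  rw [Crem_cr_eq_sum D m (C c * G) G.support hS, cr, Finset.mul_sum]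
  refine Finset.sum_congr rfl fun α _ => ?_
  rw [coeff_C_mul, C_mul_monomial]

theorem psiC_eq {D : ℕ} {m : Fin 3 → ℕ} {G : MvPolynomial (Fin 3) K} (hG : InC D m G) :
    psiC K G = (∏ t, X t ^ m t) * cr D m G := by
  have h1 : (∏ t, X t ^ m t : MvPolynomial (Fin 3) K) =
      monomial (Finsupp.equivFunOnFinite.symm m) 1 := by
    rw [monomial_eq, Finsupp.prod_fintype _ _ (fun i => pow_zero _), C_1, one_mul]
    rfl
  rw [psiC_sum, h1, cr, Finset.mul_sum]
  refine Finset.sum_congr rfl fun α hα => ?_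
  have hd := Crem_deg hG.hom hα
  have he := hG.exp α hα
  have he0 := he 0
  have he1 := he 1
  have he2 := he 2
  have hT : CremT α = Finsupp.equivFunOnFinite.symm m + crE D m α := by
    ext t
    fin_cases t
    · show α 1 + α 2 = m 0 + (D - α 0 - m 0)
      omega
    · show α 0 + α 2 = m 1 + (D - α 1 - m 1)
      omega
    · show α 0 + α 1 = m 2 + (D - α 2 - m 2)
      omega
  rw [monomial_mul, one_mul, hT]

theorem InC.cr {D : ℕ} {m : Fin 3 → ℕ} (h : OkC D m) {G : MvPolynomial (Fin 3) K}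
    (hG : InC D m G) : InC (crD D m) (crM D m) (cr D m G) := by
  obtain ⟨h0, h1, h2⟩ := h
  constructor
  · apply IsHomogeneous.sum
    intro α hα
    apply isHomogeneous_monomial
    have hd := Crem_deg hG.hom hα
    have he0 := hG.exp α hα 0
    have he1 := hG.exp α hα 1
    have he2 := hG.exp α hα 2
    rw [Finsupp.degree_eq_sum, Fin.sum_univ_three, crE_apply, crE_apply, crE_apply, crD]
    omega
  · intro β hβ t
    obtain ⟨α, hα, rfl⟩ := Crem_exists_of_mem_cr hβ
    have he := hG.exp α hα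
    have he0 := he 0
    have he1 := he 1
    have he2 := he 2
    rw [crE_apply]
    fin_cases t
    · show D - α 0 - m 0 + (D - (m 1 + m 2)) ≤ 2 * D - (m 0 + m 1 + m 2)
      omega
    · show D - α 1 - m 1 + (D - (m 0 + m 2)) ≤ 2 * D - (m 0 + m 1 + m 2)
      omega
    · show D - α 2 - m 2 + (D - (m 0 + m 1)) ≤ 2 * D - (m 0 + m 1 + m 2)
      omega

private theorem Crem_crE_crE {D : ℕ} {m : Fin 3 → ℕ} (h : OkC D m) {α : Fin 3 →₀ ℕ}
    (he : ∀ t, α t + m t ≤ D) : crE (crD D m) (crM D m) (crE D m α) = α := by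
  obtain ⟨h0, h1, h2⟩ := h
  have he0 := he 0
  have he1 := he 1
  have he2 := he 2
  ext t
  fin_cases t
  · show 2 * D - (m 0 + m 1 + m 2) - (D - α 0 - m 0) - (D - (m 1 + m 2)) = α 0
    omega
  · show 2 * D - (m 0 + m 1 + m 2) - (D - α 1 - m 1) - (D - (m 0 + m 2)) = α 1
    omega
  · show 2 * D - (m 0 + m 1 + m 2) - (D - α 2 - m 2) - (D - (m 0 + m 1)) = α 2
    omega

theorem cr_cr {D : ℕ} {m : Fin 3 → ℕ} (h : OkC D m) {G : MvPolynomial (Fin 3) K}
    (hG : InC D m G) : ShghT.cr (crD D m) (crM D m) (ShghT.cr D m G) = G := by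
  classical
  have hS : (ShghT.cr D m G).support ⊆ G.support.image (crE D m) := by
    intro β hβ
    obtain ⟨α, hα, rfl⟩ := Crem_exists_of_mem_cr hβ
    exact Finset.mem_image_of_mem _ hα
  rw [Crem_cr_eq_sum _ _ _ _ hS, Finset.sum_image]
  · conv_rhs => rw [G.as_sum]
    refine Finset.sum_congr rfl fun α hα => ?_
    rw [Crem_coeff_cr hG hα, Crem_crE_crE h (hG.exp α hα)]
  · intro α hα β hβ hαβ
    exact Crem_crE_inj (hG.exp α hα) (hG.exp β hβ) hαβ

/-- The multiplicities are exact, so the transform is not divisible by `X t`. -/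
theorem not_X_dvd_cr {D : ℕ} {m : Fin 3 → ℕ} {G : MvPolynomial (Fin 3) K} (hG : InC D m G)
    (t : Fin 3) (hex : ∃ α ∈ G.support, α t + m t = D) : ¬ X t ∣ cr D m G := by
  classical
  rintro ⟨Q, hQ⟩
  obtain ⟨α, hα, ht⟩ := hex
  have h1 := mem_support_iff.1 (Crem_mem_cr hG hα)
  apply h1
  rw [hQ, coeff_X_mul', if_neg]
  rw [Finsupp.mem_support_iff, not_not, crE_apply]
  omega

/-- `G` is not divisible by `X t`, so the multiplicities of the transform are exact. -/
theorem exact_cr {D : ℕ} {m : Fin 3 → ℕ} (h : OkC D m) {G : MvPolynomial (Fin 3) K}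
    (hG : InC D m G) (t : Fin 3) (hX : ¬ X t ∣ G) :
    ∃ α ∈ (cr D m G).support, α t + crM D m t = crD D m := by
  obtain ⟨h0, h1, h2⟩ := h
  have hex : ∃ α ∈ G.support, α t = 0 := by
    by_contra hcon
    apply hX
    apply Crem_X_dvd
    intro α hα
    by_contra h3
    exact hcon ⟨α, hα, by omega⟩
  obtain ⟨α, hα, ht⟩ := hex
  refine ⟨crE D m α, Crem_mem_cr hG hα, ?_⟩
  have he := hG.exp α hα t
  rw [crE_apply, ht]
  rw [ht] at he
  fin_cases t
  · have he' : 0 + m 0 ≤ D := he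
    show D - 0 - m 0 + (D - (m 1 + m 2)) = 2 * D - (m 0 + m 1 + m 2)
    omega
  · have he' : 0 + m 1 ≤ D := he
    show D - 0 - m 1 + (D - (m 0 + m 2)) = 2 * D - (m 0 + m 1 + m 2)
    omega
  · have he' : 0 + m 2 ≤ D := he
    show D - 0 - m 2 + (D - (m 0 + m 1)) = 2 * D - (m 0 + m 1 + m 2)
    omega

/-- A factor `Q` such that `psiC Q` divides a monomial and no `X t` divides `Q` is a unit. -/
private theorem Crem_unit {Q : MvPolynomial (Fin 3) K} {γ : Fin 3 →₀ ℕ}
    (hQ : psiC K Q ∣ monomial γ 1) (hX : ∀ t, ¬ X t ∣ Q) : IsUnit Q := by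
  classical
  obtain ⟨δ, b, -, hb, hδ⟩ := (dvd_monomial_iff_exists (one_ne_zero)).1 hQ
  have hb0 : b ≠ 0 := by
    rintro rfl
    exact one_ne_zero (zero_dvd_iff.1 hb)
  have hsup : ∀ α ∈ Q.support, CremT α = δ := by
    intro α hα
    by_contra hne
    apply mem_support_iff.1 hα
    rw [← coeff_psiC, hδ, coeff_monomial, if_neg]
    exact fun h => hne h.symm
  have hQ0 : Q ≠ 0 := by
    rintro rfl
    rw [map_zero] at hδ
    exact hb0 (monomial_eq_zero.1 hδ.symm)
  obtain ⟨α, hα⟩ := (support_nonempty.2 hQ0)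
  have hα0 : α = 0 := by
    ext t
    by_contra ht
    apply hX t
    apply Crem_X_dvd
    intro β hβ
    have : β = α := CremT_inj ((hsup β hβ).trans (hsup α hα).symm)
    rw [this]
    exact Nat.one_le_iff_ne_zero.2 ht
  have hQC : Q = C (Q.coeff 0) := by
    apply MvPolynomial.ext
    intro β
    rw [coeff_C]
    split_ifs with hβ
    · rw [hβ]
    · by_contra hne
      apply hβ
      have h1 : β = α := CremT_inj ((hsup β (mem_support_iff.2 hne)).trans (hsup α hα).symm)
      rw [h1, hα0]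
  rw [hQC]
  apply (isUnit_iff_ne_zero.2 _).map
  rw [← hα0]
  exact mem_support_iff.1 hα

/-- PROOF. Let `cr D m G = P Q`. `psiC (cr D m G) = (∏ X t ^ crM t) * G` (`psiC_eq`, `cr_cr`), so
`psiC P * psiC Q = (∏ X t ^ crM t) * G`. `G` is prime and divides `psiC P`, say; cancel it: `psiC Q` divides a monomial,
so it is a nonzero constant times a monomial (`MvPolynomial.dvd_monomial_iff_exists` or unique factorization).
`psiC` is injective on monomials, hence `Q` is a constant times a monomial; as no `X t` divides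
`cr D m G`, `Q` is a nonzero constant. `cr D m G` is not a unit since it is homogeneous of degree `crD D m ≥ 1`. -/
theorem irreducible_cr {D : ℕ} {m : Fin 3 → ℕ} (h : OkC D m) (hD : 1 ≤ crD D m)
    {G : MvPolynomial (Fin 3) K} (hG : InC D m G) (hirr : Irreducible G)
    (hX : ∀ t, ¬ X t ∣ G) (hX' : ∀ t, ¬ X t ∣ cr D m G) : Irreducible (cr D m G) := by
  have hprime : Prime G := hirr.prime
  have hM : (∏ t, X t ^ crM D m t : MvPolynomial (Fin 3) K) =
      monomial (Finsupp.equivFunOnFinite.symm (crM D m)) 1 := by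
    rw [monomial_eq, Finsupp.prod_fintype _ _ (fun i => pow_zero _), C_1, one_mul]
    rfl
  have key : psiC K (cr D m G) = monomial (Finsupp.equivFunOnFinite.symm (crM D m)) 1 * G := by
    rw [psiC_eq (hG.cr h), cr_cr h hG, hM]
  have aux : ∀ P Q : MvPolynomial (Fin 3) K, cr D m G = P * Q → G ∣ psiC K P → IsUnit Q := by
    rintro P Q hPQ ⟨R, hR⟩
    apply Crem_unit (γ := Finsupp.equivFunOnFinite.symm (crM D m))
    · refine ⟨R, ?_⟩
      apply mul_left_cancel₀ hprime.ne_zero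
      rw [mul_comm G, ← key, hPQ, map_mul, hR]
      ring
    · intro t ht
      apply hX' t
      rw [hPQ]
      exact ht.mul_left P
  refine ⟨?_, ?_⟩
  · intro hu
    obtain ⟨c, hc, hcG⟩ := (isUnit_iff_eq_C_of_isReduced).1 hu
    have h1 := (hG.cr h).hom
    have h2 : (cr D m G).coeff 0 = 0 := by
      apply h1.coeff_eq_zero
      simp
      omega
    rw [hcG, coeff_zero_C] at h2
    rw [h2] at hc
    exact not_isUnit_zero hc
  · intro P Q hPQ
    have h1 : G ∣ psiC K P * psiC K Q := by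
      rw [← map_mul, ← hPQ, key]
      exact dvd_mul_left _ _
    rcases hprime.dvd_or_dvd h1 with h2 | h2
    · exact Or.inr (aux P Q hPQ h2)
    · exact Or.inl (aux Q P (by rw [hPQ, mul_comm]) h2)

end ShghT
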