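import Pool.Agent.ShghC.Tri
import Pool.Agent.ShghC.Crem

/-!
# The quadratic transformation at the other points of the plane
-/

namespace ShghT

open MvPolynomial

variable {K : Type*} [Field K]

/-- An affine linear function is affine. -/
private theorem cremQ_eval_affine {p : MvPolynomial (Fin 2) K} (hp : p.totalDegree ≤ 1)
    (w : Fin 3 → K) (hw : ∑ t, w t = 1) (A : Fin 3 → Fin 2 → K) :
    eval (fun i => ∑ t, w t * A t i) p = ∑ t, w t * eval (A t) p := by
  simp_rw [eval_eq']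
  simp_rw [Finset.mul_sum]
  rw [Finset.sum_comm]
  apply Finset.sum_congr rfl
  intro d hd
  have h1 : d.sum (fun _ e => e) ≤ 1 := (le_totalDegree hd).trans hp
  have h2 : d 0 + d 1 ≤ 1 := by
    rw [Finsupp.sum_fintype _ _ (fun _ => rfl), Fin.sum_univ_two] at h1
    exact h1
  have h3 : (d 0 = 0 ∧ d 1 = 0) ∨ (d 0 = 1 ∧ d 1 = 0) ∨ (d 0 = 0 ∧ d 1 = 1) := by omega
  rw [Fin.prod_univ_two]
  simp_rw [Fin.prod_univ_two]
  rw [Fin.sum_univ_three] at hw
  rcases h3 with ⟨a, b⟩ | ⟨a, b⟩ | ⟨a, b⟩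
  · simp only [a, b, pow_zero, mul_one, Fin.sum_univ_three]
    rw [← add_mul, ← add_mul, hw, one_mul]
  · simp only [a, b, pow_zero, pow_one, mul_one, Fin.sum_univ_three]
    ring
  · simp only [a, b, pow_zero, pow_one, one_mul, Fin.sum_univ_three]
    ring

/-- A polynomial vanishes at `q` iff it is in the ideal of `q` (one direction). -/
private theorem cremQ_mem_pt {p : MvPolynomial (Fin 2) K} {q : Fin 2 → K} (h : eval q p = 0) :
    p ∈ pt (q 0) (q 1) := by
  have key : Ideal.Quotient.mk (pt (q 0) (q 1)) p =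
      Ideal.Quotient.mk (pt (q 0) (q 1)) (C (eval q p)) := by
    have : (Ideal.Quotient.mk (pt (q 0) (q 1))) =
        ((Ideal.Quotient.mk (pt (q 0) (q 1))).comp (C.comp (eval q)) :
          MvPolynomial (Fin 2) K →+* _) := by
      apply MvPolynomial.ringHom_ext
      · intro r
        simp
      · intro i
        simp only [RingHom.coe_comp, Function.comp_apply, eval_X]
        rw [Ideal.Quotient.eq]
        unfold pt
        fin_cases i
        · exact Ideal.subset_span (by simp)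
        · exact Ideal.subset_span (by simp)
    exact RingHom.congr_fun this p
  rw [h, C_0, map_zero, Ideal.Quotient.eq_zero_iff_mem] at key
  exact key

/-- Polynomials not vanishing at `q` are units modulo the powers of the ideal of `q`. -/
private theorem cremQ_isUnit {p : MvPolynomial (Fin 2) K} {q : Fin 2 → K} (h : eval q p ≠ 0)
    (n : ℕ) : IsUnit (Ideal.Quotient.mk (pt (q 0) (q 1) ^ n) p) := by
  have hcop : IsCoprime (Ideal.span {p}) (pt (q 0) (q 1)) := by
    rw [Ideal.isCoprime_iff_exists]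
    refine ⟨C (eval q p)⁻¹ * p, ?_, 1 - C (eval q p)⁻¹ * p, ?_, by ring⟩
    · exact Ideal.mul_mem_left _ _ (Ideal.mem_span_singleton_self p)
    · apply cremQ_mem_pt
      simp [h]
  have h2 : IsCoprime (Ideal.span {p}) (pt (q 0) (q 1) ^ n) := hcop.pow_right
  rw [Ideal.isCoprime_iff_exists] at h2
  obtain ⟨i, hi, j, hj, hij⟩ := h2
  obtain ⟨c, rfl⟩ := Ideal.mem_span_singleton'.1 hi
  refine IsUnit.of_mul_eq_one_right (Ideal.Quotient.mk (pt (q 0) (q 1) ^ n) c) ?_
  rw [← map_mul, ← map_one (Ideal.Quotient.mk (pt (q 0) (q 1) ^ n)), Ideal.Quotient.eq, ← hij]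
  have : c * p - (c * p + j) = -j := by ring
  rw [this]
  exact neg_mem hj

namespace Tri

variable (T : Tri K)

/-- `κ t = ∏_{s ≠ t} lam s` at the point `q`. -/
noncomputable def kap (q : Fin 2 → K) : Fin 3 → K :=
  ![eval q (T.lam 1) * eval q (T.lam 2), eval q (T.lam 0) * eval q (T.lam 2),
    eval q (T.lam 0) * eval q (T.lam 1)]

/-- The image of the point `q` under the quadratic transformation with base points `A 0, A 1, A 2`. -/
noncomputable def img (q : Fin 2 → K) : Fin 2 → K := fun i =>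
  (∑ t, T.kap q t * T.A t i) / ∑ t, T.kap q t

/-- The point `q` is in general position. -/
def Ok (q : Fin 2 → K) : Prop := (∀ t, eval q (T.lam t) ≠ 0) ∧ ∑ t, T.kap q t ≠ 0

private theorem cremQ_sum (q : Fin 2 → K) :
    eval q (T.lam 0) + eval q (T.lam 1) + eval q (T.lam 2) = 1 := by
  have := congrArg (eval q) T.sum
  simpa [Fin.sum_univ_three] using this

private theorem cremQ_inv (q : Fin 2 → K) (i : Fin 2) :
    eval q (T.lam 0) * T.A 0 i + eval q (T.lam 1) * T.A 1 i + eval q (T.lam 2) * T.A 2 i = q i := by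
  have := congrArg (eval q) (T.inv i)
  simpa [Fin.sum_univ_three] using this

private theorem cremQ_eval_img {q : Fin 2 → K} (h : T.Ok q) (t : Fin 3) :
    eval (T.img q) (T.lam t) = T.kap q t / ∑ s, T.kap q s := by
  have hs := h.2
  have hw : ∑ s, T.kap q s / ∑ s, T.kap q s = 1 := by
    rw [← Finset.sum_div, div_self hs]
  have e : T.img q = fun i => ∑ s, (T.kap q s / ∑ s, T.kap q s) * T.A s i := by
    funext i
    unfold img
    rw [Finset.sum_div]
    apply Finset.sum_congr rfl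
    intro s _
    ring
  rw [e, cremQ_eval_affine (T.deg t) _ hw]
  simp_rw [T.val]
  simp

private theorem cremQ_kap_img {q : Fin 2 → K} (h : T.Ok q) (t : Fin 3) :
    T.kap (T.img q) t = eval q (T.lam t) *
      ((eval q (T.lam 0) * eval q (T.lam 1) * eval q (T.lam 2)) / (∑ s, T.kap q s) ^ 2) := by
  have hs := h.2
  have e0 := T.cremQ_eval_img h 0
  have e1 := T.cremQ_eval_img h 1
  have e2 := T.cremQ_eval_img h 2
  have k0 : T.kap q 0 = eval q (T.lam 1) * eval q (T.lam 2) := rfl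
  have k1 : T.kap q 1 = eval q (T.lam 0) * eval q (T.lam 2) := rfl
  have k2 : T.kap q 2 = eval q (T.lam 0) * eval q (T.lam 1) := rfl
  generalize (∑ s, T.kap q s) = σ at hs e0 e1 e2 ⊢
  rw [k0] at e0
  rw [k1] at e1
  rw [k2] at e2
  fin_cases t
  · show eval (T.img q) (T.lam 1) * eval (T.img q) (T.lam 2) = eval q (T.lam 0) * _
    rw [e1, e2]
    field_simp
  · show eval (T.img q) (T.lam 0) * eval (T.img q) (T.lam 2) = eval q (T.lam 1) * _
    rw [e0, e2]
    field_simp
  · show eval (T.img q) (T.lam 0) * eval (T.img q) (T.lam 1) = eval q (T.lam 2) * _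
    rw [e0, e1]
    field_simp

private theorem cremQ_sum_kap_img {q : Fin 2 → K} (h : T.Ok q) :
    ∑ t, T.kap (T.img q) t =
      ((eval q (T.lam 0) * eval q (T.lam 1) * eval q (T.lam 2)) / (∑ s, T.kap q s) ^ 2) := by
  simp_rw [T.cremQ_kap_img h]
  rw [← Finset.sum_mul, Fin.sum_univ_three, T.cremQ_sum q, one_mul]

private theorem cremQ_ne {q : Fin 2 → K} (h : T.Ok q) :
    ((eval q (T.lam 0) * eval q (T.lam 1) * eval q (T.lam 2)) / (∑ s, T.kap q s) ^ 2) ≠ 0 :=
  div_ne_zero (mul_ne_zero (mul_ne_zero (h.1 0) (h.1 1)) (h.1 2)) (pow_ne_zero 2 h.2)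

/-- PROOF. `eval (img q) (lam t) = kap q t / ∑ kap q` (affine linear functions, `val`). -/
theorem Ok.img {q : Fin 2 → K} (h : T.Ok q) : T.Ok (T.img q) := by
  refine ⟨?_, ?_⟩
  · intro t
    rw [T.cremQ_eval_img h t]
    apply div_ne_zero _ h.2
    unfold kap
    fin_cases t
    · exact mul_ne_zero (h.1 1) (h.1 2)
    · exact mul_ne_zero (h.1 0) (h.1 2)
    · exact mul_ne_zero (h.1 0) (h.1 1)
  · rw [T.cremQ_sum_kap_img h]
    exact T.cremQ_ne h

theorem img_img {q : Fin 2 → K} (h : T.Ok q) : T.img (T.img q) = q := by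
  funext i
  have hne := T.cremQ_ne h
  show (∑ t, T.kap (T.img q) t * T.A t i) / ∑ t, T.kap (T.img q) t = q i
  rw [T.cremQ_sum_kap_img h]
  simp_rw [T.cremQ_kap_img h]
  rw [div_eq_iff hne, ← T.cremQ_inv q i, Fin.sum_univ_three]
  ring

/-- The transform of a polynomial. -/
noncomputable def tf (D : ℕ) (m : Fin 3 → ℕ) (f : MvPolynomial (Fin 2) K) :
    MvPolynomial (Fin 2) K := T.ev (cr D m (T.hg D f))

/-- `κ t` as a polynomial. -/
private noncomputable def cremQ_kp : Fin 3 → MvPolynomial (Fin 2) K :=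
  ![T.lam 1 * T.lam 2, T.lam 0 * T.lam 2, T.lam 0 * T.lam 1]

private theorem cremQ_eval_kp (q : Fin 2 → K) (t : Fin 3) :
    eval q (T.cremQ_kp t) = T.kap q t := by
  unfold cremQ_kp kap
  fin_cases t <;> simp

private theorem cremQ_ev_psi_X (t : Fin 3) : T.ev (psiC K (X t)) = T.cremQ_kp t := by
  unfold psiC ev cremQ_kp
  rw [aeval_X]
  fin_cases t <;> simp

/-- PROOF. Let `R = K[X 0, X 1] / pt q ^ n`. The elements `κ t = ∏_{s ≠ t} lam s` and `σ = ∑ κ t` of `R`; `σ` is a unit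
since `σ(q) ≠ 0`. Let `ρ : K[X 0, X 1] → R`, `X i ↦ (∑ κ t A t i) / σ`. It maps `pt (img q)` into the image of `pt q`,
hence `ρ f = 0`. On the other hand `ev (psiC (hg D f)) = σ ^ D * ρ f = 0` in `R` (definition of `hg`). By `psiC_eq`
`ev (psiC (hg D f)) = ∏ lam t ^ m t * tf D m f`, and the `lam t` are units in `R`. -/
theorem tf_mem_pt {D : ℕ} {m : Fin 3 → ℕ} {f : MvPolynomial (Fin 2) K} (hf : f.totalDegree ≤ D)
    (hG : InC D m (T.hg D f)) {q : Fin 2 → K} (hq : T.Ok q) {n : ℕ}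
    (h : f ∈ pt (T.img q 0) (T.img q 1) ^ n) : T.tf D m f ∈ pt (q 0) (q 1) ^ n := by
  set I : Ideal (MvPolynomial (Fin 2) K) := pt (q 0) (q 1) ^ n with hI
  set mk := Ideal.Quotient.mkₐ K I with hmk
  have hmk' : ∀ p, mk p = Ideal.Quotient.mk I p := fun p => rfl
  set Sp : MvPolynomial (Fin 2) K := ∑ t, T.cremQ_kp t with hSp
  have hev : eval q Sp = ∑ t, T.kap q t := by
    rw [hSp, map_sum]
    exact Finset.sum_congr rfl fun t _ => T.cremQ_eval_kp q t
  have hσu : IsUnit (mk Sp) := cremQ_isUnit (by rw [hev]; exact hq.2) n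
  obtain ⟨u, hu⟩ := hσu
  set P : Fin 2 → MvPolynomial (Fin 2) K := fun i => ∑ t, T.cremQ_kp t * C (T.A t i) with hP
  have hevP : ∀ i, eval q (P i) = ∑ t, T.kap q t * T.A t i := by
    intro i
    rw [hP]
    simp only [map_sum, map_mul, eval_C, T.cremQ_eval_kp]
  let ρ : MvPolynomial (Fin 2) K →ₐ[K] (MvPolynomial (Fin 2) K ⧸ I) :=
    aeval fun i => mk (P i) * (↑u⁻¹ : (MvPolynomial (Fin 2) K ⧸ I))
  have hρX : ∀ i, ρ (X i) = mk (P i) * (↑u⁻¹ : (MvPolynomial (Fin 2) K ⧸ I)) := fun i =>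
    aeval_X _ i
  have hρpt : ∀ i, ρ (X i - C (T.img q i)) ∈ (pt (q 0) (q 1)).map (Ideal.Quotient.mk I) := by
    intro i
    have e : ρ (X i - C (T.img q i)) = mk (P i - C (T.img q i) * Sp) *
        (↑u⁻¹ : (MvPolynomial (Fin 2) K ⧸ I)) := by
      rw [map_sub, hρX, map_sub, sub_mul, map_mul, ← hu, mul_assoc (mk (C (T.img q i))),
        Units.mul_inv, mul_one]
      congr 1
      exact (ρ.commutes _).trans (mk.commutes _).symm
    rw [e]
    apply Ideal.mul_mem_right
    apply Ideal.mem_map_of_mem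
    apply cremQ_mem_pt
    rw [map_sub, map_mul, eval_C, hev, hevP]
    unfold img
    rw [div_mul_cancel₀ _ hq.2, sub_self]
  have hρf : ρ f = 0 := by
    have h1 : (pt (T.img q 0) (T.img q 1)).map ρ ≤ (pt (q 0) (q 1)).map (Ideal.Quotient.mk I) := by
      unfold pt
      rw [Ideal.map_span, Ideal.span_le]
      rintro x ⟨y, hy, rfl⟩
      rcases hy with rfl | rfl
      · exact hρpt 0
      · exact hρpt 1
    have h2 : ρ f ∈ ((pt (T.img q 0) (T.img q 1)) ^ n).map ρ := Ideal.mem_map_of_mem ρ h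
    rw [Ideal.map_pow] at h2
    have h3 := Ideal.pow_right_mono h1 n h2
    rw [← Ideal.map_pow, ← hI, Ideal.map_quotient_self] at h3
    exact h3
  -- the image of `hg`
  have hψ : ∀ t, mk (T.ev (psiC K (X t))) = mk (T.cremQ_kp t) := fun t => by
    rw [T.cremQ_ev_psi_X]
  have hlin : ∀ i, mk (T.ev (psiC K (∑ t, X t * C (T.A t i)))) = mk (P i) := by
    intro i
    rw [hP]
    simp only [map_sum, map_mul]
    apply Finset.sum_congr rfl
    intro t _
    rw [hψ]
    congr 1
    have e1 : psiC K (C (T.A t i)) = C (T.A t i) := (psiC K).commutes _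
    have e2 : T.ev (C (T.A t i)) = C (T.A t i) := T.ev.commutes _
    rw [e1, e2]
  have hsum : mk (T.ev (psiC K (∑ t, X t))) = mk Sp := by
    rw [hSp]
    simp only [map_sum]
    exact Finset.sum_congr rfl fun t _ => hψ t
  have hC : ∀ c : K, mk (T.ev (psiC K (C c))) = mk (C c) := by
    intro c
    have e1 : psiC K (C c) = C c := (psiC K).commutes _
    have e2 : T.ev (C c) = C c := T.ev.commutes _
    rw [e1, e2]
  have himg : mk (T.ev (psiC K (T.hg D f))) = mk Sp ^ D * ρ f := by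
    have hρf' : ρ f = ∑ e ∈ f.support, mk (C (f.coeff e)) *
        ((mk (P 0) * (↑u⁻¹ : (MvPolynomial (Fin 2) K ⧸ I))) ^ e 0 *
        (mk (P 1) * (↑u⁻¹ : (MvPolynomial (Fin 2) K ⧸ I))) ^ e 1) := by
      conv_lhs => rw [f.as_sum, map_sum]
      apply Finset.sum_congr rfl
      intro e _
      rw [aeval_monomial]
      rw [Finsupp.prod_fintype _ _ (fun _ => pow_zero _), Fin.prod_univ_two]
      congr 1
    rw [hρf', Finset.mul_sum]
    unfold hg
    rw [map_sum, map_sum, map_sum]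
    apply Finset.sum_congr rfl
    intro e he
    have hdeg : e 0 + e 1 ≤ D := by
      have h1 : e.sum (fun _ e => e) ≤ D := (le_totalDegree he).trans hf
      rw [Finsupp.sum_fintype _ _ (fun _ => rfl), Fin.sum_univ_two] at h1
      exact h1
    simp only [map_mul, map_pow]
    rw [hC, hlin 0, hlin 1, hsum]
    have hD : mk Sp ^ D = mk Sp ^ e 0 * mk Sp ^ e 1 * mk Sp ^ (D - (e 0 + e 1)) := by
      rw [← pow_add, ← pow_add]
      congr 1
      omega
    have h0 : mk Sp ^ e 0 * (↑u⁻¹ : (MvPolynomial (Fin 2) K ⧸ I)) ^ e 0 = 1 := by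
      rw [← mul_pow, ← hu, Units.mul_inv, one_pow]
    have h1 : mk Sp ^ e 1 * (↑u⁻¹ : (MvPolynomial (Fin 2) K ⧸ I)) ^ e 1 = 1 := by
      rw [← mul_pow, ← hu, Units.mul_inv, one_pow]
    rw [hD, mul_pow, mul_pow]
    calc mk (C (f.coeff e)) * mk (P 0) ^ e 0 * mk (P 1) ^ e 1 * mk Sp ^ (D - (e 0 + e 1))
        = mk (C (f.coeff e)) * mk (P 0) ^ e 0 * mk (P 1) ^ e 1 * mk Sp ^ (D - (e 0 + e 1)) *
          (mk Sp ^ e 0 * (↑u⁻¹ : (MvPolynomial (Fin 2) K ⧸ I)) ^ e 0) *
          (mk Sp ^ e 1 * (↑u⁻¹ : (MvPolynomial (Fin 2) K ⧸ I)) ^ e 1) := by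
          rw [h0, h1, mul_one, mul_one]
      _ = _ := by ring
  rw [hρf, mul_zero, psiC_eq hG, map_mul, map_mul] at himg
  have hun : IsUnit (mk (T.ev (∏ t, X t ^ m t))) := by
    have hX : ∀ t, IsUnit (mk (T.ev (X t)) ^ m t) := by
      intro t
      apply IsUnit.pow
      have : T.ev (X t) = T.lam t := by
        unfold ev
        rw [aeval_X]
      rw [this]
      exact cremQ_isUnit (hq.1 t) n
    rw [Fin.prod_univ_three, map_mul, map_mul, map_mul, map_mul, map_pow, map_pow, map_pow,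
      map_pow, map_pow, map_pow]
    exact ((hX 0).mul (hX 1)).mul (hX 2)
  have := (hun.mul_right_eq_zero).1 himg
  exact Ideal.Quotient.eq_zero_iff_mem.1 this

end Tri

end ShghT
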