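import Pool.Agent.ShghC.CremQ

/-!
# The transformed points are generic
-/

namespace ShghT

open MvPolynomial

/-- PROOF. In `L = IntermediateField.adjoin F (Set.range y)` (with the family `y`) use
`isTranscendenceBasis_of_le_trdeg_of_finite`: `#ι ≤ trdeg F L` because of the family `x`. Then map to `K`. -/
theorem algInd_of_adjoin {F K ι : Type*} [Field F] [Field K] [Algebra F K] [Finite ι]
    (x y : ι → K) (hx : AlgebraicIndependent F x)
    (h : ∀ i, x i ∈ IntermediateField.adjoin F (Set.range y)) : AlgebraicIndependent F y := by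
  let y' : ι → IntermediateField.adjoin F (Set.range y) :=
    fun i => ⟨y i, IntermediateField.subset_adjoin F _ ⟨i, rfl⟩⟩
  let x' : ι → IntermediateField.adjoin F (Set.range y) := fun i => ⟨x i, h i⟩
  have hx' : AlgebraicIndependent F x' :=
    AlgebraicIndependent.of_comp (IntermediateField.adjoin F (Set.range y)).val hx
  have hy : ∀ r : MvPolynomial ι F, ((aeval y' r : IntermediateField.adjoin F (Set.range y)) : K) =
      aeval y r := by
    intro r
    have h1 := MvPolynomial.comp_aeval_apply (φ := (IntermediateField.adjoin F (Set.range y)).val)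
      y' r
    exact h1
  have halg : Algebra.IsAlgebraic (Algebra.adjoin F (Set.range y'))
      (IntermediateField.adjoin F (Set.range y)) := by
    refine ⟨fun z => ?_⟩
    obtain ⟨r, s, hrs⟩ := (IntermediateField.mem_adjoin_range_iff F y z.1).1 z.2
    have hz : z = aeval y' r / aeval y' s := by
      apply Subtype.ext
      rw [hrs, ← hy r, ← hy s]
      rfl
    have hm : ∀ q : MvPolynomial ι F,
        IsAlgebraic (Algebra.adjoin F (Set.range y')) (aeval y' q) := by
      intro q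
      have hq : aeval y' q ∈ Algebra.adjoin F (Set.range y') := by
        rw [Algebra.adjoin_range_eq_range_aeval]
        exact ⟨q, rfl⟩
      exact isAlgebraic_algebraMap (⟨aeval y' q, hq⟩ : Algebra.adjoin F (Set.range y'))
    rw [hz, div_eq_mul_inv]
    exact (hm r).mul (hm s).inv
  have hb := Algebra.IsAlgebraic.isTranscendenceBasis_of_lift_le_trdeg_of_finite F y'
    hx'.lift_cardinalMk_le_trdeg
  exact hb.1.map' (f := (IntermediateField.adjoin F (Set.range y)).val) Subtype.val_injective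

private theorem gen_ne {F K : Type*} [Field F] [Field K] [Algebra F K] {s : ℕ}
    {P : Fin s → Fin 2 → K}
    (hP : AlgebraicIndependent F (fun ij : Fin s × Fin 2 => P ij.1 ij.2))
    (q : MvPolynomial (Fin s × Fin 2) F) (w : Fin s × Fin 2 → F) (hq : eval w q ≠ 0) :
    aeval (fun ij : Fin s × Fin 2 => P ij.1 ij.2) q ≠ 0 := by
  intro h0
  have h1 := hP.eq_zero_of_aeval_eq_zero q h0
  rw [h1] at hq
  simp at hq

variable {F K : Type*} [Field F] [Field K] [Algebra F K] {s : ℕ}

/-- Three generic points are not collinear. PROOF. The determinant is a nonzero polynomial in the six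
coordinates (it is `1` for `(0,0), (1,0), (0,1)`). -/
theorem det_gen (P : Fin s → Fin 2 → K)
    (hP : AlgebraicIndependent F (fun ij : Fin s × Fin 2 => P ij.1 ij.2)) {i j l : Fin s}
    (hij : i ≠ j) (hil : i ≠ l) (hjl : j ≠ l) :
    (P j 0 - P i 0) * (P l 1 - P i 1) - (P l 0 - P i 0) * (P j 1 - P i 1) ≠ 0 := by
  classical
  have h := gen_ne hP ((X (j, 0) - X (i, 0)) * (X (l, 1) - X (i, 1)) -
    (X (l, 0) - X (i, 0)) * (X (j, 1) - X (i, 1)))
    (fun ij => if ij = (j, 0) ∨ ij = (l, 1) then 1 else 0) (by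
      simp [hij, hil, hjl, hjl.symm])
  simpa using h

/-- The barycentric coordinates as quotients of determinants. -/
theorem Tri.eval_lam (T : Tri K) (q : Fin 2 → K) (t : Fin 3) :
    eval q (T.lam t) * ((T.A 1 0 - T.A 0 0) * (T.A 2 1 - T.A 0 1) -
        (T.A 2 0 - T.A 0 0) * (T.A 1 1 - T.A 0 1)) =
      ![(T.A 1 0 - q 0) * (T.A 2 1 - q 1) - (T.A 2 0 - q 0) * (T.A 1 1 - q 1),
        (q 0 - T.A 0 0) * (T.A 2 1 - T.A 0 1) - (T.A 2 0 - T.A 0 0) * (q 1 - T.A 0 1),
        (T.A 1 0 - T.A 0 0) * (q 1 - T.A 0 1) - (q 0 - T.A 0 0) * (T.A 1 1 - T.A 0 1)] t := by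
  have h1 : eval q (T.lam 0) + eval q (T.lam 1) + eval q (T.lam 2) = 1 := by
    have := congrArg (eval q) T.sum
    simpa [Fin.sum_univ_three] using this
  have h2 : ∀ i, eval q (T.lam 0) * T.A 0 i + eval q (T.lam 1) * T.A 1 i +
      eval q (T.lam 2) * T.A 2 i = q i := by
    intro i
    have := congrArg (eval q) (T.inv i)
    simpa [Fin.sum_univ_three] using this
  have hx := h2 0
  have hy := h2 1
  have h0 : eval q (T.lam 0) = 1 - eval q (T.lam 1) - eval q (T.lam 2) := by
    rw [← h1]; ring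
  rw [h0] at hx hy
  fin_cases t
  · show eval q (T.lam 0) * _ = (T.A 1 0 - q 0) * (T.A 2 1 - q 1) -
      (T.A 2 0 - q 0) * (T.A 1 1 - q 1)
    rw [h0, ← hx, ← hy]
    ring
  · show eval q (T.lam 1) * _ = (q 0 - T.A 0 0) * (T.A 2 1 - T.A 0 1) -
      (T.A 2 0 - T.A 0 0) * (q 1 - T.A 0 1)
    rw [← hx, ← hy]
    ring
  · show eval q (T.lam 2) * _ = (T.A 1 0 - T.A 0 0) * (q 1 - T.A 0 1) -
      (q 0 - T.A 0 0) * (T.A 1 1 - T.A 0 1)
    rw [← hx, ← hy]
    ring

private theorem img_mem (M : IntermediateField F K) (T : Tri K) (q : Fin 2 → K)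
    (hA : ∀ t i, T.A t i ∈ M) (hq : ∀ i, q i ∈ M)
    (hD : (T.A 1 0 - T.A 0 0) * (T.A 2 1 - T.A 0 1) -
      (T.A 2 0 - T.A 0 0) * (T.A 1 1 - T.A 0 1) ≠ 0) (i : Fin 2) : T.img q i ∈ M := by
  have hl : ∀ t, eval q (T.lam t) ∈ M := by
    intro t
    have h1 := T.eval_lam q t
    rw [← eq_div_iff hD] at h1
    rw [h1]
    refine M.div_mem ?_ ?_
    · fin_cases t
      · exact M.sub_mem (M.mul_mem (M.sub_mem (hA _ _) (hq _)) (M.sub_mem (hA _ _) (hq _)))
          (M.mul_mem (M.sub_mem (hA _ _) (hq _)) (M.sub_mem (hA _ _) (hq _)))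
      · exact M.sub_mem (M.mul_mem (M.sub_mem (hq _) (hA _ _)) (M.sub_mem (hA _ _) (hA _ _)))
          (M.mul_mem (M.sub_mem (hA _ _) (hA _ _)) (M.sub_mem (hq _) (hA _ _)))
      · exact M.sub_mem (M.mul_mem (M.sub_mem (hA _ _) (hA _ _)) (M.sub_mem (hq _) (hA _ _)))
          (M.mul_mem (M.sub_mem (hq _) (hA _ _)) (M.sub_mem (hA _ _) (hA _ _)))
    · exact M.sub_mem (M.mul_mem (M.sub_mem (hA _ _) (hA _ _)) (M.sub_mem (hA _ _) (hA _ _)))
        (M.mul_mem (M.sub_mem (hA _ _) (hA _ _)) (M.sub_mem (hA _ _) (hA _ _)))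
  have hk : ∀ t, T.kap q t ∈ M := by
    intro t
    fin_cases t
    · exact M.mul_mem (hl 1) (hl 2)
    · exact M.mul_mem (hl 0) (hl 2)
    · exact M.mul_mem (hl 0) (hl 1)
  unfold Tri.img
  exact M.div_mem (M.sum_mem fun t _ => M.mul_mem (hk t) (hA t i)) (M.sum_mem fun t _ => hk t)

/-- PROOF. `lam t ≠ 0` at `P l` by `det_gen`; `∑ kap` times the square of the determinant is a polynomial in the eight
coordinates, nonzero since for `A = (0,0), (1,0), (0,1)`, `q = (1,1)` its value is `- 1`. -/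
theorem Tri.ok_gen (T : Tri K) (P : Fin s → Fin 2 → K)
    (hP : AlgebraicIndependent F (fun ij : Fin s × Fin 2 => P ij.1 ij.2)) (b : Fin 3 → Fin s)
    (hb : Function.Injective b) (hT : ∀ t, T.A t = P (b t)) (l : Fin s) (hl : ∀ t, l ≠ b t) :
    T.Ok (P l) := by
  classical
  have h01 : b 0 ≠ b 1 := fun h => absurd (hb h) (by decide)
  have h02 : b 0 ≠ b 2 := fun h => absurd (hb h) (by decide)
  have h12 : b 1 ≠ b 2 := fun h => absurd (hb h) (by decide)
  have hD : (T.A 1 0 - T.A 0 0) * (T.A 2 1 - T.A 0 1) -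
      (T.A 2 0 - T.A 0 0) * (T.A 1 1 - T.A 0 1) ≠ 0 := by
    rw [hT, hT, hT]
    exact det_gen P hP h01 h02 h12
  have e0 := T.eval_lam (P l) 0
  have e1 := T.eval_lam (P l) 1
  have e2 := T.eval_lam (P l) 2
  simp only [Matrix.cons_val_zero, Matrix.cons_val_one, Matrix.cons_val] at e0 e1 e2
  constructor
  · intro t h0
    fin_cases t
    · have h0' : eval (P l) (T.lam 0) = 0 := h0
      rw [h0', zero_mul, hT, hT] at e0
      exact det_gen P hP (hl 1) (hl 2) h12 e0.symm
    · have h0' : eval (P l) (T.lam 1) = 0 := h0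
      rw [h0', zero_mul, hT, hT] at e1
      exact det_gen P hP (hl 0).symm h02 (hl 2) e1.symm
    · have h0' : eval (P l) (T.lam 2) = 0 := h0
      rw [h0', zero_mul, hT, hT] at e2
      exact det_gen P hP h01 (hl 0).symm (hl 1).symm e2.symm
  · intro h0
    rw [Fin.sum_univ_three] at h0
    have h0' : eval (P l) (T.lam 1) * eval (P l) (T.lam 2) +
        eval (P l) (T.lam 0) * eval (P l) (T.lam 2) +
        eval (P l) (T.lam 0) * eval (P l) (T.lam 1) = 0 := h0
    set D := (T.A 1 0 - T.A 0 0) * (T.A 2 1 - T.A 0 1) -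
      (T.A 2 0 - T.A 0 0) * (T.A 1 1 - T.A 0 1) with hDdef
    have h1 : (eval (P l) (T.lam 1) * D) * (eval (P l) (T.lam 2) * D) +
        (eval (P l) (T.lam 0) * D) * (eval (P l) (T.lam 2) * D) +
        (eval (P l) (T.lam 0) * D) * (eval (P l) (T.lam 1) * D) = 0 := by
      linear_combination D ^ 2 * h0'
    rw [e0, e1, e2, hT, hT, hT] at h1
    let n0 : MvPolynomial (Fin s × Fin 2) F :=
      (X (b 1, 0) - X (l, 0)) * (X (b 2, 1) - X (l, 1)) -
        (X (b 2, 0) - X (l, 0)) * (X (b 1, 1) - X (l, 1))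
    let n1 : MvPolynomial (Fin s × Fin 2) F :=
      (X (l, 0) - X (b 0, 0)) * (X (b 2, 1) - X (b 0, 1)) -
        (X (b 2, 0) - X (b 0, 0)) * (X (l, 1) - X (b 0, 1))
    let n2 : MvPolynomial (Fin s × Fin 2) F :=
      (X (b 1, 0) - X (b 0, 0)) * (X (l, 1) - X (b 0, 1)) -
        (X (l, 0) - X (b 0, 0)) * (X (b 1, 1) - X (b 0, 1))
    let w : Fin s × Fin 2 → F := fun ij =>
      if ij = (b 1, 0) ∨ ij = (b 2, 1) ∨ ij = (l, 0) ∨ ij = (l, 1) then 1 else 0
    have w10 : w (b 1, 0) = 1 := by simp [w]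
    have w11 : w (b 1, 1) = 0 := by simp [w, h12, (hl 1).symm]
    have w20 : w (b 2, 0) = 0 := by simp [w, h12.symm, (hl 2).symm]
    have w21 : w (b 2, 1) = 1 := by simp [w]
    have w00 : w (b 0, 0) = 0 := by simp [w, h01, (hl 0).symm]
    have w01 : w (b 0, 1) = 0 := by simp [w, h02, (hl 0).symm]
    have wl0 : w (l, 0) = 1 := by simp [w]
    have wl1 : w (l, 1) = 1 := by simp [w]
    have h2 := gen_ne hP (n1 * n2 + n0 * n2 + n0 * n1) w (by
      simp only [n0, n1, n2, map_add, map_mul, map_sub, eval_X, w10, w11, w20, w21, w00, w01,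
        wl0, wl1]
      norm_num)
    apply h2
    simp only [n0, n1, n2, map_add, map_mul, map_sub, aeval_X]
    exact h1

open scoped Classical in
/-- The new points. -/
noncomputable def newP (T : Tri K) (b : Fin 3 → Fin s) (P : Fin s → Fin 2 → K) :
    Fin s → Fin 2 → K := fun l => if ∃ t, b t = l then P l else T.img (P l)

/-- PROOF. `algInd_of_adjoin`: `P l = T.img (newP l)` for the other points (`img_img`), and the coordinates of `T.img q`
are rational functions of the coordinates of `q` and of the vertices (`eval_lam`). -/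
theorem algInd_newP (T : Tri K) (P : Fin s → Fin 2 → K)
    (hP : AlgebraicIndependent F (fun ij : Fin s × Fin 2 => P ij.1 ij.2)) (b : Fin 3 → Fin s)
    (hb : Function.Injective b) (hT : ∀ t, T.A t = P (b t)) :
    AlgebraicIndependent F (fun ij : Fin s × Fin 2 => newP T b P ij.1 ij.2) := by
  classical
  have h01 : b 0 ≠ b 1 := fun h => absurd (hb h) (by decide)
  have h02 : b 0 ≠ b 2 := fun h => absurd (hb h) (by decide)
  have h12 : b 1 ≠ b 2 := fun h => absurd (hb h) (by decide)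
  have hD : (T.A 1 0 - T.A 0 0) * (T.A 2 1 - T.A 0 1) -
      (T.A 2 0 - T.A 0 0) * (T.A 1 1 - T.A 0 1) ≠ 0 := by
    rw [hT, hT, hT]
    exact det_gen P hP h01 h02 h12
  refine algInd_of_adjoin (fun ij : Fin s × Fin 2 => P ij.1 ij.2) _ hP ?_
  set M := IntermediateField.adjoin F
    (Set.range (fun ij : Fin s × Fin 2 => newP T b P ij.1 ij.2)) with hM
  have hmem : ∀ l i, newP T b P l i ∈ M := fun l i =>
    IntermediateField.subset_adjoin F _ ⟨(l, i), rfl⟩
  have hA : ∀ t i, T.A t i ∈ M := by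
    intro t i
    have h1 := hmem (b t) i
    have h2 : newP T b P (b t) = P (b t) := by
      unfold newP
      rw [if_pos ⟨t, rfl⟩]
    rw [h2, ← hT] at h1
    exact h1
  rintro ⟨l, i⟩
  show P l i ∈ M
  by_cases hl : ∃ t, b t = l
  · have h1 := hmem l i
    have h2 : newP T b P l = P l := by
      unfold newP
      rw [if_pos hl]
    rwa [h2] at h1
  · have h2 : newP T b P l = T.img (P l) := by
      unfold newP
      rw [if_neg hl]
    have hok : T.Ok (P l) := T.ok_gen P hP b hb hT l (fun t ht => hl ⟨t, ht.symm⟩)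
    rw [← T.img_img hok]
    exact img_mem M T (T.img (P l)) hA (fun i => by rw [← h2]; exact hmem l i) hD i

end ShghT
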