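import Pool.Agent.ShghC.Tri
import Pool.Agent.ShghW.LineK

/-!
# Lines
-/

namespace ShghT

open MvPolynomial

variable {K : Type*} [Field K]

private theorem LineC_degree (a b : Fin 2 → K) : (lineP a b).totalDegree ≤ 1 := by
  have h1 : ∀ (i : Fin 2) (c d : K),
      (C c * (X i - C d) : MvPolynomial (Fin 2) K).totalDegree ≤ 1 := by
    intro i c d
    refine (totalDegree_mul _ _).trans ?_
    rw [totalDegree_C, zero_add]
    refine (totalDegree_sub _ _).trans ?_
    rw [totalDegree_X, totalDegree_C]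
    simp
  unfold lineP
  exact (totalDegree_sub _ _).trans (max_le (h1 0 _ _) (h1 1 _ _))

private theorem LineC_not_unit {σ : Type*} {E : ℕ} (hE : 1 ≤ E) {G : MvPolynomial σ K}
    (hG : G.IsHomogeneous E) : ¬ IsUnit G := by
  intro h
  have h1 := h.map (constantCoeff (σ := σ) (R := K))
  rw [constantCoeff_eq, hG.coeff_eq_zero (d := 0) (by simp; omega)] at h1
  exact not_isUnit_zero h1

/-- PROOF. By `line_factor` (with `mult_le_totalDegree`) `lineP a b` divides `f` if `m + n > D`, `f = lineP a b * g`,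
`deg g ≤ D - 1`; by `hg_mul` `hg D f = hg 1 (lineP a b) * hg (D - 1) g`, both homogeneous of positive degree, hence
not units. -/
theorem mult_add_le (T : Tri K) {D : ℕ} (hD : 2 ≤ D) {f : MvPolynomial (Fin 2) K}
    (hf : f.totalDegree ≤ D) (hirr : Irreducible (T.hg D f)) (a b : Fin 2 → K) (hab : a ≠ b)
    {m n : ℕ} (ha : f ∈ pt (a 0) (a 1) ^ m) (hb : f ∈ pt (b 0) (b 1) ^ n) : m + n ≤ D := by
  have hf0 : f ≠ 0 := by
    rintro rfl
    apply hirr.ne_zero
    simp [Tri.hg]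
  have hm := (mult_le_totalDegree a m f hf0 ha).trans hf
  have hn := (mult_le_totalDegree b n f hf0 hb).trans hf
  by_contra hcon
  push Not at hcon
  have ha' : f ∈ pt (a 0) (a 1) ^ (D + 1 - n) := Ideal.pow_le_pow_right (by omega) ha
  obtain ⟨g, h1, h2, -, -⟩ := line_factor a b hab D (D + 1 - n) n 1 (by omega) (by omega) hn f hf
    ha' hb
  rw [pow_one] at h1
  have h3 : T.hg D f = T.hg 1 (lineP a b) * T.hg (D - 1) g := by
    have h4 := T.hg_mul (LineC_degree a b) h2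
    rwa [← h1, show 1 + (D - 1) = D by omega] at h4
  rcases hirr.isUnit_or_isUnit h3 with h | h
  · exact LineC_not_unit le_rfl (T.hg_isHomogeneous (LineC_degree a b)) h
  · exact LineC_not_unit (by omega) (T.hg_isHomogeneous h2) h

private theorem LineC_eval (a : Fin 2 → K) {m : ℕ} (hm : 1 ≤ m) {f : MvPolynomial (Fin 2) K}
    (h : f ∈ pt (a 0) (a 1) ^ m) : eval a f = 0 := by
  have h1 : f ∈ pt (a 0) (a 1) := Ideal.pow_le_self (by omega) h
  have h2 : pt (a 0) (a 1) ≤ RingHom.ker (eval a) := by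
    rw [pt, Ideal.span_le]
    rintro x (rfl | rfl)
    · simp [RingHom.mem_ker]
    · simp [RingHom.mem_ker]
  exact h2 h1

/-- A line through two of the points. PROOF. By `line_factor` (`D = 1`, `k = 1`) all elements of
`LS 1 μ P` are constant multiples of `lineP (P i) (P j)`; `mult_le_totalDegree`; a third point is not on the line
(`hdet`). -/
theorem line_case {s : ℕ} (P : Fin s → Fin 2 → K)
    (hdet : ∀ i j l : Fin s, i ≠ j → i ≠ l → j ≠ l →
      (P j 0 - P i 0) * (P l 1 - P i 1) - (P l 0 - P i 0) * (P j 1 - P i 1) ≠ 0)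
    (μ : Fin s → ℕ) (f : MvPolynomial (Fin 2) K) (hf : f ∈ LS 1 μ P) (hf0 : f ≠ 0) (i j : Fin s)
    (hij : i ≠ j) (hne : P i ≠ P j) (hi : 1 ≤ μ i) (hj : 1 ≤ μ j) :
    Module.finrank K (LS 1 μ P) = 1 ∧ μ i = 1 ∧ μ j = 1 ∧ ∀ l, l ≠ i → l ≠ j → μ l = 0 := by
  obtain ⟨hfd, hfP⟩ := mem_LS.1 hf
  have hi1 : μ i = 1 :=
    le_antisymm ((mult_le_totalDegree (P i) (μ i) f hf0 (hfP i)).trans hfd) hi
  have hj1 : μ j = 1 :=
    le_antisymm ((mult_le_totalDegree (P j) (μ j) f hf0 (hfP j)).trans hfd) hj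
  have hfac : ∀ h ∈ LS 1 μ P, ∃ c : K, h = lineP (P i) (P j) * C c := by
    intro h hh
    obtain ⟨hd, hP⟩ := mem_LS.1 hh
    obtain ⟨g, h1, h2, -, -⟩ := line_factor (P i) (P j) hne 1 1 1 1 rfl le_rfl le_rfl h hd
      (by simpa [hi1] using hP i) (by simpa [hj1] using hP j)
    rw [totalDegree_eq_zero_iff_eq_C.1 (by omega : g.totalDegree = 0), pow_one] at h1
    exact ⟨_, h1⟩
  obtain ⟨c, hc⟩ := hfac f hf
  have hc0 : c ≠ 0 := by
    rintro rfl
    apply hf0
    rw [hc, C_0, mul_zero]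
  refine ⟨?_, hi1, hj1, ?_⟩
  · rw [finrank_eq_one_iff']
    refine ⟨⟨f, hf⟩, fun h => hf0 (congrArg Subtype.val h), ?_⟩
    rintro ⟨h, hh⟩
    obtain ⟨d, hd⟩ := hfac h hh
    refine ⟨d * c⁻¹, ?_⟩
    apply Subtype.ext
    show (d * c⁻¹) • f = h
    rw [hd, hc, smul_eq_C_mul, C_mul]
    have h1 : (C c⁻¹ * C c : MvPolynomial (Fin 2) K) = 1 := by
      rw [← C_mul, inv_mul_cancel₀ hc0, C_1]
    linear_combination (C d * lineP (P i) (P j)) * h1
  · intro l hli hlj
    by_contra hl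
    have h1 := LineC_eval (P l) (Nat.one_le_iff_ne_zero.2 hl) (hfP l)
    rw [hc, map_mul, eval_C] at h1
    rcases mul_eq_zero.1 h1 with h2 | h2
    · apply hdet i j l hij (Ne.symm hli) (Ne.symm hlj)
      simp only [lineP, map_sub, map_mul, eval_C, eval_X] at h2
      linear_combination -h2
    · exact hc0 h2

end ShghT
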