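import Pool.Agent.ShghC.TriV
import Pool.Agent.ShghC.CremQ
import Pool.Agent.ShghC.GenPt
import Pool.Agent.ShghC.LineC
import Pool.Agent.ShghC.ArithC
import Pool.Agent.ShghW.FinalW

/-!
# Prime divisors with at most nine multiplicities greater than two
-/

namespace ShghT

open MvPolynomial

variable {F K : Type*} [Field F] [Field K] [Algebra F K] {s : ℕ}

/-- The transform as a linear map. -/
noncomputable def tfL (T : Tri K) (D : ℕ) (m : Fin 3 → ℕ) :
    MvPolynomial (Fin 2) K →ₗ[K] MvPolynomial (Fin 2) K where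
  toFun := T.tf D m
  map_add' f g := by rw [Tri.tf, Tri.tf, Tri.tf, Tri.hg_add, cr_add, map_add]
  map_smul' c f := by
    rw [Tri.tf, Tri.tf, smul_eq_C_mul, Tri.hg_C_mul, cr_C_mul, map_mul, smul_eq_C_mul]
    congr 1
    exact T.ev.commutes c

variable (T : Tri K) (P : Fin s → Fin 2 → K) (b : Fin 3 → Fin s)

theorem inC_of_LS (hT : ∀ t, T.A t = P (b t)) {D : ℕ} {μ : Fin s → ℕ}
    {g : MvPolynomial (Fin 2) K} (hg : g ∈ LS D μ P) : InC D (fun t => μ (b t)) (T.hg D g) := by
  obtain ⟨h1, h2⟩ := mem_LS.1 hg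
  refine ⟨T.hg_isHomogeneous h1, fun α hα t => ?_⟩
  have h3 := h2 (b t)
  rw [← hT t] at h3
  exact (T.mem_pt_vertex h1 t _).1 h3 α hα

theorem newM_base {D : ℕ} (hb : Function.Injective b) (μ : Fin s → ℕ) (t : Fin 3) :
    newM D b μ (b t) = crM D (fun t => μ (b t)) t := by
  have h01 : b 0 ≠ b 1 := hb.ne (by decide)
  have h02 : b 0 ≠ b 2 := hb.ne (by decide)
  have h12 : b 1 ≠ b 2 := hb.ne (by decide)
  fin_cases t
  · simp [newM, crM]
  · simp [newM, crM, h01.symm]
  · simp [newM, crM, h02.symm, h12.symm]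

theorem newM_other {D : ℕ} (μ : Fin s → ℕ) {l : Fin s} (hl : ∀ t, l ≠ b t) :
    newM D b μ l = μ l := by
  rw [newM, if_neg (hl 0), if_neg (hl 1), if_neg (hl 2)]

theorem newP_base (t : Fin 3) : newP T b P (b t) = P (b t) := by
  rw [newP, if_pos ⟨t, rfl⟩]

theorem newP_other {l : Fin s} (hl : ∀ t, l ≠ b t) : newP T b P l = T.img (P l) := by
  rw [newP, if_neg (by rintro ⟨t, ht⟩; exact hl t ht.symm)]

/-- The transform of a curve. -/
theorem tf_mem_LS (hb : Function.Injective b) (hT : ∀ t, T.A t = P (b t))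
    (hOk : ∀ l, (∀ t, l ≠ b t) → T.Ok (P l)) {D : ℕ} {μ : Fin s → ℕ}
    (h : OkC D fun t => μ (b t)) {g : MvPolynomial (Fin 2) K} (hg : g ∈ LS D μ P) :
    T.tf D (fun t => μ (b t)) g ∈ LS (crD D fun t => μ (b t)) (newM D b μ) (newP T b P) := by
  have hC := inC_of_LS T P b hT hg
  have hC' := hC.cr h
  have h1 := (mem_LS.1 hg).1
  have hdeg : (T.tf D (fun t => μ (b t)) g).totalDegree ≤ crD D fun t => μ (b t) :=
    T.totalDegree_ev hC'.hom
  refine mem_LS.2 ⟨hdeg, fun l => ?_⟩
  by_cases hl : ∃ t, b t = l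
  · obtain ⟨t, rfl⟩ := hl
    rw [newP_base, newM_base b hb, ← hT t, T.mem_pt_vertex hdeg, Tri.tf, T.hg_ev hC'.hom]
    exact fun α hα => hC'.exp α hα t
  · push Not at hl
    have hl' : ∀ t, l ≠ b t := fun t ht => hl t ht.symm
    rw [newP_other T P b hl', newM_other b μ hl']
    refine T.tf_mem_pt h1 hC (hOk l hl').img ?_
    rw [T.img_img (hOk l hl')]
    exact (mem_LS.1 hg).2 l

theorem inC_of_LS' (hb : Function.Injective b) (hT : ∀ t, T.A t = P (b t)) {D : ℕ}
    {μ : Fin s → ℕ} {g : MvPolynomial (Fin 2) K}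
    (hg : g ∈ LS (crD D fun t => μ (b t)) (newM D b μ) (newP T b P)) :
    InC (crD D fun t => μ (b t)) (crM D fun t => μ (b t))
      (T.hg (crD D fun t => μ (b t)) g) := by
  obtain ⟨h1, h2⟩ := mem_LS.1 hg
  refine ⟨T.hg_isHomogeneous h1, fun α hα t => ?_⟩
  have h3 := h2 (b t)
  rw [newP_base, newM_base b hb, ← hT t] at h3
  exact (T.mem_pt_vertex h1 t _).1 h3 α hα

/-- The inverse transform. -/
theorem tf_mem_LS' (hb : Function.Injective b) (hT : ∀ t, T.A t = P (b t))
    (hOk : ∀ l, (∀ t, l ≠ b t) → T.Ok (P l)) {D : ℕ} {μ : Fin s → ℕ}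
    (h : OkC D fun t => μ (b t)) {g : MvPolynomial (Fin 2) K}
    (hg : g ∈ LS (crD D fun t => μ (b t)) (newM D b μ) (newP T b P)) :
    T.tf (crD D fun t => μ (b t)) (crM D fun t => μ (b t)) g ∈ LS D μ P := by
  have hC := inC_of_LS' T P b hb hT hg
  have hC' := hC.cr h.crd
  rw [crD_crD h, crM_crM h] at hC'
  have h1 := (mem_LS.1 hg).1
  have hdeg : (T.tf (crD D fun t => μ (b t)) (crM D fun t => μ (b t)) g).totalDegree ≤ D :=
    T.totalDegree_ev hC'.hom
  refine mem_LS.2 ⟨hdeg, fun l => ?_⟩
  by_cases hl : ∃ t, b t = l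
  · obtain ⟨t, rfl⟩ := hl
    rw [← hT t, T.mem_pt_vertex hdeg, Tri.tf, T.hg_ev hC'.hom]
    exact fun α hα => hC'.exp α hα t
  · push Not at hl
    have hl' : ∀ t, l ≠ b t := fun t ht => hl t ht.symm
    refine T.tf_mem_pt h1 hC (hOk l hl') ?_
    have h3 := (mem_LS.1 hg).2 l
    rwa [newP_other T P b hl', newM_other b μ hl'] at h3

theorem tf_tf {D : ℕ} {m : Fin 3 → ℕ} (h : OkC D m) {g : MvPolynomial (Fin 2) K}
    (hg : g.totalDegree ≤ D) (hC : InC D m (T.hg D g)) :
    T.tf (crD D m) (crM D m) (T.tf D m g) = g := by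
  rw [Tri.tf, Tri.tf, T.hg_ev (hC.cr h).hom, cr_cr h hC, T.ev_hg hg]

theorem tf_tf' {D : ℕ} {m : Fin 3 → ℕ} (h : OkC D m) {g : MvPolynomial (Fin 2) K}
    (hg : g.totalDegree ≤ crD D m) (hC : InC (crD D m) (crM D m) (T.hg (crD D m) g)) :
    T.tf D m (T.tf (crD D m) (crM D m) g) = g := by
  have h1 := tf_tf T h.crd hg hC
  rwa [crD_crD h, crM_crM h] at h1

/-- The dimension is invariant. -/
theorem finrank_newM (hb : Function.Injective b) (hT : ∀ t, T.A t = P (b t))
    (hOk : ∀ l, (∀ t, l ≠ b t) → T.Ok (P l)) {D : ℕ} {μ : Fin s → ℕ}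
    (h : OkC D fun t => μ (b t)) :
    Module.finrank K (LS D μ P) =
      Module.finrank K (LS (crD D fun t => μ (b t)) (newM D b μ) (newP T b P)) := by
  refine le_antisymm ?_ ?_
  · refine LinearMap.finrank_le_finrank_of_injective (f := (tfL T D fun t => μ (b t)).restrict
      (fun g hg => tf_mem_LS T P b hb hT hOk h hg)) ?_
    intro g g' hgg
    have h1 : T.tf D (fun t => μ (b t)) g = T.tf D (fun t => μ (b t)) g' := congrArg Subtype.val hgg
    apply Subtype.ext
    rw [← tf_tf T h (mem_LS.1 g.2).1 (inC_of_LS T P b hT g.2), h1,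
      tf_tf T h (mem_LS.1 g'.2).1 (inC_of_LS T P b hT g'.2)]
  · refine LinearMap.finrank_le_finrank_of_injective
      (f := (tfL T (crD D fun t => μ (b t)) (crM D fun t => μ (b t))).restrict
      (fun g hg => tf_mem_LS' T P b hb hT hOk h hg)) ?_
    intro g g' hgg
    have h1 : T.tf (crD D fun t => μ (b t)) (crM D fun t => μ (b t)) g =
      T.tf (crD D fun t => μ (b t)) (crM D fun t => μ (b t)) g' := congrArg Subtype.val hgg
    apply Subtype.ext
    rw [← tf_tf' T h (mem_LS.1 g.2).1 (inC_of_LS' T P b hb hT g.2), h1,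
      tf_tf' T h (mem_LS.1 g'.2).1 (inC_of_LS' T P b hb hT g'.2)]

theorem point_ne (hP : AlgebraicIndependent F (fun ij : Fin s × Fin 2 => P ij.1 ij.2))
    {i j : Fin s} (hij : i ≠ j) : P i ≠ P j := by
  intro h
  have h1 : (fun ij : Fin s × Fin 2 => P ij.1 ij.2) (i, 0) =
      (fun ij : Fin s × Fin 2 => P ij.1 ij.2) (j, 0) := by
    simp only [h]
  have := hP.injective h1
  exact hij (congrArg Prod.fst this)

/-- **The theorem for prime divisors**, by induction on the degree. -/
theorem prime_W (hs : 9 ≤ s) : ∀ (D : ℕ) (P : Fin s → Fin 2 → K),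
    AlgebraicIndependent F (fun ij : Fin s × Fin 2 => P ij.1 ij.2) → ∀ μ : Fin s → ℕ,
    (Finset.univ.filter fun i => 3 ≤ μ i).card ≤ 9 → ∀ f : MvPolynomial (Fin 2) K,
    f.totalDegree ≤ D → (∃ T : Tri K, Irreducible (T.hg D f)) →
    (∀ i, f ∈ pt (P i 0) (P i 1) ^ μ i) → (∀ i, f ∉ pt (P i 0) (P i 1) ^ (μ i + 1)) →
    (Module.finrank K (LS D μ P) : ℤ) =
      ((D + 2).choose 2 : ℤ) - ∑ i, ((μ i + 1).choose 2 : ℤ) := by
  intro D
  induction D using Nat.strong_induction_on with
  | _ D ih =>
  intro P hP μ hcard f hdeg ⟨T₀, hirr₀⟩ hmem hex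
  have hfLS : f ∈ LS D μ P := mem_LS.2 ⟨hdeg, hmem⟩
  have hf0 : f ≠ 0 := by
    rintro rfl
    exact hex ⟨0, by omega⟩ (Ideal.zero_mem _)
  have hpos : 1 ≤ Module.finrank K (LS D μ P) := by
    have : Nontrivial (LS D μ P) := ⟨⟨⟨f, hfLS⟩, 0, fun h => hf0 (congrArg Subtype.val h)⟩⟩
    exact Module.finrank_pos
  obtain ⟨c, hc, hanti, hmax⟩ := exists_nine hs μ
  have hdet := fun i j l hij hil hjl => det_gen (F := F) P hP (i := i) (j := j) (l := l) hij hil hjl
  have anti : ∀ i j : Fin 9, i ≤ j → μ (c j) ≤ μ (c i) := fun i j hij => hanti hij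
  have h0l : ∀ l, μ (c l) ≤ μ (c 0) := fun l => anti 0 l (Fin.zero_le l)
  have h1l : ∀ l : Fin 9, l ≠ 0 → μ (c l) ≤ μ (c 1) := fun l hl => anti 1 l (by
    rw [Fin.le_def]
    have : l.val ≠ 0 := fun h => hl (Fin.ext h)
    simp only [Fin.val_one]
    omega)
  have h2l : ∀ l : Fin 9, l ≠ 0 → l ≠ 1 → μ (c l) ≤ μ (c 2) := fun l hl hl' => anti 2 l (by
    rw [Fin.le_def]
    have h3 : l.val ≠ 0 := fun h => hl (Fin.ext h)
    have h4 : l.val ≠ 1 := fun h => hl' (Fin.ext h)
    have h5 : (2 : Fin 9).val = 2 := rfl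
    omega)
  rcases Nat.lt_or_ge D (μ (c 0) + μ (c 1) + μ (c 2)) with hlt | hge
  · -- not standard
    have hout : ∀ i, (∀ l, i ≠ c l) → ∀ l, μ i ≤ μ (c l) := fun i hi l =>
      hmax i (by rintro ⟨l', hl'⟩; exact hi l' hl'.symm) l
    rcases Nat.lt_or_ge D 2 with hD | hD
    · -- lines
      have hle : ∀ i, μ i ≤ D := fun i =>
        (mult_le_totalDegree (P i) (μ i) f hf0 (hmem i)).trans hdeg
      have hD1 : D = 1 := by
        have h0 := hle (c 0)
        have h1 := hle (c 1)
        have h2 := hle (c 2)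
        omega
      subst hD1
      have h0 := hle (c 0)
      have h1 := hle (c 1)
      have h2 := hle (c 2)
      have h01 := h0l 1
      have h12 := anti 1 2 (by decide)
      have hne : c 0 ≠ c 1 := hc.ne (by decide)
      obtain ⟨hr, hi, hj, hz⟩ := line_case P hdet μ f hfLS hf0 (c 0) (c 1) hne
        (point_ne P hP hne) (by omega) (by omega)
      have hsum : ∑ i, ((μ i + 1).choose 2 : ℤ) = 2 := by
        rw [← Finset.add_sum_erase _ _ (Finset.mem_univ (c 0)),
          ← Finset.add_sum_erase _ _ (Finset.mem_erase.2 ⟨hne.symm, Finset.mem_univ (c 1)⟩),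
          Finset.sum_eq_zero, hi, hj]
        · norm_num
        · intro i hi
          rw [Finset.mem_erase, Finset.mem_erase] at hi
          rw [hz i hi.2.1 hi.1]
          norm_num
      rw [hr, hsum]
      norm_num [Nat.choose]
    · -- the quadratic transformation
      set b : Fin 3 → Fin s := ![c 0, c 1, c 2] with hbdef
      have hb : Function.Injective b := by
        have h01 : c 0 ≠ c 1 := hc.ne (by decide)
        have h02 : c 0 ≠ c 2 := hc.ne (by decide)
        have h12 : c 1 ≠ c 2 := hc.ne (by decide)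
        intro i j hij
        fin_cases i <;> fin_cases j <;> simp_all
      obtain ⟨T, hTA⟩ := exists_tri (fun t => P (b t)) (hdet (b 0) (b 1) (b 2)
        (hb.ne (by decide)) (hb.ne (by decide)) (hb.ne (by decide)))
      have hT : ∀ t, T.A t = P (b t) := fun t => congrFun hTA t
      have hirr := T₀.irreducible_hg T hdeg hirr₀
      have hadd : ∀ i j : Fin 3, i ≠ j → μ (b i) + μ (b j) ≤ D := fun i j hij =>
        mult_add_le T hD hdeg hirr (P (b i)) (P (b j)) (point_ne P hP (hb.ne hij)) (hmem _)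
          (hmem _)
      have hOk : OkC D fun t => μ (b t) :=
        ⟨hadd 1 2 (by decide), hadd 0 2 (by decide), hadd 0 1 (by decide)⟩
      have hC := inC_of_LS T P b hT hfLS
      have hC' := hC.cr hOk
      have hlt' : D < μ (b 0) + μ (b 1) + μ (b 2) := hlt
      have h01 := hadd 0 1 (by decide)
      have h02 := hadd 0 2 (by decide)
      have h12 := hadd 1 2 (by decide)
      have hcrD : 1 ≤ crD D (fun t => μ (b t)) ∧ crD D (fun t => μ (b t)) < D := by
        rw [crD]
        omega
      have hnX : ∀ t, ¬ X t ∣ T.hg D f := fun t => T.not_X_dvd hD hdeg hirr t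
      have hexp : ∀ t, ∃ α ∈ (T.hg D f).support, α t + μ (b t) = D := by
        intro t
        have h1 := hex (b t)
        rw [← hT t, T.mem_pt_vertex hdeg] at h1
        push Not at h1
        obtain ⟨α, hα, hα2⟩ := h1
        exact ⟨α, hα, le_antisymm (hC.exp α hα t) (by omega)⟩
      have hnX' : ∀ t, ¬ X t ∣ cr D (fun t => μ (b t)) (T.hg D f) := fun t =>
        not_X_dvd_cr hC t (hexp t)
      have hirr' := irreducible_cr hOk hcrD.1 hC hirr hnX hnX'
      have hOkP : ∀ l, (∀ t, l ≠ b t) → T.Ok (P l) := fun l hl => T.ok_gen P hP b hb hT l hl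
      have hf'LS := tf_mem_LS T P b hb hT hOkP hOk hfLS
      have hhg : T.hg (crD D fun t => μ (b t)) (T.tf D (fun t => μ (b t)) f) =
          cr D (fun t => μ (b t)) (T.hg D f) := by
        rw [Tri.tf, T.hg_ev hC'.hom]
      have hμ' : ∀ i, newM D b μ i ≤ μ i := by
        intro i
        by_cases hi : ∃ t, b t = i
        · obtain ⟨t, rfl⟩ := hi
          rw [newM_base b hb]
          fin_cases t
          · simp only [crM]
            change D - (μ (b 1) + μ (b 2)) ≤ μ (b 0)
            omega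
          · simp only [crM]
            change D - (μ (b 0) + μ (b 2)) ≤ μ (b 1)
            omega
          · simp only [crM]
            change D - (μ (b 0) + μ (b 1)) ≤ μ (b 2)
            omega
        · push Not at hi
          rw [newM_other b μ fun t ht => hi t ht.symm]
      have h := ih (crD D fun t => μ (b t)) hcrD.2 (newP T b P) (algInd_newP T P hP b hb hT)
        (newM D b μ) ((Finset.card_le_card (by
          intro i
          simp only [Finset.mem_filter, Finset.mem_univ, true_and]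
          exact fun h => h.trans (hμ' i))).trans hcard) (T.tf D (fun t => μ (b t)) f)
        (mem_LS.1 hf'LS).1 ⟨T, by rw [hhg]; exact hirr'⟩ (mem_LS.1 hf'LS).2 (by
          intro l hl
          by_cases hl' : ∃ t, b t = l
          · obtain ⟨t, rfl⟩ := hl'
            rw [newP_base, newM_base b hb, ← hT t, T.mem_pt_vertex (mem_LS.1 hf'LS).1, hhg] at hl
            obtain ⟨α, hα, hα2⟩ := exact_cr hOk hC t (hnX t)
            have := hl α hα
            omega
          · push Not at hl'
            have hl2 : ∀ t, l ≠ b t := fun t ht => hl' t ht.symm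
            rw [newP_other T P b hl2, newM_other b μ hl2] at hl
            have h1 := T.tf_mem_pt (mem_LS.1 hf'LS).1 (inC_of_LS' T P b hb hT hf'LS)
              (hOkP l hl2) hl
            rw [tf_tf T hOk hdeg hC] at h1
            exact hex l h1)
      rw [finrank_newM T P b hb hT hOkP hOk, h, chi_newM D b hb μ hOk]
  · -- standard
    have h := final_W P hP D μ c hc hmax (by
      intro i j l hij hil hjl
      -- the three largest
      have key : ∀ i j l : Fin 9, i < j → j < l → μ (c i) + μ (c j) + μ (c l) ≤ D := by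
        intro i j l h1 h2
        have e0 := h0l i
        have e1 := h1l j (by rintro rfl; exact absurd h1 (by simp))
        have e2 := h2l l (by rintro rfl; exact absurd h2 (by simp)) (by
          rintro rfl
          rw [Fin.lt_def] at h1 h2
          simp only [Fin.val_one] at h2
          omega)
        omega
      rcases lt_trichotomy i j with h1 | h1 | h1
      · rcases lt_trichotomy j l with h2 | h2 | h2
        · exact key i j l h1 h2
        · exact absurd h2 hjl
        · rcases lt_trichotomy i l with h3 | h3 | h3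
          · have := key i l j h3 h2
            omega
          · exact absurd h3 hil
          · have := key l i j h3 h1
            omega
      · exact absurd h1 hij
      · rcases lt_trichotomy i l with h2 | h2 | h2
        · have := key j i l h1 h2
          omega
        · exact absurd h2 hil
        · rcases lt_trichotomy j l with h3 | h3 | h3
          · have := key j l i h3 h2
            omega
          · exact absurd h3 hjl
          · have := key l j i h3 h1
            omega) (Or.inr (Or.inl fun i hi => le_two_of_card μ hcard c hc hmax i hi))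
    have h3 : (1 : ℤ) ≤ max 0 (((D + 2).choose 2 : ℤ) - ∑ i, ((μ i + 1).choose 2 : ℤ)) := by
      rw [← h]
      exact_mod_cast hpos
    rw [h]
    rcases le_total 0 (((D + 2).choose 2 : ℤ) - ∑ i, ((μ i + 1).choose 2 : ℤ)) with h4 | h4
    · exact max_eq_right h4
    · rw [max_eq_left h4] at h3
      omega

end ShghT
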