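import Pool.Agent.ShghC.Spec
import Pool.Agent.ShghT.SemiB

/-!
# ShghC: a unit at the point can be cancelled
-/

namespace ShghC

open MvPolynomial ShghJ

universe u

theorem tUnit : S_Unit.{u} := by
  intro K _ x y m u f hu huf
  set c : K := eval ![x, y] u with hc
  have h1 : u - C c ∈ ShghT.pt x y := by
    have h := ShghT.semib_mem_pt x y (u - C c) (by rw [map_sub, eval_C, ← hc, sub_self])
    rwa [pow_one] at h
  have hcop : IsCoprime (Ideal.span {u}) (ShghT.pt x y) := by
    rw [Ideal.isCoprime_iff_exists]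
    refine ⟨C c⁻¹ * u, Ideal.mul_mem_left _ _ (Ideal.mem_span_singleton_self u),
      -(C c⁻¹) * (u - C c), Ideal.mul_mem_left _ _ h1, ?_⟩
    have h2 : C c⁻¹ * C c = (1 : MvPolynomial (Fin 2) K) := by
      rw [← C_mul, inv_mul_cancel₀ hu, C_1]
    linear_combination h2
  have hcop2 : IsCoprime (Ideal.span {u}) (ShghT.pt x y ^ m) := hcop.pow_right
  obtain ⟨a, ha, b, hb, hab⟩ := Ideal.isCoprime_iff_exists.mp hcop2
  obtain ⟨a', rfl⟩ := Ideal.mem_span_singleton'.mp ha
  have h3 : f = a' * (u * f) + b * f := by linear_combination -f * hab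
  rw [h3]
  exact Ideal.add_mem _ (Ideal.mul_mem_left _ _ huf) (Ideal.mul_mem_right _ _ hb)

end ShghC
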