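import Pool.Agent.ShghC.Spec
import Pool.Agent.ShghC.Unit

/-!
# ShghC: the projective transformation `(x, y) ↦ (y / x, 1 / x)`
-/

namespace ShghC

open MvPolynomial ShghJ

universe u

section pm

variable {K : Type u} [Field K]

/-- The linear map which replaces the exponents `e` by `ρ e`. -/
noncomputable def pmR (ρ : (Fin 2 →₀ ℕ) → (Fin 2 →₀ ℕ)) :
    MvPolynomial (Fin 2) K →ₗ[K] MvPolynomial (Fin 2) K :=
  (basisMonomials (Fin 2) K).constr K fun e => monomial (ρ e) (1 : K)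

theorem pmR_monomial (ρ : (Fin 2 →₀ ℕ) → (Fin 2 →₀ ℕ)) (e : Fin 2 →₀ ℕ) (c : K) :
    pmR ρ (monomial e c) = monomial (ρ e) c := by
  have h1 : (monomial e c : MvPolynomial (Fin 2) K) = c • monomial e (1 : K) := by
    rw [smul_monomial, smul_eq_mul, mul_one]
  have h2 : pmR ρ (monomial e (1 : K)) = monomial (ρ e) (1 : K) := by
    have := (basisMonomials (Fin 2) K).constr_basis K (fun e => monomial (ρ e) (1 : K)) e
    rwa [coe_basisMonomials] at this
  rw [h1, map_smul, h2, smul_monomial, smul_eq_mul, mul_one]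

theorem pmR_sum (ρ : (Fin 2 →₀ ℕ) → (Fin 2 →₀ ℕ)) (f : MvPolynomial (Fin 2) K) :
    pmR ρ f = ∑ e ∈ f.support, monomial (ρ e) (f.coeff e) := by
  conv_lhs => rw [f.as_sum]
  rw [map_sum]
  exact Finset.sum_congr rfl fun e _ => pmR_monomial ρ e _

theorem pmR_coeff (ρ : (Fin 2 →₀ ℕ) → (Fin 2 →₀ ℕ)) (f : MvPolynomial (Fin 2) K)
    (e' : Fin 2 →₀ ℕ) (h : (pmR ρ f).coeff e' ≠ 0) : ∃ e, f.coeff e ≠ 0 ∧ ρ e = e' := by
  rw [pmR_sum, coeff_sum] at h
  obtain ⟨e, he, h2⟩ := Finset.exists_ne_zero_of_sum_ne_zero h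
  rw [coeff_monomial] at h2
  refine ⟨e, mem_support_iff.1 he, ?_⟩
  by_contra hne
  rw [if_neg hne] at h2
  exact h2 rfl

theorem pmR_inv (ρ σ : (Fin 2 →₀ ℕ) → (Fin 2 →₀ ℕ)) (f : MvPolynomial (Fin 2) K)
    (h : ∀ e, f.coeff e ≠ 0 → σ (ρ e) = e) : pmR σ (pmR ρ f) = f := by
  rw [pmR_sum ρ, map_sum]
  conv_rhs => rw [f.as_sum]
  refine Finset.sum_congr rfl fun e he => ?_
  rw [pmR_monomial, h e (mem_support_iff.1 he)]

/-- The transfer of multiplicities. -/
theorem pm_mult (ρ : (Fin 2 →₀ ℕ) → (Fin 2 →₀ ℕ)) (d m : ℕ) (u f : MvPolynomial (Fin 2) K)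
    (x0 y0 x1 y1 : K) (hu : eval ![x1, y1] u ≠ 0)
    (θ : MvPolynomial (Fin 2) K →ₐ[K] Localization.Away u)
    (h0 : θ (X 0 - C x0) ∈ (ShghT.pt x1 y1).map (algebraMap _ (Localization.Away u)))
    (h1 : θ (X 1 - C y0) ∈ (ShghT.pt x1 y1).map (algebraMap _ (Localization.Away u)))
    (hθ : ∀ e, f.coeff e ≠ 0 → algebraMap _ (Localization.Away u) (monomial (ρ e) (1 : K)) =
      algebraMap _ (Localization.Away u) u ^ d * θ (monomial e (1 : K)))
    (hf : f ∈ ShghT.pt x0 y0 ^ m) : pmR ρ f ∈ ShghT.pt x1 y1 ^ m := by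
  have hu0 : u ≠ 0 := by
    rintro rfl
    exact hu (map_zero _)
  have hinj : Function.Injective (algebraMap (MvPolynomial (Fin 2) K) (Localization.Away u)) :=
    IsLocalization.injective _ (powers_le_nonZeroDivisors_of_noZeroDivisors hu0)
  have hmap : Ideal.map (θ : MvPolynomial (Fin 2) K →+* Localization.Away u)
      (ShghT.pt x0 y0 ^ m) ≤
      (ShghT.pt x1 y1 ^ m).map (algebraMap _ (Localization.Away u)) := by
    rw [Ideal.map_pow, Ideal.map_pow]
    refine Ideal.pow_right_mono ?_ m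
    rw [ShghT.pt, Ideal.map_span, Ideal.span_le]
    rintro _ ⟨g, hg, rfl⟩
    rcases hg with rfl | rfl
    · exact h0
    · exact h1
  have h2 : θ f ∈ (ShghT.pt x1 y1 ^ m).map (algebraMap _ (Localization.Away u)) :=
    hmap (Ideal.mem_map_of_mem _ hf)
  rw [IsLocalization.mem_map_algebraMap_iff (Submonoid.powers u)] at h2
  obtain ⟨⟨⟨h, hh⟩, ⟨_, N, rfl⟩⟩, hs⟩ := h2
  simp only at hs
  have h3 : algebraMap _ (Localization.Away u) (pmR ρ f) =
      algebraMap _ (Localization.Away u) u ^ d * θ f := by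
    rw [pmR_sum, map_sum]
    conv_rhs => rw [f.as_sum, map_sum, Finset.mul_sum]
    refine Finset.sum_congr rfl fun e he => ?_
    have h4 : ∀ (e' : Fin 2 →₀ ℕ) (c : K), (monomial e' c : MvPolynomial (Fin 2) K) =
        c • monomial e' (1 : K) := by
      intro e' c
      rw [smul_monomial, smul_eq_mul, mul_one]
    have h7 : ∀ (c : K) (g : MvPolynomial (Fin 2) K),
        algebraMap _ (Localization.Away u) (c • g) =
          c • algebraMap _ (Localization.Away u) g := by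
      intro c g
      rw [Algebra.smul_def, map_mul, ← IsScalarTower.algebraMap_apply K (MvPolynomial (Fin 2) K)
        (Localization.Away u), ← Algebra.smul_def]
    rw [h4, h4 e, h7, map_smul θ, Algebra.mul_smul_comm, ← hθ e (mem_support_iff.1 he)]
  have h5 : u ^ N * pmR ρ f = u ^ d * h := by
    apply hinj
    rw [map_mul, map_mul, h3, map_pow, map_pow, ← hs, map_pow]
    ring
  have h6 : eval ![x1, y1] (u ^ N) ≠ 0 := by
    rw [map_pow]
    exact pow_ne_zero _ hu
  refine tUnit K x1 y1 m (u ^ N) _ h6 ?_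
  rw [h5]
  exact Ideal.mul_mem_left _ _ hh

theorem pm_mon (e : Fin 2 →₀ ℕ) :
    (monomial e (1 : K) : MvPolynomial (Fin 2) K) = X 0 ^ e 0 * X 1 ^ e 1 := by
  rw [monomial_eq, Finsupp.prod_fintype _ _ (fun i => pow_zero _), Fin.prod_univ_two, C_1, one_mul]

theorem pm_fwd (d m : ℕ) (f : MvPolynomial (Fin 2) K) (x0 y0 : K) (hx : x0 ≠ 0)
    (hd : ∀ e, f.coeff e ≠ 0 → e 0 + e 1 ≤ d) (hf : f ∈ ShghT.pt x0 y0 ^ m) :
    pmR (fun e => ex (e 1) (d - (e 0 + e 1))) f ∈ ShghT.pt (y0 / x0) (1 / x0) ^ m := by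
  set L := Localization.Away (X 1 : MvPolynomial (Fin 2) K)
  set a : L := algebraMap _ L (X 0 : MvPolynomial (Fin 2) K) with ha
  set b : L := algebraMap _ L (X 1 : MvPolynomial (Fin 2) K) with hb
  set ι : L := IsLocalization.Away.invSelf (S := L) (X 1 : MvPolynomial (Fin 2) K) with hι
  have hbι : b * ι = 1 := IsLocalization.Away.mul_invSelf _
  have hC : ∀ c : K, algebraMap K L c = algebraMap _ L (C c : MvPolynomial (Fin 2) K) :=
    fun c => IsScalarTower.algebraMap_apply K (MvPolynomial (Fin 2) K) L c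
  have hcx : ∀ c c' : K, algebraMap K L c * algebraMap K L c' = algebraMap K L (c * c') :=
    fun c c' => (map_mul _ _ _).symm
  have g0 : algebraMap (MvPolynomial (Fin 2) K) L (X 0 - C (y0 / x0)) ∈
      (ShghT.pt (y0 / x0) (1 / x0)).map (algebraMap (MvPolynomial (Fin 2) K) L) :=
    Ideal.mem_map_of_mem _ (Ideal.subset_span (by simp only [Set.mem_insert_iff,
      Set.mem_singleton_iff, true_or, or_true]))
  have g1 : algebraMap (MvPolynomial (Fin 2) K) L (X 1 - C (1 / x0)) ∈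
      (ShghT.pt (y0 / x0) (1 / x0)).map (algebraMap (MvPolynomial (Fin 2) K) L) :=
    Ideal.mem_map_of_mem _ (Ideal.subset_span (by simp only [Set.mem_insert_iff,
      Set.mem_singleton_iff, true_or, or_true]))
  rw [map_sub, ← hC] at g0 g1
  have hx1 : algebraMap K L x0 * algebraMap K L (1 / x0) = 1 := by
    rw [hcx, mul_one_div_cancel hx, map_one]
  have hx2 : algebraMap K L y0 * algebraMap K L (1 / x0) = algebraMap K L (y0 / x0) := by
    rw [hcx, mul_one_div]
  refine pm_mult _ d m (X 1) f x0 y0 _ _ ?_ (aeval ![ι, a * ι]) ?_ ?_ ?_ hf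
  · rw [eval_X]
    simpa using hx
  · have h : aeval ![ι, a * ι] (X 0 - C x0 : MvPolynomial (Fin 2) K) =
        -(algebraMap K L x0 * ι) * (b - algebraMap K L (1 / x0)) := by
      rw [map_sub, aeval_X, aeval_C]
      simp only [Matrix.cons_val_zero]
      linear_combination (algebraMap K L x0) * hbι - ι * hx1
    rw [h]
    exact Ideal.mul_mem_left _ _ g1
  · have h : aeval ![ι, a * ι] (X 1 - C y0 : MvPolynomial (Fin 2) K) =
        ι * (a - algebraMap K L (y0 / x0)) -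
          (ι * algebraMap K L y0) * (b - algebraMap K L (1 / x0)) := by
      rw [map_sub, aeval_X, aeval_C]
      simp only [Matrix.cons_val_one, Matrix.cons_val_fin_one]
      linear_combination (algebraMap K L y0) * hbι - ι * hx2
    rw [h]
    exact Ideal.sub_mem _ (Ideal.mul_mem_left _ _ g0) (Ideal.mul_mem_left _ _ g1)
  · intro e he
    obtain ⟨k, hk⟩ := Nat.exists_eq_add_of_le (hd e he)
    have hk' : d - (e 0 + e 1) = k := by omega
    rw [pm_mon, pm_mon, ex_zero, ex_one, hk', hk]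
    simp only [map_mul, map_pow, aeval_X, Matrix.cons_val_zero, Matrix.cons_val_one]
    rw [← ha, ← hb]
    have h9 : (b * ι) ^ (e 0 + e 1) = 1 := by rw [hbι, one_pow]
    have h10 : b ^ (e 0 + e 1 + k) * (ι ^ e 0 * (a * ι) ^ e 1) =
        (b * ι) ^ (e 0 + e 1) * (a ^ e 1 * b ^ k) := by ring
    rw [h10, h9, one_mul]

theorem pm_bwd (d m : ℕ) (f : MvPolynomial (Fin 2) K) (x0 y0 : K) (hx : x0 ≠ 0)
    (hd : ∀ e, f.coeff e ≠ 0 → e 0 + e 1 ≤ d)
    (hf : f ∈ ShghT.pt (y0 / x0) (1 / x0) ^ m) :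
    pmR (fun e => ex (d - (e 0 + e 1)) (e 0)) f ∈ ShghT.pt x0 y0 ^ m := by
  set L := Localization.Away (X 0 : MvPolynomial (Fin 2) K)
  set a : L := algebraMap _ L (X 0 : MvPolynomial (Fin 2) K) with ha
  set b : L := algebraMap _ L (X 1 : MvPolynomial (Fin 2) K) with hb
  set ι : L := IsLocalization.Away.invSelf (S := L) (X 0 : MvPolynomial (Fin 2) K) with hι
  have haι : a * ι = 1 := IsLocalization.Away.mul_invSelf _
  have hC : ∀ c : K, algebraMap K L c = algebraMap _ L (C c : MvPolynomial (Fin 2) K) :=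
    fun c => IsScalarTower.algebraMap_apply K (MvPolynomial (Fin 2) K) L c
  have hcx : ∀ c c' : K, algebraMap K L c * algebraMap K L c' = algebraMap K L (c * c') :=
    fun c c' => (map_mul _ _ _).symm
  have g0 : algebraMap (MvPolynomial (Fin 2) K) L (X 0 - C x0) ∈
      (ShghT.pt x0 y0).map (algebraMap (MvPolynomial (Fin 2) K) L) :=
    Ideal.mem_map_of_mem _ (Ideal.subset_span (by simp only [Set.mem_insert_iff,
      Set.mem_singleton_iff, true_or, or_true]))
  have g1 : algebraMap (MvPolynomial (Fin 2) K) L (X 1 - C y0) ∈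
      (ShghT.pt x0 y0).map (algebraMap (MvPolynomial (Fin 2) K) L) :=
    Ideal.mem_map_of_mem _ (Ideal.subset_span (by simp only [Set.mem_insert_iff,
      Set.mem_singleton_iff, true_or, or_true]))
  rw [map_sub, ← hC] at g0 g1
  have hx1 : algebraMap K L (1 / x0) * algebraMap K L x0 = 1 := by
    rw [hcx, one_div_mul_cancel hx, map_one]
  have hx2 : algebraMap K L (y0 / x0) * algebraMap K L x0 = algebraMap K L y0 := by
    rw [hcx, div_mul_cancel₀ _ hx]
  refine pm_mult _ d m (X 0) f _ _ _ _ ?_ (aeval ![b * ι, ι]) ?_ ?_ ?_ hf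
  · rw [eval_X]
    simpa using hx
  · have h : aeval ![b * ι, ι] (X 0 - C (y0 / x0) : MvPolynomial (Fin 2) K) =
        ι * (b - algebraMap K L y0) -
          (ι * algebraMap K L (y0 / x0)) * (a - algebraMap K L x0) := by
      rw [map_sub, aeval_X, aeval_C]
      simp only [Matrix.cons_val_zero]
      linear_combination (algebraMap K L (y0 / x0)) * haι - ι * hx2
    rw [h]
    exact Ideal.sub_mem _ (Ideal.mul_mem_left _ _ g1) (Ideal.mul_mem_left _ _ g0)
  · have h : aeval ![b * ι, ι] (X 1 - C (1 / x0) : MvPolynomial (Fin 2) K) =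
        -(algebraMap K L (1 / x0) * ι) * (a - algebraMap K L x0) := by
      rw [map_sub, aeval_X, aeval_C]
      simp only [Matrix.cons_val_one, Matrix.cons_val_fin_one]
      linear_combination (algebraMap K L (1 / x0)) * haι - ι * hx1
    rw [h]
    exact Ideal.mul_mem_left _ _ g0
  · intro e he
    obtain ⟨k, hk⟩ := Nat.exists_eq_add_of_le (hd e he)
    have hk' : d - (e 0 + e 1) = k := by omega
    rw [pm_mon, pm_mon, ex_zero, ex_one, hk', hk]
    simp only [map_mul, map_pow, aeval_X, Matrix.cons_val_zero, Matrix.cons_val_one]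
    rw [← ha, ← hb]
    have h9 : (a * ι) ^ (e 0 + e 1) = 1 := by rw [haι, one_pow]
    have h10 : a ^ (e 0 + e 1 + k) * ((b * ι) ^ e 0 * ι ^ e 1) =
        (a * ι) ^ (e 0 + e 1) * (a ^ k * b ^ e 0) := by ring
    rw [h10, h9, one_mul]

end pm

theorem tProjMap : S_ProjMap.{u} := by
  intro K _ d κ s μ Q hκ hQ
  set ρ : (Fin 2 →₀ ℕ) → (Fin 2 →₀ ℕ) := fun e => ex (e 1) (d - (e 0 + e 1)) with hρ
  set σ : (Fin 2 →₀ ℕ) → (Fin 2 →₀ ℕ) := fun e => ex (d - (e 0 + e 1)) (e 0) with hσ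
  have hV : ∀ f ∈ ShghL.FF (ShghT.LS d μ Q) κ 0, ∀ e, f.coeff e ≠ 0 →
      κ ≤ e 0 + e 1 ∧ e 0 + e 1 ≤ d := by
    intro f hf e he
    refine ⟨?_, ?_⟩
    · by_contra h
      exact he (by rw [← ex_eta e]; exact hf.2.1 _ _ (not_le.1 h))
    · have h1 : e.degree ≤ f.totalDegree := by
        exact Finset.le_sup (f := fun e : Fin 2 →₀ ℕ => e.sum fun _ n => n) (mem_support_iff.2 he)
      rw [deg_eq] at h1
      exact h1.trans hf.1.1
  have hW : ∀ f ∈ LN (Trap d (d - κ)) μ (fun i => ![Q i 1 / Q i 0, 1 / Q i 0]), ∀ e,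
      f.coeff e ≠ 0 → e 0 + e 1 ≤ d ∧ e 1 ≤ d - κ := fun f hf e he => mem_Trap.1 (hf.1 e he)
  have h1 : ∀ f ∈ ShghL.FF (ShghT.LS d μ Q) κ 0, pmR ρ f ∈
      LN (Trap d (d - κ)) μ (fun i => ![Q i 1 / Q i 0, 1 / Q i 0]) := by
    intro f hf
    refine ⟨fun e' he' => ?_, fun i => ?_⟩
    · obtain ⟨e, he, rfl⟩ := pmR_coeff ρ f e' he'
      have := hV f hf e he
      rw [mem_Trap, hρ]
      simp only [ex_zero, ex_one]
      omega
    · simp only [Matrix.cons_val_zero, Matrix.cons_val_one]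
      exact pm_fwd d _ f _ _ (hQ i) (fun e he => (hV f hf e he).2) (hf.1.2 i)
  have h2 : ∀ f ∈ LN (Trap d (d - κ)) μ (fun i => ![Q i 1 / Q i 0, 1 / Q i 0]), pmR σ f ∈
      ShghL.FF (ShghT.LS d μ Q) κ 0 := by
    intro f hf
    have hdeg : ∀ e', (pmR σ f).coeff e' ≠ 0 → κ ≤ e' 0 + e' 1 ∧ e' 0 + e' 1 ≤ d := by
      intro e' he'
      obtain ⟨e, he, rfl⟩ := pmR_coeff σ f e' he'
      have := hW f hf e he
      rw [hσ]
      simp only [ex_zero, ex_one]
      omega
    refine ⟨⟨?_, fun i => ?_⟩, fun i j hij => ?_, fun i j _ h => absurd h (Nat.not_lt_zero _)⟩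
    · refine Finset.sup_le fun e he => ?_
      have h5 : (e.sum fun _ n => n) = e.degree := rfl
      rw [h5, deg_eq]
      exact (hdeg e (mem_support_iff.1 he)).2
    · have h3 := hf.2 i
      simp only [Matrix.cons_val_zero, Matrix.cons_val_one] at h3
      exact pm_bwd d _ f _ _ (hQ i) (fun e he => (hW f hf e he).1) h3
    · by_contra h
      have := (hdeg _ h).1
      rw [ex_zero, ex_one] at this
      omega
  have h3 : ∀ f ∈ ShghL.FF (ShghT.LS d μ Q) κ 0, pmR σ (pmR ρ f) = f := by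
    intro f hf
    refine pmR_inv ρ σ f fun e he => ?_
    have := hV f hf e he
    rw [hρ, hσ]
    simp only [ex_zero, ex_one]
    conv_rhs => rw [← ex_eta e]
    congr 1
    omega
  have h4 : ∀ f ∈ LN (Trap d (d - κ)) μ (fun i => ![Q i 1 / Q i 0, 1 / Q i 0]),
      pmR ρ (pmR σ f) = f := by
    intro f hf
    refine pmR_inv σ ρ f fun e he => ?_
    have := hW f hf e he
    rw [hρ, hσ]
    simp only [ex_zero, ex_one]
    conv_rhs => rw [← ex_eta e]
    congr 1
    omega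
  exact (LinearEquiv.ofLinearMap ((pmR ρ).restrict h1) ((pmR σ).restrict h2)
    (LinearMap.ext fun f => Subtype.ext (h4 f.1 f.2))
    (LinearMap.ext fun f => Subtype.ext (h3 f.1 f.2))).finrank_eq

end ShghC
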