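import Pool.Agent.ShghC.SpecE
import Pool.Agent.ShghC.ProjMap
import Pool.Agent.ShghJ.Geo

/-!
# ShghC/Elm1: elementary transformation at a point of multiplicity `m` on a strip with `τ = m`
-/

namespace ShghC

open MvPolynomial ShghJ

universe u

theorem elm_up_ne (F : Type u) [Field F] (i : ℕ) (c : Fin 2) : up F i c ≠ 0 := by
  intro h
  have h1 : (X (i, c) : MvPolynomial (ℕ × Fin 2) F) = 0 :=
    IsFractionRing.injective (MvPolynomial (ℕ × Fin 2) F) (UF F) (h.trans (map_zero _).symm)
  exact X_ne_zero _ h1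

/-- Special points: one point at the origin. -/
theorem elm_special (h1 : S_NSemi.{u, u, u}) (h2 : S_NInv.{u, u}) (F : Type u) [Field F]
    (N : Finset (Fin 2 →₀ ℕ)) (m : ℕ) (B : Multiset ℕ)
    (Q : Fin B.toList.length → Fin 2 → UF F) :
    hN F N (m ::ₘ B) ≤
      Module.finrank (UF F) (fil (LN N (fun i : Fin B.toList.length => B.toList.get i) Q) 0 m) := by
  have hI := geo_algInd F (fun i : Fin (B.toList.length + 1) => (i : ℕ)) Fin.val_injective
  have h := h2 F (UF F) N (B.toList.length + 1) (Fin.cons m (fun i => B.toList.get i))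
    (fun i => up F i) hI
  have e : (Finset.univ.val.map
      (Fin.cons m (fun i => B.toList.get i) : Fin (B.toList.length + 1) → ℕ)) = m ::ₘ B := by
    rw [Fin.univ_val_map, List.ofFn_succ]
    simp only [Fin.cons_zero, Fin.cons_succ]
    rw [List.ofFn_get, ← Multiset.cons_coe, Multiset.coe_toList]
  rw [e] at h
  have h3 := h1 F (UF F) (UF F) N (B.toList.length + 1)
    (Fin.cons m (fun i => B.toList.get i)) (fun i => up F i) hI
    (Fin.cons 0 Q : Fin (B.toList.length + 1) → Fin 2 → UF F)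
  have h4 : LN N (Fin.cons m (fun i => B.toList.get i) : Fin (B.toList.length + 1) → ℕ)
      (Fin.cons 0 Q : Fin (B.toList.length + 1) → Fin 2 → UF F) =
      fil (LN N (fun i : Fin B.toList.length => B.toList.get i) Q) 0 m := by
    ext f
    constructor
    · intro h
      rw [mem_LN] at h
      refine ⟨mem_LN.2 ⟨h.1, fun i => ?_⟩, ?_⟩
      · have := h.2 i.succ
        simpa only [Fin.cons_succ] using this
      · have := h.2 0
        simpa only [Fin.cons_zero] using this
    · rintro ⟨h1, h2⟩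
      rw [mem_LN] at h1
      rw [mem_LN]
      refine ⟨h1.1, fun i => ?_⟩
      refine Fin.cases ?_ (fun i => ?_) i
      · simp only [Fin.cons_zero]
        exact h2
      · simp only [Fin.cons_succ]
        exact h1.2 i
  rw [h4] at h3
  rw [← h]
  exact h3

/-- A polynomial with multiplicity `m` at the origin has no monomials of degree `< m`. -/
theorem elm_origin {K : Type u} [Field K] {f : MvPolynomial (Fin 2) K} {m : ℕ}
    (h : f ∈ ShghT.pt (0 : K) 0 ^ m) (e : Fin 2 →₀ ℕ) (he : f.coeff e ≠ 0) : m ≤ e 0 + e 1 := by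
  by_contra h1
  have h2 := (ShghE.tf_mem_iff _ _ _ _).1 h e (by rw [deg_eq]; omega)
  have h3 : ShghE.tfShift (0 : K) 0 f = f := by
    have h4 : ShghE.tfShift (0 : K) 0 = AlgHom.id K (MvPolynomial (Fin 2) K) := by
      apply MvPolynomial.algHom_ext
      intro i
      fin_cases i
      · change ShghE.tfShift (0 : K) 0 (X 0) = X 0
        rw [ShghE.tfShift_X0, C_0, add_zero]
      · change ShghE.tfShift (0 : K) 0 (X 1) = X 1
        rw [ShghE.tfShift_X1, C_0, add_zero]
    rw [h4]
    rfl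
  rw [h3] at h2
  exact he h2

/-- An injective linear map does not lower the dimension. -/
theorem elm_rank {K : Type u} [Field K] (V W : Submodule K (MvPolynomial (Fin 2) K))
    (hW : Module.Finite K W) (φ ψ : MvPolynomial (Fin 2) K →ₗ[K] MvPolynomial (Fin 2) K)
    (h1 : ∀ f ∈ V, φ f ∈ W) (h2 : ∀ f ∈ V, ψ (φ f) = f) :
    Module.finrank K V ≤ Module.finrank K W := by
  refine LinearMap.finrank_le_finrank_of_injective (f := φ.restrict h1) fun a b hab => ?_
  have h3 : φ (a : MvPolynomial (Fin 2) K) = φ b := congrArg Subtype.val hab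
  apply Subtype.ext
  rw [← h2 a a.2, ← h2 b b.2, h3]

/-- The homomorphism `X ↦ X`, `Y ↦ X Y`. -/
noncomputable def elmT (K : Type u) [Field K] : MvPolynomial (Fin 2) K →ₐ[K] MvPolynomial (Fin 2) K :=
  aeval ![X 0, X 0 * X 1]

theorem elmT_X0 (K : Type u) [Field K] : elmT K (X 0) = X 0 := by simp [elmT]

theorem elmT_X1 (K : Type u) [Field K] : elmT K (X 1) = X 0 * X 1 := by simp [elmT]

theorem elmT_C (K : Type u) [Field K] (c : K) : elmT K (C c) = C c := by simp [elmT]

theorem elmT_pt {K : Type u} [Field K] (x y : K) (m : ℕ) (f : MvPolynomial (Fin 2) K)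
    (hf : f ∈ ShghT.pt x (x * y) ^ m) : elmT K f ∈ ShghT.pt x y ^ m := by
  have h1 := Ideal.mem_map_of_mem (elmT K) hf
  rw [Ideal.map_pow] at h1
  refine Ideal.pow_right_mono ?_ m h1
  have g0 : (X 0 - C x : MvPolynomial (Fin 2) K) ∈ ShghT.pt x y :=
    Ideal.subset_span (by simp only [Set.mem_insert_iff, Set.mem_singleton_iff, true_or])
  have g1 : (X 1 - C y : MvPolynomial (Fin 2) K) ∈ ShghT.pt x y :=
    Ideal.subset_span (by simp only [Set.mem_insert_iff, Set.mem_singleton_iff, or_true])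
  conv_lhs => rw [ShghT.pt]
  rw [Ideal.map_span, Ideal.span_le]
  rintro _ ⟨g, hg, rfl⟩
  rcases hg with rfl | rfl
  · rw [map_sub, elmT_X0, elmT_C]
    exact g0
  · rw [map_sub, elmT_X1, elmT_C]
    have h : (X 0 * X 1 - C (x * y) : MvPolynomial (Fin 2) K) =
        X 1 * (X 0 - C x) + C x * (X 1 - C y) := by
      rw [C_mul]
      ring
    rw [h]
    exact Ideal.add_mem _ (Ideal.mul_mem_left _ _ g0) (Ideal.mul_mem_left _ _ g1)

theorem elm_mul {K : Type u} [Field K] (m : ℕ) (f : MvPolynomial (Fin 2) K)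
    (hf : ∀ e, f.coeff e ≠ 0 → m ≤ e 0 + e 1) :
    X 0 ^ m * pmR (fun e => ex (e 0 + e 1 - m) (e 1)) f = elmT K f := by
  rw [pmR_sum]
  conv_rhs => rw [f.as_sum]
  rw [map_sum, Finset.mul_sum]
  refine Finset.sum_congr rfl fun e he => ?_
  have h1 := hf e (mem_support_iff.1 he)
  have h2 : ∀ (e' : Fin 2 →₀ ℕ) (c : K), (monomial e' c : MvPolynomial (Fin 2) K) =
      c • monomial e' (1 : K) := by
    intro e' c
    rw [smul_monomial, smul_eq_mul, mul_one]
  rw [h2, h2 e, map_smul, mul_smul_comm, pm_mon, pm_mon, ex_zero, ex_one, map_mul, map_pow,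
    map_pow, elmT_X0, elmT_X1]
  congr 1
  rw [mul_pow, ← mul_assoc, ← mul_assoc, ← pow_add, ← pow_add]
  congr 2
  omega

theorem tElm1 (h1 : S_NSemi.{u, u, u}) (h2 : S_NInv.{u, u}) (h3 : S_Unit.{u}) (h4 : S_NClo.{u}) :
    S_Elm1.{u} := by
  intro F _ n m e B
  set Q : Fin B.toList.length → Fin 2 → UF F := fun i => ![up F i 0, up F i 0 * up F i 1] with hQ
  have a := elm_special h1 h2 F (Sf (n + 1) m e) m B Q
  set V := fil (LN (Sf (n + 1) m e) (fun i : Fin B.toList.length => B.toList.get i) Q) 0 m with hV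
  have b : ∀ f ∈ V, ∀ e', f.coeff e' ≠ 0 → m ≤ e' 0 + e' 1 ∧ e' 1 ≤ m ∧
      e' 0 + (n + 1) * e' 1 ≤ e := by
    intro f hf e' he'
    have c1 := mem_Sf.1 (hf.1.1 e' he')
    exact ⟨elm_origin hf.2 e' he', c1.1, c1.2⟩
  refine ⟨fun hm => a.trans ?_, fun hm => ?_⟩
  · refine elm_rank V _ (h4.1 _ _ _ _ _) (pmR fun e => ex (e 0 + e 1 - m) (e 1))
      (pmR fun e => ex (e 0 + m - e 1) (e 1)) (fun f hf => ?_) (fun f hf => ?_)
    · rw [mem_LN]
      refine ⟨fun e' he' => ?_, fun i => ?_⟩
      · obtain ⟨e'', he'', rfl⟩ := pmR_coeff _ f e' he'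
        obtain ⟨c1, c2, c3⟩ := b f hf e'' he''
        rw [mem_Sf]
        simp only [ex_zero, ex_one]
        have c4 : (n + 1) * e'' 1 = n * e'' 1 + e'' 1 := Nat.succ_mul _ _
        omega
      · have c1 := hf.1.2 i
        simp only [hQ, Matrix.cons_val_zero, Matrix.cons_val_one] at c1
        have c2 := elmT_pt _ _ _ f c1
        rw [← elm_mul m f fun e' he' => (b f hf e' he').1] at c2
        refine h3 _ _ _ _ _ _ ?_ c2
        rw [map_pow, eval_X]
        exact pow_ne_zero _ (elm_up_ne F i 0)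
    · refine pmR_inv _ _ f fun e' he' => ?_
      obtain ⟨c1, c2, c3⟩ := b f hf e' he'
      simp only [ex_zero, ex_one]
      conv_rhs => rw [← ex_eta e']
      congr 1
      omega
  · have hz : V = ⊥ := by
      rw [eq_bot_iff]
      intro f hf
      rw [Submodule.mem_bot]
      ext e'
      rw [coeff_zero]
      by_contra he'
      obtain ⟨c1, c2, c3⟩ := b f hf e' he'
      have c4 : (n + 1) * e' 1 = n * e' 1 + e' 1 := Nat.succ_mul _ _
      have := Nat.zero_le (n * e' 1)
      omega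
    rw [hz, finrank_bot] at a
    exact Nat.le_zero.1 a

end ShghC
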