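import Pool.Agent.ShghC.SpecG2
import Pool.Agent.ShghJ.CombD5
import Pool.Agent.ShghJ.GeoD
import Pool.Agent.ShghL.Close1

set_option autoImplicit false

/-!
# ShghC/LongK: the closing argument with a base multiset `K`, `d (d - 2 ΣK) ≥ 288 M ^ 3` (helper7)
-/

namespace ShghC

open MvPolynomial ShghJ

universe u

/-- The length of a row. -/
private theorem longK_row (d a δ j : ℕ) (hj : a ≤ j + 1)
    (hδ : 2 * (δ + 1) + a * a = a * (2 * d + 3)) (k : ℕ) (hk : d = k * a + j) :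
    T (j + 1) = T (j + 1 - a) + (δ + 1 - a * a * k) ∧ a * a * k ≤ δ + 1 := by
  obtain ⟨i, hi⟩ := Nat.exists_eq_add_of_le hj
  have h1 := two_T (j + 1)
  have h2 := two_T (j + 1 - a)
  rw [hi] at h1
  rw [hi, Nat.add_sub_cancel_left] at h2 ⊢
  have h3 : 2 * (a * a * k) + a * (2 * i + a + 1) = 2 * (δ + 1) := by
    have hj' : j = a + i - 1 := by omega
    have e : 2 * (δ + 1) + a * a = a * (2 * (k * a + j) + 3) := by rw [← hk]; exact hδ
    zify at *
    have hj2 : (j : ℤ) = a + i - 1 := by omega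
    rw [hj2] at e
    linarith
  have h4 : a * a * k ≤ δ + 1 := by nlinarith
  refine ⟨?_, h4⟩
  obtain ⟨r, hr⟩ := Nat.exists_eq_add_of_le h4
  rw [hr, Nat.add_sub_cancel_left]
  zify at *
  nlinarith

/-- The numbers from the choice of `a`. -/
private theorem longK_fin (d M a p q : ℕ) (_ : 2 ≤ a)
    (h2 : a * a * (10 * M + 3) + (4 * M + 2) ≤ a * (2 * d + 3))
    (h3 : a * a * (6 * M + 3) + 2 * (p + q + T M) ≤ a * (2 * d + 3))
    (h4 : 1 ≤ p) :
    ∃ c : ℕ, 2 * (a * a * (3 * M + 1) + c + 1) + a * a = a * (2 * d + 3) ∧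
      a * a * (3 * M + 1) + 2 * M * (a * a + 1) ≤ a * a * (3 * M + 1) + c ∧
      p + q + T M ≤ c + 1 := by
  obtain ⟨c, hc⟩ : ∃ c, 2 * (a * a * (3 * M + 1) + c + 1) + a * a = a * (2 * d + 3) := by
    have e1 : a * a * (6 * M + 3) = 2 * (a * a * (3 * M + 1)) + a * a := by ring
    have e2 : a * (2 * d + 3) = 2 * (a * (d + 1)) + a := by ring
    have e3 : Even (a * (a + 1)) := Nat.even_mul_succ_self a
    obtain ⟨b, hb⟩ := e3
    have e4 : a * (a + 1) = a * a + a := by ring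
    refine ⟨(a * (2 * d + 3) - a * a) / 2 - a * a * (3 * M + 1) - 1, ?_⟩
    omega
  refine ⟨c, hc, ?_, ?_⟩
  · have e1 : 2 * (2 * M * (a * a + 1)) = a * a * (4 * M) + 4 * M := by ring
    have e2 : a * a * (10 * M + 3) = 2 * (a * a * (3 * M + 1)) + a * a * (4 * M) + a * a := by
      ring
    omega
  · have e1 : a * a * (6 * M + 3) = 2 * (a * a * (3 * M + 1)) + a * a := by ring
    omega

/-- The numbers. -/
private theorem longK_num (d M L : ℕ) (hM : 1 ≤ M) (hL : 12 * M ≤ L) (hLd : L ≤ d)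
    (hd : 288 * M ^ 3 ≤ d * L) :
    ∃ a c p q : ℕ, 2 ≤ a ∧ (3 * M + 2) * a ≤ L ∧
      2 * (a * a * (3 * M + 1) + c + 1) + a * a = a * (2 * d + 3) ∧
      a * a * (3 * M + 1) + 2 * M * (a * a + 1) ≤ a * a * (3 * M + 1) + c ∧
      23 * M ^ 2 ≤ 2 * p ∧ 6 * M ^ 2 ≤ q ∧ 13 * M ^ 2 ≤ 2 * q + 5 * M + 6 ∧
      p + q + T M ≤ c + 1 := by
  have hdd : 288 * M ^ 3 ≤ d * d := hd.trans (Nat.mul_le_mul_left _ hLd)
  have hTM := two_T M
  rcases Nat.lt_or_ge M 2 with hM1 | hM2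
  · have hM1' : M = 1 := by omega
    subst hM1'
    have hd17 : 17 ≤ d := by
      by_contra hcc
      have : d * d ≤ 16 * 16 := Nat.mul_le_mul (by omega) (by omega)
      omega
    obtain ⟨c, h1, h2, h3⟩ := longK_fin d 1 2 12 6 le_rfl (by omega) (by omega) (by norm_num)
    exact ⟨2, c, 12, 6, le_rfl, by omega, h1, h2, by norm_num, by norm_num, by norm_num, h3⟩
  obtain ⟨p, hp⟩ : ∃ p, p = (23 * M ^ 2 + 1) / 2 := ⟨_, rfl⟩
  obtain ⟨q, hq⟩ : ∃ q, q = (13 * M ^ 2 + 1) / 2 := ⟨_, rfl⟩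
  have hM2' : 2 * M ≤ M ^ 2 := by rw [pow_two]; exact Nat.mul_le_mul_right _ hM2
  have hM3' : 2 * M ^ 2 ≤ M ^ 3 := by
    rw [pow_succ M 2, mul_comm (M ^ 2) M]; exact Nat.mul_le_mul_right _ hM2
  have hTM2 : 2 * T M = M ^ 2 + M := by rw [hTM]; ring
  have hW : 2 * (p + q + T M) ≤ 37 * M ^ 2 + M + 2 := by omega
  have hd24 : 24 * M ≤ d := by
    by_contra hcc
    have h1 : d * d < (24 * M) * (24 * M) := Nat.mul_self_lt_mul_self (by omega)
    have h2 : (24 * M) * (24 * M) = 576 * M ^ 2 := by ring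
    omega
  -- it suffices to find `a`
  suffices h : ∃ a, 2 ≤ a ∧ (3 * M + 2) * a ≤ L ∧
      a * a * (10 * M + 3) + (4 * M + 2) ≤ a * (2 * d + 3) ∧
      a * a * (6 * M + 3) + (37 * M ^ 2 + M + 2) ≤ a * (2 * d + 3) by
    obtain ⟨a, h1, h2, h3, h4⟩ := h
    obtain ⟨c, h5, h6, h7⟩ := longK_fin d M a p q h1 h3 (by omega) (by omega)
    exact ⟨a, c, p, q, h1, h2, h5, h6, by omega, by omega, by omega, h7⟩
  obtain ⟨a0, ha0⟩ : ∃ a, a = (d + 3 * M + 3) / (6 * M + 3) := ⟨_, rfl⟩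
  obtain ⟨r, hr⟩ : ∃ r, r = (d + 3 * M + 3) % (6 * M + 3) := ⟨_, rfl⟩
  have hr1 : r < 6 * M + 3 := by rw [hr]; exact Nat.mod_lt _ (by omega)
  have hdiv : (6 * M + 3) * a0 + r = d + 3 * M + 3 := by
    rw [ha0, hr]; exact Nat.div_add_mod _ _
  obtain ⟨a1, ha1⟩ : ∃ a, a = L / (3 * M + 2) := ⟨_, rfl⟩
  obtain ⟨r', hr'⟩ : ∃ r, r = L % (3 * M + 2) := ⟨_, rfl⟩
  have hr1' : r' < 3 * M + 2 := by rw [hr']; exact Nat.mod_lt _ (by omega)
  have hdiv' : (3 * M + 2) * a1 + r' = L := by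
    rw [ha1, hr']; exact Nat.div_add_mod _ _
  rcases Nat.lt_or_ge a1 a0 with hlt | hge
  · -- `a = a1`
    have ha3 : 3 ≤ a1 := by
      rw [ha1]
      exact (Nat.le_div_iff_mul_le (by omega)).2 (by omega)
    have hb : (6 * M + 3) * a1 + 3 * M ≤ d := by
      have h1 : (6 * M + 3) * (a1 + 1) ≤ (6 * M + 3) * a0 := Nat.mul_le_mul_left _ hlt
      have h2 : (6 * M + 3) * (a1 + 1) = (6 * M + 3) * a1 + (6 * M + 3) := by ring
      omega
    refine ⟨a1, by omega, by omega, ?_, ?_⟩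
    · have h1 : a1 * ((6 * M + 3) * a1 + 3 * M) ≤ a1 * d := Nat.mul_le_mul_left _ hb
      have h2 : a1 * ((6 * M + 3) * a1 + 3 * M) = a1 * a1 * (6 * M + 3) + a1 * (3 * M) := by ring
      have h3 : 3 * (a1 * a1 * (10 * M + 3)) ≤ 5 * (a1 * a1 * (6 * M + 3)) := by
        have : 5 * (a1 * a1 * (6 * M + 3)) = 3 * (a1 * a1 * (10 * M + 3)) + 6 * (a1 * a1) := by
          ring
        omega
      have h4 : 3 * (3 * M) ≤ a1 * (3 * M) := Nat.mul_le_mul_right _ ha3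
      have h5 : a1 * (2 * d + 3) = 2 * (a1 * d) + 3 * a1 := by ring
      omega
    · have h1 : (6 * M + 3) * a1 ≤ d := by omega
      have h2 : a1 * ((6 * M + 3) * a1 + 3 * M) ≤ a1 * d := Nat.mul_le_mul_left _ hb
      have h3 : a1 * ((6 * M + 3) * a1 + 3 * M) = a1 * a1 * (6 * M + 3) + a1 * (3 * M) := by ring
      have h5 : a1 * (2 * d + 3) = 2 * (a1 * d) + 3 * a1 := by ring
      have h6 : 37 * M ^ 2 + M + 2 ≤ a1 * d := by
        have h7 : 17 * L ≤ 24 * ((3 * M + 2) * a1) := by omega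
        have h8 : 17 * (d * L) ≤ 24 * ((3 * M + 2) * (a1 * d)) := by
          calc 17 * (d * L) = d * (17 * L) := by ring
            _ ≤ d * (24 * ((3 * M + 2) * a1)) := Nat.mul_le_mul_left _ h7
            _ = 24 * ((3 * M + 2) * (a1 * d)) := by ring
        have h9 : (3 * M + 2) * (37 * M ^ 2 + M + 2) ≤ (3 * M + 2) * (a1 * d) := by
          have e1 : (3 * M + 2) * (37 * M ^ 2 + M + 2) =
              111 * M ^ 3 + 77 * M ^ 2 + 8 * M + 4 := by ring
          omega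
        exact Nat.le_of_mul_le_mul_left h9 (by omega)
      omega
  · -- `a = a0`
    have ha3 : 3 ≤ a0 := by
      rw [ha0]
      exact (Nat.le_div_iff_mul_le (by omega)).2 (by omega)
    have hL1 : (3 * M + 2) * a0 ≤ (3 * M + 2) * a1 := Nat.mul_le_mul_left _ hge
    refine ⟨a0, by omega, by omega, ?_, ?_⟩
    · have h1 : a0 * ((6 * M + 3) * a0) ≤ a0 * (d + 3 * M + 3) :=
        Nat.mul_le_mul_left _ (by omega)
      have h2 : a0 * ((6 * M + 3) * a0) = a0 * a0 * (6 * M + 3) := by ring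
      have h3 : 5 * (a0 * a0 * (6 * M + 3)) = 3 * (a0 * a0 * (10 * M + 3)) + 6 * (a0 * a0) := by
        ring
      have h4 : a0 * (2 * d + 3) = 2 * (a0 * d) + 3 * a0 := by ring
      have h5 : a0 * (d + 3 * M + 3) = a0 * d + 3 * (a0 * M) + 3 * a0 := by ring
      have h6 : a0 * (24 * M) ≤ a0 * d := Nat.mul_le_mul_left _ hd24
      have h7 : a0 * (24 * M) = 24 * (a0 * M) := by ring
      have h8 : 3 * M ≤ a0 * M := Nat.mul_le_mul_right _ ha3
      have h9 : a0 * 2 ≤ a0 * M := Nat.mul_le_mul_left _ hM2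
      omega
    · -- squares
      have h1 : (4 : ℤ) * (6 * M + 3) * (a0 * (2 * d + 3) - a0 * a0 * (6 * M + 3)) =
          (2 * d + 3) ^ 2 - (2 * r - (6 * M + 3)) ^ 2 := by
        have e1 : ((6 * M + 3 : ℕ) * a0 + r : ℤ) = d + 3 * M + 3 := by exact_mod_cast hdiv
        push_cast at e1
        have e2 : (6 * (M : ℤ) + 3) * a0 = d + 3 * M + 3 - r := by linarith
        calc (4 : ℤ) * (6 * M + 3) * (a0 * (2 * d + 3) - a0 * a0 * (6 * M + 3))
            = 4 * ((6 * M + 3) * a0) * ((2 * d + 3) - (6 * M + 3) * a0) := by ring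
          _ = _ := by rw [e2]; ring
      have h2 : (2 * (r : ℤ) - (6 * M + 3)) ^ 2 ≤ (6 * M + 3) ^ 2 := by
        have h1 : (r : ℤ) ≤ 6 * M + 3 := by exact_mod_cast hr1.le
        have h2 : (0 : ℤ) ≤ r := Int.natCast_nonneg _
        have h3 : (6 * M + 3 : ℤ) ^ 2 =
          (2 * r - (6 * M + 3)) ^ 2 + 4 * (r * (6 * M + 3 - r)) := by ring
        have h4 : (0 : ℤ) ≤ r * (6 * M + 3 - r) := mul_nonneg h2 (by linarith)
        linarith
      have h3 : (288 : ℤ) * M ^ 3 ≤ d ^ 2 := by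
        rw [pow_two (d : ℤ)]
        exact_mod_cast hdd
      have h4 : (24 : ℤ) * M ≤ d := by exact_mod_cast hd24
      have h5 : (2 : ℤ) * M ^ 2 ≤ M ^ 3 := by exact_mod_cast hM3'
      have h6 : (2 : ℤ) * M ≤ M ^ 2 := by exact_mod_cast hM2'
      have hM' : (2 : ℤ) ≤ M := by exact_mod_cast hM2
      have h7 : (4 : ℤ) * (6 * M + 3) * (37 * M ^ 2 + M + 2) =
          888 * M ^ 3 + 468 * M ^ 2 + 60 * M + 24 := by ring
      have h8 : ((2 : ℤ) * d + 3) ^ 2 = 4 * d ^ 2 + 12 * d + 9 := by ring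
      have h9 : ((6 : ℤ) * M + 3) ^ 2 = 36 * M ^ 2 + 36 * M + 9 := by ring
      have h10 : (4 : ℤ) * (6 * M + 3) * (37 * M ^ 2 + M + 2) ≤
          4 * (6 * M + 3) * (a0 * (2 * d + 3) - a0 * a0 * (6 * M + 3)) := by
        rw [h1, h7]
        linarith
      have h11 : (37 : ℤ) * M ^ 2 + M + 2 ≤ a0 * (2 * d + 3) - a0 * a0 * (6 * M + 3) :=
        le_of_mul_le_mul_left h10 (by linarith)
      have h12 : ((a0 * a0 * (6 * M + 3) + (37 * M ^ 2 + M + 2) : ℕ) : ℤ) ≤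
          ((a0 * (2 * d + 3) : ℕ) : ℤ) := by
        push_cast
        linarith
      exact_mod_cast h12


theorem tLongK (h1 : S_CloseR.{u}) (h2 : S_StripG.{u}) (h3 : S_WinG) : S_LongK.{u} := by
  intro F _ _ d M K S hM hS hdK hd hχ1 hχ2
  have hchar : ∀ d' : ℕ, ∀ n : ℕ, 1 ≤ n → n ≤ d' → (n : F) ≠ 0 :=
    fun _ n hn _ => Nat.cast_ne_zero.2 (by omega)
  have HC : ∀ d', HFunD d' (hF F d') := fun d' => hfunD_hF F d' (hchar d')
  obtain ⟨σ, hσ⟩ : ∃ σ, σ = K.sum := ⟨_, rfl⟩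
  rw [← hσ] at hdK hd
  obtain ⟨L, hL⟩ : ∃ L, d = 2 * σ + L := ⟨d - 2 * σ, by omega⟩
  rw [show d - 2 * σ = L by omega] at hd
  obtain ⟨a, c, p, q, ha2, hτL, hδ, hstr, hp, hq1, hq2, hcap⟩ :=
    longK_num d M L hM (by omega) (by omega) hd
  obtain ⟨τ, hτ⟩ : ∃ τ, τ = 3 * M + 1 := ⟨_, rfl⟩
  rw [show 3 * M + 2 = τ + 1 by omega] at hτL
  have hτa : (τ + 1) * a ≤ d := by omega
  rw [← hτ] at hδ hstr
  obtain ⟨δ, hδc⟩ : ∃ δ, δ = a * a * τ + c := ⟨_, rfl⟩
  rw [← hδc] at hδ hstr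
  have hn : a ^ 2 = a * a := by ring
  have hδ2 : a * d - T (a - 2) = δ := by
    obtain ⟨b, rfl⟩ := Nat.exists_eq_add_of_le ha2
    rw [Nat.add_sub_cancel_left]
    have e1 := two_T b
    have e3 : (2 + b) * (2 * d + 3) = 2 * ((2 + b) * d) + 3 * b + 6 := by ring
    have e4 : (2 + b) * (2 + b) = b * (b + 1) + 3 * b + 4 := by ring
    omega
  have hadT : a ^ 2 * τ + T (a - 2) ≤ a * d := by
    rw [hn]
    have : T (a - 2) ≤ a * d := by
      obtain ⟨b, rfl⟩ := Nat.exists_eq_add_of_le ha2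
      rw [Nat.add_sub_cancel_left]
      have e1 := two_T b
      have e4 : 2 + b ≤ d := by
        have : 1 * (2 + b) ≤ (τ + 1) * (2 + b) := Nat.mul_le_mul_right _ (by omega)
        omega
      have e5 : (2 + b) * (2 + b) ≤ (2 + b) * d := Nat.mul_le_mul_left _ e4
      have e6 : (2 + b) * (2 + b) = b * (b + 1) + 3 * b + 4 := by ring
      omega
    omega
  have hτa' : (τ + 1) * a = τ * a + a := by ring
  -- rows
  have hrow : ∀ k, k ≤ τ → T (d - k * a + 1) =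
      T (d - (k + 1) * a + 1) + (δ + 1 - a * a * k) ∧ a * a * k ≤ δ + 1 := by
    intro k hk
    have e1 : (k + 1) * a ≤ (τ + 1) * a := Nat.mul_le_mul_right _ (by omega)
    have e2 : (k + 1) * a = k * a + a := by ring
    obtain ⟨j, hj⟩ : ∃ j, d = k * a + j := ⟨d - k * a, by omega⟩
    have h8 := longK_row d a δ j (by omega) hδ k hj
    rw [show d - k * a + 1 = j + 1 by omega, show d - (k + 1) * a + 1 = j + 1 - a by omega]
    exact h8
  have hsum : ∀ t, t ≤ τ + 1 → T (d + 1) = T (d - t * a + 1) +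
      ∑ k ∈ Finset.range t, (δ + 1 - a * a * k) := by
    intro t
    induction t with
    | zero => simp
    | succ t ih =>
      intro ht
      rw [Finset.sum_range_succ, ih (by omega), (hrow t (by omega)).1]
      omega
  have hsum1 := hsum τ (by omega)
  have hrowτ := (hrow τ le_rfl).1
  rw [hδc, show a * a * τ + c + 1 - a * a * τ = c + 1 by omega] at hrowτ
  have hRR : ∑ k ∈ Finset.range (τ + 1), (δ + 1 - a * a * k) =
      ∑ k ∈ Finset.range τ, (δ + 1 - a * a * k) + (c + 1) := by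
    rw [Finset.sum_range_succ]
    congr 1
    omega
  generalize hRdef : ∑ k ∈ Finset.range τ, (δ + 1 - a * a * k) = R at *
  -- the part
  have hTK := ShghL.TT_le_T_sum K
  rw [← hσ] at hTK
  have hTσ : T σ ≤ T (d - (τ + 1) * a + 1) := ShghL.T_mono (by omega)
  have hTTKS := TT_add K S
  obtain ⟨X, hX⟩ : ∃ X, T (d - τ * a + 1) = X + TT K := ⟨T (d - τ * a + 1) - TT K, by omega⟩
  obtain ⟨B, A, hAB, hA1, hA2⟩ := ShghL.exists_part (T M) (X - p) S
    (fun m hm => ShghL.T_mono (hS m hm)) (by omega)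
  have hSA : ∀ m ∈ A, m ≤ M := fun m hm => hS m (by rw [hAB]; exact Multiset.mem_add.2 (Or.inr hm))
  have hSB : ∀ m ∈ B, m ≤ M := fun m hm => hS m (by rw [hAB]; exact Multiset.mem_add.2 (Or.inl hm))
  have hTTS : TT S = TT B + TT A := by rw [hAB, TT_add]
  have hTTKA := TT_add K A
  obtain ⟨x, hx⟩ : ∃ x, T (d - τ * a + 1) = TT (K + A) + x :=
    ⟨T (d - τ * a + 1) - TT (K + A), by omega⟩
  have hxp : p ≤ x := by omega
  have hxc : x + q ≤ c + 1 := by omega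
  -- the left side
  have hii : hF F (d - τ * a) (K + A) + TT (K + A) = T (d - τ * a + 1) := by
    refine (winBaseD _ (hF F (d - τ * a)) (HC _) M K A (by omega) hSA).2 ?_
    have e1 : 23 * (M : ℤ) ^ 2 ≤ 2 * x := by exact_mod_cast hp.trans (by omega)
    have e2 : (T (d - τ * a + 1) : ℤ) = TT (K + A) + x := by exact_mod_cast hx
    rw [e2]
    linarith
  have hi : hF F (d - (τ + 1) * a) (K + A) = 0 := by
    by_contra hne
    have h8 := (winBaseD _ (hF F (d - (τ + 1) * a)) (HC _) M K A (by omega) hSA).1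
      (Nat.one_le_iff_ne_zero.2 hne)
    omega
  have hx' : hF F (d - τ * a) (K + A) = x := by omega
  -- the strip
  have ha1 : 1 ≤ a * a := Nat.mul_pos (by omega) (by omega)
  have hs2 := (h3 (a * a) τ _ (h2 F (a * a) τ ha1) M δ B hM (by omega) hSB hstr).2
  have hs1 := (h3 (a * a) (τ - 1) _ (h2 F (a * a) (τ - 1) ha1) M δ B hM (by omega) hSB
    (by
      have : a * a * (τ - 1) ≤ a * a * τ := Nat.mul_le_mul_left _ (Nat.sub_le _ _)
      omega)).1
  rw [show τ - 1 + 1 = τ by omega, hRdef] at hs1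
  rw [hRR] at hs2
  have hz : hN F (Sf (a * a) (τ - 1) δ) B = 0 := by
    by_contra hne
    have h8 := hs1 (Nat.one_le_iff_ne_zero.2 hne)
    have e1 : M * (τ - 1 + 4 * M) = 7 * M ^ 2 := by
      rw [show τ - 1 = 3 * M by omega]; ring
    rw [e1] at h8
    have : 1 ≤ M ^ 2 := Nat.one_le_pow _ _ hM
    omega
  have hy : hN F (Sf (a * a) τ δ) B + TT B = R + (c + 1) := by
    refine hs2 ?_
    have e1 : (M - 1) * (2 * τ + 7 * M + 4) + 7 * M + 6 = 13 * M ^ 2 := by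
      obtain ⟨k, rfl⟩ := Nat.exists_eq_add_of_le hM
      rw [Nat.add_sub_cancel_left, hτ]
      ring
    omega
  have hfin := h1 F d a τ (hN F (Sf (a * a) τ δ) B) (K + A) B (by omega) (by omega) hτa hii hi
    hadT (by rw [hδ2, hn, hx']; omega) (by rw [hδ2, hn]) (by rw [hδ2, hn]; exact hz)
  have hKS : K + A + B = K + S := by rw [hAB]; abel
  rw [hδ2, hn, hx', hKS] at hfin
  omega

end ShghC
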