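import Pool.Agent.ShghC.SpecE

/-!
# ShghC/CloseR: gluing and transversality
-/

namespace ShghC

open MvPolynomial ShghJ

universe u

theorem closeR_St_zero (n τ δ : ℕ) (hτ : 1 ≤ τ) : St n τ δ 0 = Sf n (τ - 1) δ := by
  ext e
  rw [mem_St, mem_Sf]
  constructor
  · rintro (⟨h1, h2⟩ | ⟨_, h2⟩)
    · exact ⟨by omega, h2⟩
    · omega
  · rintro ⟨h1, h2⟩
    exact Or.inl ⟨by omega, h2⟩

theorem tCloseR (h1 : S_GlueR.{u}) (h2 : S_Raise.{u}) : S_CloseR.{u} := by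
  intro F _ _ d a τ y A B ha hτ hd hA hA0 hn hρ hy h0
  have h3 := h1 F d a τ A B ha hd hA hA0
  have h4 := h2 F (a ^ 2) τ (a * d - T (a - 2)) (hF F (d - τ * a) A) B (by omega) hρ
  rw [closeR_St_zero _ _ _ hτ, h0] at h4
  rcases h4 with h4 | h4 <;> omega

end ShghC
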