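import Pool.Agent.ShghC.Spec
import Pool.Agent.ShghJ.Geo
import Pool.Agent.ShghJ.Der

/-!
# ShghC, GlueN: the gluing of generic points along the curve `Y = X ^ a`
-/

namespace ShghC

open MvPolynomial ShghJ

universe u v

/-- The inverse of `Psi`. -/
noncomputable def Phi {R : Type*} [CommRing R] (η : R) (a : ℕ) :
    MvPolynomial (Fin 2) R →ₐ[R] MvPolynomial (Fin 2) R :=
  aeval ![X 0 - C η, X 1 - X 0 ^ a]

theorem Phi_Psi {R : Type*} [CommRing R] (η : R) (a : ℕ) (f : MvPolynomial (Fin 2) R) :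
    Phi η a (Psi η a f) = f := by
  have h0 : Phi η a (X 0) = X 0 - C η := by simp [Phi]
  have h1 : Phi η a (X 1) = X 1 - X 0 ^ a := by simp [Phi]
  have hC : Phi η a (C η) = C η := by simp [Phi]
  have h : (Phi η a).comp (Psi η a) = AlgHom.id R _ := by
    apply MvPolynomial.algHom_ext
    intro i
    fin_cases i
    · change Phi η a (Psi η a (X 0)) = X 0
      rw [Psi_X0, map_add, h0, hC, sub_add_cancel]
    · change Phi η a (Psi η a (X 1)) = X 1
      rw [Psi_X1, map_add, map_pow, map_add, h0, h1, hC, sub_add_cancel, sub_add_cancel]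
  exact DFunLike.congr_fun h f

theorem Psi_map {R R' : Type*} [CommRing R] [CommRing R'] (φ : R →+* R') (η : R) (a : ℕ)
    (f : MvPolynomial (Fin 2) R) :
    Psi (φ η) a (MvPolynomial.map φ f) = MvPolynomial.map φ (Psi η a f) := by
  have h : (Psi (φ η) a).toRingHom.comp (MvPolynomial.map φ) =
      (MvPolynomial.map φ).comp (Psi η a).toRingHom := by
    apply MvPolynomial.ringHom_ext
    · intro r
      simp [Psi]
    · intro i
      fin_cases i <;> simp [Psi]
  exact RingHom.congr_fun h f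

theorem cfk_smul_map {K : Type u} [Field K] (k : ℕ) (c : Polynomial K)
    (g : MvPolynomial (Fin 2) K) :
    cfk k (c • MvPolynomial.map (Polynomial.C : K →+* Polynomial K) g) = c.coeff k • g := by
  ext e
  rw [coeff_cfk, coeff_smul, coeff_smul, coeff_map, smul_eq_mul, smul_eq_mul,
    Polynomial.coeff_mul_C]

theorem cfk_Psi {K : Type u} [Field K] (k : ℕ) (η : K) (a : ℕ)
    (H : MvPolynomial (Fin 2) (Polynomial K)) :
    cfk k (Psi (Polynomial.C η) a H) = Psi η a (cfk k H) := by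
  have hadd : ∀ p q : MvPolynomial (Fin 2) (Polynomial K), cfk k (p + q) = cfk k p + cfk k q := by
    intro p q
    ext x
    rw [coeff_add, coeff_cfk, coeff_cfk, coeff_cfk, coeff_add, Polynomial.coeff_add]
  induction H using MvPolynomial.induction_on' with
  | add p q hp hq => rw [map_add, hadd, hp, hq, hadd, map_add]
  | monomial x c =>
    have h1 : (monomial x c : MvPolynomial (Fin 2) (Polynomial K)) =
        c • MvPolynomial.map (Polynomial.C : K →+* Polynomial K) (monomial x 1) := by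
      rw [map_monomial, smul_monomial, map_one, smul_eq_mul, mul_one]
    rw [h1, map_smul, Psi_map, cfk_smul_map, cfk_smul_map, map_smul]

/-- Clearing denominators, keeping the exponents. -/
theorem clearS {K : Type u} [Field K] {E : Type v} [Field E] [Algebra (Polynomial K) E]
    [IsFractionRing (Polynomial K) E] {s : ℕ} (P : Fin s → Fin 2 → Polynomial K)
    (μ : Fin s → ℕ) (g : MvPolynomial (Fin 2) E) (hg : g ≠ 0)
    (hμ : ∀ i, g ∈ ShghT.pt (algebraMap (Polynomial K) E (P i 0))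
      (algebraMap (Polynomial K) E (P i 1)) ^ μ i) :
    ∃ H : MvPolynomial (Fin 2) (Polynomial K), H ≠ 0 ∧ (∀ e, H.coeff e ≠ 0 → g.coeff e ≠ 0) ∧
      ∀ i, ∀ e : Fin 2 →₀ ℕ, e.degree < μ i →
        (ShghE.tfShift (P i 0) (P i 1) H).coeff e = 0 := by
  classical
  have hinj : Function.Injective (algebraMap (Polynomial K) E) :=
    IsFractionRing.injective _ _
  obtain ⟨r, hr⟩ := IsLocalization.exist_integer_multiples_of_finset
    (nonZeroDivisors (Polynomial K)) (g.support.image fun e => g.coeff e)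
  have hr' : ∀ e ∈ g.support, ∃ c : Polynomial K,
      algebraMap (Polynomial K) E c =
        algebraMap (Polynomial K) E r * g.coeff e := by
    intro e he
    obtain ⟨c, hc⟩ := hr _ (Finset.mem_image_of_mem (fun e => g.coeff e) he)
    exact ⟨c, by rw [hc, Algebra.smul_def]⟩
  have hr0 : algebraMap (Polynomial K) E r ≠ 0 := by
    rw [Ne, map_eq_zero_iff _ hinj]
    exact nonZeroDivisors.coe_ne_zero r
  choose! c hc using hr'
  set H : MvPolynomial (Fin 2) (Polynomial K) := ∑ e ∈ g.support, monomial e (c e) with hH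
  have hHc : ∀ e, H.coeff e = if e ∈ g.support then c e else 0 := by
    intro e
    rw [hH, coeff_sum]
    simp only [coeff_monomial]
    rw [Finset.sum_ite_eq']
  have hmap : MvPolynomial.map (algebraMap (Polynomial K) E) H =
      C (algebraMap (Polynomial K) E r) * g := by
    ext e
    rw [coeff_map, hHc, coeff_C_mul]
    split_ifs with h
    · rw [hc e h]
    · rw [map_zero, notMem_support_iff.1 h, mul_zero]
  refine ⟨H, fun h0 => ?_, ?_, fun i e he => ?_⟩
  · rw [h0, map_zero] at hmap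
    rcases mul_eq_zero.1 hmap.symm with h1 | h1
    · rw [C_eq_zero] at h1
      exact hr0 h1
    · exact hg h1
  · intro e he h
    apply he
    rw [hHc, if_neg (fun h' => mem_support_iff.1 h' h)]
  · apply hinj
    rw [map_zero, ← coeff_map, ← shift_map, hmap, map_mul, ShghE.tfShift_C, coeff_C_mul,
      (ShghE.tf_mem_iff _ _ _ _).1 (hμ i) e he, mul_zero]

/-- `Psi` and the multiplicities at the points near the curve. -/
theorem Psi_mult {R : Type u} [CommRing R] (η α β : R) (a ν : ℕ) (f : MvPolynomial (Fin 2) R)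
    (h : ∀ e : Fin 2 →₀ ℕ, e.degree < ν →
      (ShghE.tfShift (η + α) ((η + α) ^ a + β) f).coeff e = 0) :
    ∀ e : Fin 2 →₀ ℕ, e.degree < ν → (ShghE.tfShift α β (Psi η a f)).coeff e = 0 := by
  refine (ShghE.tf_mem_iff _ _ _ _).1 ?_
  have h1 := Ideal.mem_map_of_mem (Psi η a) ((ShghE.tf_mem_iff _ _ _ _).2 h)
  rw [Ideal.map_pow] at h1
  refine Ideal.pow_right_mono ?_ ν h1
  have hx : (X 0 - C α : MvPolynomial (Fin 2) R) ∈
      (Ideal.span {X 0 - C α, X 1 - C β} : Ideal (MvPolynomial (Fin 2) R)) :=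
    Ideal.subset_span (Set.mem_insert _ _)
  have hy : (X 1 - C β : MvPolynomial (Fin 2) R) ∈
      (Ideal.span {X 0 - C α, X 1 - C β} : Ideal (MvPolynomial (Fin 2) R)) :=
    Ideal.subset_span (Set.mem_insert_of_mem _ rfl)
  have hd : (X 0 + C η) - (C η + C α) = (X 0 - C α : MvPolynomial (Fin 2) R) := by ring
  rw [Ideal.map_span, Ideal.span_le]
  rintro _ ⟨g, hg, rfl⟩
  rcases hg with rfl | rfl
  · change Psi η a (X 0 - C (η + α)) ∈ _
    rw [map_sub, Psi_X0, Psi_C, C_add, hd]
    exact hx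
  · change Psi η a (X 1 - C ((η + α) ^ a + β)) ∈ _
    obtain ⟨q, hq⟩ := sub_dvd_pow_sub_pow (X 0 + C η : MvPolynomial (Fin 2) R) (C η + C α) a
    rw [hd] at hq
    have e1 : Psi η a (X 1 - C ((η + α) ^ a + β)) =
        (X 1 - C β) + (X 0 - C α) * q := by
      rw [← hq, map_sub, Psi_X1, Psi_C, C_add, C_pow, C_add]
      ring
    rw [e1]
    exact Ideal.add_mem _ hy (Ideal.mul_mem_right _ _ hx)

/-- The gluing over a field with a derivation. -/
theorem glue_K (hCol : S_Col.{u}) (hXS : S_XSide.{u}) (hRZ : S_RowZ.{u}) {K : Type u} [Field K]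
    [CharZero K] (D : Derivation ℤ K K) (η : K) (s r d θ a τ : ℕ) (μ : Fin s → ℕ)
    (p : Fin s → Fin 2 → K) (ν : Fin r → ℕ) (x : Fin r → Fin 2 → K) (hη : D η = 1)
    (hp : ∀ i c, D (p i c) = 0) (hpa : ∀ i, p i 1 ≠ p i 0 ^ a) (ha : 1 ≤ a) (hθ : θ ≤ d)
    (h0 : Module.finrank K (LN (Trap (d - (τ + 1) * a) (θ - (τ + 1))) μ p) = 0)
    (H : MvPolynomial (Fin 2) (Polynomial K)) (hH : H ≠ 0)
    (hN : ∀ e, H.coeff e ≠ 0 → e ∈ Trap d θ)
    (hA : ∀ i, ∀ e : Fin 2 →₀ ℕ, e.degree < μ i →
      (ShghE.tfShift (Polynomial.C (p i 0)) (Polynomial.C (p i 1)) H).coeff e = 0)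
    (hB : ∀ j, ∀ e : Fin 2 →₀ ℕ, e.degree < ν j →
      (ShghE.tfShift (Polynomial.C η + Polynomial.X * Polynomial.C (x j 0))
        ((Polynomial.C η + Polynomial.X * Polynomial.C (x j 0)) ^ a +
          Polynomial.X ^ (d + a * θ + 1) * Polynomial.C (x j 1)) H).coeff e = 0) :
    ∃ G ∈ LN (St (2 * a - 1) τ (d - θ + a * θ)
      (Module.finrank K (LN (Trap (d - τ * a) (θ - τ)) μ p))) ν x, G ≠ 0 := by
  have hV : ∀ k, cfk k H ∈ LN (Trap d θ) μ p := by
    intro k
    refine mem_LN.2 ⟨fun e he => hN e fun h => he ?_, fun i => ?_⟩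
    · rw [coeff_cfk, h, Polynomial.coeff_zero]
    · refine (ShghE.tf_mem_iff _ _ _ _).2 fun e he => ?_
      rw [cfk_shift, hA i e he, Polynomial.coeff_zero]
  obtain ⟨G, hG0, hG1, hG2⟩ := hCol K ((LN (Trap d θ) μ p).map (Psi η a).toLinearMap)
    (d + a * θ) r ν x (Psi (Polynomial.C η) a H)
    (fun h => hH (by rw [← Phi_Psi (Polynomial.C η) a H, h, map_zero]))
    (fun k => by
      rw [cfk_Psi]
      exact Submodule.mem_map_of_mem (hV k))
    (by
      rintro _ ⟨g, hg, rfl⟩ e he
      exact hRZ.2 K η a d θ g (fun e he => (mem_LN.1 hg).1 e he) e he)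
    (fun j => Psi_mult _ _ _ _ _ _ (hB j))
  refine ⟨G, mem_LN.2 ⟨fun e he => ?_, hG2⟩, hG0⟩
  exact hXS K D η s d θ a τ μ p hη hp hpa ha hθ h0 e (hG1 e he)

theorem der_pow_zero {K : Type u} [Field K] (D : Derivation ℤ K K) (b : K) (a : ℕ) (h : D b = 0) :
    D (b ^ a) = 0 := by
  rw [Derivation.leibniz_pow, h, smul_zero, smul_zero]

section

variable (F : Type u) [Field F]

/-- The points over `K[t]`. -/
noncomputable def glP (a D s r : ℕ) : Fin (s + r) → Fin 2 → Polynomial (UF F) :=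
  Fin.append (fun i c => Polynomial.C (up F ((i : ℕ) + 1) c))
    (fun j => ![Polynomial.C (up F 0 0) + Polynomial.X * Polynomial.C (up F (s + 1 + j) 0),
      (Polynomial.C (up F 0 0) + Polynomial.X * Polynomial.C (up F (s + 1 + j) 0)) ^ a +
        Polynomial.X ^ D * Polynomial.C (up F (s + 1 + j) 1)])

theorem tGlueN (h1 : S_NSemi.{u, u, u}) (h2 : S_NInv.{u, u}) (h3 : S_NCons.{u})
    (h4 : S_Col.{u}) (h5 : S_XSide.{u}) (h6 : S_RowZ.{u}) (h7 : S_NClo.{u}) : S_GlueN.{u} := by
  intro F _ _ d θ a τ A B ha hθ hX hAB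
  classical
  have hchar : CharZero (UF F) := charZero_of_injective_algebraMap (algebraMap F (UF F)).injective
  set s := A.toList.length with hs
  set r := B.toList.length with hr
  set μ : Fin s → ℕ := fun i => A.toList.get i with hμ
  set ν : Fin r → ℕ := fun i => B.toList.get i with hν
  -- the derivations
  choose D₀ hD₀ using fun i c => tDer F i c
  choose D hD' using fun i c => geo_mkDer (UF F) (fun x => D₀ i c x)
    (fun a b => map_add (D₀ i c) a b) (fun a b => (D₀ i c).leibniz a b)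
  have hD : ∀ (i : ℕ) (c : Fin 2) (i' : ℕ) (c' : Fin 2),
      D i c (up F i' c') = if i' = i ∧ c' = c then 1 else 0 := by
    intro i c i' c'
    rw [hD', hD₀]
  -- a nonzero polynomial with the special points
  have hμν : (Finset.univ.val.map (Fin.append μ ν : Fin (s + r) → ℕ)) = A + B := by
    rw [Fin.univ_val_map, List.ofFn_fin_append, ← Multiset.coe_add, hμ, hν, List.ofFn_get,
      List.ofFn_get, Multiset.coe_toList, Multiset.coe_toList]
  have e1 := h2 F (UF F) (Trap d θ) (s + r) (Fin.append μ ν) (fun i => up F i)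
    (geo_algInd F (fun i : Fin (s + r) => (i : ℕ)) Fin.val_injective)
  rw [hμν] at e1
  have e2 := h1 F (UF F) (FractionRing (Polynomial (UF F))) (Trap d θ) (s + r) (Fin.append μ ν)
    (fun i => up F i) (geo_algInd F (fun i : Fin (s + r) => (i : ℕ)) Fin.val_injective)
    (fun i c => algebraMap (Polynomial (UF F)) (FractionRing (Polynomial (UF F)))
      (glP F a (d + a * θ + 1) s r i c))
  rw [e1] at e2
  obtain ⟨g, hgm, hg⟩ := coll_exists _ (hAB.trans e2)
  have hgm := mem_LN.1 hgm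
  obtain ⟨H, hH0, hHe, hH⟩ := clearS (glP F a (d + a * θ + 1) s r) _ g hg hgm.2
  have hPA : ∀ i : Fin s, glP F a (d + a * θ + 1) s r (Fin.castAdd r i) =
      fun c => Polynomial.C (up F ((i : ℕ) + 1) c) := by
    intro i
    unfold glP
    rw [Fin.append_left]
  have hPB : ∀ j : Fin r, glP F a (d + a * θ + 1) s r (Fin.natAdd s j) =
      ![Polynomial.C (up F 0 0) + Polynomial.X * Polynomial.C (up F (s + 1 + j) 0),
      (Polynomial.C (up F 0 0) + Polynomial.X * Polynomial.C (up F (s + 1 + j) 0)) ^ a +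
        Polynomial.X ^ (d + a * θ + 1) * Polynomial.C (up F (s + 1 + j) 1)] := by
    intro j
    unfold glP
    rw [Fin.append_right]
  rw [(h3 F _ A).1] at hX
  obtain ⟨G, hG, hG0⟩ := glue_K h4 h5 h6 (D 0 0) (up F 0 0) s r d θ a τ μ
    (fun i => up F ((i : ℕ) + 1)) ν (fun j => up F (s + 1 + j)) (by rw [hD, if_pos ⟨rfl, rfl⟩])
    (fun i c => by
      rw [hD, if_neg]
      rintro ⟨h, -⟩
      omega)
    (fun i h => by
      have h8 := hD ((i : ℕ) + 1) 1 ((i : ℕ) + 1) 1
      have h9 := hD ((i : ℕ) + 1) 1 ((i : ℕ) + 1) 0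
      rw [if_neg (by rintro ⟨-, h⟩; exact absurd h (by decide))] at h9
      rw [if_pos ⟨rfl, rfl⟩, h, der_pow_zero _ _ _ h9] at h8
      exact zero_ne_one h8)
    ha hθ hX H hH0 (fun e he => hgm.1 e (hHe e he))
    (fun i e he => by
      have h8 := hH (Fin.castAdd r i) e (by rw [Fin.append_left]; exact he)
      rw [hPA] at h8
      exact h8)
    (fun j e he => by
      have h8 := hH (Fin.natAdd s j) e (by rw [Fin.append_right]; exact he)
      rw [hPB] at h8
      exact h8)
  have e3 := h2 F (UF F) (St (2 * a - 1) τ (d - θ + a * θ)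
    (hN F (Trap (d - τ * a) (θ - τ)) A)) r ν (fun j => up F (s + 1 + j))
    (geo_algInd F (fun j : Fin r => s + 1 + (j : ℕ)) (fun a b h => by
      apply Fin.ext
      simpa using h))
  have e4 : (Finset.univ.val.map ν) = B := by
    rw [Fin.univ_val_map, hν, List.ofFn_get, Multiset.coe_toList]
  rw [e4] at e3
  rw [← e3]
  rw [(h3 F (Trap (d - τ * a) (θ - τ)) A).1]
  have hfin := h7.1 (UF F) (St (2 * a - 1) τ (d - θ + a * θ)
    (Module.finrank (UF F) (LN (Trap (d - τ * a) (θ - τ)) μ (fun i => up F ((i : ℕ) + 1)))))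
    r ν (fun j => up F (s + 1 + j))
  by_contra hlt
  have h9 := Submodule.finrank_eq_zero.1 (Nat.lt_one_iff.1 (not_le.1 hlt))
  rw [h9] at hG
  exact hG0 ((Submodule.mem_bot _).1 hG)

end

end ShghC
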