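import Pool.Agent.ShghC.SpecG
import Pool.Agent.ShghC.GlueN
import Pool.Agent.ShghJ.CollD

/-!
# ShghC, CollN: the sharp collision lemma for polynomials with exponents in `N`
-/

namespace ShghC

open MvPolynomial ShghJ

universe u v w

/-- The shear preserves `LN N μ P`. -/
theorem Eop_LN {K : Type u} [Field K] (δ : Derivation ℤ K K) (a : K) (s : ℕ)
    (N : Finset (Fin 2 →₀ ℕ)) (hN1 : ∀ i k, ex i (k + 1) ∈ N → ex (i + 1) k ∈ N)
    (hN2 : ∀ i k, ex i (k + 1) ∈ N → ex i k ∈ N) (μ : Fin s → ℕ)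
    (P : Fin s → Fin 2 → K) (h0 : ∀ i, δ (P i 0) = 0) (h1 : ∀ i, δ (P i 1) = P i 0 - a) :
    ∀ f ∈ LN N μ P, Eop δ a f ∈ LN N μ P := by
  intro f hf
  rw [mem_LN] at hf ⊢
  refine ⟨?_, fun i => Eop_mem_pt δ a _ _ (h0 i) (h1 i) _ f (hf.2 i)⟩
  intro e he
  have hz : ∀ e, e ∉ N → f.coeff e = 0 := by
    intro e he
    by_contra h
    exact he (hf.1 e h)
  by_contra hcon
  apply he
  have e1 : e + Finsupp.single 1 1 = ex (e 0) (e 1 + 1) := by
    ext l
    fin_cases l <;> simp [ex]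
  have h2 : f.coeff (e + Finsupp.single 1 1) = 0 := by
    apply hz
    rw [e1]
    intro h
    apply hcon
    have := hN2 _ _ h
    rwa [ex_eta] at this
  unfold Eop
  rw [coeff_add, coeff_Dc, hz e hcon, map_zero, zero_add, sub_mul, coeff_sub, coeff_C_mul,
    coeff_pderiv, h2, zero_mul, mul_zero, sub_zero]
  conv_lhs => rw [← ex_eta e]
  rw [coeff_XP]
  split_ifs with h
  · rfl
  · rw [hz, zero_mul]
    intro h3
    apply hcon
    have := hN1 _ _ h3
    rw [Nat.sub_add_cancel (by omega), ex_eta] at this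
    exact this

theorem LN_degree {K : Type u} [Field K] {s : ℕ} {N : Finset (Fin 2 →₀ ℕ)} {μ : Fin s → ℕ}
    {P : Fin s → Fin 2 → K} {f : MvPolynomial (Fin 2) K} (hf : f ∈ LN N μ P) :
    f.totalDegree ≤ N.sup Finsupp.degree := by
  rw [ShghE.tf_totalDegree_le]
  intro e he
  rw [mem_support_iff] at he
  exact Finset.le_sup (f := Finsupp.degree) ((mem_LN.1 hf).1 e he)

/-- The sharp collision lemma over a field with the infinitesimal shear. -/
theorem coll_KN {K : Type u} [Field K] [CharZero K] (δ : Derivation ℤ K K) (s : ℕ)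
    (N : Finset (Fin 2 →₀ ℕ)) (hN1 : ∀ i k, ex i (k + 1) ∈ N → ex (i + 1) k ∈ N)
    (hN2 : ∀ i k, ex i (k + 1) ∈ N → ex i k ∈ N) (μ : Fin s → ℕ) (P : Fin s → Fin 2 → K)
    (hfin : Module.Finite K (LN N μ P))
    (p : Fin 2 → K) (h0 : δ (p 0) = 0)
    (h1 : δ (p 1) = 0) (hP0 : ∀ i, δ (P i 0) = 0) (hP1 : ∀ i, δ (P i 1) = P i 0 - p 0)
    (m w : ℕ)
    (H : MvPolynomial (Fin 2) (Polynomial K)) (hH : H ≠ 0) (hd : ∀ e, H.coeff e ≠ 0 → e ∈ N)
    (hHP : ∀ i, ∀ e : Fin 2 →₀ ℕ, e.degree < μ i →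
      (ShghE.tfShift (Polynomial.C (P i 0)) (Polynomial.C (P i 1)) H).coeff e = 0)
    (hm : ∀ e : Fin 2 →₀ ℕ, e.degree < m →
      (ShghE.tfShift (Polynomial.C (p 0)) (Polynomial.C (p 1)) H).coeff e = 0)
    (hw : ∀ e : Fin 2 →₀ ℕ, e.degree < w →
      (ShghE.tfShift (Polynomial.X + Polynomial.C (p 0)) (Polynomial.C (p 1)) H).coeff e = 0) :
    ∃ j, m ≤ j ∧ w ≤ j ∧ Module.finrank K (fil (LN N μ P) p (j + 1)) + 1 ≤
        Module.finrank K (fil (LN N μ P) p j) ∧
      m + w + 1 + Module.finrank K (fil (LN N μ P) p (j + 1)) ≤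
        j + Module.finrank K (fil (LN N μ P) p j) := by
  classical
  have hH' : ShghE.tfShift (Polynomial.C (p 0)) (Polynomial.C (p 1)) H ≠ 0 := by
    intro h
    apply hH
    rw [← ShghE.tfShift_neg (Polynomial.C (p 0)) (Polynomial.C (p 1)) H, h, map_zero]
  obtain ⟨j, i, hi, hij, hmj, hwj, hmw⟩ := coll_core2 (LN N μ P) p m w _ hH'
    (fun k => cfk k H)
    (fun k => by
      refine mem_LN.2 ⟨fun e he => hd e fun h => he ?_, fun i => ?_⟩
      · rw [coeff_cfk, h, Polynomial.coeff_zero]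
      · refine (ShghE.tf_mem_iff _ _ _ _).2 fun e he => ?_
        rw [cfk_shift, hHP i e he, Polynomial.coeff_zero])
    (fun k e => cfk_shift k _ _ H e) hm
    (fun e he => by
      rw [shift_shift, zero_add]
      exact hw e he)
  have h2 := degSet_card δ (LN N μ P) p (N.sup Finsupp.degree) (fun f hf => LN_degree hf)
    (fun n h1 _ => Nat.cast_ne_zero.2 (by omega))
    (Eop_LN δ (p 0) s N hN1 hN2 μ P hP0 hP1) h0 h1 j i hi
  have h3 := tCnt K (LN N μ P) p j hfin
  exact ⟨j, hmj, hwj, by omega, by omega⟩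

theorem tCollN (h1 : S_NSemi.{u, u, u}) (h2 : S_NInv.{u, u}) (h3 : S_NCons.{u})
    (h4 : S_NClo.{u}) : S_CollN.{u} := by
  intro F _ _ N hN1 hN2 S m w hmw
  classical
  have hchar : CharZero (UF F) := charZero_of_injective_algebraMap (algebraMap F (UF F)).injective
  obtain ⟨δ, hδ0, hδ1, hδP0, hδP1⟩ := coll_der F S.toList.length
  -- transfer
  have e1 := h2 F (UF F) N (S.toList.length + 2)
    (Fin.cons m (Fin.cons w (fun i => S.toList.get i) : Fin (S.toList.length + 1) → ℕ))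
    (fun i => up F i) (geo_algInd F (fun i : Fin (S.toList.length + 2) => (i : ℕ))
      Fin.val_injective)
  have e : (Finset.univ.val.map
      (Fin.cons m (Fin.cons w (fun i => S.toList.get i) : Fin (S.toList.length + 1) → ℕ) :
        Fin (S.toList.length + 2) → ℕ)) = m ::ₘ w ::ₘ S := by
    rw [Fin.univ_val_map, List.ofFn_succ]
    simp only [Fin.cons_zero, Fin.cons_succ]
    rw [List.ofFn_succ]
    simp only [Fin.cons_zero, Fin.cons_succ]
    rw [List.ofFn_get, ← Multiset.cons_coe, ← Multiset.cons_coe, Multiset.coe_toList]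
  rw [e] at e1
  have e2 := h1 F (UF F) (FractionRing (Polynomial (UF F))) N (S.toList.length + 2)
    (Fin.cons m (Fin.cons w (fun i => S.toList.get i) : Fin (S.toList.length + 1) → ℕ))
    (fun i => up F i) (geo_algInd F (fun i : Fin (S.toList.length + 2) => (i : ℕ))
      Fin.val_injective)
    (fun i c => algebraMap (Polynomial (UF F)) (FractionRing (Polynomial (UF F)))
      (collP F S.toList.length i c))
  rw [e1] at e2
  obtain ⟨g, hgm, hg⟩ := coll_exists _ (hmw.trans e2)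
  have hgm := mem_LN.1 hgm
  obtain ⟨H, hH0, hHe, hH⟩ := clearS (collP F S.toList.length) _ g hg hgm.2
  have hP0 : collP F S.toList.length 0 = fun c => Polynomial.C (up F 0 c) := Fin.cons_zero _ _
  have hP1 : collP F S.toList.length (Fin.succ 0) =
      ![Polynomial.X + Polynomial.C (up F 0 0), Polynomial.C (up F 0 1)] := by
    unfold collP
    rw [Fin.cons_succ, Fin.cons_zero]
  have hP2 : ∀ i : Fin S.toList.length, collP F S.toList.length (Fin.succ (Fin.succ i)) =
      fun c => Polynomial.C (up F ((i : ℕ) + 1) c) := by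
    intro i
    unfold collP
    rw [Fin.cons_succ, Fin.cons_succ]
  obtain ⟨j, hj1, hj2, hj3, hj4⟩ := coll_KN δ S.toList.length N hN1 hN2
    (fun i => S.toList.get i) (fun i => up F ((i : ℕ) + 1)) (h4.1 _ _ _ _ _)
    (up F 0) hδ0 hδ1 (fun i => hδP0 i i.2) (fun i => hδP1 i i.2) m w H hH0
    (fun e he => hgm.1 e (hHe e he)) (by
      intro i x hx
      have h6 := hH (Fin.succ (Fin.succ i)) x (by rw [Fin.cons_succ, Fin.cons_succ]; exact hx)
      rw [hP2] at h6
      exact h6) (by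
      intro x hx
      have h6 := hH 0 x (by rw [Fin.cons_zero]; exact hx)
      rw [hP0] at h6
      exact h6) (by
      intro x hx
      have h6 := hH (Fin.succ 0) x (by rw [Fin.cons_succ, Fin.cons_zero]; exact hx)
      rw [hP1] at h6
      exact h6)
  refine ⟨j, hj1, hj2, ?_, ?_⟩
  · rw [(h3 F N S).2, (h3 F N S).2]
    exact hj3
  · rw [(h3 F N S).2, (h3 F N S).2]
    exact hj4

end ShghC
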