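import Pool.Agent.ShghC.Elm1

/-!
# ShghC/Elm0: elementary transformation with the flip `Y ↦ 1 / Y`
-/

namespace ShghC

open MvPolynomial ShghJ

universe u

theorem elm0_mult {K : Type u} [Field K] (d m : ℕ) (f : MvPolynomial (Fin 2) K) (x y : K)
    (hy : y ≠ 0) (hd : ∀ e, f.coeff e ≠ 0 → e 1 ≤ d) (hf : f ∈ ShghT.pt x (x / y) ^ m) :
    pmR (fun e => ex (e 0 + e 1) (d - e 1)) f ∈ ShghT.pt x y ^ m := by
  set L := Localization.Away (X 1 : MvPolynomial (Fin 2) K)
  set a : L := algebraMap _ L (X 0 : MvPolynomial (Fin 2) K) with ha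
  set b : L := algebraMap _ L (X 1 : MvPolynomial (Fin 2) K) with hb
  set ι : L := IsLocalization.Away.invSelf (S := L) (X 1 : MvPolynomial (Fin 2) K) with hι
  have hbι : b * ι = 1 := IsLocalization.Away.mul_invSelf _
  have hC : ∀ c : K, algebraMap K L c = algebraMap _ L (C c : MvPolynomial (Fin 2) K) :=
    fun c => IsScalarTower.algebraMap_apply K (MvPolynomial (Fin 2) K) L c
  have hcx : ∀ c c' : K, algebraMap K L c * algebraMap K L c' = algebraMap K L (c * c') :=
    fun c c' => (map_mul _ _ _).symm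
  have g0 : algebraMap (MvPolynomial (Fin 2) K) L (X 0 - C x) ∈
      (ShghT.pt x y).map (algebraMap (MvPolynomial (Fin 2) K) L) :=
    Ideal.mem_map_of_mem _ (Ideal.subset_span (by simp only [Set.mem_insert_iff,
      Set.mem_singleton_iff, true_or]))
  have g1 : algebraMap (MvPolynomial (Fin 2) K) L (X 1 - C y) ∈
      (ShghT.pt x y).map (algebraMap (MvPolynomial (Fin 2) K) L) :=
    Ideal.mem_map_of_mem _ (Ideal.subset_span (by simp only [Set.mem_insert_iff,
      Set.mem_singleton_iff, or_true]))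
  rw [map_sub, ← hC] at g0 g1
  have hx1 : algebraMap K L (x / y) * algebraMap K L y = algebraMap K L x := by
    rw [hcx, div_mul_cancel₀ _ hy]
  refine pm_mult _ d m (X 1) f x (x / y) x y ?_ (aeval ![a, a * ι]) ?_ ?_ ?_ hf
  · rw [eval_X]
    simpa using hy
  · have h : aeval ![a, a * ι] (X 0 - C x : MvPolynomial (Fin 2) K) =
        a - algebraMap K L x := by
      rw [map_sub, aeval_X, aeval_C]
      simp only [Matrix.cons_val_zero]
    rw [h]
    exact g0
  · have h : aeval ![a, a * ι] (X 1 - C (x / y) : MvPolynomial (Fin 2) K) =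
        ι * (a - algebraMap K L x) - (ι * algebraMap K L (x / y)) * (b - algebraMap K L y) := by
      rw [map_sub, aeval_X, aeval_C]
      simp only [Matrix.cons_val_one, Matrix.cons_val_fin_one]
      linear_combination (algebraMap K L (x / y)) * hbι - ι * hx1
    rw [h]
    exact Ideal.sub_mem _ (Ideal.mul_mem_left _ _ g0) (Ideal.mul_mem_left _ _ g1)
  · intro e he
    obtain ⟨k, hk⟩ := Nat.exists_eq_add_of_le (hd e he)
    have hk' : d - e 1 = k := by omega
    rw [pm_mon, pm_mon, ex_zero, ex_one, hk', hk]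
    simp only [map_mul, map_pow, aeval_X, Matrix.cons_val_zero, Matrix.cons_val_one]
    rw [← ha, ← hb]
    have h9 : (b * ι) ^ (e 1) = 1 := by rw [hbι, one_pow]
    have h10 : b ^ (e 1 + k) * (a ^ e 0 * (a * ι) ^ e 1) =
        (b * ι) ^ (e 1) * (a ^ (e 0 + e 1) * b ^ k) := by ring
    rw [h10, h9, one_mul]

theorem elm0_mul {K : Type u} [Field K] (m : ℕ) (f : MvPolynomial (Fin 2) K)
    (hf : ∀ e, f.coeff e ≠ 0 → m ≤ e 0 + e 1) :
    X 0 ^ m * pmR (fun e => ex (e 0 + e 1 - m) (m - e 1)) f =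
      pmR (fun e => ex (e 0 + e 1) (m - e 1)) f := by
  rw [pmR_sum, pmR_sum, Finset.mul_sum]
  refine Finset.sum_congr rfl fun e he => ?_
  have h1 := hf e (mem_support_iff.1 he)
  have h2 : ∀ (e' : Fin 2 →₀ ℕ) (c : K), (monomial e' c : MvPolynomial (Fin 2) K) =
      c • monomial e' (1 : K) := by
    intro e' c
    rw [smul_monomial, smul_eq_mul, mul_one]
  rw [h2, h2 (ex (e 0 + e 1) (m - e 1)), mul_smul_comm, pm_mon, pm_mon, ex_zero, ex_one, ex_zero,
    ex_one]
  congr 1
  rw [← mul_assoc, ← pow_add]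
  congr 2
  omega

theorem tElm0 (h1 : S_NSemi.{u, u, u}) (h2 : S_NInv.{u, u}) (h3 : S_Unit.{u}) (h4 : S_NClo.{u}) :
    S_Elm0.{u} := by
  intro F _ m e B
  set Q : Fin B.toList.length → Fin 2 → UF F := fun i => ![up F i 0, up F i 0 / up F i 1] with hQ
  have a := elm_special h1 h2 F (Sf 0 m e) m B Q
  set V := fil (LN (Sf 0 m e) (fun i : Fin B.toList.length => B.toList.get i) Q) 0 m with hV
  have b : ∀ f ∈ V, ∀ e', f.coeff e' ≠ 0 → m ≤ e' 0 + e' 1 ∧ e' 1 ≤ m ∧ e' 0 ≤ e := by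
    intro f hf e' he'
    have c1 := mem_Sf.1 (hf.1.1 e' he')
    rw [Nat.zero_mul, Nat.add_zero] at c1
    exact ⟨elm_origin hf.2 e' he', c1.1, c1.2⟩
  refine a.trans ?_
  refine elm_rank V _ (h4.1 _ _ _ _ _) (pmR fun e => ex (e 0 + e 1 - m) (m - e 1))
    (pmR fun e => ex (e 0 + e 1) (m - e 1)) (fun f hf => ?_) (fun f hf => ?_)
  · rw [mem_LN]
    refine ⟨fun e' he' => ?_, fun i => ?_⟩
    · obtain ⟨e'', he'', rfl⟩ := pmR_coeff _ f e' he'
      obtain ⟨c1, c2, c3⟩ := b f hf e'' he''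
      rw [mem_Sf]
      simp only [ex_zero, ex_one]
      omega
    · have c1 := hf.1.2 i
      simp only [hQ, Matrix.cons_val_zero, Matrix.cons_val_one] at c1
      have c2 := elm0_mult m _ f _ _ (elm_up_ne F i 1) (fun e' he' => (b f hf e' he').2.1) c1
      rw [← elm0_mul m f fun e' he' => (b f hf e' he').1] at c2
      refine h3 _ _ _ _ _ _ ?_ c2
      rw [map_pow, eval_X]
      exact pow_ne_zero _ (elm_up_ne F i 0)
  · refine pmR_inv _ _ f fun e' he' => ?_
    obtain ⟨c1, c2, c3⟩ := b f hf e' he'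
    simp only [ex_zero, ex_one]
    conv_rhs => rw [← ex_eta e']
    congr 1 <;> omega

end ShghC
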