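import Pool.Agent.ShghC.Spec

/-!
# ShghC: restriction to a fibre
-/

namespace ShghC

open MvPolynomial ShghJ

universe u

theorem stb_deg {K : Type u} [Field K] {n τ e s : ℕ} {μ : Fin s → ℕ} {p : Fin s → Fin 2 → K}
    (x0 : K) {f : MvPolynomial (Fin 2) K} (hf : f ∈ LN (Sf n τ e) μ p) :
    rst x0 f ∈ Polynomial.degreeLT K (τ + 1) := by
  have h1 : rst x0 f = ∑ d ∈ f.support, algebraMap K (Polynomial K) (f.coeff d) *
      ∏ i, (![Polynomial.C x0, Polynomial.X] : Fin 2 → Polynomial K) i ^ d i := by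
    rw [rst, aeval_def, eval₂_eq']
  rw [h1]
  refine Submodule.sum_mem _ fun d hd => ?_
  have h2 := mem_Sf.1 (hf.1 d (mem_support_iff.1 hd))
  rw [Polynomial.mem_degreeLT, Fin.prod_univ_two]
  simp only [Matrix.cons_val_zero, Matrix.cons_val_one, Polynomial.algebraMap_eq]
  rw [← Polynomial.C_pow, ← mul_assoc, ← Polynomial.C_mul]
  refine lt_of_le_of_lt (Polynomial.degree_C_mul_X_pow_le _ _) ?_
  exact_mod_cast Nat.lt_succ_of_le h2.1

/-- the multiplication by a linear polynomial -/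
theorem stb_mul {K : Type u} [Field K] (V W : Submodule K (MvPolynomial (Fin 2) K))
    (q : MvPolynomial (Fin 2) K) (h : ∀ g ∈ V, q * g ∈ W) :
    ∃ ψ : V →ₗ[K] W, ∀ g : V, (ψ g : MvPolynomial (Fin 2) K) = q * (g : MvPolynomial (Fin 2) K) :=
  ⟨((LinearMap.mulLeft K q).comp V.subtype).codRestrict W fun g => h g g.2, fun _ => rfl⟩

/-- rank and kernel of the restriction -/
theorem stb_rank {K : Type u} [Field K] (h3 : S_FibDiv.{u}) {n τ s : ℕ} {μ : Fin s → ℕ}
    {p : Fin s → Fin 2 → K} {x0 : K} (hp : ∀ i, p i 0 ≠ x0)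
    (hfin : ∀ e, Module.Finite K (LN (Sf n τ e) μ p)) :
    ∃ r : ℕ → ℕ, Module.finrank K (LN (Sf n τ 0) μ p) = r 0 ∧
      (∀ e, Module.finrank K (LN (Sf n τ (e + 1)) μ p) =
        Module.finrank K (LN (Sf n τ e) μ p) + r (e + 1)) ∧
      (∀ e, r e ≤ r (e + 1)) ∧ ∀ e, r e ≤ τ + 1 := by
  obtain ⟨hA, hB, hC⟩ := h3 K n τ s μ p x0 hp
  obtain ⟨φ, hφ⟩ : ∃ φ : MvPolynomial (Fin 2) K →ₗ[K] Polynomial K, ∀ f, φ f = rst x0 f :=
    ⟨(rst x0).toLinearMap, fun _ => rfl⟩
  have hrn : ∀ e, Module.finrank K (LN (Sf n τ e) μ p) =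
      Module.finrank K ((LN (Sf n τ e) μ p).map φ) +
        Module.finrank K (LinearMap.ker (φ.domRestrict (LN (Sf n τ e) μ p))) := by
    intro e
    haveI := hfin e
    have h1 := LinearMap.finrank_range_add_finrank_ker (φ.domRestrict (LN (Sf n τ e) μ p))
    rw [LinearMap.range_domRestrict] at h1
    exact h1.symm
  have hmem : ∀ e (f : LN (Sf n τ e) μ p), f ∈ LinearMap.ker (φ.domRestrict (LN (Sf n τ e) μ p)) ↔
      rst x0 (f : MvPolynomial (Fin 2) K) = 0 := by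
    intro e f
    rw [LinearMap.mem_ker, LinearMap.domRestrict_apply, hφ]
  have hX : (X 0 - C x0 : MvPolynomial (Fin 2) K) ≠ 0 := by
    intro h
    have h1 := congrArg (eval (![x0 + 1, 0] : Fin 2 → K)) h
    simp at h1
  have hr0 : rst x0 (X 0 - C x0) = 0 := by
    rw [rst, map_sub, aeval_X, aeval_C]
    simp
  have hr1 : rst x0 (X 0 - C (x0 - 1)) = 1 := by
    rw [rst, map_sub, aeval_X, aeval_C]
    simp
  refine ⟨fun e => Module.finrank K ((LN (Sf n τ e) μ p).map φ), ?_, ?_, ?_, ?_⟩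
  · rw [hrn 0]
    have h1 : LinearMap.ker (φ.domRestrict (LN (Sf n τ 0) μ p)) = ⊥ := by
      rw [eq_bot_iff]
      intro f hf
      rw [hmem] at hf
      rw [Submodule.mem_bot]
      exact Subtype.ext (hA f f.2 hf)
    rw [h1, finrank_bot, add_zero]
  · intro e
    rw [hrn (e + 1), add_comm]
    congr 1
    obtain ⟨ψ, hψ⟩ := stb_mul (LN (Sf n τ e) μ p) (LN (Sf n τ (e + 1)) μ p) (X 0 - C x0)
      (fun g hg => hC e g hg x0)
    have hinj : Function.Injective ψ := by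
      intro g g' h
      have h1 : (ψ g : MvPolynomial (Fin 2) K) = ψ g' := by rw [h]
      rw [hψ, hψ] at h1
      exact Subtype.ext (mul_left_cancel₀ hX h1)
    have hker : LinearMap.ker (φ.domRestrict (LN (Sf n τ (e + 1)) μ p)) =
        LinearMap.range ψ := by
      ext f
      rw [hmem, LinearMap.mem_range]
      constructor
      · intro hf
        obtain ⟨g, hg, hfg⟩ := hB e f f.2 hf
        exact ⟨⟨g, hg⟩, Subtype.ext ((hψ _).trans hfg.symm)⟩
      · rintro ⟨g, rfl⟩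
        rw [hψ, map_mul, hr0, zero_mul]
    rw [hker]
    exact LinearMap.finrank_range_of_inj hinj
  · intro e
    haveI := hfin (e + 1)
    apply Submodule.finrank_mono
    intro q hq
    rw [Submodule.mem_map] at hq ⊢
    obtain ⟨f, hf, rfl⟩ := hq
    refine ⟨(X 0 - C (x0 - 1)) * f, hC e f hf (x0 - 1), ?_⟩
    rw [hφ, hφ, map_mul, hr1, one_mul]
  · intro e
    have h1 : (LN (Sf n τ e) μ p).map φ ≤ Polynomial.degreeLT K (τ + 1) := by
      intro q hq
      rw [Submodule.mem_map] at hq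
      obtain ⟨f, hf, rfl⟩ := hq
      rw [hφ]
      exact stb_deg x0 hf
    haveI : Module.Finite K (Polynomial.degreeLT K (τ + 1)) :=
      Module.Finite.equiv (Polynomial.degreeLTEquiv K (τ + 1)).symm
    refine (Submodule.finrank_mono h1).trans ?_
    rw [(Polynomial.degreeLTEquiv K (τ + 1)).finrank_eq]
    simp

theorem tStB (h1 : S_NCons.{u}) (h2 : S_NClo.{u}) (h3 : S_FibDiv.{u}) : S_StB.{u} := by
  intro F _ n τ
  have key : ∀ B : Multiset ℕ, ∃ r : ℕ → ℕ, hN F (Sf n τ 0) B = r 0 ∧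
      (∀ e, hN F (Sf n τ (e + 1)) B = hN F (Sf n τ e) B + r (e + 1)) ∧
      (∀ e, r e ≤ r (e + 1)) ∧ ∀ e, r e ≤ τ + 1 := by
    intro B
    have hp : ∀ i : Fin B.toList.length, up F ((i : ℕ) + 1) 0 ≠ up F 0 0 := fun i =>
      geo_up_ne F (Nat.succ_ne_zero _)
    obtain ⟨r, hr0, hr1, hr2, hr3⟩ := stb_rank h3 (n := n) (τ := τ)
      (μ := fun i : Fin B.toList.length => B.toList.get i)
      (p := fun i : Fin B.toList.length => up F ((i : ℕ) + 1)) (x0 := up F 0 0) hp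
      (fun e => h2.1 (UF F) (Sf n τ e) B.toList.length (fun i => B.toList.get i)
        (fun i => up F (i + 1)))
    refine ⟨r, ?_, fun e => ?_, hr2, hr3⟩
    · rw [(h1 F (Sf n τ 0) B).1]
      exact hr0
    · rw [(h1 F (Sf n τ (e + 1)) B).1, (h1 F (Sf n τ e) B).1]
      exact hr1 e
  refine ⟨fun e B => ?_, fun e B => ?_, fun B => ?_, fun e B => ?_⟩
  · obtain ⟨r, hr0, hr1, hr2, hr3⟩ := key B
    have := hr1 e
    omega
  · obtain ⟨r, hr0, hr1, hr2, hr3⟩ := key B
    have := hr1 e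
    have := hr3 (e + 1)
    omega
  · obtain ⟨r, hr0, hr1, hr2, hr3⟩ := key B
    have := hr1 0
    have := hr2 0
    simp only [zero_add] at *
    omega
  · obtain ⟨r, hr0, hr1, hr2, hr3⟩ := key B
    have h4 := hr1 e
    have h5 := hr1 (e + 1)
    have h6 := hr2 (e + 1)
    have h7 : e + 1 + 1 = e + 2 := rfl
    rw [h7] at h5 h6
    omega

end ShghC
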