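import Pool.Agent.ShghC.Spec

/-!
# ShghC/StC: the fibre inequality
-/

namespace ShghC

open MvPolynomial ShghJ

universe u v

namespace StCAux

/-- The coefficientwise derivation of polynomials in one variable. -/
theorem exists_Pd (K : Type u) [Field K] (D : Derivation ℤ K K) :
    ∃ E : Derivation ℤ (Polynomial K) (Polynomial K), ∀ p i, (E p).coeff i = D (p.coeff i) := by
  let _ : Differential K := ⟨D⟩
  exact ⟨Differential.mapCoeffs, fun p i => rfl⟩

theorem rst_monomial {K : Type u} [Field K] (x0 : K) (e : Fin 2 →₀ ℕ) (c : K) :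
    rst x0 (monomial e c) = Polynomial.monomial (e 1) (c * x0 ^ e 0) := by
  unfold rst
  rw [aeval_monomial, Finsupp.prod_fintype _ _ (fun i => pow_zero _), Fin.prod_univ_two]
  simp only [Matrix.cons_val_zero, Matrix.cons_val_one, Matrix.cons_val_fin_one]
  rw [← Polynomial.C_pow, ← mul_assoc, Polynomial.algebraMap_eq, ← Polynomial.C_mul,
    Polynomial.C_mul_X_pow_eq_monomial]

theorem Dc_monomial {K : Type u} [Field K] (D : Derivation ℤ K K) (e : Fin 2 →₀ ℕ) (c : K) :
    Dc D (monomial e c) = monomial e (D c) := by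
  classical
  ext x
  rw [coeff_Dc, coeff_monomial, coeff_monomial]
  split_ifs
  · rfl
  · exact map_zero D

theorem rst_Dc {K : Type u} [Field K] (D : Derivation ℤ K K)
    (E : Derivation ℤ (Polynomial K) (Polynomial K))
    (hE : ∀ p i, (E p).coeff i = D (p.coeff i)) (x0 : K) (h0 : D x0 = 0)
    (f : MvPolynomial (Fin 2) K) : rst x0 (Dc D f) = E (rst x0 f) := by
  classical
  induction f using MvPolynomial.induction_on' with
  | monomial e c =>
    rw [Dc_monomial, rst_monomial, rst_monomial]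
    ext i
    rw [hE, Polynomial.coeff_monomial, Polynomial.coeff_monomial]
    have h1 : D (x0 ^ e 0) = 0 := by rw [D.leibniz_pow, h0, smul_zero, smul_zero]
    split_ifs
    · rw [D.leibniz, h1, smul_zero, zero_add, smul_eq_mul, mul_comm]
    · exact (map_zero D).symm
  | add f g hf hg => rw [map_add, map_add, hf, hg, map_add, map_add]

/-- The order of the derivative. -/
theorem order_step {K : Type u} [Field K] [CharZero K] (D : Derivation ℤ K K)
    (E : Derivation ℤ (Polynomial K) (Polynomial K))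
    (hE : ∀ p i, (E p).coeff i = D (p.coeff i)) (y0 : K) (h1 : D y0 = 1) (φ : Polynomial K)
    (hφ : φ ≠ 0) (j : ℕ) (hj : φ.rootMultiplicity y0 = j + 1) :
    E φ ≠ 0 ∧ (E φ).rootMultiplicity y0 = j := by
  classical
  obtain ⟨q, hq, hq1⟩ := Polynomial.exists_eq_pow_rootMultiplicity_mul_and_not_dvd φ hφ y0
  rw [hj] at hq
  set L : Polynomial K := Polynomial.X - Polynomial.C y0 with hL
  have hEL : E L = -1 := by
    ext i
    rw [hE, hL, Polynomial.coeff_sub, Polynomial.coeff_X, Polynomial.coeff_C, map_sub,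
      Polynomial.coeff_neg, Polynomial.coeff_one]
    have e1 : D (if 1 = i then (1 : K) else 0) = 0 := by
      split_ifs
      · exact D.map_one_eq_zero
      · exact map_zero D
    have e2 : D (if i = 0 then y0 else 0) = if i = 0 then 1 else 0 := by
      split_ifs
      · exact h1
      · exact map_zero D
    rw [e1, e2, zero_sub]
  have hEφ : E φ = L ^ j * (L * E q - ((j + 1 : ℕ) : Polynomial K) * q) := by
    rw [hq, E.leibniz, E.leibniz_pow, hEL, smul_eq_mul, smul_eq_mul, smul_eq_mul,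
      Nat.add_sub_cancel, nsmul_eq_mul]
    ring
  have hnd : ¬ L ∣ L * E q - ((j + 1 : ℕ) : Polynomial K) * q := by
    intro h
    apply hq1
    have h2 : L ∣ ((j + 1 : ℕ) : Polynomial K) * q := by
      have h3 := dvd_sub (dvd_mul_right L (E q)) h
      rwa [sub_sub_cancel] at h3
    have h4 : ((j + 1 : ℕ) : Polynomial K) = Polynomial.C ((j + 1 : ℕ) : K) := by
      rw [map_natCast]
    rw [h4] at h2
    have h5 : ((j + 1 : ℕ) : K) ≠ 0 := Nat.cast_ne_zero.2 (Nat.succ_ne_zero j)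
    have h6 := Dvd.dvd.mul_left h2 (Polynomial.C ((j + 1 : ℕ) : K)⁻¹)
    rwa [← mul_assoc, ← Polynomial.C_mul, inv_mul_cancel₀ h5, Polynomial.C_1, one_mul] at h6
  have hne : L * E q - ((j + 1 : ℕ) : Polynomial K) * q ≠ 0 := by
    intro h
    rw [h] at hnd
    exact hnd (dvd_zero L)
  have hL0 : L ≠ 0 := Polynomial.X_sub_C_ne_zero y0
  have hE0 : E φ ≠ 0 := by
    rw [hEφ]
    exact mul_ne_zero (pow_ne_zero _ hL0) hne
  refine ⟨hE0, le_antisymm ?_ ?_⟩
  · rw [Polynomial.rootMultiplicity_le_iff hE0]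
    intro h
    rw [hEφ, pow_succ] at h
    exact hnd ((mul_dvd_mul_iff_left (pow_ne_zero _ hL0)).1 h)
  · rw [Polynomial.le_rootMultiplicity_iff hE0, hEφ]
    exact dvd_mul_right _ _

theorem orders {K : Type u} [Field K] [CharZero K] (D : Derivation ℤ K K)
    (E : Derivation ℤ (Polynomial K) (Polynomial K))
    (hE : ∀ p i, (E p).coeff i = D (p.coeff i)) (y0 : K) (h1 : D y0 = 1)
    (W : Submodule K (Polynomial K)) (hW : ∀ φ ∈ W, E φ ∈ W) (i : ℕ) : ∀ j : ℕ,
    (∃ φ ∈ W, φ ≠ 0 ∧ φ.rootMultiplicity y0 = i + j) →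
    ∃ φ ∈ W, φ ≠ 0 ∧ φ.rootMultiplicity y0 = i := by
  intro j
  induction j with
  | zero => exact fun h => h
  | succ j ih =>
    rintro ⟨φ, hφ, h0, h2⟩
    have h3 := order_step D E hE y0 h1 φ h0 (i + j) h2
    exact ih ⟨E φ, hW φ hφ, h3.1, h3.2⟩

/-- The members of `W` divisible by `(X - y0) ^ j`. -/
def Wf {K : Type u} [Field K] (W : Submodule K (Polynomial K)) (y0 : K) (j : ℕ) :
    Submodule K (Polynomial K) where
  carrier := {φ | φ ∈ W ∧ (Polynomial.X - Polynomial.C y0) ^ j ∣ φ}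
  add_mem' := fun {_ _} ha hb => ⟨W.add_mem ha.1 hb.1, dvd_add ha.2 hb.2⟩
  zero_mem' := ⟨W.zero_mem, dvd_zero _⟩
  smul_mem' := fun c φ h => ⟨W.smul_mem c h.1, by
    rw [Polynomial.smul_eq_C_mul]
    exact Dvd.dvd.mul_left h.2 _⟩

theorem Wf_le {K : Type u} [Field K] (W : Submodule K (Polynomial K)) (y0 : K) (j : ℕ) :
    Wf W y0 j ≤ W := fun _ h => h.1

theorem finrank_Wf {K : Type u} [Field K] [CharZero K] (D : Derivation ℤ K K)
    (E : Derivation ℤ (Polynomial K) (Polynomial K))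
    (hE : ∀ p i, (E p).coeff i = D (p.coeff i)) (y0 : K) (h1 : D y0 = 1)
    (W : Submodule K (Polynomial K)) (hfin : Module.Finite K W) (hW : ∀ φ ∈ W, E φ ∈ W)
    (m : ℕ) : Module.finrank K (Wf W y0 m) ≤ Module.finrank K W - m := by
  classical
  by_cases h0 : Wf W y0 m = ⊥
  · rw [h0, finrank_bot]
    exact Nat.zero_le _
  · obtain ⟨φ, hφ, hφ0⟩ := (Submodule.ne_bot_iff _).1 h0
    have h2 : m ≤ φ.rootMultiplicity y0 := (Polynomial.le_rootMultiplicity_iff hφ0).2 hφ.2
    have h3 : ∀ i ≤ m, ∃ φ ∈ W, φ ≠ 0 ∧ φ.rootMultiplicity y0 = i := by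
      intro i hi
      refine orders D E hE y0 h1 W hW i (φ.rootMultiplicity y0 - i) ⟨φ, hφ.1, hφ0, ?_⟩
      omega
    have h4 : ∀ j ≤ m, Module.finrank K (Wf W y0 j) + j ≤ Module.finrank K W := by
      intro j
      induction j with
      | zero =>
        intro _
        exact Submodule.finrank_mono (Wf_le W y0 0)
      | succ j ih =>
        intro hj
        have h5 := ih (by omega)
        obtain ⟨ψ, hψ, hψ0, hψ1⟩ := h3 j (by omega)
        have hf : Module.Finite K (Wf W y0 j) := Submodule.finiteDimensional_of_le (Wf_le W y0 j)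
        have h6 : Wf W y0 (j + 1) < Wf W y0 j := by
          refine lt_of_le_of_ne (fun φ h => ⟨h.1, (pow_dvd_pow _ (Nat.le_succ j)).trans h.2⟩) ?_
          intro h7
          have h8 : ψ ∈ Wf W y0 j :=
            ⟨hψ, (Polynomial.le_rootMultiplicity_iff hψ0).1 hψ1.ge⟩
          rw [← h7] at h8
          have h9 := (Polynomial.le_rootMultiplicity_iff hψ0).2 h8.2
          omega
        have h7 := Submodule.finrank_lt_finrank_of_lt h6
        omega
    have h5 := h4 m le_rfl
    omega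

/-- Dimension of the image and the kernel. -/
theorem rank_null {K : Type u} [Field K] {M N : Type u} [AddCommGroup M] [Module K M]
    [AddCommGroup N] [Module K N] (A : Submodule K M) [Module.Finite K A] (φ : M →ₗ[K] N) :
    Module.finrank K A = Module.finrank K (A.map φ) +
      Module.finrank K (A ⊓ LinearMap.ker φ : Submodule K M) := by
  have h1 := LinearMap.finrank_range_add_finrank_ker (φ.domRestrict A)
  have h2 : Module.finrank K (LinearMap.ker (φ.domRestrict A)) =
      Module.finrank K (A ⊓ LinearMap.ker φ : Submodule K M) := by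
    have h3 : (LinearMap.ker (φ.domRestrict A)).map A.subtype = A ⊓ LinearMap.ker φ := by
      ext f
      simp only [Submodule.mem_map, LinearMap.mem_ker, LinearMap.domRestrict_apply,
        Submodule.subtype_apply, Submodule.mem_inf]
      constructor
      · rintro ⟨g, hg, rfl⟩
        exact ⟨g.2, hg⟩
      · rintro ⟨hf1, hf2⟩
        exact ⟨⟨f, hf1⟩, hf2, rfl⟩
    rw [← h3]
    exact (Submodule.equivMapOfInjective _ A.injective_subtype _).finrank_eq
  have h4 : LinearMap.range (φ.domRestrict A) = A.map φ := by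
    ext x
    simp only [LinearMap.mem_range, LinearMap.domRestrict_apply, Submodule.mem_map]
    constructor
    · rintro ⟨y, rfl⟩
      exact ⟨y, y.2, rfl⟩
    · rintro ⟨y, hy, rfl⟩
      exact ⟨⟨y, hy⟩, rfl⟩
  rw [h4] at h1
  omega

/-- Multiplication by `X 0 - C x0`. -/
noncomputable def mulL {K : Type u} [Field K] (x0 : K) :
    MvPolynomial (Fin 2) K →ₗ[K] MvPolynomial (Fin 2) K :=
  LinearMap.mulLeft K (X 0 - C x0)

theorem mulL_apply {K : Type u} [Field K] (x0 : K) (g : MvPolynomial (Fin 2) K) :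
    mulL x0 g = (X 0 - C x0) * g := rfl

theorem lin_ne {K : Type u} [Field K] (x0 : K) : (X 0 - C x0 : MvPolynomial (Fin 2) K) ≠ 0 := by
  intro h
  have h1 := congrArg (fun f => eval ![x0 + 1, 0] f) h
  simp at h1

theorem mulL_inj {K : Type u} [Field K] (x0 : K) : Function.Injective (mulL x0) := by
  intro f g h
  rw [mulL_apply, mulL_apply] at h
  exact mul_left_cancel₀ (lin_ne x0) h

theorem rst_lin {K : Type u} [Field K] (x0 : K) : rst x0 (X 0 - C x0) = 0 := by
  simp [rst]

/-- Division by `X 0 - C x0` lowers the multiplicity at most by one. -/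
theorem mult_div {K : Type u} [Field K] (x0 y0 : K) (m : ℕ) (g : MvPolynomial (Fin 2) K)
    (h : (X 0 - C x0) * g ∈ ShghT.pt x0 y0 ^ m) : g ∈ ShghT.pt x0 y0 ^ (m - 1) := by
  have h1 := (ShghE.tf_mem_iff _ _ _ _).1 h
  refine (ShghE.tf_mem_iff _ _ _ _).2 fun x hx => ?_
  have h2 := h1 (Finsupp.single 0 1 + x) (by
    rw [map_add, Finsupp.degree_single]
    omega)
  rw [map_mul, map_sub, ShghE.tfShift_X0, ShghE.tfShift_C, add_sub_cancel_right,
    coeff_X_mul] at h2
  exact h2

/-- The restriction of a polynomial with multiplicity `m`. -/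
theorem rst_pt {K : Type u} [Field K] (x0 y0 : K) (m : ℕ) (f : MvPolynomial (Fin 2) K)
    (h : f ∈ ShghT.pt x0 y0 ^ m) : (Polynomial.X - Polynomial.C y0) ^ m ∣ rst x0 f := by
  have h1 := Ideal.mem_map_of_mem (rst x0) h
  rw [Ideal.map_pow] at h1
  have h2 : Ideal.map (rst x0) (ShghT.pt x0 y0) ≤
      Ideal.span {Polynomial.X - Polynomial.C y0} := by
    unfold ShghT.pt
    rw [Ideal.map_span, Ideal.span_le]
    rintro _ ⟨g, hg, rfl⟩
    rcases hg with rfl | rfl
    · rw [rst_lin]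
      exact Ideal.zero_mem _
    · have h3 : rst x0 (X 1 - C y0 : MvPolynomial (Fin 2) K) =
          Polynomial.X - Polynomial.C y0 := by simp [rst]
      rw [h3]
      exact Ideal.subset_span rfl
  have h3 := Ideal.pow_right_mono h2 m h1
  rw [Ideal.span_singleton_pow, Ideal.mem_span_singleton] at h3
  exact h3

/-- The kernel of the restriction, degree zero. -/
theorem ker_zero {K : Type u} [Field K] (h3 : S_FibDiv.{u}) {n τ s : ℕ} (μ : Fin s → ℕ)
    (p : Fin s → Fin 2 → K) (x0 : K) (hp : ∀ i, p i 0 ≠ x0) :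
    LN (Sf n τ 0) μ p ⊓ LinearMap.ker (rst x0).toLinearMap = ⊥ := by
  rw [eq_bot_iff]
  intro f hf
  rw [Submodule.mem_inf, LinearMap.mem_ker, AlgHom.toLinearMap_apply] at hf
  exact (h3 K n τ s μ p x0 hp).1 f hf.1 hf.2

/-- The kernel of the restriction. -/
theorem ker_succ {K : Type u} [Field K] (h3 : S_FibDiv.{u}) {n τ s : ℕ} (e : ℕ) (μ : Fin s → ℕ)
    (p : Fin s → Fin 2 → K) (x0 : K) (hp : ∀ i, p i 0 ≠ x0) :
    LN (Sf n τ (e + 1)) μ p ⊓ LinearMap.ker (rst x0).toLinearMap =
      (LN (Sf n τ e) μ p).map (mulL x0) := by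
  ext f
  rw [Submodule.mem_inf, LinearMap.mem_ker, AlgHom.toLinearMap_apply, Submodule.mem_map]
  constructor
  · rintro ⟨h1, h2⟩
    obtain ⟨g, hg, rfl⟩ := (h3 K n τ s μ p x0 hp).2.1 e f h1 h2
    exact ⟨g, hg, rfl⟩
  · rintro ⟨g, hg, rfl⟩
    refine ⟨(h3 K n τ s μ p x0 hp).2.2 e g hg x0, ?_⟩
    rw [mulL_apply, map_mul, rst_lin, zero_mul]

theorem ker_fil {K : Type u} [Field K] (h3 : S_FibDiv.{u}) {n τ s : ℕ} (e : ℕ) (μ : Fin s → ℕ)
    (p : Fin s → Fin 2 → K) (q : Fin 2 → K) (hp : ∀ i, p i 0 ≠ q 0) (m : ℕ) :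
    fil (LN (Sf n τ (e + 1)) μ p) q m ⊓ LinearMap.ker (rst (q 0)).toLinearMap ≤
      (fil (LN (Sf n τ e) μ p) q (m - 1)).map (mulL (q 0)) := by
  intro f hf
  rw [Submodule.mem_inf, LinearMap.mem_ker, AlgHom.toLinearMap_apply] at hf
  obtain ⟨⟨h1, h2⟩, h4⟩ := hf
  obtain ⟨g, hg, rfl⟩ := (h3 K n τ s μ p (q 0) hp).2.1 e f h1 h4
  exact ⟨g, ⟨hg, mult_div (q 0) (q 1) m g h2⟩, rfl⟩

/-- The step of the fibre inequality over a field. -/
theorem step {K : Type u} [Field K] [CharZero K] (h2 : S_NClo.{u}) (h3 : S_FibDiv.{u})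
    (D : Derivation ℤ K K) {n τ s : ℕ} (μ : Fin s → ℕ)
    (p : Fin s → Fin 2 → K) (q : Fin 2 → K) (hp : ∀ i, p i 0 ≠ q 0)
    (hDp : ∀ i c, D (p i c) = 0) (hD0 : D (q 0) = 0) (hD1 : D (q 1) = 1) (m : ℕ) :
    Module.finrank K (fil (LN (Sf n τ 0) μ p) q m) ≤
      Module.finrank K (LN (Sf n τ 0) μ p) - m ∧
    ∀ e, Module.finrank K (fil (LN (Sf n τ (e + 1)) μ p) q m) ≤
      Module.finrank K (fil (LN (Sf n τ e) μ p) q (m - 1)) +
        ((Module.finrank K (LN (Sf n τ (e + 1)) μ p) - Module.finrank K (LN (Sf n τ e) μ p)) -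
          m) := by
  obtain ⟨E, hE⟩ := exists_Pd K D
  have hV : ∀ e, Module.Finite K (LN (Sf n τ e) μ p) := fun e => h2.1 K _ s μ p
  have hU : ∀ e m, Module.Finite K (fil (LN (Sf n τ e) μ p) q m) := fun e m =>
    geo_finite_of_le (geo_fil_le _ _ _) (hV e)
  -- the image
  have himg : ∀ e, Module.finrank K ((fil (LN (Sf n τ e) μ p) q m).map (rst (q 0)).toLinearMap) ≤
      Module.finrank K ((LN (Sf n τ e) μ p).map (rst (q 0)).toLinearMap) - m := by
    intro e
    have hfin : Module.Finite K ((LN (Sf n τ e) μ p).map (rst (q 0)).toLinearMap) := by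
      have := hV e
      infer_instance
    have hW : ∀ φ ∈ (LN (Sf n τ e) μ p).map (rst (q 0)).toLinearMap,
        E φ ∈ (LN (Sf n τ e) μ p).map (rst (q 0)).toLinearMap := by
      rintro _ ⟨f, hf, rfl⟩
      refine ⟨Dc D f, h2.2 K D _ s μ p hDp f hf, ?_⟩
      rw [AlgHom.toLinearMap_apply, AlgHom.toLinearMap_apply, rst_Dc D E hE (q 0) hD0]
    have h4 := finrank_Wf D E hE (q 1) hD1 _ hfin hW m
    have h5 : (fil (LN (Sf n τ e) μ p) q m).map (rst (q 0)).toLinearMap ≤
        Wf ((LN (Sf n τ e) μ p).map (rst (q 0)).toLinearMap) (q 1) m := by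
      rintro _ ⟨f, hf, rfl⟩
      exact ⟨⟨f, hf.1, rfl⟩, rst_pt (q 0) (q 1) m f hf.2⟩
    have h6 : Module.Finite K (Wf ((LN (Sf n τ e) μ p).map (rst (q 0)).toLinearMap) (q 1) m) :=
      Submodule.finiteDimensional_of_le (Wf_le _ _ _)
    exact (Submodule.finrank_mono h5).trans h4
  constructor
  · have h4 := rank_null (fil (LN (Sf n τ 0) μ p) q m) (rst (q 0)).toLinearMap
    have h5 := rank_null (LN (Sf n τ 0) μ p) (rst (q 0)).toLinearMap
    rw [ker_zero h3 μ p (q 0) hp, finrank_bot] at h5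
    have h6 : fil (LN (Sf n τ 0) μ p) q m ⊓ LinearMap.ker (rst (q 0)).toLinearMap = ⊥ := by
      rw [eq_bot_iff, ← ker_zero h3 μ p (q 0) hp]
      exact inf_le_inf_right _ (geo_fil_le _ _ _)
    rw [h6, finrank_bot] at h4
    have h7 := himg 0
    omega
  · intro e
    have h4 := rank_null (fil (LN (Sf n τ (e + 1)) μ p) q m) (rst (q 0)).toLinearMap
    have h5 := rank_null (LN (Sf n τ (e + 1)) μ p) (rst (q 0)).toLinearMap
    rw [ker_succ h3 e μ p (q 0) hp] at h5
    have h6 : Module.finrank K ((LN (Sf n τ e) μ p).map (mulL (q 0))) =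
        Module.finrank K (LN (Sf n τ e) μ p) :=
      (Submodule.equivMapOfInjective _ (mulL_inj (q 0)) _).finrank_eq.symm
    have h7 : Module.finrank K (fil (LN (Sf n τ (e + 1)) μ p) q m ⊓
        LinearMap.ker (rst (q 0)).toLinearMap : Submodule K _) ≤
        Module.finrank K (fil (LN (Sf n τ e) μ p) q (m - 1)) := by
      have h8 := hU e (m - 1)
      have h9 : Module.Finite K ((fil (LN (Sf n τ e) μ p) q (m - 1)).map (mulL (q 0))) := by
        infer_instance
      refine (Submodule.finrank_mono (ker_fil h3 e μ p q hp m)).trans ?_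
      exact (Submodule.equivMapOfInjective _ (mulL_inj (q 0)) _).finrank_eq.ge
    have h8 := himg (e + 1)
    omega

end StCAux

open StCAux in
theorem tStC (h1 : S_NCons.{u}) (h2 : S_NClo.{u}) (h3 : S_FibDiv.{u}) : S_StC.{u} := by
  classical
  intro F _ _ n τ e m B
  obtain ⟨D₀, hD₀⟩ := tDer F 0 1
  obtain ⟨D, hD'⟩ := geo_mkDer (UF F) (fun x => D₀ x) (fun a b => map_add D₀ a b)
    (fun a b => D₀.leibniz a b)
  have hD : ∀ (i' : ℕ) (c' : Fin 2), D (up F i' c') = if i' = 0 ∧ c' = 1 then 1 else 0 := by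
    intro i' c'
    rw [hD', hD₀]
  have hchar : CharZero (UF F) := charZero_of_injective_algebraMap (algebraMap F (UF F)).injective
  have hst := fun m => step (K := UF F) h2 h3 D (n := n) (τ := τ)
    (fun i : Fin B.toList.length => B.toList.get i) (fun i => up F (i + 1)) (up F 0)
    (fun i => geo_up_ne F (by omega)) (fun i c => by
      rw [hD, if_neg]
      rintro ⟨h, -⟩
      omega) (by
      rw [hD, if_neg]
      rintro ⟨-, h⟩
      exact absurd h (by decide)) (by rw [hD, if_pos ⟨rfl, rfl⟩]) m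
  rw [(h1 F _ B).2 m]
  simp only [(h1 F _ B).1]
  induction e generalizing m with
  | zero =>
    refine (hst m).1.trans ?_
    rw [Finset.sum_range_one]
    simp
  | succ e ih =>
    refine ((hst m).2 e).trans ?_
    rw [Finset.sum_range_succ']
    refine Nat.add_le_add ?_ ?_
    · refine (ih (m - 1)).trans (le_of_eq (Finset.sum_congr rfl fun i _ => ?_))
      rw [Nat.add_sub_add_right, Nat.sub_sub m 1 i, Nat.add_comm 1 i]
    · rw [Nat.sub_zero, Nat.sub_zero, if_neg (Nat.succ_ne_zero e), Nat.add_sub_cancel]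

end ShghC
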