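import Pool.Agent.ShghC.SpecE
import Pool.Agent.ShghC.StB
import Pool.Agent.ShghC.StC

/-!
# ShghC/Fib1: a point of multiplicity `m + 1 > τ` contains its fibre
-/

namespace ShghC

open MvPolynomial ShghJ

universe u

theorem tFib1 (h1 : S_NCons.{u}) (h2 : S_NClo.{u}) (h3 : S_FibDiv.{u}) : S_Fib1.{u} := by
  classical
  intro F _ _ n τ m B hm
  obtain ⟨D₀, hD₀⟩ := tDer F 0 1
  obtain ⟨D, hD'⟩ := geo_mkDer (UF F) (fun x => D₀ x) (fun a b => map_add D₀ a b)
    (fun a b => D₀.leibniz a b)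
  have hD : ∀ (i' : ℕ) (c' : Fin 2), D (up F i' c') = if i' = 0 ∧ c' = 1 then 1 else 0 := by
    intro i' c'
    rw [hD', hD₀]
  have hchar : CharZero (UF F) := charZero_of_injective_algebraMap (algebraMap F (UF F)).injective
  have hp : ∀ i : Fin B.toList.length, up F ((i : ℕ) + 1) 0 ≠ up F 0 0 := fun i =>
    geo_up_ne F (by omega)
  have hst := StCAux.step (K := UF F) h2 h3 D (n := n) (τ := τ)
    (fun i : Fin B.toList.length => B.toList.get i) (fun i => up F (i + 1)) (up F 0)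
    hp (fun i c => by
      rw [hD, if_neg]
      rintro ⟨h, -⟩
      omega) (by
      rw [hD, if_neg]
      rintro ⟨-, h⟩
      exact absurd h (by decide)) (by rw [hD, if_pos ⟨rfl, rfl⟩]) (m + 1)
  obtain ⟨r, hr0, hr1, -, hr3⟩ := stb_rank (K := UF F) h3 (n := n) (τ := τ)
    (μ := fun i : Fin B.toList.length => B.toList.get i) (p := fun i => up F (i + 1))
    (x0 := up F 0 0) hp (fun e => h2.1 _ _ _ _ _)
  refine ⟨fun e => ?_, ?_⟩
  · rw [(h1 F _ B).2 (m + 1), (h1 F _ B).2 m]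
    have a1 := hst.2 e
    have a2 := hr1 e
    have a3 := hr3 (e + 1)
    rw [Nat.add_sub_cancel] at a1
    omega
  · rw [(h1 F _ B).2 (m + 1)]
    have a1 := hst.1
    have a3 := hr3 0
    rw [hr0] at a1
    omega

end ShghC
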