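import Pool.Agent.ShghC.SpecE
import Pool.Agent.ShghJ.CombD3
import Pool.Agent.ShghJ.GeoD

/-!
# ShghC/Hom: homogeneous systems with at least `30 m` points
-/

namespace ShghC

open MvPolynomial ShghJ

universe u

private theorem hom_TT (s m : ℕ) : TT (Multiset.replicate s m) = s * T m := by
  rw [TT, Multiset.map_replicate, Multiset.sum_replicate, smul_eq_mul]

/-- The numbers `p` and `q`. -/
private theorem hom_pq (m t χ X : ℤ) (hm : 1 ≤ m) (ht : 2 * t = m * (m + 1))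
    (hX : χ + 15 * m ^ 3 + 15 * m ^ 2 ≤ X) (h1 : 5 * χ ≤ 18 * m ^ 2)
    (h2 : 60 - 123 * m ^ 2 ≤ 60 * χ) :
    ∃ p q : ℤ, 18 * m ^ 2 ≤ 5 * p ∧ χ + t ≤ p ∧ 41 * m ^ 2 ≤ 20 * q ∧ t - χ ≤ q ∧
      (5 * p ≤ 18 * m ^ 2 + 4 ∨ p = χ + t) ∧
      8 * (2 * m + 1) * (p + q + t) ≤ 8 * X + 1 - (2 * m + 1) ^ 2 := by
  obtain ⟨p, hp1, hp2, hp3⟩ : ∃ p : ℤ, 18 * m ^ 2 ≤ 5 * p ∧ χ + t ≤ p ∧
      (5 * p ≤ 18 * m ^ 2 + 4 ∨ p = χ + t) := by
    by_cases h : 18 * m ^ 2 ≤ 5 * (χ + t)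
    · exact ⟨χ + t, h, le_refl _, Or.inr rfl⟩
    · exact ⟨(18 * m ^ 2 + 4) / 5, by omega, by omega, Or.inl (by omega)⟩
  obtain ⟨q, hq1, hq2, hq3⟩ : ∃ q : ℤ, 41 * m ^ 2 ≤ 20 * q ∧ t - χ ≤ q ∧
      (20 * q ≤ 41 * m ^ 2 + 19 ∨ q = t - χ) := by
    by_cases h : 41 * m ^ 2 ≤ 20 * (t - χ)
    · exact ⟨t - χ, h, le_refl _, Or.inr rfl⟩
    · exact ⟨(41 * m ^ 2 + 19) / 20, by omega, by omega, Or.inl (by omega)⟩
  refine ⟨p, q, hp1, hp2, hq1, hq2, hp3, ?_⟩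
  have e1 : m * (5 * χ) ≤ m * (18 * m ^ 2) := mul_le_mul_of_nonneg_left h1 (by linarith)
  have e2 : m * (60 - 123 * m ^ 2) ≤ m * (60 * χ) := mul_le_mul_of_nonneg_left h2 (by linarith)
  have e3 : m ≤ m ^ 2 := by nlinarith
  have e4 : m ^ 2 ≤ m ^ 3 := by
    have : m ^ 3 = m * m ^ 2 := by ring
    nlinarith [sq_nonneg m]
  rcases hp3 with hp3 | hp3 <;> rcases hq3 with hq3 | hq3
  · have e5 : 20 * (p + q + t) ≤ 123 * m ^ 2 + 10 * m + 35 := by nlinarith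
    have e6 : (2 * m + 1) * (20 * (p + q + t)) ≤ (2 * m + 1) * (123 * m ^ 2 + 10 * m + 35) :=
      mul_le_mul_of_nonneg_left e5 (by linarith)
    nlinarith
  · have e5 : 5 * (p + q + t) ≤ 23 * m ^ 2 + 5 * m + 4 - 5 * χ := by nlinarith
    have e6 : (2 * m + 1) * (5 * (p + q + t)) ≤ (2 * m + 1) * (23 * m ^ 2 + 5 * m + 4 - 5 * χ) :=
      mul_le_mul_of_nonneg_left e5 (by linarith)
    nlinarith
  · have e5 : 20 * (p + q + t) ≤ 20 * χ + 61 * m ^ 2 + 20 * m + 19 := by nlinarith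
    have e6 : (2 * m + 1) * (20 * (p + q + t)) ≤
        (2 * m + 1) * (20 * χ + 61 * m ^ 2 + 20 * m + 19) :=
      mul_le_mul_of_nonneg_left e5 (by linarith)
    nlinarith
  · have e5 : 2 * (p + q + t) = 3 * (m * (m + 1)) := by
      rw [hp3, hq3]
      linarith
    have e6 : (2 * m + 1) * (2 * (p + q + t)) = (2 * m + 1) * (3 * (m * (m + 1))) := by rw [e5]
    nlinarith

/-- The estimates for `a`. -/
private theorem hom_a (m t χ X d a g p q : ℤ) (hm : 1 ≤ m) (ht : 2 * t = m * (m + 1))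
    (hX2 : 2 * X = (d + 1) * (d + 2)) (hX : χ + 15 * m ^ 3 + 15 * m ^ 2 ≤ X)
    (h1 : 5 * χ ≤ 18 * m ^ 2) (h2 : 60 - 123 * m ^ 2 ≤ 60 * χ) (hd0 : 0 ≤ d)
    (ha1 : (2 * m + 1) * a ≤ d + m + 2) (ha2 : d + m + 3 ≤ (2 * m + 1) * (a + 1))
    (hg : 2 * g = (a - 1) * (a - 2)) (hp : 5 * p ≤ 18 * m ^ 2 + 4 ∨ p = χ + t)
    (hpq : 8 * (2 * m + 1) * (p + q + t) ≤ 8 * X + 1 - (2 * m + 1) ^ 2) :
    7 * m ≤ d ∧ 1 ≤ a ∧ (m + 1) * a ≤ d ∧ p + q + t + g + a ^ 2 * m ≤ a * d + 1 ∧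
      8 * p ≤ (d + 1 - m) * (d + 3 - m) ∧ d + 1 - m ≤ 2 * (d - m * a + 1) := by
  have e3 : m ≤ m ^ 2 := by nlinarith
  have e4 : m ^ 2 ≤ m ^ 3 := by
    have : m ^ 3 = m * m ^ 2 := by ring
    nlinarith [sq_nonneg m]
  have hd : 7 * m ≤ d := by
    by_contra hc
    have hc' : d + 1 ≤ 7 * m := by omega
    have h3 : (d + 1) * (d + 2) ≤ (7 * m) * (7 * m + 1) :=
      mul_le_mul hc' (by linarith) (by linarith) (by linarith)
    nlinarith [sq_nonneg (m - 1)]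
  have ha : 1 ≤ a := by
    by_contra hc
    have hc' : a ≤ 0 := by omega
    have : (2 * m + 1) * (a + 1) ≤ (2 * m + 1) * 1 :=
      mul_le_mul_of_nonneg_left (by linarith) (by linarith)
    linarith
  refine ⟨hd, ha, ?_, ?_, ?_, ?_⟩
  · by_contra hc
    have hc' : d + 1 ≤ (m + 1) * a := by omega
    have h3 : (2 * m + 1) * (d + 1) ≤ (2 * m + 1) * ((m + 1) * a) :=
      mul_le_mul_of_nonneg_left hc' (by linarith)
    have h4 : (m + 1) * ((2 * m + 1) * a) ≤ (m + 1) * (d + m + 2) :=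
      mul_le_mul_of_nonneg_left ha1 (by linarith)
    have h5 : m * (7 * m) ≤ m * d := mul_le_mul_of_nonneg_left hd (by linarith)
    nlinarith
  · -- capacity
    have h3 : (2 * (2 * m + 1) * a - (2 * d + 3)) ^ 2 ≤ (2 * m + 1) ^ 2 := by
      apply sq_le_sq'
      · linarith
      · linarith
    have h4 : 8 * (2 * m + 1) * (a * d - a ^ 2 * m - g + 1) =
        (2 * d + 3) ^ 2 - (2 * (2 * m + 1) * a - (2 * d + 3)) ^ 2 := by
      linear_combination -4 * (2 * m + 1) * hg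
    have h5 : (2 * d + 3) ^ 2 = 8 * X + 1 := by linear_combination -4 * hX2
    have h6 : 8 * (2 * m + 1) * (p + q + t) ≤ 8 * (2 * m + 1) * (a * d - a ^ 2 * m - g + 1) := by
      linarith
    have h7 : p + q + t ≤ a * d - a ^ 2 * m - g + 1 :=
      le_of_mul_le_mul_left h6 (by linarith)
    linarith
  · have h3 : (6 * m + 1) * (6 * m + 3) ≤ (d + 1 - m) * (d + 3 - m) :=
      mul_le_mul (by linarith) (by linarith) (by linarith) (by linarith)
    rcases hp with hp | hp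
    · nlinarith
    · nlinarith
  · by_contra hc
    have hc' : 2 * (d - m * a + 1) + 1 ≤ d + 1 - m := by omega
    have h4 : m * ((2 * m + 1) * a) ≤ m * (d + m + 2) :=
      mul_le_mul_of_nonneg_left ha1 (by linarith)
    have h5 : (2 * m + 1) * (2 * (d - m * a + 1) + 1) ≤ (2 * m + 1) * (d + 1 - m) :=
      mul_le_mul_of_nonneg_left hc' (by linarith)
    nlinarith

theorem tHom (h1 : S_HomC.{u}) : S_Hom.{u} := by
  intro F _ _ d m s hm hs
  have hchar : ∀ d' : ℕ, ∀ n : ℕ, 1 ≤ n → n ≤ d' → (n : F) ≠ 0 :=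
    fun _ n hn _ => Nat.cast_ne_zero.2 (by omega)
  have HD : HFunD d (hF F d) := hfunD_hF F d (hchar d)
  have hw := winD d (hF F d) HD m 0 (Multiset.replicate s m) (by simp)
    (fun x hx => (Multiset.eq_of_mem_replicate hx).le)
  rw [zero_add, hom_TT, Multiset.sum_zero] at hw
  obtain ⟨hw1, hw2⟩ := hw
  obtain ⟨t, ht⟩ : ∃ t, t = T m := ⟨_, rfl⟩
  have ht2 : 2 * (t : ℤ) = (m : ℤ) * (m + 1) := by
    rw [ht]
    exact_mod_cast two_T m
  obtain ⟨X, hX⟩ : ∃ X, X = T (d + 1) := ⟨_, rfl⟩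
  have hX2 : 2 * (X : ℤ) = ((d : ℤ) + 1) * (d + 2) := by
    rw [hX]
    have h4 : (2 * T (d + 1) : ℤ) = ((d : ℤ) + 1) * (d + 1 + 1) := by exact_mod_cast two_T (d + 1)
    rw [h4]
    ring
  rw [← ht, ← hX] at hw1 hw2 ⊢
  have hm' : (1 : ℤ) ≤ m := by exact_mod_cast hm
  by_cases hA : 18 * (m : ℤ) ^ 2 ≤ 5 * ((X : ℤ) - s * t)
  · have h3 := hw2 (by
      push_cast
      nlinarith)
    omega
  by_cases hB : 1 ≤ hF F d (Multiset.replicate s m) ∧
      123 * (m : ℤ) ^ 2 < 60 * (1 - ((X : ℤ) - s * t))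
  · exfalso
    have h3 := hw1 hB.1
    have h4 : 60 * ((1 : ℤ) + s * t) ≤ m * (123 * m + 40 * 0) + 60 * X := by
      have h5 : 60 * (1 + s * t) ≤ m * (123 * m + 40 * 0) + 60 * X := by
        have := hB.1
        omega
      exact_mod_cast h5
    nlinarith [hB.2]
  by_cases hC : 123 * (m : ℤ) ^ 2 < 60 * (1 - ((X : ℤ) - s * t))
  · have h3 : hF F d (Multiset.replicate s m) = 0 := by
      by_contra hne
      exact hB ⟨Nat.one_le_iff_ne_zero.2 hne, hC⟩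
    have h4 : (X : ℤ) ≤ s * t := by nlinarith [sq_nonneg (m : ℤ)]
    have h5 : X ≤ s * t := by exact_mod_cast h4
    omega
  -- the window
  obtain ⟨χ, hχ⟩ : ∃ χ : ℤ, χ = (X : ℤ) - s * t := ⟨_, rfl⟩
  rw [← hχ] at hA hC
  have hst : 15 * (m : ℤ) ^ 3 + 15 * (m : ℤ) ^ 2 ≤ s * t := by
    have h3 : (30 * (m : ℤ)) * t ≤ s * t :=
      mul_le_mul_of_nonneg_right (by exact_mod_cast hs) (Nat.cast_nonneg _)
    have h4 : (30 * (m : ℤ)) * t = 15 * (m : ℤ) ^ 3 + 15 * (m : ℤ) ^ 2 := by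
      linear_combination 15 * (m : ℤ) * ht2
    linarith
  obtain ⟨p, q, hp1, hp2, hq1, hq2, hp3, hpq⟩ := hom_pq m t χ X hm' ht2 (by linarith) (by omega)
    (by omega)
  obtain ⟨a, ha⟩ : ∃ a, a = (d + m + 2) / (2 * m + 1) := ⟨_, rfl⟩
  have ha1 : (2 * m + 1) * a ≤ d + m + 2 := by
    rw [ha]
    exact Nat.mul_div_le _ _
  have ha2 : d + m + 3 ≤ (2 * m + 1) * (a + 1) := by
    rw [ha]
    exact Nat.lt_mul_div_succ _ (by omega)
  have ha1' : (2 * (m : ℤ) + 1) * a ≤ d + m + 2 := by exact_mod_cast ha1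
  have ha2' : (d : ℤ) + m + 3 ≤ (2 * m + 1) * (a + 1) := by exact_mod_cast ha2
  have ha0 : 1 ≤ a := by
    by_contra hc
    have : a = 0 := by omega
    rw [this] at ha2'
    have h3 := (hom_a m t χ X d 0 1 p q hm' ht2 hX2 (by linarith) (by omega) (by omega)
      (Int.natCast_nonneg _) (by linarith) (by simpa using ha2') (by norm_num) hp3 hpq).2.1
    omega
  obtain ⟨g, hg⟩ : ∃ g, g = T (a - 2) := ⟨_, rfl⟩
  have hg2 : 2 * (g : ℤ) = ((a : ℤ) - 1) * (a - 2) := by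
    rcases Nat.lt_or_ge a 2 with h | h
    · have : a = 1 := by omega
      subst this
      rw [hg]
      simp [T]
    · obtain ⟨a', ha'⟩ : ∃ a', a = a' + 2 := ⟨a - 2, by omega⟩
      have h3 := two_T a'
      rw [hg, ha', Nat.add_sub_cancel]
      have h4 : (2 * T a' : ℤ) = a' * (a' + 1) := by exact_mod_cast h3
      rw [h4]
      push_cast
      ring
  obtain ⟨h7, -, hma, hcap, h8p, he⟩ := hom_a m t χ X d a g p q hm' ht2 hX2 (by linarith)
    (by omega) (by omega) (Int.natCast_nonneg _) ha1' ha2' hg2 hp3 hpq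
  have hp0 : 0 ≤ p := by nlinarith [sq_nonneg (m : ℤ)]
  have hq0 : 0 ≤ q := by nlinarith [sq_nonneg (m : ℤ)]
  lift p to ℕ using hp0
  lift q to ℕ using hq0
  obtain ⟨t1, ht1⟩ : ∃ t, t = T (m - 1) := ⟨_, rfl⟩
  have ht12 : 2 * (t1 : ℤ) = ((m : ℤ) - 1) * m := by
    obtain ⟨m', hm'⟩ : ∃ m', m = m' + 1 := ⟨m - 1, by omega⟩
    have h3 := two_T m'
    rw [ht1, hm', Nat.add_sub_cancel]
    have h4 : (2 * T m' : ℤ) = m' * (m' + 1) := by exact_mod_cast h3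
    rw [h4]
    push_cast
    ring
  have h9 := h1 F d a m p q (Multiset.replicate s m) hm
    (fun x hx => (Multiset.eq_of_mem_replicate hx).le) ha0 (by exact_mod_cast hma)
    (by exact_mod_cast hp1)
    (by
      rw [hom_TT, ← ht, ← hX]
      have : (X : ℤ) + t ≤ s * t + p := by linarith
      exact_mod_cast this)
    (by exact_mod_cast hq1)
    (by
      rw [hom_TT, ← ht, ← hX]
      have : (t : ℤ) + s * t ≤ X + q := by linarith
      exact_mod_cast this)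
    (by
      rw [← ht, ← hg]
      exact_mod_cast hcap)
    (by
      rw [hom_TT, Multiset.count_replicate_self, ← ht, ← hX, ← hg, ← ht1]
      have h3 : (p : ℤ) + m * (a * d + 1) + s * t ≤ X + s * t + m * g + (a : ℤ) ^ 2 * t1 := by
        have e1 : ((d : ℤ) + 1 - m) * (d + 3 - m) ≤
            (2 * (d - m * a + 1)) * (2 * (d - m * a + 1) + 2) :=
          mul_le_mul he (by linarith) (by linarith) (by linarith)
        have e2 : 2 * (m * (a * d + 1) : ℤ) + (d - m * a + 1) * (d - m * a + 2) =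
            2 * X + 2 * m * g + 2 * (a : ℤ) ^ 2 * t1 := by
          linear_combination -hX2 - (m : ℤ) * hg2 - (a : ℤ) ^ 2 * ht12
        nlinarith
      exact_mod_cast h3)
  rw [h9, hom_TT, ← ht, ← hX]

end ShghC
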