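import Pool.Agent.ShghC.SpecE
import Pool.Agent.ShghJ.CombD3
import Pool.Agent.ShghJ.GeoD

/-!
# ShghC/HomC: closing with exact strips
-/

namespace ShghC

open MvPolynomial ShghJ

universe u

theorem tHomC (h1 : S_CloseR.{u}) (h2 : S_PE.{u}) : S_HomC.{u} := by
  intro F _ _ d a m p q S hm hS ha hd hp hpχ hq hqχ hcap hcount
  have hchar : ∀ d' : ℕ, ∀ n : ℕ, 1 ≤ n → n ≤ d' → (n : F) ≠ 0 :=
    fun _ n hn _ => Nat.cast_ne_zero.2 (by omega)
  have HD : ∀ d', HFunD d' (hF F d') := fun d' => hfunD_hF F d' (hchar d')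
  have hlow := (HD d).toHFun.chi_le S
  have hm2 : 1 ≤ m ^ 2 := Nat.one_le_pow _ _ hm
  obtain ⟨D, rfl⟩ : ∃ D, d = (m + 1) * a + D := ⟨d - (m + 1) * a, by omega⟩
  -- integer forms
  obtain ⟨g, hg⟩ : ∃ g, g = T (a - 2) := ⟨_, rfl⟩
  have hg2 : 2 * (g : ℤ) = ((a : ℤ) - 1) * (a - 2) := by
    rcases Nat.lt_or_ge a 2 with h | h
    · have : a = 1 := by omega
      subst this
      rw [hg]
      simp [T]
    · obtain ⟨a', rfl⟩ : ∃ a', a = a' + 2 := ⟨a - 2, by omega⟩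
      have h3 := two_T a'
      rw [hg, Nat.add_sub_cancel]
      have h4 : (2 * T a' : ℤ) = a' * (a' + 1) := by exact_mod_cast h3
      rw [h4]
      push_cast
      ring
  obtain ⟨t1, ht1⟩ : ∃ t, t = T (m - 1) := ⟨_, rfl⟩
  have ht12 : 2 * (t1 : ℤ) = ((m : ℤ) - 1) * m := by
    obtain ⟨m', rfl⟩ : ∃ m', m = m' + 1 := ⟨m - 1, by omega⟩
    have h3 := two_T m'
    rw [ht1, Nat.add_sub_cancel]
    have h4 : (2 * T m' : ℤ) = m' * (m' + 1) := by exact_mod_cast h3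
    rw [h4]
    push_cast
    ring
  obtain ⟨t, ht⟩ : ∃ t, t = T m := ⟨_, rfl⟩
  have ht2 : 2 * (t : ℤ) = (m : ℤ) * (m + 1) := by
    rw [ht]
    exact_mod_cast two_T m
  have htpos : 1 ≤ t := by
    rw [ht, T]
    have : 2 ≤ m * (m + 1) := Nat.mul_le_mul hm (by omega : 2 ≤ m + 1)
    omega
  obtain ⟨X, hX⟩ : ∃ X, X = T ((m + 1) * a + D + 1) := ⟨_, rfl⟩
  have hX2 : 2 * (X : ℤ) = (((m : ℤ) + 1) * a + D + 1) * (((m : ℤ) + 1) * a + D + 2) := by
    rw [hX]
    have := two_T ((m + 1) * a + D + 1)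
    have h4 : (2 * T ((m + 1) * a + D + 1) : ℤ) =
      (((m : ℤ) + 1) * a + D + 1) * (((m : ℤ) + 1) * a + D + 1 + 1) := by exact_mod_cast this
    rw [h4]
    ring
  obtain ⟨Y, hY⟩ : ∃ Y, Y = T (a + D + 1) := ⟨_, rfl⟩
  have hY2 : 2 * (Y : ℤ) = ((a : ℤ) + D + 1) * ((a : ℤ) + D + 2) := by
    rw [hY]
    have := two_T (a + D + 1)
    have h4 : (2 * T (a + D + 1) : ℤ) = ((a : ℤ) + D + 1) * ((a : ℤ) + D + 1 + 1) := by
      exact_mod_cast this
    rw [h4]
    ring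
  obtain ⟨Z, hZ⟩ : ∃ Z, Z = T (D + 1) := ⟨_, rfl⟩
  have hZ2 : 2 * (Z : ℤ) = ((D : ℤ) + 1) * ((D : ℤ) + 2) := by
    rw [hZ]
    have := two_T (D + 1)
    have h4 : (2 * T (D + 1) : ℤ) = ((D : ℤ) + 1) * ((D : ℤ) + 1 + 1) := by
      exact_mod_cast this
    rw [h4]
    ring
  rw [← ht, ← hg] at hcap
  rw [← ht, ← hg, ← ht1, ← hX] at hcount
  rw [← hX, ← ht] at hpχ hqχ
  rw [← hX] at hlow ⊢
  obtain ⟨s, hs⟩ : ∃ s, s = TT S := ⟨_, rfl⟩
  rw [← hs] at hcount hpχ hqχ hlow ⊢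
  -- the strip
  obtain ⟨δ, hδ⟩ : ∃ δ, a * ((m + 1) * a + D) = δ + g := by
    refine ⟨a * ((m + 1) * a + D) - g, ?_⟩
    have : g ≤ a * ((m + 1) * a + D) + 1 := by omega
    have h3 : 1 ≤ p := by omega
    omega
  have hδz : (a : ℤ) * (((m : ℤ) + 1) * a + D) = δ + g := by exact_mod_cast hδ
  obtain ⟨c, hc⟩ : ∃ c, δ = a ^ 2 * m + c := by
    refine ⟨δ - a ^ 2 * m, ?_⟩
    have h3 : 1 ≤ p := by omega
    omega
  have hcz : (δ : ℤ) = (a : ℤ) ^ 2 * m + c := by exact_mod_cast hc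
  -- the number of monomials in the rows below m
  obtain ⟨N, hNN⟩ : ∃ N, N = a ^ 2 * t + m * (c + 1) := ⟨_, rfl⟩
  have hNz : (N : ℤ) = (m : ℤ) * (δ + 1) - (a : ℤ) ^ 2 * t1 := by
    rw [hNN]
    push_cast
    have : 2 * ((a : ℤ) ^ 2 * t + m * (c + 1)) = 2 * ((m : ℤ) * (δ + 1) - (a : ℤ) ^ 2 * t1) := by
      rw [hcz]
      linear_combination (a : ℤ) ^ 2 * ht2 + (a : ℤ) ^ 2 * ht12
    linarith
  have hXY : (X : ℤ) = Y + N := by
    have : 2 * (X : ℤ) = 2 * (Y + N) := by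
      rw [hNz]
      linear_combination hX2 - hY2 + 2 * (m : ℤ) * hδz + (m : ℤ) * hg2 + (a : ℤ) ^ 2 * ht12
    linarith
  have hYZ : (Y : ℤ) = Z + (c + 1) := by
    have : 2 * (Y : ℤ) = 2 * (Z + (c + 1)) := by
      linear_combination hY2 - hZ2 + 2 * hcz + 2 * hδz + hg2
    linarith
  have hXY' : X = Y + N := by exact_mod_cast hXY
  have hYZ' : Y = Z + (c + 1) := by exact_mod_cast hYZ
  -- capacity and number of points
  have hcap' : p + q + t ≤ c + 1 := by omega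
  have hcount' : p + N + s ≤ X + S.count m * t := by
    have h3 : (p : ℤ) + m * (a * (((m : ℤ) + 1) * a + D) + 1) + s ≤
        X + (S.count m : ℤ) * t + m * g + (a : ℤ) ^ 2 * t1 := by exact_mod_cast hcount
    rw [hδz] at h3
    have h4 : (p : ℤ) + N + s ≤ X + (S.count m : ℤ) * t := by
      rw [hNz]
      linarith
    exact_mod_cast h4
  obtain ⟨b, hbl, hbmin⟩ : ∃ b, p + N + s ≤ X + b * t ∧ ∀ b' < b, ¬ (p + N + s ≤ X + b' * t) := by
    classical
    have hex : ∃ b, p + N + s ≤ X + b * t := ⟨_, hcount'⟩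
    exact ⟨Nat.find hex, Nat.find_spec hex, fun b' hb' => Nat.find_min hex hb'⟩
  have hbcount : b ≤ S.count m := by
    by_contra hc
    exact hbmin _ (not_le.1 hc) hcount'
  have hnb : a ^ 2 + 1 ≤ b := by
    by_contra hc
    have h3 : b ≤ a ^ 2 := by omega
    have h4 : b * t ≤ a ^ 2 * t := Nat.mul_le_mul_right _ h3
    omega
  have hb1 : p + N + s + t > X + b * t := by
    have h3 := hbmin (b - 1) (by omega)
    obtain ⟨b', rfl⟩ : ∃ b', b = b' + 1 := ⟨b - 1, by omega⟩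
    rw [Nat.add_sub_cancel] at h3
    rw [Nat.add_mul, Nat.one_mul]
    omega
  -- the splitting
  have hrep : Multiset.replicate b m ≤ S := Multiset.le_count_iff_replicate_le.1 hbcount
  obtain ⟨A, hA⟩ : ∃ A, S = A + Multiset.replicate b m :=
    ⟨S - Multiset.replicate b m, (tsub_add_cancel_of_le hrep).symm⟩
  have hAm : ∀ x ∈ A, x ≤ m := fun x hx => hS x (by
    rw [hA]
    exact Multiset.mem_add.2 (Or.inl hx))
  have hTTr : TT (Multiset.replicate b m) = b * t := by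
    rw [TT, Multiset.map_replicate, Multiset.sum_replicate, smul_eq_mul, ht]
  have hsA : s = TT A + b * t := by rw [hs, hA, TT_add, hTTr]
  obtain ⟨x, hx⟩ : ∃ x, Y = TT A + x := ⟨Y - TT A, by omega⟩
  have hxp : p ≤ x := by omega
  have hxp' : x < p + t := by omega
  have hda : (m + 1) * a + D - m * a = a + D := by
    rw [Nat.add_mul, Nat.one_mul]
    omega
  have hda' : (m + 1) * a + D - (m + 1) * a = D := by omega
  -- independence for the part
  have hw1 : hF F (a + D) A + TT A = T (a + D + 1) := by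
    have h3 := (winD (a + D) (hF F (a + D)) (HD _) m 0 A (by simp) hAm).2
    rw [zero_add] at h3
    refine h3 ?_
    rw [← hY, hx]
    have h4 : 18 * (m : ℤ) ^ 2 ≤ 5 * x := by
      have h5 : 18 * m ^ 2 ≤ 5 * x := by omega
      exact_mod_cast h5
    have h6 : (m : ℤ) * (108 * m + 40 * ((Multiset.sum (0 : Multiset ℕ) : ℕ) : ℤ)) =
        6 * (18 * (m : ℤ) ^ 2) := by
      rw [Multiset.sum_zero, Nat.cast_zero, mul_zero, add_zero]
      ring
    rw [h6]
    push_cast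
    linarith
  have hw2 : hF F D A = 0 := by
    by_contra hne
    have h3 := (winD D (hF F D) (HD _) m 0 A (by simp) hAm).1
    rw [zero_add] at h3
    have h4 := h3 (Nat.one_le_iff_ne_zero.2 hne)
    rw [← hZ, Multiset.sum_zero, mul_zero, add_zero] at h4
    have h5 : m * (123 * m) = 123 * m ^ 2 := by ring
    rw [h5] at h4
    omega
  have hxF : hF F (a + D) A = x := by omega
  -- the right side
  obtain ⟨y, hy⟩ : ∃ y, y + x + s = c + 1 + X := ⟨c + 1 + X - x - s, by omega⟩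
  have hδe : a * ((m + 1) * a + D) - T (a - 2) = δ := by
    rw [← hg]
    omega
  have hPE := h2 F (a ^ 2) m δ b hm (by omega)
  have hrow : (m + 1) * (δ + 1) = y + (a ^ 2 + b) * t := by
    have : ((m : ℤ) + 1) * (δ + 1) = y + ((a : ℤ) ^ 2 + b) * t := by
      have e1 : (y : ℤ) + x + s = c + 1 + X := by exact_mod_cast hy
      have e2 : (s : ℤ) = TT A + b * t := by exact_mod_cast hsA
      have e3 : (Y : ℤ) = TT A + x := by exact_mod_cast hx
      have e4 : 2 * (((m : ℤ) + 1) * (δ + 1)) = 2 * (y + ((a : ℤ) ^ 2 + b) * t) := by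
        linear_combination -2 * e1 + 2 * e2 - 2 * e3 - 2 * hXY - 2 * hNz + 2 * hcz -
          (a : ℤ) ^ 2 * ht2 + (a : ℤ) ^ 2 * ht12
      linarith
    exact_mod_cast this
  rw [← ht, ← ht1] at hPE
  have hPE1 : hN F (Sf (a ^ 2) m δ) (Multiset.replicate b m) ≤ y := by
    have h3 := hPE.1 (by
      rw [hrow, Nat.add_mul (a ^ 2 + b) 1 t, Nat.one_mul]
      omega)
    omega
  have hPE2 : hN F (Sf (a ^ 2) (m - 1) δ) (Multiset.replicate b m) = 0 := by
    refine hPE.2 ?_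
    have h3 : (m : ℤ) * (δ + 1) + t1 ≤ (a : ℤ) ^ 2 * t1 + b * t := by
      have e1 : (X : ℤ) + t ≤ s + p := by exact_mod_cast hpχ
      have e2 : (s : ℤ) = TT A + b * t := by exact_mod_cast hsA
      have e3 : (Y : ℤ) = TT A + x := by exact_mod_cast hx
      have e4 : (p : ℤ) ≤ x := by exact_mod_cast hxp
      have e5 : (t : ℤ) = t1 + m := by linarith
      have e6 : (0 : ℤ) ≤ m := Nat.cast_nonneg m
      linarith
    exact_mod_cast h3
  have hcl := h1 F ((m + 1) * a + D) a m y A (Multiset.replicate b m) ha hm (by omega)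
    (by rw [hda]; exact hw1) (by rw [hda']; exact hw2) (by rw [← hg]; omega)
    (by rw [hda, hδe, hxF]; omega) (by rw [hδe]; exact hPE1) (by rw [hδe]; exact hPE2)
  rw [hda, hδe, hxF, ← hA] at hcl
  omega

end ShghC
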