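import Pool.Agent.ShghC.SpecG
import Pool.Agent.ShghJ.CombD3
import Pool.Agent.ShghJ.GeoD
import Pool.Agent.ShghL.Close1

set_option autoImplicit false

/-!
# ShghC/LongG: the closing argument for all vectors with `d ^ 2 ≥ 144 M ^ 3`
-/

namespace ShghC

open MvPolynomial ShghJ

universe u

/-- The length of a row. -/
private theorem longG_row (d a δ j : ℕ) (hj : a ≤ j + 1)
    (hδ : 2 * (δ + 1) + a * a = a * (2 * d + 3)) (k : ℕ) (hk : d = k * a + j) :
    T (j + 1) = T (j + 1 - a) + (δ + 1 - a * a * k) ∧ a * a * k ≤ δ + 1 := by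
  obtain ⟨i, hi⟩ := Nat.exists_eq_add_of_le hj
  have h1 := two_T (j + 1)
  have h2 := two_T (j + 1 - a)
  rw [hi] at h1
  rw [hi, Nat.add_sub_cancel_left] at h2 ⊢
  have h3 : 2 * (a * a * k) + a * (2 * i + a + 1) = 2 * (δ + 1) := by
    have hj' : j = a + i - 1 := by omega
    have e : 2 * (δ + 1) + a * a = a * (2 * (k * a + j) + 3) := by rw [← hk]; exact hδ
    zify at *
    have hj2 : (j : ℤ) = a + i - 1 := by omega
    rw [hj2] at e
    linarith
  have h4 : a * a * k ≤ δ + 1 := by nlinarith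
  refine ⟨?_, h4⟩
  obtain ⟨r, hr⟩ := Nat.exists_eq_add_of_le h4
  rw [hr, Nat.add_sub_cancel_left]
  zify at *
  nlinarith

private theorem longG_dlow (d M k : ℕ) (hk : k ^ 2 ≤ M) (hd : 144 * M ^ 3 ≤ d ^ 2) :
    12 * k * M ≤ d := by
  refine Nat.pow_le_pow_iff_left (n := 2) (by norm_num) |>.1 ?_
  calc (12 * k * M) ^ 2 = 144 * (k ^ 2 * M ^ 2) := by ring
    _ ≤ 144 * (M * M ^ 2) := Nat.mul_le_mul_left _ (Nat.mul_le_mul_right _ hk)
    _ = 144 * M ^ 3 := by ring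
    _ ≤ d ^ 2 := hd

private theorem longG_key (d M a : ℕ) (hM : 2 ≤ M) (hd : 144 * M ^ 3 ≤ d ^ 2)
    (ha : a = (d + 3 * M + 3) / (6 * M + 3)) (hN : (6 * M + 3) * a ≤ d + 3 * M + 3) :
    a * a * (10 * M + 3) + (4 * M + 2) ≤ a * (2 * d + 3) := by
  have hda2 : (2 * a) * (6 * M + 3) ≤ 2 * d + 3 + (6 * M + 3) := by
    have : (2 * a) * (6 * M + 3) = 2 * ((6 * M + 3) * a) := by ring
    omega
  have h5 : a * ((2 * a) * (6 * M + 3)) ≤ a * (2 * d + 3 + (6 * M + 3)) :=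
    Nat.mul_le_mul_left _ hda2
  have h6 : a * ((2 * a) * (6 * M + 3)) = a * a * (10 * M + 3) + a * a * (2 * M + 3) := by ring
  have h7 : a * (2 * d + 3 + (6 * M + 3)) = a * (2 * d + 3) + a * (6 * M + 3) := by ring
  by_cases h4 : 4 ≤ M
  · have hd2 : 24 * M ≤ d := by
      have := longG_dlow d M 2 (by omega) hd
      omega
    have ha4 : 4 ≤ a := by
      rw [ha]
      exact (Nat.le_div_iff_mul_le (by omega)).2 (by omega)
    have h8 : a * (6 * M + 3) + (4 * M + 2) ≤ a * a * (2 * M + 3) := by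
      have e1 : 4 * (a * (2 * M + 3)) ≤ a * (a * (2 * M + 3)) := Nat.mul_le_mul_right _ ha4
      have e2 : 4 * (2 * M + 9) ≤ a * (2 * M + 9) := Nat.mul_le_mul_right _ ha4
      have e3 : 4 * (a * (2 * M + 3)) = a * (6 * M + 3) + a * (2 * M + 9) := by ring
      have e4 : a * (a * (2 * M + 3)) = a * a * (2 * M + 3) := by ring
      omega
    omega
  · have hM3 : M = 2 ∨ M = 3 := by omega
    rcases hM3 with rfl | rfl
    · have hd2 : 34 ≤ d := by
        by_contra hcc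
        have : d ^ 2 ≤ 33 ^ 2 := Nat.pow_le_pow_left (by omega) 2
        omega
      by_cases ha3 : a = 2
      · subst ha3
        omega
      · have e1 : 3 * a ≤ a * a := Nat.mul_le_mul_right _ (by omega)
        omega
    · have hd2 : 63 ≤ d := by
        by_contra hcc
        have : d ^ 2 ≤ 62 ^ 2 := Nat.pow_le_pow_left (by omega) 2
        omega
      have e1 : 3 * a ≤ a * a := Nat.mul_le_mul_right _ (by omega)
      omega

/-- The numbers. -/
private theorem longG_num (d M : ℕ) (hM : 2 ≤ M) (hd : 144 * M ^ 3 ≤ d ^ 2) :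
    ∃ a c p q : ℕ, 2 ≤ a ∧ (3 * M + 2) * a ≤ d ∧
      2 * (a * a * (3 * M + 1) + c + 1) + a * a = a * (2 * d + 3) ∧
      a * a * (3 * M + 1) + 2 * M * (a * a + 1) ≤ a * a * (3 * M + 1) + c ∧
      18 * M ^ 2 ≤ 5 * p ∧ 2 * q + 5 * M + 6 = 13 * M ^ 2 ∧
      p + q + T M ≤ c + 1 := by
  have hd1 : 12 * M ≤ d := by
    have := longG_dlow d M 1 (by omega) hd
    omega
  obtain ⟨a, ha⟩ : ∃ a, a = (d + 3 * M + 3) / (6 * M + 3) := ⟨_, rfl⟩
  obtain ⟨r, hr⟩ : ∃ r, r = (d + 3 * M + 3) % (6 * M + 3) := ⟨_, rfl⟩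
  have hr1 : r < 6 * M + 3 := by rw [hr]; exact Nat.mod_lt _ (by omega)
  have hdiv : (6 * M + 3) * a + r = d + 3 * M + 3 := by
    rw [ha, hr]; exact Nat.div_add_mod _ _
  have ha2 : 2 ≤ a := by
    rw [ha]
    exact (Nat.le_div_iff_mul_le (by omega)).2 (by omega)
  have h9a : 9 * a ≤ (6 * M + 3) * a := Nat.mul_le_mul_right _ (by omega)
  have hF1 : (3 * M + 2) * a ≤ d := by
    have e1 : 2 * ((3 * M + 2) * a) = (6 * M + 3) * a + a := by ring
    omega
  obtain ⟨p, hp⟩ : ∃ p, p = (18 * M ^ 2 + 4) / 5 := ⟨_, rfl⟩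
  have hp1 : 18 * M ^ 2 ≤ 5 * p := by omega
  have hp2 : 5 * p ≤ 18 * M ^ 2 + 4 := by omega
  obtain ⟨q, hq⟩ : ∃ q, 2 * q + 5 * M + 6 = 13 * M ^ 2 := by
    obtain ⟨k, rfl | rfl⟩ : ∃ k, M = 2 * k ∨ M = 2 * k + 1 := ⟨M / 2, by omega⟩
    · refine ⟨26 * k ^ 2 - 5 * k - 3, ?_⟩
      have : k ≤ k ^ 2 := by rw [pow_two]; exact Nat.le_mul_self k
      have e : 13 * (2 * k) ^ 2 = 2 * (26 * k ^ 2) := by ring
      omega
    · refine ⟨26 * k ^ 2 + 21 * k + 1, ?_⟩
      ring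
  -- the capacity
  have hda : (a : ℤ) * (6 * M + 3) = d + 3 * M + 3 - r := by
    have : (((6 * M + 3) * a + r : ℕ) : ℤ) = ((d + 3 * M + 3 : ℕ) : ℤ) := by rw [hdiv]
    push_cast at this
    linarith
  have hcap : a * a * (6 * M + 3) + 2 ≤ a * (2 * d + 3) := by
    have e1 : a * a * (6 * M + 3) = a * ((6 * M + 3) * a) := by ring
    rw [e1]
    have e2 : a * ((6 * M + 3) * a) ≤ a * (d + 3 * M + 3) := Nat.mul_le_mul_left _ (by omega)
    have e3 : a * (d + 3 * M + 3) + a * 1 ≤ a * (2 * d + 3) := by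
      rw [← Nat.mul_add]
      exact Nat.mul_le_mul_left _ (by omega)
    omega
  -- parity
  obtain ⟨c, hc⟩ : ∃ c, 2 * (a * a * (3 * M + 1) + c + 1) + a * a = a * (2 * d + 3) := by
    have e1 : a * a * (6 * M + 3) = 2 * (a * a * (3 * M + 1)) + a * a := by ring
    have e2 : a * (2 * d + 3) = 2 * (a * (d + 1)) + a := by ring
    have e3 : Even (a * (a + 1)) := Nat.even_mul_succ_self a
    obtain ⟨b, hb⟩ := e3
    have e4 : a * (a + 1) = a * a + a := by ring
    refine ⟨(a * (2 * d + 3) - a * a) / 2 - a * a * (3 * M + 1) - 1, ?_⟩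
    omega
  have hM' : (2 : ℤ) ≤ M := by exact_mod_cast hM
  have hcap2 : p + q + T M ≤ c + 1 := by
    by_contra hcon
    push Not at hcon
    have hTM := two_T M
    have hc' : 2 * ((a : ℤ) * a * (3 * M + 1) + c + 1) + a * a = a * (2 * d + 3) := by
      exact_mod_cast hc
    have e1 : (8 * (c + 1) : ℤ) * (6 * M + 3) = (2 * d + 3) ^ 2 - (2 * r - (6 * M + 3)) ^ 2 := by
      have e2 : (2 * (c + 1) : ℤ) = a * (2 * d + 3) - a * (a * (6 * M + 3)) := by linarith
      have e3 : (8 * (c + 1) : ℤ) * (6 * M + 3) =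
          4 * (a * (6 * M + 3)) * ((2 * d + 3) - (a * (6 * M + 3))) := by
        calc (8 * (c + 1) : ℤ) * (6 * M + 3) = 4 * (2 * (c + 1)) * (6 * M + 3) := by ring
          _ = _ := by rw [e2]; ring
      rw [e3, hda]
      ring
    have e4 : (2 * (r : ℤ) - (6 * M + 3)) ^ 2 ≤ (6 * M + 3) ^ 2 := by
      have h1 : (r : ℤ) ≤ 6 * M + 3 := by exact_mod_cast hr1.le
      have h2 : (0 : ℤ) ≤ r := Int.natCast_nonneg _
      have h3 : (6 * M + 3 : ℤ) ^ 2 = (2 * r - (6 * M + 3)) ^ 2 + 4 * (r * (6 * M + 3 - r)) := by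
        ring
      have h4 : (0 : ℤ) ≤ r * (6 * M + 3 - r) := mul_nonneg h2 (by linarith)
      linarith
    have e5 : (5 * (2 * (c + 1)) : ℤ) ≤ 106 * M ^ 2 - 20 * M - 22 := by
      have hcon' : (c : ℤ) + 1 < p + q + T M := by exact_mod_cast hcon
      have hp2' : 5 * (p : ℤ) ≤ 18 * M ^ 2 + 4 := by exact_mod_cast hp2
      have hq' : 2 * (q : ℤ) + 5 * M + 6 = 13 * M ^ 2 := by exact_mod_cast hq
      have hTM' : 2 * (T M : ℤ) = M ^ 2 + M := by
        have : 2 * (T M : ℤ) = M * (M + 1) := by exact_mod_cast hTM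
        rw [this]; ring
      linarith
    have e6 : (5 * (2 * (c + 1)) : ℤ) * (4 * (6 * M + 3)) ≤
        (106 * M ^ 2 - 20 * M - 22) * (4 * (6 * M + 3)) :=
      mul_le_mul_of_nonneg_right e5 (by linarith)
    have e7 : (144 : ℤ) * M ^ 3 ≤ d ^ 2 := by exact_mod_cast hd
    have e8 : (12 : ℤ) * M ≤ d := by exact_mod_cast hd1
    have e9 : (0 : ℤ) < M * (336 * M ^ 2 - 972 * M + 1308) := by
      have h3 : (336 : ℤ) * M ^ 2 - 972 * M + 1308 =
          84 * (2 * M - 3) ^ 2 + (36 * M + 552) := by ring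
      have h4 := sq_nonneg (2 * (M : ℤ) - 3)
      exact mul_pos (by linarith) (by linarith)
    have e10 : (2544 : ℤ) * M ^ 3 + 792 * M ^ 2 - 768 * M - 264 =
        (106 * M ^ 2 - 20 * M - 22) * (4 * (6 * M + 3)) := by ring
    have e11 : (5 * (2 * (c + 1)) : ℤ) * (4 * (6 * M + 3)) =
        5 * ((2 * d + 3) ^ 2 - (2 * r - (6 * M + 3)) ^ 2) := by
      rw [← e1]; ring
    rw [e11, ← e10] at e6
    have e12 : ((6 * M + 3 : ℤ)) ^ 2 = 36 * M ^ 2 + 36 * M + 9 := by ring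
    have e13 : ((2 * d + 3 : ℤ)) ^ 2 = 4 * d ^ 2 + 12 * d + 9 := by ring
    have e14 : (M : ℤ) * (336 * M ^ 2 - 972 * M + 1308) = 336 * M ^ 3 - 972 * M ^ 2 + 1308 * M := by
      ring
    rw [e14] at e9
    rw [e12] at e4
    rw [e13] at e6
    linarith
  have hF2 : a * a * (3 * M + 1) + 2 * M * (a * a + 1) ≤ a * a * (3 * M + 1) + c := by
    have key := longG_key d M a hM hd ha (by omega)
    have e1 : 2 * (2 * M * (a * a + 1)) = a * a * (4 * M) + 4 * M := by ring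
    have e2 : a * a * (10 * M + 3) = 2 * (a * a * (3 * M + 1)) + a * a * (4 * M) + a * a := by ring
    omega
  exact ⟨a, c, p, q, ha2, hF1, hc, hF2, hp1, hq, hcap2⟩

theorem tLongG (h1 : S_CloseR.{u}) (h2 : S_StripG.{u}) (h3 : S_WinG) : S_LongG.{u} := by
  intro F _ _ d M S hM hS hd hχ1 hχ2
  have hchar : ∀ d' : ℕ, ∀ n : ℕ, 1 ≤ n → n ≤ d' → (n : F) ≠ 0 :=
    fun _ n hn _ => Nat.cast_ne_zero.2 (by omega)
  have HC : ∀ d', HFunD d' (hF F d') := fun d' => hfunD_hF F d' (hchar d')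
  rcases Nat.lt_or_ge M 2 with hM1 | hM2
  · -- `M = 1`
    have hM1' : M = 1 := by omega
    subst hM1'
    by_contra hne
    have hcoe : ((S.sort (· ≤ ·) : List ℕ) : Multiset ℕ) = S := Multiset.sort_eq _ _
    have hs : (S.sort (· ≤ ·)).Pairwise (· ≤ ·) := Multiset.pairwise_sort _ _
    obtain ⟨A, μ, B, hAB, hμ, -⟩ := structD d (hF F d) (HC d) _ hs
      (by rw [hcoe]; omega) (by rw [hcoe]; omega)
    have hμS : μ ∈ S := by
      rw [← hcoe, hAB]
      simp
    have := hS μ hμS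
    omega
  obtain ⟨a, c, p, q, ha2, hτa, hδ, hstr, hp, hq, hcap⟩ := longG_num d M hM2 hd
  obtain ⟨τ, hτ⟩ : ∃ τ, τ = 3 * M + 1 := ⟨_, rfl⟩
  rw [show 3 * M + 2 = τ + 1 by omega] at hτa
  rw [← hτ] at hδ hstr
  obtain ⟨δ, hδc⟩ : ∃ δ, δ = a * a * τ + c := ⟨_, rfl⟩
  rw [← hδc] at hδ hstr
  have hn : a ^ 2 = a * a := by ring
  have hδ2 : a * d - T (a - 2) = δ := by
    obtain ⟨b, rfl⟩ := Nat.exists_eq_add_of_le ha2
    rw [Nat.add_sub_cancel_left]
    have e1 := two_T b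
    have e3 : (2 + b) * (2 * d + 3) = 2 * ((2 + b) * d) + 3 * b + 6 := by ring
    have e4 : (2 + b) * (2 + b) = b * (b + 1) + 3 * b + 4 := by ring
    omega
  have hadT : a ^ 2 * τ + T (a - 2) ≤ a * d := by
    rw [hn]
    have : T (a - 2) ≤ a * d := by
      obtain ⟨b, rfl⟩ := Nat.exists_eq_add_of_le ha2
      rw [Nat.add_sub_cancel_left]
      have e1 := two_T b
      have e4 : 2 + b ≤ d := by
        have : 1 * (2 + b) ≤ (τ + 1) * (2 + b) := Nat.mul_le_mul_right _ (by omega)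
        omega
      have e5 : (2 + b) * (2 + b) ≤ (2 + b) * d := Nat.mul_le_mul_left _ e4
      have e6 : (2 + b) * (2 + b) = b * (b + 1) + 3 * b + 4 := by ring
      omega
    omega
  have hτa' : (τ + 1) * a = τ * a + a := by ring
  -- rows
  have hrow : ∀ k, k ≤ τ → T (d - k * a + 1) =
      T (d - (k + 1) * a + 1) + (δ + 1 - a * a * k) ∧ a * a * k ≤ δ + 1 := by
    intro k hk
    have e1 : (k + 1) * a ≤ (τ + 1) * a := Nat.mul_le_mul_right _ (by omega)
    have e2 : (k + 1) * a = k * a + a := by ring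
    obtain ⟨j, hj⟩ : ∃ j, d = k * a + j := ⟨d - k * a, by omega⟩
    have h8 := longG_row d a δ j (by omega) hδ k hj
    rw [show d - k * a + 1 = j + 1 by omega, show d - (k + 1) * a + 1 = j + 1 - a by omega]
    exact h8
  have hsum : ∀ t, t ≤ τ + 1 → T (d + 1) = T (d - t * a + 1) +
      ∑ k ∈ Finset.range t, (δ + 1 - a * a * k) := by
    intro t
    induction t with
    | zero => simp
    | succ t ih =>
      intro ht
      rw [Finset.sum_range_succ, ih (by omega), (hrow t (by omega)).1]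
      omega
  have hsum1 := hsum τ (by omega)
  have hrowτ := (hrow τ le_rfl).1
  rw [hδc, show a * a * τ + c + 1 - a * a * τ = c + 1 by omega] at hrowτ
  have hRR : ∑ k ∈ Finset.range (τ + 1), (δ + 1 - a * a * k) =
      ∑ k ∈ Finset.range τ, (δ + 1 - a * a * k) + (c + 1) := by
    rw [Finset.sum_range_succ]
    congr 1
    omega
  generalize hRdef : ∑ k ∈ Finset.range τ, (δ + 1 - a * a * k) = R at *
  -- the part
  obtain ⟨B, A, hAB, hA1, hA2⟩ := ShghL.exists_part (T M) (T (d - τ * a + 1) - p) S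
    (fun m hm => ShghL.T_mono (hS m hm)) (by omega)
  have hSA : ∀ m ∈ A, m ≤ M := fun m hm => hS m (by rw [hAB]; exact Multiset.mem_add.2 (Or.inr hm))
  have hSB : ∀ m ∈ B, m ≤ M := fun m hm => hS m (by rw [hAB]; exact Multiset.mem_add.2 (Or.inl hm))
  have hTTS : TT S = TT B + TT A := by rw [hAB, TT_add]
  obtain ⟨x, hx⟩ : ∃ x, T (d - τ * a + 1) = TT A + x := ⟨T (d - τ * a + 1) - TT A, by omega⟩
  have hxp : p ≤ x := by omega
  have hxc : x + q ≤ c + 1 := by omega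
  -- the left side
  have hii : hF F (d - τ * a) A + TT A = T (d - τ * a + 1) := by
    have h8 := (winD _ (hF F (d - τ * a)) (HC _) M 0 A (by simp) hSA).2
    rw [Multiset.sum_zero, zero_add] at h8
    refine h8 ?_
    have e1 : 18 * (M : ℤ) ^ 2 ≤ 5 * x := by exact_mod_cast hp.trans (by omega)
    have e2 : (T (d - τ * a + 1) : ℤ) = TT A + x := by exact_mod_cast hx
    rw [e2]
    push_cast
    have e3 : (M : ℤ) * (108 * M + 0) = 6 * (18 * M ^ 2) := by ring
    rw [e3]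
    linarith
  have hi : hF F (d - (τ + 1) * a) A = 0 := by
    by_contra hne
    have h8 := (winD _ (hF F (d - (τ + 1) * a)) (HC _) M 0 A (by simp) hSA).1
      (by rw [zero_add]; exact Nat.one_le_iff_ne_zero.2 hne)
    rw [Multiset.sum_zero, zero_add] at h8
    have e3 : M * (123 * M + 40 * 0) = 123 * M ^ 2 := by ring
    rw [e3] at h8
    have e5 : 2 * M ≤ M * M := Nat.mul_le_mul_right _ hM2
    have e6 : M ^ 2 = M * M := pow_two M
    have e4 : 123 * M ^ 2 ≤ 60 * q := by omega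
    omega
  have hx' : hF F (d - τ * a) A = x := by omega
  -- the strip
  have ha1 : 1 ≤ a * a := Nat.mul_pos (by omega) (by omega)
  have hs2 := (h3 (a * a) τ _ (h2 F (a * a) τ ha1) M δ B hM (by omega) hSB hstr).2
  have hs1 := (h3 (a * a) (τ - 1) _ (h2 F (a * a) (τ - 1) ha1) M δ B hM (by omega) hSB
    (by
      have : a * a * (τ - 1) ≤ a * a * τ := Nat.mul_le_mul_left _ (Nat.sub_le _ _)
      omega)).1
  rw [show τ - 1 + 1 = τ by omega, hRdef] at hs1
  rw [hRR] at hs2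
  have hz : hN F (Sf (a * a) (τ - 1) δ) B = 0 := by
    by_contra hne
    have h8 := hs1 (Nat.one_le_iff_ne_zero.2 hne)
    have e1 : M * (τ - 1 + 4 * M) = 7 * M ^ 2 := by
      rw [show τ - 1 = 3 * M by omega]; ring
    rw [e1] at h8
    have : 1 ≤ M ^ 2 := Nat.one_le_pow _ _ hM
    omega
  have hy : hN F (Sf (a * a) τ δ) B + TT B = R + (c + 1) := by
    refine hs2 ?_
    have e1 : (M - 1) * (2 * τ + 7 * M + 4) + 7 * M + 6 = 13 * M ^ 2 := by
      obtain ⟨k, rfl⟩ := Nat.exists_eq_add_of_le hM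
      rw [Nat.add_sub_cancel_left, hτ]
      ring
    omega
  have hfin := h1 F d a τ (hN F (Sf (a * a) τ δ) B) A B (by omega) (by omega) hτa hii hi hadT
    (by rw [hδ2, hn, hx']; omega) (by rw [hδ2, hn]) (by rw [hδ2, hn]; exact hz)
  rw [hδ2, hn, hx', add_comm A B, ← hAB] at hfin
  omega

end ShghC
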