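import Pool.Agent.ShghC.SpecG
import Pool.Agent.ShghJ.Geo
import Pool.Agent.ShghJ.GeoMain

/-!
# ShghC, MacN: the Macaulay inequalities at one generic point
-/

namespace ShghC

open MvPolynomial ShghJ

universe u v w

private theorem macN_degree {K : Type u} [Field K] {s : ℕ} {N : Finset (Fin 2 →₀ ℕ)}
    {μ : Fin s → ℕ} {P : Fin s → Fin 2 → K} {f : MvPolynomial (Fin 2) K} (hf : f ∈ LN N μ P) :
    f.totalDegree ≤ N.sup Finsupp.degree := by
  rw [ShghE.tf_totalDegree_le]
  intro e he
  rw [mem_support_iff] at he
  exact Finset.le_sup (f := Finsupp.degree) ((mem_LN.1 hf).1 e he)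

theorem tMacN (h1 : S_NCons.{u}) (h2 : S_NClo.{u}) : S_MacN.{u} := by
  intro F _ _ N S j
  classical
  have hchar : CharZero (UF F) := charZero_of_injective_algebraMap (algebraMap F (UF F)).injective
  choose D₀ hD₀ using fun c => tDer F 0 c
  choose D hD' using fun c => geo_mkDer (UF F) (fun x => D₀ c x) (fun a b => map_add (D₀ c) a b)
    (fun a b => (D₀ c).leibniz a b)
  have hD : ∀ (c : Fin 2) (i' : ℕ) (c' : Fin 2),
      D c (up F i' c') = if i' = 0 ∧ c' = c then 1 else 0 := by
    intro c i' c'
    rw [hD', hD₀]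
  have hD0 : ∀ c (i : ℕ) c', D c (up F (i + 1) c') = 0 := by
    intro c i c'
    rw [hD, if_neg]
    rintro ⟨h, -⟩
    omega
  have hD1 : ∀ c c', D c (up F 0 c') = if c = c' then 1 else 0 := by
    intro c c'
    rw [hD]
    by_cases h : c = c'
    · rw [if_pos ⟨rfl, h.symm⟩, if_pos h]
    · rw [if_neg (fun h' => h h'.2.symm), if_neg h]
  have hfin := h2.1 (UF F) N _ (fun i : Fin S.toList.length => S.toList.get i)
    (fun i => up F (i + 1))
  have hc : ∀ j, hN F N (j ::ₘ S) = Module.finrank (UF F)
      (fil (LN N (fun i : Fin S.toList.length => S.toList.get i) (fun i => up F (i + 1)))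
        (up F 0) j) := (h1 F N S).2
  refine ⟨?_, ?_, ?_, ?_⟩
  · rw [hc, (h1 F N S).1]
    have e : fil (LN N (fun i : Fin S.toList.length => S.toList.get i) (fun i => up F (i + 1)))
        (up F 0) 0 =
        LN N (fun i : Fin S.toList.length => S.toList.get i) (fun i => up F (i + 1)) := by
      ext f
      constructor
      · intro h
        exact h.1
      · intro h
        refine ⟨h, ?_⟩
        rw [pow_zero, Ideal.one_eq_top]
        exact Submodule.mem_top
    rw [e]
  · rw [hc, hc]
    have hfin' : Module.Finite (UF F)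
        (fil (LN N (fun i : Fin S.toList.length => S.toList.get i) (fun i => up F (i + 1)))
          (up F 0) j) :=
      geo_finite_of_le (geo_fil_le _ _ _) hfin
    exact Submodule.finrank_mono fun f hf => ⟨hf.1, Ideal.pow_le_pow_right (Nat.le_succ j) hf.2⟩
  · rw [hc, hc, tCnt (UF F) _ (up F 0) j hfin]
    have : (degSet (LN N (fun i : Fin S.toList.length => S.toList.get i)
        (fun i => up F (i + 1))) (up F 0) j).card ≤ j + 1 := by
      unfold degSet
      exact (Finset.card_filter_le _ _).trans (by rw [Finset.card_range])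
    omega
  · intro h
    rw [hc, hc] at h
    rw [hc, hc, hc, add_comm (Module.finrank (UF F) (fil (LN N
      (fun i : Fin S.toList.length => S.toList.get i) (fun i => up F (i + 1))) (up F 0) j))]
    exact tMac tDc tCnt (UF F) D (up F 0) (LN N _ _) (N.sup Finsupp.degree) j hfin hD1
      (fun f hf => macN_degree hf)
      (fun c f hf => h2.2 (UF F) (D c) N _ _ _ (fun i c' => hD0 c i c') f hf)
      (fun n h1 _ => Nat.cast_ne_zero.2 (by omega)) h

end ShghC
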