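import Pool.Agent.ShghC.SpecE
import Pool.Agent.ShghJ.Comb1

/-!
# ShghC/PE: exact strips with equal multiplicities
-/

namespace ShghC

open MvPolynomial ShghJ

universe u

private theorem pe_one (h1 : S_Elm1.{u}) (h2 : S_Elm0.{u}) (F : Type u) [Field F] (m e : ℕ)
    (B : Multiset ℕ) :
    (m ≤ e → hN F (Sf 0 m e) (m ::ₘ m ::ₘ B) ≤ hN F (Sf 0 m (e - m)) B) ∧
    (e < m → hN F (Sf 0 m e) (m ::ₘ m ::ₘ B) = 0) := by
  have a1 := h2 F m e (m ::ₘ B)
  have a2 := h1 F 0 m e B
  rw [zero_add] at a2
  exact ⟨fun h => a1.trans (a2.1 h), fun h => Nat.le_zero.1 (a1.trans (a2.2 h).le)⟩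

private theorem pe_two (t m : ℕ) : Multiset.replicate (2 * (t + 1)) m =
    m ::ₘ m ::ₘ Multiset.replicate (2 * t) m := by
  rw [show 2 * (t + 1) = (2 * t + 1) + 1 by ring, Multiset.replicate_succ,
    Multiset.replicate_succ]

private theorem pe_two' (t m : ℕ) : Multiset.replicate (2 * (t + 1) + 1) m =
    m ::ₘ m ::ₘ Multiset.replicate (2 * t + 1) m := by
  rw [show 2 * (t + 1) + 1 = (2 * t + 1 + 1) + 1 by ring, Multiset.replicate_succ,
    Multiset.replicate_succ]

/-- (i) -/
private theorem pe_i (h1 : S_Elm1.{u}) (h2 : S_Elm0.{u}) (h4 : S_StA.{u}) (F : Type u) [Field F]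
    (m : ℕ) : ∀ t e : ℕ, hN F (Sf 0 m e) (Multiset.replicate (2 * t) m) ≤
      (m + 1) * (e + 1 - t * m) := by
  intro t
  induction t with
  | zero =>
    intro e
    rw [Nat.mul_zero, Multiset.replicate_zero, (h4 F 0 m).1 e]
    simp
  | succ t ih =>
    intro e
    rw [pe_two]
    by_cases h : m ≤ e
    · refine ((pe_one h1 h2 F m e _).1 h).trans ((ih (e - m)).trans (le_of_eq ?_))
      congr 1
      rw [Nat.succ_mul]
      omega
    · rw [(pe_one h1 h2 F m e _).2 (not_le.1 h)]
      exact Nat.zero_le _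

/-- (ii) -/
private theorem pe_ii (h1 : S_Elm1.{u}) (h2 : S_Elm0.{u}) (h4 : S_StA.{u}) (F : Type u) [Field F]
    (m : ℕ) : ∀ t e : ℕ, hN F (Sf 0 m e) (Multiset.replicate (2 * t + 1) m) ≤
      ∑ k ∈ Finset.range (m + 1), (e + 1 - t * m - k) := by
  intro t
  induction t with
  | zero =>
    intro e
    rw [Nat.mul_zero, zero_add, Multiset.replicate_succ, Multiset.replicate_zero]
    refine (h2 F m e 0).trans ?_
    rw [(h4 F 1 m).1 e]
    simp
  | succ t ih =>
    intro e
    rw [pe_two']
    by_cases h : m ≤ e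
    · refine ((pe_one h1 h2 F m e _).1 h).trans ((ih (e - m)).trans (le_of_eq ?_))
      refine Finset.sum_congr rfl fun k _ => ?_
      rw [Nat.succ_mul]
      omega
    · rw [(pe_one h1 h2 F m e _).2 (not_le.1 h)]
      exact Nat.zero_le _

/-- (iii) -/
private theorem pe_iii (h1 : S_Elm1.{u}) (F : Type u) [Field F] (m r : ℕ) : ∀ n e : ℕ,
    (n * m ≤ e → hN F (Sf n m e) (Multiset.replicate (n + r) m) ≤
      hN F (Sf 0 m (e - n * m)) (Multiset.replicate r m)) ∧
    (e < n * m → hN F (Sf n m e) (Multiset.replicate (n + r) m) = 0) := by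
  intro n
  induction n with
  | zero =>
    intro e
    refine ⟨fun _ => ?_, fun h => ?_⟩
    · rw [Nat.zero_mul, Nat.sub_zero, zero_add]
    · rw [Nat.zero_mul] at h
      exact absurd h (Nat.not_lt_zero _)
  | succ n ih =>
    intro e
    have e1 : Multiset.replicate (n + 1 + r) m = m ::ₘ Multiset.replicate (n + r) m := by
      rw [show n + 1 + r = (n + r) + 1 by ring, Multiset.replicate_succ]
    rw [e1]
    have a := h1 F n m e (Multiset.replicate (n + r) m)
    have b := ih (e - m)
    have c : (n + 1) * m = n * m + m := Nat.succ_mul n m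
    refine ⟨fun h => ?_, fun h => ?_⟩
    · have h5 : m ≤ e := by
        have := Nat.zero_le (n * m)
        omega
      have h6 := (a.1 h5).trans (b.1 (by omega))
      rwa [Nat.sub_sub, Nat.add_comm m, ← c] at h6
    · by_cases h5 : m ≤ e
      · exact Nat.le_zero.1 ((a.1 h5).trans (b.2 (by omega)).le)
      · exact a.2 (not_le.1 h5)

/-- (iv) -/
private theorem pe_iv (h3 : S_Fib1.{u}) (F : Type u) [Field F] [CharZero F] (n m : ℕ) :
    ∀ b r e : ℕ,
    (b ≤ e → hN F (Sf n m e) (Multiset.replicate b (m + 1) + Multiset.replicate r m) ≤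
      hN F (Sf n m (e - b)) (Multiset.replicate (b + r) m)) ∧
    (e < b → hN F (Sf n m e) (Multiset.replicate b (m + 1) + Multiset.replicate r m) = 0) := by
  intro b
  induction b with
  | zero =>
    intro r e
    refine ⟨fun _ => ?_, fun h => absurd h (Nat.not_lt_zero _)⟩
    rw [Multiset.replicate_zero, zero_add, zero_add, Nat.sub_zero]
  | succ b ih =>
    intro r e
    have e1 : Multiset.replicate (b + 1) (m + 1) + Multiset.replicate r m =
        (m + 1) ::ₘ (Multiset.replicate b (m + 1) + Multiset.replicate r m) := by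
      rw [Multiset.replicate_succ, Multiset.cons_add]
    have e2 : m ::ₘ (Multiset.replicate b (m + 1) + Multiset.replicate r m) =
        Multiset.replicate b (m + 1) + Multiset.replicate (r + 1) m := by
      rw [Multiset.replicate_succ, Multiset.add_cons]
    rw [e1]
    have a := h3 F n m m (Multiset.replicate b (m + 1) + Multiset.replicate r m) le_rfl
    rcases e with _ | e
    · refine ⟨fun h => absurd h (by omega), fun _ => a.2⟩
    · have a1 := a.1 e
      rw [e2] at a1
      have b1 := ih (r + 1) e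
      refine ⟨fun h => ?_, fun h => ?_⟩
      · have h6 := a1.trans (b1.1 (by omega))
        rw [show b + (r + 1) = b + 1 + r by ring] at h6
        rwa [show e + 1 - (b + 1) = e - b by omega]
      · exact Nat.le_zero.1 (a1.trans (b1.2 (by omega)).le)

private theorem pe_sum (m E : ℕ) (h : m ≤ E) :
    (∑ k ∈ Finset.range (m + 1), (E - k)) + T m = (m + 1) * E := by
  have h1 : ∀ j ≤ E, (∑ k ∈ Finset.range (j + 1), (E - k)) + T j = (j + 1) * E := by
    intro j
    induction j with
    | zero =>
      intro _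
      simp [T_zero]
    | succ j ih =>
      intro hj
      rw [Finset.sum_range_succ, T_succ]
      have h2 := ih (by omega)
      have h3 : (j + 1 + 1) * E = (j + 1) * E + E := Nat.succ_mul _ _
      omega
  exact h1 m h

theorem tPE (h1 : S_Elm1.{u}) (h2 : S_Elm0.{u}) (h3 : S_Fib1.{u}) (h4 : S_StA.{u}) :
    S_PE.{u} := by
  intro F _ _ n m e b hm hb
  obtain ⟨r, rfl⟩ := Nat.exists_eq_add_of_le hb
  refine ⟨fun H => ?_, fun H => ?_⟩
  · have hT := two_T m
    -- (2 n + r + 1) m ≤ 2 (e + 1)
    have H1 : (2 * n + r + 1) * m ≤ 2 * (e + 1) := by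
      have h5 : (m + 1) * ((2 * n + r + 1) * m) ≤ (m + 1) * (2 * (e + 1)) := by
        calc (m + 1) * ((2 * n + r + 1) * m) = (n + (n + r) + 1) * (m * (m + 1)) := by ring
          _ = (n + (n + r) + 1) * (2 * T m) := by rw [hT]
          _ = 2 * ((n + (n + r) + 1) * T m) := by ring
          _ ≤ 2 * ((m + 1) * (e + 1)) := Nat.mul_le_mul_left 2 H
          _ = (m + 1) * (2 * (e + 1)) := by ring
      exact Nat.le_of_mul_le_mul_left h5 (Nat.succ_pos m)
    have H2 : n * m ≤ e := by
      have h5 : (2 * n + r + 1) * m = 2 * (n * m) + r * m + m := by ring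
      have := Nat.zero_le (r * m)
      omega
    have a := (pe_iii h1 F m r n e).1 H2
    obtain ⟨t, ht⟩ := Nat.even_or_odd' r
    rcases ht with rfl | rfl
    · have c := a.trans (pe_i h1 h2 h4 F m t (e - n * m))
      have h6 : (2 * n + 2 * t + 1) * m = 2 * (n * m) + 2 * (t * m) + m := by ring
      have h7 : e - n * m + 1 - t * m = e + 1 - (n * m + t * m) := by omega
      rw [h7] at c
      have h8 : n * m + t * m ≤ e + 1 := by omega
      obtain ⟨z, hz⟩ := Nat.exists_eq_add_of_le h8
      have h9 : e + 1 - (n * m + t * m) = z := by omega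
      rw [h9] at c
      calc hN F (Sf n m e) (Multiset.replicate (n + 2 * t) m) + (n + (n + 2 * t)) * T m
          ≤ (m + 1) * z + (n + (n + 2 * t)) * T m := Nat.add_le_add_right c _
        _ = (m + 1) * z + (n + t) * (2 * T m) := by ring
        _ = (m + 1) * z + (n + t) * (m * (m + 1)) := by rw [hT]
        _ = (m + 1) * (n * m + t * m + z) := by ring
        _ = (m + 1) * (e + 1) := by rw [← hz]
        _ ≤ (m + 1) * (e + 1) := le_rfl
    · have c := a.trans (pe_ii h1 h2 h4 F m t (e - n * m))
      have h6 : (2 * n + (2 * t + 1) + 1) * m = 2 * (n * m) + 2 * (t * m) + 2 * m := by ring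
      have h7 : e - n * m + 1 - t * m = e + 1 - (n * m + t * m) := by omega
      rw [h7] at c
      have h8 : n * m + t * m ≤ e + 1 := by omega
      obtain ⟨z, hz⟩ := Nat.exists_eq_add_of_le h8
      have h9 : e + 1 - (n * m + t * m) = z := by omega
      rw [h9] at c
      have h10 := pe_sum m z (by omega)
      calc hN F (Sf n m e) (Multiset.replicate (n + (2 * t + 1)) m) +
            (n + (n + (2 * t + 1))) * T m
          ≤ (∑ k ∈ Finset.range (m + 1), (z - k)) + (n + (n + (2 * t + 1))) * T m :=
            Nat.add_le_add_right c _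
        _ = ((∑ k ∈ Finset.range (m + 1), (z - k)) + T m) + (n + t) * (2 * T m) := by ring
        _ = (m + 1) * z + (n + t) * (m * (m + 1)) := by rw [hT, h10]
        _ = (m + 1) * (n * m + t * m + z) := by ring
        _ = (m + 1) * (e + 1) := by rw [← hz]
        _ ≤ (m + 1) * (e + 1) := le_rfl
  · obtain ⟨m, rfl⟩ : ∃ m', m = m' + 1 := ⟨m - 1, by omega⟩
    rw [Nat.add_sub_cancel] at H ⊢
    have hT := two_T m
    have hT1 := two_T (m + 1)
    have H1 : 2 * (e + 1) + m ≤ (n + (n + r)) * m + 2 * (n + r) := by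
      have h5 : (m + 1) * (2 * (e + 1) + m) ≤ (m + 1) * ((n + (n + r)) * m + 2 * (n + r)) := by
        calc (m + 1) * (2 * (e + 1) + m) = 2 * ((m + 1) * (e + 1)) + m * (m + 1) := by ring
          _ = 2 * ((m + 1) * (e + 1) + T m) := by rw [← hT]; ring
          _ ≤ 2 * (n * T m + (n + r) * T (m + 1)) := Nat.mul_le_mul_left 2 H
          _ = n * (2 * T m) + (n + r) * (2 * T (m + 1)) := by ring
          _ = (m + 1) * ((n + (n + r)) * m + 2 * (n + r)) := by rw [hT, hT1]; ring
      exact Nat.le_of_mul_le_mul_left h5 (Nat.succ_pos m)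
    have a := pe_iv h3 F n m (n + r) 0 e
    rw [Multiset.replicate_zero, add_zero, add_zero] at a
    by_cases h5 : n + r ≤ e
    · refine Nat.le_zero.1 ((a.1 h5).trans ?_)
      obtain ⟨e', he'⟩ := Nat.exists_eq_add_of_le h5
      have h6 : e - (n + r) = e' := by omega
      rw [h6]
      have h7 : 2 * (e' + 1) + m ≤ (n + (n + r)) * m := by omega
      have c := pe_iii h1 F m r n e'
      by_cases h8 : n * m ≤ e'
      · refine (c.1 h8).trans ?_
        obtain ⟨z, hz⟩ := Nat.exists_eq_add_of_le h8
        have h9 : e' - n * m = z := by omega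
        rw [h9]
        have h10 : (n + (n + r)) * m = 2 * (n * m) + r * m := by ring
        obtain ⟨t, ht⟩ := Nat.even_or_odd' r
        rcases ht with rfl | rfl
        · have h11 : 2 * t * m = 2 * (t * m) := by ring
          refine (pe_i h1 h2 h4 F m t z).trans (le_of_eq ?_)
          have h12 : z + 1 - t * m = 0 := by omega
          rw [h12, Nat.mul_zero]
        · have h11 : (2 * t + 1) * m = 2 * (t * m) + m := by ring
          refine (pe_ii h1 h2 h4 F m t z).trans (le_of_eq ?_)
          refine Finset.sum_eq_zero fun k _ => ?_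
          omega
      · exact (c.2 (not_le.1 h8)).le
    · exact a.2 (not_le.1 h5)

end ShghC
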