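import Pool.Agent.ShghJ.CombD1

/-!
# ShghC, ChainG: the chain lemma (D2) without the axiom `small`

A copy of parts of `ShghJ.Comb1` and `ShghJ.CombD1` for a structure without the independence of few
conditions; it applies to polynomials with exponents in a strip.
-/

namespace ShghG

open ShghJ

/-- The local properties of `h` (one further generic point, two further generic points). -/
structure HG (d : ℕ) (h : Multiset ℕ → ℕ) : Prop where
  /-- multiplicity zero is no condition -/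
  zero : ∀ S : Multiset ℕ, h (0 ::ₘ S) = h S
  /-- higher multiplicity at a point is a stronger condition -/
  anti : ∀ (S : Multiset ℕ) (j : ℕ), h ((j + 1) ::ₘ S) ≤ h (j ::ₘ S)
  /-- `Δ_j ≤ j + 1` -/
  mac1 : ∀ (S : Multiset ℕ) (j : ℕ), h (j ::ₘ S) ≤ h ((j + 1) ::ₘ S) + (j + 1)
  /-- `Δ_j ≤ j` implies `Δ_(j+1) ≤ Δ_j` -/
  mac2 : ∀ (S : Multiset ℕ) (j : ℕ), h (j ::ₘ S) ≤ h ((j + 1) ::ₘ S) + j →
    2 * h ((j + 1) ::ₘ S) ≤ h (j ::ₘ S) + h ((j + 2) ::ₘ S)
  /-- no nonzero polynomial has a point of multiplicity `d + 1` -/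
  big : ∀ S : Multiset ℕ, h ((d + 1) ::ₘ S) = 0
  /-- collision of two generic points -/
  coll2 : ∀ (S : Multiset ℕ) (m w : ℕ), 1 ≤ h (m ::ₘ w ::ₘ S) →
    ∃ j, m ≤ j ∧ w ≤ j ∧ h ((j + 1) ::ₘ S) + 1 ≤ h (j ::ₘ S) ∧
      m + w + 1 + h ((j + 1) ::ₘ S) ≤ j + h (j ::ₘ S)

variable {d : ℕ} {h : Multiset ℕ → ℕ}

theorem HG.anti_le (H : HG d h) (S : Multiset ℕ) {i j : ℕ} (hij : i ≤ j) :
    h (j ::ₘ S) ≤ h (i ::ₘ S) := by
  induction j, hij using Nat.le_induction with
  | base => exact le_rfl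
  | succ n hn ih => exact (H.anti S n).trans ih

theorem HG.cons_le (H : HG d h) (S : Multiset ℕ) (j : ℕ) : h (j ::ₘ S) ≤ h S := by
  have := H.anti_le S (Nat.zero_le j)
  rwa [H.zero] at this

theorem HG.add_le (H : HG d h) (S A : Multiset ℕ) : h (A + S) ≤ h S := by
  induction A using Multiset.induction_on with
  | empty => simp
  | cons a A ih =>
    rw [Multiset.cons_add]
    exact (H.cons_le _ a).trans ih

theorem HG.eq_zero_of_gt (H : HG d h) (S : Multiset ℕ) {j : ℕ} (hj : d < j) :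
    h (j ::ₘ S) = 0 := by
  have := H.anti_le S (show d + 1 ≤ j from hj)
  rw [H.big] at this
  omega

theorem HG.le_om (H : HG d h) {S : Multiset ℕ} {j : ℕ} (hj : 1 ≤ h (j ::ₘ S)) :
    j ≤ om h d S := by
  refine Nat.le_findGreatest ?_ hj
  by_contra hc
  rw [H.eq_zero_of_gt S (by omega)] at hj
  omega

theorem HG.om_spec (H : HG d h) {S : Multiset ℕ} (hS : 1 ≤ h S) :
    1 ≤ h (om h d S ::ₘ S) := by
  have h0 : 1 ≤ h (0 ::ₘ S) := by rw [H.zero]; exact hS
  exact Nat.findGreatest_spec (P := fun j => 1 ≤ h (j ::ₘ S)) (Nat.zero_le d) h0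

theorem HG.pos_of_le_om (H : HG d h) {S : Multiset ℕ} (hS : 1 ≤ h S) {j : ℕ}
    (hj : j ≤ om h d S) : 1 ≤ h (j ::ₘ S) :=
  (H.om_spec hS).trans (H.anti_le S hj)

theorem HG.eq_zero_of_om_lt (H : HG d h) {S : Multiset ℕ} {j : ℕ} (hj : om h d S < j) :
    h (j ::ₘ S) = 0 := by
  by_contra hc
  have := H.le_om (S := S) (j := j) (by omega)
  omega

theorem HG.om_cons_le (H : HG d h) (S : Multiset ℕ) (a : ℕ) (hS : 1 ≤ h (a ::ₘ S)) :
    om h d (a ::ₘ S) ≤ om h d S := by
  apply H.le_om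
  have h1 := H.om_spec hS
  rw [Multiset.cons_swap] at h1
  exact h1.trans (H.cons_le _ a)

/-- Telescoping: `h S` is at most the sum of a bound `α` for each `Δ_j`. -/
theorem HG.h_le_mul (H : HG d h) {S : Multiset ℕ} {α : ℕ}
    (hα : ∀ j, h (j ::ₘ S) ≤ h ((j + 1) ::ₘ S) + α) :
    h S ≤ (om h d S + 1) * α := by
  have key : ∀ n, h S ≤ h (n ::ₘ S) + n * α := by
    intro n
    induction n with
    | zero => rw [H.zero]; simp
    | succ n ih =>
      have := hα n
      calc h S ≤ h (n ::ₘ S) + n * α := ih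
        _ ≤ h ((n + 1) ::ₘ S) + α + n * α := by omega
        _ = h ((n + 1) ::ₘ S) + (n + 1) * α := by ring
  have h1 := key (om h d S + 1)
  rw [H.eq_zero_of_om_lt (Nat.lt_succ_self _)] at h1
  simpa using h1

/-- `Δ` is non-increasing from a place `a` with `Δ_a ≤ a` on. -/
theorem HG.mac_from (H : HG d h) {S : Multiset ℕ} {a : ℕ}
    (_ha : h (a ::ₘ S) ≤ h ((a + 1) ::ₘ S) + a) :
    ∀ j, a ≤ j → ∀ c, h (a ::ₘ S) ≤ h ((a + 1) ::ₘ S) + c → c ≤ a →
      h (j ::ₘ S) ≤ h ((j + 1) ::ₘ S) + c := by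
  intro j hj c hc hca
  induction j, hj using Nat.le_induction with
  | base => exact hc
  | succ n hn ih =>
    have h1 : 2 * h ((n + 1) ::ₘ S) ≤ h (n ::ₘ S) + h ((n + 1 + 1) ::ₘ S) :=
      H.mac2 S n (by omega)
    omega

/-- `h S ≥ ω + 1`. -/
theorem HG.om_lt (H : HG d h) {S : Multiset ℕ} (hS : 1 ≤ h S) : om h d S + 1 ≤ h S := by
  have hΔ : ∀ j, j ≤ om h d S → h ((j + 1) ::ₘ S) + 1 ≤ h (j ::ₘ S) := by
    intro j hj
    by_contra hc
    have hle : h (j ::ₘ S) ≤ h ((j + 1) ::ₘ S) + 0 := by omega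
    have h1 : ∀ i, j ≤ i → h (j ::ₘ S) ≤ h (i ::ₘ S) := by
      intro i hi
      induction i, hi using Nat.le_induction with
      | base => exact le_rfl
      | succ n hn ih =>
        have h2 := H.mac_from (a := j) (S := S) (by omega) n hn 0 hle (Nat.zero_le _)
        omega
    have h3 := h1 (om h d S + 1) (by omega)
    rw [H.eq_zero_of_om_lt (Nat.lt_succ_self _)] at h3
    have h4 := H.pos_of_le_om hS hj
    omega
  have key : ∀ n, n ≤ om h d S + 1 → h (n ::ₘ S) + n ≤ h S := by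
    intro n
    induction n with
    | zero => intro _; rw [H.zero]; simp
    | succ n ih =>
      intro hn
      have h1 := ih (by omega)
      have h2 := hΔ n (by omega)
      omega
  have h5 := key (om h d S + 1) le_rfl
  omega

/-- The place `α` of a bad step. -/
theorem HG.bad_alpha (H : HG d h) {S : Multiset ℕ} {m : ℕ} (hb : Bad h S m) :
    ∃ α, α < m ∧ h (α ::ₘ S) ≤ h ((α + 1) ::ₘ S) + α ∧ h S = h (α ::ₘ S) + T α := by
  classical
  have hex : ∃ j, h (j ::ₘ S) ≤ h ((j + 1) ::ₘ S) + j := by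
    refine ⟨d + 1, ?_⟩
    rw [H.big]
    omega
  have hmin : ∀ j, j ≤ Nat.find hex → h S = h (j ::ₘ S) + T j := by
    intro j
    induction j with
    | zero => intro _; rw [H.zero, T_zero, add_zero]
    | succ j ih =>
      intro hj
      have h1 := ih (by omega)
      have h2 := Nat.find_min hex (m := j) (by omega)
      have h3 := H.mac1 S j
      rw [T_succ]
      omega
  refine ⟨Nat.find hex, ?_, Nat.find_spec hex, hmin _ le_rfl⟩
  by_contra hc
  have h1 := hmin m (by omega)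
  have h2 := hb.2
  omega

/-- At a bad step `1 < m ≤ ω`. -/
theorem HG.bad_two_le (H : HG d h) {S : Multiset ℕ} {m : ℕ} (hb : Bad h S m) : 2 ≤ m := by
  obtain ⟨α, h1, h2, h3⟩ := H.bad_alpha hb
  by_contra hc
  have hm : m = 1 := by omega
  have hα : α = 0 := by omega
  subst hm hα
  have h4 : h S ≤ h (1 ::ₘ S) := by
    rw [H.zero] at h2
    simpa using h2
  have hS : 1 ≤ h S := hb.1.trans (H.cons_le _ _)
  have h5 : ∀ j, h S ≤ h (j ::ₘ S) := by
    intro j
    induction j with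
    | zero => rw [H.zero]
    | succ n ih =>
      have h6 := H.mac_from (a := 0) (S := S) h2 n (Nat.zero_le _) 0 h2 le_rfl
      omega
  have h7 := h5 (d + 1)
  rw [H.big] at h7
  omega

theorem HG.bad_le_om (H : HG d h) {S : Multiset ℕ} {m : ℕ} (hb : Bad h S m) :
    m ≤ om h d S := H.le_om hb.1

theorem HG.bad_pos (H : HG d h) {S : Multiset ℕ} {m : ℕ} (hb : Bad h S m) : 1 ≤ h S :=
  hb.1.trans (H.cons_le _ _)

/-- `2 N ≤ (m - 1)(2 ω + 4 - m)` at a bad step. -/
theorem HG.bad_two_N (H : HG d h) {S : Multiset ℕ} {m : ℕ} (hb : Bad h S m) :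
    2 * (h S : ℝ) ≤ ((m : ℝ) - 1) * (2 * om h d S + 4 - m) := by
  obtain ⟨α, h1, h2, h3⟩ := H.bad_alpha hb
  have hmω := H.bad_le_om hb
  -- telescoping from `α`
  have key : ∀ i, h (α ::ₘ S) ≤ h ((α + i) ::ₘ S) + i * α := by
    intro i
    induction i with
    | zero => simp
    | succ i ih =>
      have h5 := H.mac_from h2 (α + i) (by omega) α h2 le_rfl
      have h6 : (i + 1) * α = i * α + α := by ring
      rw [h6]
      have h7 : α + (i + 1) = α + i + 1 := by ring
      rw [h7]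
      omega
  have h4 := key (om h d S + 1 - α)
  rw [show α + (om h d S + 1 - α) = om h d S + 1 by omega,
    H.eq_zero_of_om_lt (Nat.lt_succ_self _), zero_add] at h4
  obtain ⟨v, hv⟩ : ∃ v, om h d S + 1 = α + v := ⟨om h d S + 1 - α, by omega⟩
  rw [show om h d S + 1 - α = v by omega] at h4
  have e1 : (h S : ℝ) = h (α ::ₘ S) + T α := by exact_mod_cast h3
  have e2 : (h (α ::ₘ S) : ℝ) ≤ v * α := by exact_mod_cast h4
  have e3 : ((om h d S : ℕ) : ℝ) + 1 = α + v := by exact_mod_cast hv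
  have e4 : (α : ℝ) + 1 ≤ m := by exact_mod_cast h1
  have e5 : (m : ℝ) ≤ (om h d S : ℕ) := by exact_mod_cast hmω
  have e6 := T_real α
  have e7 : (0 : ℝ) ≤ α := Nat.cast_nonneg _
  rw [e1, e6]
  have e8 : (v : ℝ) = (om h d S : ℕ) + 1 - α := by linarith
  rw [e8] at e2
  nlinarith [mul_nonneg e7 (sub_nonneg.2 e4), mul_nonneg (sub_nonneg.2 e4) (sub_nonneg.2 e5),
    mul_nonneg (sub_nonneg.2 e4) (sub_nonneg.2 e4)]

/-- The two kinds of steps. -/
theorem HG.dich (H : HG d h) {S : Multiset ℕ} {ν : ℕ} (hν : 1 ≤ h (ν ::ₘ S)) :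
    (h S = h (ν ::ₘ S) + T ν ∧ om h d (ν ::ₘ S) ≤ om h d S) ∨
    ∃ α δ k, ν = α + k + 1 ∧ δ ≤ α ∧ h (ν ::ₘ S) + T α + (k + 1) * δ ≤ h S ∧
      ν + om h d (ν ::ₘ S) + 1 ≤ om h d S + δ := by
  classical
  have hω := H.om_cons_le S ν hν
  by_cases hall : ∀ j, j < ν → ¬ h (j ::ₘ S) ≤ h ((j + 1) ::ₘ S) + j
  · left
    refine ⟨?_, hω⟩
    have key : ∀ j, j ≤ ν → h S = h (j ::ₘ S) + T j := by
      intro j
      induction j with
      | zero => intro _; rw [H.zero, T_zero, add_zero]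
      | succ j ih =>
        intro hj
        have h1 := ih (by omega)
        have h2 := hall j (by omega)
        have h3 := H.mac1 S j
        rw [T_succ]
        omega
    exact key ν le_rfl
  · right
    push Not at hall
    have hex : ∃ j, h (j ::ₘ S) ≤ h ((j + 1) ::ₘ S) + j := by
      obtain ⟨j, _, hj⟩ := hall
      exact ⟨j, hj⟩
    obtain ⟨j0, hj0, hj0'⟩ := hall
    have hlt : Nat.find hex < ν := lt_of_le_of_lt (Nat.find_min' hex hj0') hj0
    have hsp := Nat.find_spec hex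
    have key : ∀ j, j ≤ Nat.find hex → h S = h (j ::ₘ S) + T j := by
      intro j
      induction j with
      | zero => intro _; rw [H.zero, T_zero, add_zero]
      | succ j ih =>
        intro hj
        have h1 := ih (by omega)
        have h2 := Nat.find_min hex (m := j) (by omega)
        have h3 := H.mac1 S j
        rw [T_succ]
        omega
    set α := Nat.find hex with hα
    -- collision
    have h1 := H.om_spec hν
    rw [Multiset.cons_swap] at h1
    obtain ⟨j, hj1, hj2, hj3, hj4⟩ := H.coll2 S ν (om h d (ν ::ₘ S)) h1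
    have hjω : j ≤ om h d S := H.le_om (by omega)
    obtain ⟨δ, hδ⟩ : ∃ δ, h (j ::ₘ S) = h ((j + 1) ::ₘ S) + δ :=
      ⟨h (j ::ₘ S) - h ((j + 1) ::ₘ S), by omega⟩
    have hδα : δ ≤ α := by
      have := H.mac_from hsp j (by omega) α hsp le_rfl
      omega
    -- `Δ_i ≥ δ` for `α ≤ i < ν`
    have hge : ∀ i, α ≤ i → i < ν → h ((i + 1) ::ₘ S) + δ ≤ h (i ::ₘ S) := by
      intro i hi hiν
      by_contra hc
      obtain ⟨c, hc'⟩ : ∃ c, h (i ::ₘ S) = h ((i + 1) ::ₘ S) + c :=
        ⟨h (i ::ₘ S) - h ((i + 1) ::ₘ S), by have := H.anti S i; omega⟩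
      have h4 : c ≤ α := by
        have := H.mac_from hsp i hi α hsp le_rfl
        omega
      have h5 := H.mac_from (a := i) (S := S) (by omega) j (by omega) c (by omega) (by omega)
      omega
    obtain ⟨k, hk⟩ : ∃ k, ν = α + k + 1 := ⟨ν - α - 1, by omega⟩
    have hA : ∀ i, i ≤ k + 1 → h ((α + i) ::ₘ S) + i * δ ≤ h (α ::ₘ S) := by
      intro i
      induction i with
      | zero => intro _; simp
      | succ i ih =>
        intro hi
        have h4 := ih (by omega)
        have h5 := hge (α + i) (by omega) (by omega)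
        have h6 : (i + 1) * δ = i * δ + δ := by ring
        rw [h6]
        have h7 : α + (i + 1) = α + i + 1 := by ring
        rw [h7]
        omega
    refine ⟨α, δ, k, hk, hδα, ?_, by omega⟩
    have h8 := hA (k + 1) le_rfl
    rw [show α + (k + 1) = ν by omega] at h8
    have h9 := key α le_rfl
    omega

/-- LEMMA D2: one step. -/
theorem HG.stepD (H : HG d h) {S : Multiset ℕ} {ν : ℕ} (hν : 1 ≤ h (ν ::ₘ S)) :
    2 * T ν + 2 * h (ν ::ₘ S) + ν * om h d (ν ::ₘ S) ≤ 2 * h S + ν * om h d S := by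
  rcases H.dich hν with ⟨h1, h2⟩ | ⟨α, δ, k, hk, h1, h2, h3⟩
  · have := Nat.mul_le_mul_left ν h2
    omega
  · have h4 := two_T ν
    have h5 := two_T α
    have h6 : ν * (ν + om h d (ν ::ₘ S) + 1) ≤ ν * (om h d S + δ) := Nat.mul_le_mul_left _ h3
    obtain ⟨a, ha⟩ := Nat.exists_eq_add_of_le h1
    subst hk
    subst ha
    nlinarith

/-- LEMMA D2: a chain of steps with multiplicities at most `B`. -/
theorem HG.chainD (H : HG d h) {B : ℕ} :
    ∀ (l : List ℕ) (S : Multiset ℕ), 1 ≤ h ((l : Multiset ℕ) + S) → (∀ x ∈ l, x ≤ B) →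
      2 * TT l + 2 * h ((l : Multiset ℕ) + S) + B * om h d ((l : Multiset ℕ) + S) ≤
        2 * h S + B * om h d S := by
  intro l
  induction l with
  | nil =>
    intro S hS hB
    simp [TT]
  | cons x l ih =>
    intro S hS hB
    have e : ((x :: l : List ℕ) : Multiset ℕ) + S = (l : Multiset ℕ) + (x ::ₘ S) := by
      rw [← Multiset.cons_coe, Multiset.cons_add, Multiset.add_cons]
    rw [e] at hS ⊢
    have h1 : 1 ≤ h (x ::ₘ S) := hS.trans (H.add_le _ _)
    have i1 := ih (x ::ₘ S) hS (fun y hy => hB y (List.mem_cons_of_mem _ hy))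
    have j1 := H.stepD h1
    have hxB : x ≤ B := hB x List.mem_cons_self
    have hω := H.om_cons_le S x h1
    have hTT : TT ((x :: l : List ℕ) : Multiset ℕ) = T x + TT (l : Multiset ℕ) := by
      rw [← Multiset.cons_coe, TT_cons]
    rw [hTT]
    obtain ⟨k, hk⟩ := Nat.exists_eq_add_of_le hω
    obtain ⟨b, rfl⟩ := Nat.exists_eq_add_of_le hxB
    rw [hk] at j1 ⊢
    nlinarith

/-- The drop of the potential `2 h + μ ω` at a step of multiplicity at least `μ`. -/
theorem HG.stepCount (H : HG d h) {S : Multiset ℕ} {μ ν : ℕ} (hμν : μ ≤ ν)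
    (hν : 1 ≤ h (ν ::ₘ S)) :
    μ * (μ + 1) + 2 * h (ν ::ₘ S) + μ * om h d (ν ::ₘ S) ≤ 2 * h S + μ * om h d S := by
  rcases H.dich hν with ⟨h1, h2⟩ | ⟨α, δ, k, hk, h1, h2, h3⟩
  · have h4 := Nat.mul_le_mul_left μ h2
    have h5 := two_T ν
    have h6 : μ * (μ + 1) ≤ ν * (ν + 1) := Nat.mul_le_mul hμν (by omega)
    omega
  · have h7 : μ * (ν + om h d (ν ::ₘ S) + 1) ≤ μ * (om h d S + δ) := Nat.mul_le_mul_left _ h3
    have h5 := two_T α
    subst hk
    by_cases hα : μ ≤ α
    · have h6 : μ * (μ + 1) ≤ α * (α + 1) := Nat.mul_le_mul hα (by omega)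
      have h2' : om h d ((α + k + 1) ::ₘ S) ≤ om h d S := H.om_cons_le S _ hν
      have h4 := Nat.mul_le_mul_left μ h2'
      have h8 : 0 ≤ (k + 1) * δ := Nat.zero_le _
      omega
    · push Not at hα
      obtain ⟨a, ha⟩ := Nat.exists_eq_add_of_le h1
      obtain ⟨b, hb⟩ := Nat.exists_eq_add_of_lt hα
      obtain ⟨c, hc⟩ := Nat.exists_eq_add_of_le hμν
      subst ha
      subst hb
      have hkc : k = b + c := by omega
      subst hkc
      nlinarith

theorem HG.chainCount (H : HG d h) {μ : ℕ} :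
    ∀ (l : List ℕ) (S : Multiset ℕ), 1 ≤ h ((l : Multiset ℕ) + S) → (∀ x ∈ l, μ ≤ x) →
      l.length * (μ * (μ + 1)) + 2 * h ((l : Multiset ℕ) + S) +
        μ * om h d ((l : Multiset ℕ) + S) ≤ 2 * h S + μ * om h d S := by
  intro l
  induction l with
  | nil =>
    intro S hS hB
    simp
  | cons x l ih =>
    intro S hS hB
    have e : ((x :: l : List ℕ) : Multiset ℕ) + S = (l : Multiset ℕ) + (x ::ₘ S) := by
      rw [← Multiset.cons_coe, Multiset.cons_add, Multiset.add_cons]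
    rw [e] at hS ⊢
    have h1 : 1 ≤ h (x ::ₘ S) := hS.trans (H.add_le _ _)
    have i1 := ih (x ::ₘ S) hS (fun y hy => hB y (List.mem_cons_of_mem _ hy))
    have j1 := H.stepCount (hB x List.mem_cons_self) h1
    rw [List.length_cons]
    nlinarith


end ShghG
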