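import Pool.Agent.ShghC.SpecE
import Pool.Agent.ShghC.ChainG

/-!
# ShghC, SpecG: sharp windows for strips, all vectors with `d ^ 2 ≥ 144 M ^ 3`

THEOREM. In characteristic `0`: if all multiplicities are `≤ M` and `d ^ 2 ≥ 144 M ^ 3` (that is
`d ≥ 12 M ^ (3/2)`) then generic fat points impose independent conditions on the curves of degree
`d`, or there is no such curve. The curve `Y = X ^ a` without a big point: helper15; the chain lemma
D2 for strips (`ChainG`) gives small constants.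
-/

namespace ShghC

open MvPolynomial ShghJ

universe u v w

/-- COLLN: the sharp collision lemma for polynomials with exponents in `N`. PROOF. A copy of
`ShghJ.hF_coll2`, `coll_K2` (`Pool.Agent.ShghJ.CollD`) with `LN N μ P` in place of `LS d μ P`:
`coll_core2` and `degSet_card` are stated for every `V`; the operator `Eop δ` preserves `LN N μ P`
(copy of `Eop_LS` in `Pool.Agent.ShghJ.CollA`; for the exponents: `X^i Y^(k+1) ↦ X^(i+1) Y^k`, the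
hypothesis on `N`, and `N` is also closed for the term with the constant `p 0`: if needed add
`ex i (k+1) ∈ N → ex i k ∈ N`, see the second hypothesis). Transfer: `S_NInv`, `S_NSemi`, `clearS`
(`Pool.Agent.ShghC.GlueN`). -/
def S_CollN : Prop := ∀ (F : Type u) [Field F] [CharZero F] (N : Finset (Fin 2 →₀ ℕ)),
  (∀ i k, ex i (k + 1) ∈ N → ex (i + 1) k ∈ N) → (∀ i k, ex i (k + 1) ∈ N → ex i k ∈ N) →
  ∀ (S : Multiset ℕ) (m w : ℕ), 1 ≤ hN F N (m ::ₘ w ::ₘ S) →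
  ∃ j, m ≤ j ∧ w ≤ j ∧ hN F N ((j + 1) ::ₘ S) + 1 ≤ hN F N (j ::ₘ S) ∧
    m + w + 1 + hN F N ((j + 1) ::ₘ S) ≤ j + hN F N (j ::ₘ S)

/-- MACN: the inequalities at one generic point. PROOF. As in `ShghJ.hfun_hF_of`
(`Pool.Agent.ShghJ.Geo`): `S_NCons`, `tCnt` (card of `degSet ≤ j + 1`), `tMac tDc tCnt` with a common
bound `d` of the degrees (`N.sup degree`), `S_NClo`. -/
def S_MacN : Prop := ∀ (F : Type u) [Field F] [CharZero F] (N : Finset (Fin 2 →₀ ℕ))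
  (S : Multiset ℕ) (j : ℕ),
  hN F N (0 ::ₘ S) = hN F N S ∧ hN F N ((j + 1) ::ₘ S) ≤ hN F N (j ::ₘ S) ∧
  hN F N (j ::ₘ S) ≤ hN F N ((j + 1) ::ₘ S) + (j + 1) ∧
  (hN F N (j ::ₘ S) ≤ hN F N ((j + 1) ::ₘ S) + j →
    2 * hN F N ((j + 1) ::ₘ S) ≤ hN F N (j ::ₘ S) + hN F N ((j + 2) ::ₘ S))

/-- The properties of the dimension `h e B` of the polynomials with exponents in `Sf n τ e` and
multiplicities `B`, including the collision lemma. -/
structure StripG (n τ : ℕ) (h : ℕ → Multiset ℕ → ℕ) : Prop where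
  /-- local properties; the order at a point is at most `e + τ` -/
  hg : ∀ e, ShghG.HG (e + τ) (h e)
  /-- without points -/
  empty : ∀ e, h e 0 = ∑ k ∈ Finset.range (τ + 1), (e + 1 - n * k)
  /-- monotonicity in `e` -/
  mono : ∀ e B, h e B ≤ h (e + 1) B
  /-- a point of multiplicity larger than `τ` contains its fibre -/
  fib : ∀ e m B, τ ≤ m → h (e + 1) ((m + 1) ::ₘ B) ≤ h e (m ::ₘ B)
  /-- the same in degree `0` -/
  fib0 : ∀ m B, τ ≤ m → h 0 ((m + 1) ::ₘ B) = 0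

/-- STRIPG. PROOF. `S_CollN` (`Sf n τ e` satisfies both hypotheses if `n ≥ 1`: `mem_Sf`), `S_MacN`,
`S_StA`, `S_StB`, `S_Fib1`. `big`: the elements of `Sf n τ e` have degree `≤ e + τ`, and a nonzero
polynomial of total degree `D` has no point of multiplicity `D + 1` (`ShghE.tf_mem_iff`,
the translated polynomial has the same total degree; see `big` in `ShghJ.hfun_hF_of`). -/
def S_StripG : Prop := ∀ (F : Type u) [Field F] [CharZero F] (n τ : ℕ), 1 ≤ n →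
  StripG n τ (fun e B => hN F (Sf n τ e) B)

/-- WING: windows of strips with small constants (pure arithmetic). `G e = h e 0`.
PROOF. `ω_e S = om (h e) (e + τ) S`, `Bad`, `bad_two_N`, `chainD` of `ChainG`.
`G (j+1) = G j + (τ+1)` for `j + 1 ≥ n τ`. (G2): `2 (G (nτ) - G e') ≥ (τ+1)(nτ - e')` for
`e' ≤ nτ`: with `D = nτ - e'` the row `k` contributes at least `min D (n (τ-k)) ≥ D (τ-k)/τ`
(`τ ≥ 1`). FIRST BAD step in degree `e` (a chain from `0`, all multiplicities `≤ M`): `S`, `m ≤ M`,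
`h e S + TT S = G e`, `Bad (h e) S m`. `d1 S` = least `j` with `h j S ≥ 1`, `u = e - d1 S`.
(a) `ω_e S ≤ τ + u`: if `h e (ω :: S) ≥ 1`, `ω = τ + v`, then `fib` `v` times gives `v ≤ e` and
`h (e - v) (τ :: S) ≥ 1`, so `d1 S ≤ e - v`. (b) `2 h e S ≤ (M-1)(2 (τ+u) + 4 - M)`: `bad_two_N`,
`(m-1)(2ω+4-m)` is increasing in `m ≤ M ≤ Ω = τ + u` and in `ω`. (c) in degree `e' = d1 S`:
`2 TT S + 2 ≤ 2 G e' + M (τ + u1)`: consider the chain from `0` to `S` in degree `e'`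
(`h e' S ≥ 1`): without bad step `TT S + h e' S = G e'`; with a first bad step `(S1, m1)`,
`S = l + S1`: `chainD`: `2 TT l + 2 h e' S ≤ 2 h e' S1 + M ω_e' S1`, `ω_e' S1 ≤ τ + u1`, `u1 = e' -
d1 S1`. (d) so `2 (G e - G e') + 2 ≤ (M-1)(2τ+2u+4-M) + M (τ + u1)`.
CLAIM (strong induction on `e`): a first bad step in degree `e ≥ nτ` has `u ≤ 4M + (E - e)`
(truncated), `E = nτ + 2M(n+1)`. Case `e' ≥ nτ` (`u ≥ 1`, so `e' < e`): `u1 ≤ 4M + (E - e')
≤ 4M + z + u`, `z = E - e`, and (d) is `u (2τ + 4 - 3M) ≤ 3Mτ + 3M^2 + 5M - 2τ - 6 + M z`;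
`u ≥ 4M + z + 1` is a contradiction because `τ ≥ 3M`. (If there is no bad step in (c) read `u1 = 0`.)
Case `e' < nτ`: `x = e - nτ`, `y = nτ - e'`, `u = x + y`, `u1 ≤ e'`, (G2): (d) is
`(τ-M+2)(2x + y) ≤ Mτ(n+3) + 5M - M^2 - 2τ - 6`, so `2x + y ≤ (3/2) M (n+3)` and
`u ≤ (3/2) M (n+3) - x ≤ 4M + E - e`.
RESULT for `e ≥ E`: `u ≤ 4M`, `ω ≤ τ + 4M`. First claim: (c) with the first bad step in degree `e`
in the chain `0` to `B`. Second claim: otherwise there is a first bad step `S`,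
`2 h e S ≤ (M-1)(2τ+7M+4)` but `h e S = G e - TT S ≥ G e - TT B`. -/
def S_WinG : Prop := ∀ (n τ : ℕ) (h : ℕ → Multiset ℕ → ℕ), StripG n τ h → ∀ (M e : ℕ)
  (B : Multiset ℕ), 1 ≤ M → 3 * M ≤ τ → (∀ x ∈ B, x ≤ M) →
  n * τ + 2 * M * (n + 1) ≤ e →
  (1 ≤ h e B → 2 * TT B + 2 ≤ 2 * (∑ k ∈ Finset.range (τ + 1), (e + 1 - n * k)) +
    M * (τ + 4 * M)) ∧
  (2 * TT B + (M - 1) * (2 * τ + 7 * M + 4) < 2 * (∑ k ∈ Finset.range (τ + 1), (e + 1 - n * k)) →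
    h e B + TT B = ∑ k ∈ Finset.range (τ + 1), (e + 1 - n * k))

/-- RED: reduction to `-M < χ ≤ 0`. PROOF. `χ ≥ 0`: `S' = replicate χ 1 + S` has `TT S' = T (d+1)`,
`h S' = 0` and `h S ≤ h S' + χ` (`mac1` with `j = 0`, `χ` times), and `HFun.chi_le`. `χ < 0`: take
points of `S` one after the other until the sum of the `T` exceeds `T (d+1)`: `μ :: S1 ≤ S`,
`TT S1 ≤ T (d+1) < TT (μ :: S1)`; the least `j` with `TT (j :: S1) ≥ T (d+1)` has `j ≤ μ` and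
`TT (j :: S1) < T (d+1) + M`; `h S ≤ h (μ :: S1) ≤ h (j :: S1) = 0`. -/
def S_Red : Prop := ∀ (d M : ℕ) (h : Multiset ℕ → ℕ), HFun d h → 1 ≤ M →
  (∀ S : Multiset ℕ, (∀ x ∈ S, x ≤ M) → T (d + 1) ≤ TT S → TT S < T (d + 1) + M → h S = 0) →
  ∀ S : Multiset ℕ, (∀ x ∈ S, x ≤ M) → h S = T (d + 1) - TT S

/-- LONGG: the closing. PROOF. `τ = 3M + 1`, `a` = the integer nearest to `d / (2τ)`, `n = a^2`,
`g = T (a-2)`, `δ = a d - g`, `c = δ - nτ` (about `d^2/(4τ)`), `p = ⌈18 M^2/5⌉`,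
`2 q = (M-1)(13M+6) + 2 + 2 (M-1)` (so `q ≥ 41 M^2/20`, for `M ≥ 2`). Facts (checked by computer for
`d^2 ≥ 131 M^3`, all `M ≥ 1`): `(τ+1) a ≤ d`, `nτ + 2M(n+1) ≤ δ`, `p + q + T M ≤ c + 1`,
`p ≤ T (d - τa + 1)`. (`M = 1`: no bad steps, `HFun.bad_two_le`; small `M` need the nearest integer.)
Identities: `T (d+1) = T (d - τa + 1) + N'`, `N' = ∑_(k<τ) (δ + 1 - nk)`, `T (d-τa+1) =
T (d-(τ+1)a+1) + (c+1)`. Choose `S = A + B` with `x = T (d-τa+1) - TT A ∈ [p, p + T M)` (add points to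
`A` one after the other; `exists_part` in `ShghL.Close1`). `winD` (`W = 0`): `hF (d-τa) A + TT A =
T (d-τa+1)`, and `hF (d-(τ+1)a) A = 0` as its expected dimension is `x - (c+1) ≤ -q ≤ -41M^2/20`.
`y = c + 1 + χ - x = ∑_(k≤τ) (δ+1-nk) - TT B`, `χ = T (d+1) - TT S ∈ (-M, 0]`, `x ≤ c + 1 - q`:
`2y > (M-1)(2τ+7M+4)`, `S_WinG` second claim: `hN (Sf n τ δ) B = y`. `TT B - ∑_(k<τ) (δ+1-nk) =
x - χ ≥ p`: `S_WinG` first claim for `τ - 1 = 3M`: `hN (Sf n (τ-1) δ) B = 0` (`7M^2 < 2p + 2`).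
`S_CloseR`: `hF d S ≤ y + x - (c+1) = χ ≤ 0` (truncated). -/
def S_LongG : Prop := ∀ (F : Type u) [Field F] [CharZero F] (d M : ℕ) (S : Multiset ℕ), 1 ≤ M →
  (∀ x ∈ S, x ≤ M) → 144 * M ^ 3 ≤ d ^ 2 → T (d + 1) ≤ TT S → TT S < T (d + 1) + M →
  hF F d S = 0

/-- ALL: all vectors with `d ^ 2 ≥ 144 M ^ 3`. PROOF. `S_Red` with `hfun_hF`, `S_LongG`. -/
def S_All : Prop := ∀ (F : Type u) [Field F] [CharZero F] (d M : ℕ) (S : Multiset ℕ), 1 ≤ M →
  (∀ x ∈ S, x ≤ M) → 144 * M ^ 3 ≤ d ^ 2 → hF F d S = T (d + 1) - TT S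

end ShghC
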