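import Pool.Agent.ShghC.SpecG
import Pool.Agent.ShghJ.Base

/-!
# ShghC, StripG: the structure `StripG` for strips
-/

namespace ShghC

open MvPolynomial ShghJ

universe u v w

private theorem stripG_c1 {n τ e : ℕ} (hn : 1 ≤ n) (i k : ℕ) (h : ex i (k + 1) ∈ Sf n τ e) :
    ex (i + 1) k ∈ Sf n τ e := by
  rw [mem_Sf, ex_zero, ex_one] at h ⊢
  rw [Nat.mul_succ] at h
  exact ⟨by omega, by omega⟩

private theorem stripG_c2 {n τ e : ℕ} (i k : ℕ) (h : ex i (k + 1) ∈ Sf n τ e) :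
    ex i k ∈ Sf n τ e := by
  rw [mem_Sf, ex_zero, ex_one] at h ⊢
  rw [Nat.mul_succ] at h
  exact ⟨by omega, by omega⟩

private theorem stripG_deg {K : Type u} [Field K] {n τ e s : ℕ} (hn : 1 ≤ n)
    {μ : Fin s → ℕ} {P : Fin s → Fin 2 → K} {f : MvPolynomial (Fin 2) K}
    (hf : f ∈ LN (Sf n τ e) μ P) : f.totalDegree ≤ e + τ := by
  rw [ShghE.tf_totalDegree_le]
  intro x hx
  rw [mem_support_iff] at hx
  have h := (mem_LN.1 hf).1 x hx
  rw [mem_Sf] at h
  rw [deg_eq]
  have : x 1 ≤ n * x 1 := Nat.le_mul_of_pos_left _ hn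
  omega

theorem tStripG (h1 : S_CollN.{u}) (h2 : S_MacN.{u}) (h3 : S_StA.{u}) (h4 : S_StB.{u})
    (h5 : S_Fib1.{u}) (h6 : S_NCons.{u}) : S_StripG.{u} := by
  intro F _ _ n τ hn
  refine ⟨fun e => ⟨?_, ?_, ?_, ?_, ?_, ?_⟩, ?_, ?_, ?_, ?_⟩
  · exact fun S => (h2 F _ S 0).1
  · exact fun S j => (h2 F _ S j).2.1
  · exact fun S j => (h2 F _ S j).2.2.1
  · exact fun S j => (h2 F _ S j).2.2.2
  · intro S
    have h := tBase (UF F) 1 (e + τ) (fun _ => e + τ + 1) (fun i => up F i)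
      (fun i j hij => absurd (Subsingleton.elim i j) hij) (by simp)
    have h0 : Module.finrank (UF F)
        (ShghT.LS (e + τ) (fun _ : Fin 1 => e + τ + 1) (fun i => up F i)) = 0 := by
      rw [Fin.sum_univ_one] at h
      have e1 : e + τ + 1 + 1 = e + τ + 2 := rfl
      rw [e1] at h
      omega
    have hle : fil (LN (Sf n τ e) (fun i : Fin S.toList.length => S.toList.get i)
        (fun i => up F (i + 1))) (up F 0) (e + τ + 1) ≤
        ShghT.LS (e + τ) (fun _ : Fin 1 => e + τ + 1) (fun i => up F i) := by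
      intro f hf
      refine ShghT.mem_LS.2 ⟨stripG_deg hn hf.1, fun i => ?_⟩
      have hi : i = 0 := Subsingleton.elim _ _
      subst hi
      exact hf.2
    show hN F (Sf n τ e) ((e + τ + 1) ::ₘ S) = 0
    rw [(h6 F _ S).2]
    have := Submodule.finrank_mono hle
    omega
  · exact fun S m w h => h1 F _ (fun i k => stripG_c1 hn i k) (fun i k => stripG_c2 i k) S m w h
  · exact (h3 F n τ).1
  · exact (h4 F n τ).1
  · exact fun e m B hm => (h5 F n τ m B hm).1 e
  · exact fun m B hm => (h5 F n τ m B hm).2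

end ShghC
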