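import Pool.Agent.ShghC.SpecG

/-!
# ShghC, WING: windows of strips with small constants (pure arithmetic)
-/

set_option autoImplicit false

namespace ShghC

open ShghJ ShghG

namespace WinG

variable {n τ : ℕ} {h : ℕ → Multiset ℕ → ℕ}

/-- the number of monomials of the strip -/
def G (n τ e : ℕ) : ℕ := ∑ k ∈ Finset.range (τ + 1), (e + 1 - n * k)

theorem G_succ {e : ℕ} (he : n * τ ≤ e + 1) : G n τ (e + 1) = G n τ e + (τ + 1) := by
  unfold G
  have h1 : ∑ k ∈ Finset.range (τ + 1), (e + 1 + 1 - n * k) =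
      ∑ k ∈ Finset.range (τ + 1), ((e + 1 - n * k) + 1) := by
    refine Finset.sum_congr rfl fun k hk => ?_
    have hk' := Finset.mem_range.1 hk
    have h2 : n * k ≤ n * τ := Nat.mul_le_mul_left n (by omega)
    omega
  rw [h1, Finset.sum_add_distrib, Finset.sum_const, Finset.card_range, smul_eq_mul, mul_one]

theorem G_add {e : ℕ} (he : n * τ ≤ e) (u : ℕ) : G n τ (e + u) = G n τ e + (τ + 1) * u := by
  induction u with
  | zero => rw [add_zero, mul_zero, add_zero]
  | succ u ih =>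
    rw [← add_assoc, G_succ (by omega), ih]
    ring

theorem G_row {e k : ℕ} (he : e ≤ n * τ) (hk : k ≤ τ) :
    (n * τ - e) * (τ - k) + τ * (e + 1 - n * k) ≤ τ * (n * τ + 1 - n * k) := by
  obtain ⟨D, hD⟩ := Nat.exists_eq_add_of_le he
  obtain ⟨i, hi⟩ := Nat.exists_eq_add_of_le hk
  have h1 : n * τ = n * k + n * i := by rw [hi]; ring
  rw [show n * τ - e = D by omega, show τ - k = i by omega]
  rcases Nat.lt_or_ge (n * k) (e + 1) with h2 | h2
  · rw [show n * τ + 1 - n * k = (e + 1 - n * k) + D by omega, mul_add, add_comm]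
    refine Nat.add_le_add_left ?_ _
    rw [mul_comm]
    exact Nat.mul_le_mul_right _ (by omega)
  · rw [show e + 1 - n * k = 0 by omega, mul_zero, add_zero,
      show n * τ + 1 - n * k = n * i + 1 by omega]
    have h3 : D * i ≤ n * τ * i := Nat.mul_le_mul_right _ (by omega)
    have h4 : n * τ * i = τ * (n * i) := by ring
    rw [mul_add]
    omega

theorem sum_sub (t : ℕ) : 2 * ∑ k ∈ Finset.range (t + 1), (t - k) = t * (t + 1) := by
  have h1 : ∑ k ∈ Finset.range (t + 1), (t - k) = ∑ k ∈ Finset.range (t + 1), k := by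
    rw [← Finset.sum_range_reflect]
    refine Finset.sum_congr rfl fun i hi => ?_
    have := Finset.mem_range.1 hi
    omega
  rw [h1, mul_comm, Finset.sum_range_id_mul_two, Nat.add_sub_cancel, mul_comm]

theorem G_two {e : ℕ} (hτ : 1 ≤ τ) (he : e ≤ n * τ) :
    2 * G n τ e + (τ + 1) * (n * τ - e) ≤ 2 * G n τ (n * τ) := by
  have h1 : ∑ k ∈ Finset.range (τ + 1), ((n * τ - e) * (τ - k) + τ * (e + 1 - n * k)) ≤
      ∑ k ∈ Finset.range (τ + 1), τ * (n * τ + 1 - n * k) :=
    Finset.sum_le_sum fun k hk => G_row he (by have := Finset.mem_range.1 hk; omega)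
  rw [Finset.sum_add_distrib, ← Finset.mul_sum, ← Finset.mul_sum, ← Finset.mul_sum] at h1
  change (n * τ - e) * _ + τ * G n τ e ≤ τ * G n τ (n * τ) at h1
  have h2 := sum_sub τ
  have h3 : τ * (2 * G n τ e + (τ + 1) * (n * τ - e)) ≤ τ * (2 * G n τ (n * τ)) := by
    have h4 : τ * (2 * G n τ e + (τ + 1) * (n * τ - e)) =
        2 * ((n * τ - e) * (∑ k ∈ Finset.range (τ + 1), (τ - k)) + τ * G n τ e) := by
      rw [mul_add 2, ← mul_assoc 2 (n * τ - e), mul_comm 2 (n * τ - e), mul_assoc (n * τ - e) 2, h2]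
      ring
    rw [h4]
    calc _ ≤ 2 * (τ * G n τ (n * τ)) := Nat.mul_le_mul_left _ h1
      _ = _ := by ring
  exact Nat.le_of_mul_le_mul_left h3 (by omega)

/-- the first degree with `h ≥ 1` -/
noncomputable def d1 (h : ℕ → Multiset ℕ → ℕ) (B : Multiset ℕ) : ℕ := sInf {j | 1 ≤ h j B}

theorem d1_le {B : Multiset ℕ} {e : ℕ} (he : 1 ≤ h e B) : d1 h B ≤ e := Nat.sInf_le he

theorem d1_spec {B : Multiset ℕ} {e : ℕ} (he : 1 ≤ h e B) : 1 ≤ h (d1 h B) B :=
  Nat.sInf_mem (s := {j | 1 ≤ h j B}) ⟨e, he⟩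

/-- the expected dimension is a lower bound: one step -/
theorem chi_le {d : ℕ} {g : Multiset ℕ → ℕ} (H : HG d g) (S : Multiset ℕ) (a : ℕ) :
    g S ≤ g (a ::ₘ S) + T a := by
  induction a with
  | zero => rw [H.zero, T_zero, add_zero]
  | succ a ih =>
    have := H.mac1 S a
    rw [T_succ]
    omega

/-- a first bad step in degree `e` with multiplicities at most `M` -/
def FB (n τ M : ℕ) (h : ℕ → Multiset ℕ → ℕ) (e : ℕ) (S : Multiset ℕ) (m : ℕ) : Prop :=
  (∀ x ∈ S, x ≤ M) ∧ m ≤ M ∧ h e S + TT S = G n τ e ∧ Bad (h e) S m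

theorem fibs (H : StripG n τ h) (S : Multiset ℕ) : ∀ v e : ℕ, 1 ≤ h e ((τ + v) ::ₘ S) →
    v ≤ e ∧ 1 ≤ h (e - v) (τ ::ₘ S) := by
  intro v
  induction v with
  | zero => intro e he; exact ⟨Nat.zero_le _, he⟩
  | succ v ih =>
    intro e he
    rcases e with _ | e
    · have := H.fib0 (τ + v) S (by omega)
      rw [← add_assoc, this] at he
      omega
    · have h1 := H.fib e (τ + v) S (by omega)
      obtain ⟨h2, h3⟩ := ih e (he.trans h1)
      refine ⟨by omega, ?_⟩
      rwa [show e + 1 - (v + 1) = e - v by omega]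

/-- (a) -/
theorem om_le (H : StripG n τ h) {e : ℕ} {S : Multiset ℕ} (hS : 1 ≤ h e S) :
    om (h e) (e + τ) S ≤ τ + (e - d1 h S) := by
  rcases Nat.le_total (om (h e) (e + τ) S) τ with h1 | h1
  · omega
  · obtain ⟨v, hv⟩ := Nat.exists_eq_add_of_le h1
    have h2 := (H.hg e).om_spec hS
    rw [hv] at h2 ⊢
    obtain ⟨h3, h4⟩ := fibs H S v e h2
    have h5 := d1_le (h4.trans ((H.hg (e - v)).cons_le S τ))
    omega

/-- (b) -/
theorem two_h (H : StripG n τ h) {M e m : ℕ} {S : Multiset ℕ} (hM : M ≤ τ) (hm : m ≤ M)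
    (hb : Bad (h e) S m) :
    2 * (h e S : ℤ) ≤ ((M : ℤ) - 1) * (2 * (τ + ((e - d1 h S : ℕ) : ℤ)) + 4 - M) := by
  have h1 := (H.hg e).bad_two_N hb
  have h2 : ((om (h e) (e + τ) S : ℕ) : ℝ) ≤ τ + ((e - d1 h S : ℕ) : ℝ) := by
    exact_mod_cast om_le H ((H.hg e).bad_pos hb)
  have h3 : (2 : ℝ) ≤ m := by exact_mod_cast (H.hg e).bad_two_le hb
  have h4 : (m : ℝ) ≤ M := by exact_mod_cast hm
  have h5 : (M : ℝ) ≤ τ := by exact_mod_cast hM
  have h6 : (0 : ℝ) ≤ ((e - d1 h S : ℕ) : ℝ) := Nat.cast_nonneg _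
  have h7 : 2 * (h e S : ℝ) ≤ ((M : ℝ) - 1) * (2 * (τ + ((e - d1 h S : ℕ) : ℝ)) + 4 - M) := by
    generalize ((e - d1 h S : ℕ) : ℝ) = u at *
    nlinarith [mul_nonneg (show (0 : ℝ) ≤ m - 1 by linarith) (sub_nonneg.2 h2),
      mul_nonneg (sub_nonneg.2 h4) (show (0 : ℝ) ≤ 2 * (τ + u) + 5 - M - m by linarith)]
  exact_mod_cast h7

/-- the chain from `0` to `B`: no bad step or a first bad step -/
theorem firstBad (H : StripG n τ h) {M e : ℕ} (B : Multiset ℕ) :
    (∀ x ∈ B, x ≤ M) → 1 ≤ h e B → h e B + TT B = G n τ e ∨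
      ∃ l S m, B = l + S ∧ FB n τ M h e S m := by
  induction B using Multiset.induction_on with
  | empty =>
    intro _ _
    left
    rw [TT_zero, add_zero]
    exact H.empty e
  | cons a B ih =>
    intro hB hpos
    have hB' : ∀ x ∈ B, x ≤ M := fun x hx => hB x (Multiset.mem_cons_of_mem hx)
    rcases ih hB' (hpos.trans ((H.hg e).cons_le B a)) with h1 | ⟨l, S, m, h1, h2⟩
    · by_cases hb : Bad (h e) B a
      · right
        exact ⟨{a}, B, a, by rw [Multiset.singleton_add], hB', hB a (Multiset.mem_cons_self a B),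
          h1, hb⟩
      · left
        have h2 := chi_le (H.hg e) B a
        have h3 : h e (a ::ₘ B) + T a ≤ h e B := by
          by_contra hc
          exact hb ⟨hpos, by omega⟩
        rw [TT_cons]
        omega
    · right
      exact ⟨a ::ₘ l, S, m, by rw [h1, Multiset.cons_add], h2⟩

/-- (c) -/
theorem stepC (H : StripG n τ h) {M e : ℕ} {S : Multiset ℕ} (hM : ∀ x ∈ S, x ≤ M)
    (hS : 1 ≤ h e S) : 2 * TT S + 2 ≤ 2 * G n τ e ∨
      ∃ S1 m1, FB n τ M h e S1 m1 ∧
        2 * TT S + 2 ≤ 2 * G n τ e + M * (τ + (e - d1 h S1)) := by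
  rcases firstBad H S hM hS with h1 | ⟨l, S1, m1, h1, h2⟩
  · left
    omega
  · right
    refine ⟨S1, m1, h2, ?_⟩
    have hM' : ∀ x ∈ l, x ≤ M := fun x hx => hM x (by rw [h1]; exact Multiset.mem_add.2 (.inl hx))
    subst h1
    have h3 := (H.hg e).chainD (B := M) l.toList S1 (by rw [Multiset.coe_toList]; exact hS)
      (fun x hx => hM' x (Multiset.mem_toList.1 hx))
    rw [Multiset.coe_toList] at h3
    have h4 := om_le H ((H.hg e).bad_pos h2.2.2.2)
    have h5 := Nat.mul_le_mul_left M h4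
    have h6 := h2.2.2.1
    rw [TT_add]
    omega

/-- CLAIM -/
theorem claim (H : StripG n τ h) {M : ℕ} (hM1 : 1 ≤ M) (hM : 3 * M ≤ τ) :
    ∀ e, n * τ ≤ e → ∀ S m, FB n τ M h e S m →
      e - d1 h S ≤ 4 * M + (n * τ + 2 * M * (n + 1) - e) := by
  intro e
  induction e using Nat.strong_induction_on with
  | _ e ih =>
    intro he S m hFB
    obtain ⟨hSM, hmM, hG, hb⟩ := hFB
    have hpos : 1 ≤ h e S := (H.hg e).bad_pos hb
    have hd := d1_le hpos
    have hd' := d1_spec hpos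
    have hbd := two_h H (by omega) hmM hb
    by_contra hcon
    push Not at hcon
    have hu1 : d1 h S < e := by omega
    -- the bound (c)
    have hc : ∃ u1 : ℕ, 2 * TT S + 2 ≤ 2 * G n τ (d1 h S) + M * (τ + u1) ∧ u1 ≤ d1 h S ∧
        (n * τ ≤ d1 h S → u1 ≤ 4 * M + (n * τ + 2 * M * (n + 1) - d1 h S)) := by
      rcases stepC H hSM hd' with h1 | ⟨S1, m1, h1, h2⟩
      · exact ⟨0, by omega, Nat.zero_le _, fun _ => Nat.zero_le _⟩
      · exact ⟨_, h2, Nat.sub_le _ _, fun h3 => ih _ hu1 h3 S1 m1 h1⟩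
    obtain ⟨u1, hc1, hc2, hc3⟩ := hc
    generalize d1 h S = e' at *
    obtain ⟨u, rfl⟩ := Nat.exists_eq_add_of_le hd
    rw [Nat.add_sub_cancel_left] at hbd hcon
    have e1 : (h (e' + u) S : ℤ) + TT S = G n τ (e' + u) := by exact_mod_cast hG
    have e2 : 2 * (TT S : ℤ) + 2 ≤ 2 * G n τ e' + M * (τ + u1) := by exact_mod_cast hc1
    have e3 : (3 : ℤ) * M ≤ τ := by exact_mod_cast hM
    have e4 : (1 : ℤ) ≤ M := by exact_mod_cast hM1
    rcases le_or_gt (n * τ) e' with h1 | h1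
    · -- Case `e' ≥ nτ`
      have h2 := G_add h1 u
      have e5 : (G n τ (e' + u) : ℤ) = G n τ e' + (τ + 1) * u := by exact_mod_cast h2
      obtain ⟨z, hz⟩ : ∃ z, n * τ + 2 * M * (n + 1) - (e' + u) = z := ⟨_, rfl⟩
      rw [hz] at hcon
      have h3 : u1 ≤ 4 * M + z + u := by
        have := hc3 h1
        omega
      have e6 : (u1 : ℤ) ≤ 4 * M + z + u := by exact_mod_cast h3
      have e7 : 4 * (M : ℤ) + z + 1 ≤ u := by exact_mod_cast hcon
      have e8 : (0 : ℤ) ≤ z := Nat.cast_nonneg _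
      have e9 : (M : ℤ) * u1 ≤ M * (4 * M + z + u) := mul_le_mul_of_nonneg_left e6 (by linarith)
      -- `u (2τ + 4 - 3M) ≤ 3Mτ + 3M² + 5M - 2τ - 6 + M z`
      have k1 : (u : ℤ) * (2 * τ + 4 - 3 * M) ≤
          3 * M * τ + 3 * M ^ 2 + 5 * M - 2 * τ - 6 + M * z := by
        nlinarith
      have k2 : (4 * (M : ℤ) + z + 1) * (2 * τ + 4 - 3 * M) ≤ u * (2 * τ + 4 - 3 * M) :=
        mul_le_mul_of_nonneg_right e7 (by linarith only [e3, e4])
      nlinarith [mul_nonneg (show (0 : ℤ) ≤ M by linarith) (sub_nonneg.2 e3),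
        mul_nonneg e8 (show (0 : ℤ) ≤ 2 * τ + 4 - 4 * M by linarith)]
    · -- Case `e' < nτ`
      obtain ⟨x, hx⟩ := Nat.exists_eq_add_of_le he
      obtain ⟨y, hy⟩ := Nat.exists_eq_add_of_le h1.le
      have hu : u = x + y := by omega
      have h2 := G_add (le_refl (n * τ)) x
      rw [← hx] at h2
      have h3 := G_two (n := n) (τ := τ) (e := e') (by omega) h1.le
      rw [show n * τ - e' = y by omega] at h3
      have e5 : (G n τ (e' + u) : ℤ) = G n τ (n * τ) + (τ + 1) * x := by exact_mod_cast h2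
      have e6 : 2 * (G n τ e' : ℤ) + (τ + 1) * y ≤ 2 * G n τ (n * τ) := by exact_mod_cast h3
      have e7 : (u1 : ℤ) ≤ n * τ - y := by
        have : u1 + y ≤ n * τ := by omega
        have : (u1 : ℤ) + y ≤ n * τ := by exact_mod_cast this
        linarith
      have e8 : (u : ℤ) = x + y := by exact_mod_cast hu
      have e9 : (M : ℤ) * u1 ≤ M * (n * τ - y) := mul_le_mul_of_nonneg_left e7 (by linarith)
      have e10 : (0 : ℤ) ≤ x := Nat.cast_nonneg _
      have e11 : (0 : ℤ) ≤ y := Nat.cast_nonneg _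
      have e12 : (0 : ℤ) ≤ n := Nat.cast_nonneg _
      have h4 : 2 * M * (n + 3) + 1 ≤ u + x := by
        have : 2 * M * (n + 3) = 2 * M * (n + 1) + 4 * M := by ring
        omega
      have e13 : 2 * (M : ℤ) * (n + 3) + 1 ≤ u + x := by exact_mod_cast h4
      -- `(τ - M + 2)(2x + y) ≤ Mτ(n+3) + 5M - M² - 2τ - 6`
      have k1 : ((τ : ℤ) - M + 2) * (2 * x + y) ≤
          M * τ * (n + 3) + 5 * M - M ^ 2 - 2 * τ - 6 := by
        rw [e8] at hbd
        nlinarith
      have k2 : ((τ : ℤ) - M + 2) * (2 * M * (n + 3) + 1) ≤ ((τ : ℤ) - M + 2) * (2 * x + y) :=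
        mul_le_mul_of_nonneg_left (by linarith only [e13, e8]) (by linarith only [e3, e4])
      have k3 : (0 : ℤ) ≤ M * (n + 3) :=
        mul_nonneg (by linarith only [e4]) (by linarith only [e12])
      have k4 := mul_nonneg k3 (sub_nonneg.2 e3)
      have k5 := mul_nonneg k3 (show (0 : ℤ) ≤ M by linarith only [e4])
      have k6 := sq_nonneg (M : ℤ)
      linarith only [k1, k2, k3, k4, k5, k6, e3, e4]

end WinG

open WinG in
/-- WING -/
theorem tWinG : S_WinG := by
  intro n τ h H M e B hM1 hM hB he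
  have hcl := claim H hM1 hM e (by omega)
  have hz : n * τ + 2 * M * (n + 1) - e = 0 := by omega
  rw [hz, add_zero] at hcl
  refine ⟨fun hpos => ?_, fun hlt => ?_⟩
  · change 2 * TT B + 2 ≤ 2 * G n τ e + M * (τ + 4 * M)
    rcases stepC H hB hpos with h1 | ⟨S1, m1, h1, h2⟩
    · omega
    · have h3 := hcl S1 m1 h1
      have h4 : M * (τ + (e - d1 h S1)) ≤ M * (τ + 4 * M) := Nat.mul_le_mul_left _ (by omega)
      omega
  · change h e B + TT B = G n τ e
    change 2 * TT B + (M - 1) * (2 * τ + 7 * M + 4) < 2 * G n τ e at hlt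
    -- all parts of the chain are good
    have key : ∀ S : Multiset ℕ, S ≤ B → h e S + TT S = G n τ e := by
      intro S
      induction S using Multiset.induction_on with
      | empty =>
        intro _
        rw [TT_zero, add_zero]
        exact H.empty e
      | cons a S ih =>
        intro hS
        have hS' : S ≤ B := (Multiset.le_cons_self S a).trans hS
        have h1 := ih hS'
        by_contra hc
        have h2 := chi_le (H.hg e) S a
        have h3 : TT (a ::ₘ S) ≤ TT B := by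
          obtain ⟨R, hR⟩ := Multiset.le_iff_exists_add.1 hS
          rw [hR, TT_add]
          omega
        rw [TT_cons] at hc h3
        have hb : Bad (h e) S a := ⟨by omega, by omega⟩
        have hSM : ∀ x ∈ S, x ≤ M := fun x hx => hB x (Multiset.mem_of_le hS' hx)
        have haM : a ≤ M := hB a (Multiset.mem_of_le hS (Multiset.mem_cons_self a S))
        have h4 := hcl S a ⟨hSM, haM, h1, hb⟩
        have h5 := two_h H (show M ≤ τ by omega) haM hb
        obtain ⟨k, rfl⟩ := Nat.exists_eq_add_of_le hM1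
        rw [Nat.add_sub_cancel_left] at hlt
        have e1 : ((e - d1 h S : ℕ) : ℤ) ≤ 4 * (1 + k) := by exact_mod_cast h4
        have e2 : (2 * TT B + k * (2 * τ + 7 * (1 + k) + 4) : ℤ) < 2 * G n τ e := by
          exact_mod_cast hlt
        have e3 : (h e S : ℤ) + TT S = G n τ e := by exact_mod_cast h1
        have e4 : (T a : ℤ) + TT S ≤ TT B := by exact_mod_cast h3
        have e5 : (0 : ℤ) ≤ k := Nat.cast_nonneg _
        have e6 : (0 : ℤ) ≤ T a := Nat.cast_nonneg _
        push_cast at h5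
        nlinarith [mul_le_mul_of_nonneg_left e1 e5]
    exact key B le_rfl

end ShghC
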