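import Pool.Agent.ShghC.MainX
import Pool.Agent.ShghC.SpecG
import Pool.Agent.ShghC.CloseR
import Pool.Agent.ShghC.Elm1
import Pool.Agent.ShghC.Elm0
import Pool.Agent.ShghC.Fib1
import Pool.Agent.ShghC.PE
import Pool.Agent.ShghC.HomC
import Pool.Agent.ShghC.Hom
import Pool.Agent.ShghC.CollN
import Pool.Agent.ShghC.MacN
import Pool.Agent.ShghC.StripG
import Pool.Agent.ShghC.WinG
import Pool.Agent.ShghC.Red
import Pool.Agent.ShghC.LongG

/-!
# ShghC/MainG: exponent `3 / 2` with small constants, homogeneous systems with `s ≥ 30 m`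
-/

namespace ShghC

open MvPolynomial ShghJ

universe u

theorem Sf_one_eq_Trap {e t : ℕ} (h : e ≤ t) : Sf 1 t e = Trap e e := by
  ext x
  rw [mem_Sf, mem_Trap]
  omega

/-- The dimension in degree `e + 1` is at most `e + 2` more than in degree `e`. -/
theorem hF_succ_le (F : Type u) [Field F] [CharZero F] (e : ℕ) (A : Multiset ℕ) :
    hF F (e + 1) A ≤ hF F e A + (e + 2) := by
  have h := (mStB F 1 (e + 1)).2.1 e A
  rw [Sf_one_eq_Trap (Nat.le_succ e), Sf_one_eq_Trap (le_refl (e + 1)), hN_tri mProj,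
    hN_tri mProj] at h
  exact h

/-- Independent conditions in degree `e` are independent in all larger degrees. -/
theorem hF_exact_mono (F : Type u) [Field F] [CharZero F] (A : Multiset ℕ) (e k : ℕ)
    (h : hF F e A + TT A = T (e + 1)) : hF F (e + k) A + TT A = T (e + k + 1) := by
  induction k with
  | zero => exact h
  | succ k ih =>
    have h1 := hF_succ_le F (e + k) A
    have h2 := (hfun_hF F (e + k + 1) fun n hn _ => Nat.cast_ne_zero.2 (by omega)).chi_le A
    have h3 := T_succ (e + k + 1)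
    rw [← Nat.add_assoc]
    omega

theorem mGlueR : S_GlueR.{u} := by
  intro F _ _ d a τ A B ha hτ hex h0
  have hN : ∀ k, k ≤ τ → hF F (d - k * a) A + TT A = T (d - k * a + 1) := by
    intro k hk
    have e1 : k * a ≤ τ * a := Nat.mul_le_mul_right _ hk
    have e2 : (τ + 1) * a = τ * a + a := by ring
    have h := hF_exact_mono F A (d - τ * a) (τ * a - k * a) hex
    rw [show d - τ * a + (τ * a - k * a) = d - k * a by omega] at h
    exact h
  refine mGlueRL F d a τ (a ^ 2) (a * d - T (a - 2)) A B ha hτ h0 ?_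
  intro k hk
  have h1 := hN k hk.le
  have h2 := hN (k + 1) hk
  have e0 : (k + 1) * a ≤ τ * a := Nat.mul_le_mul_right _ hk
  have e1 : (k + 1) * a = k * a + a := by ring
  have e2 : (τ + 1) * a = τ * a + a := by ring
  -- T (d - k a + 1) - T (d - (k+1) a + 1) = a d - T (a - 2) + 1 - a ^ 2 k
  obtain ⟨j, hj⟩ : ∃ j, d = (k + 1) * a + j := ⟨d - (k + 1) * a, by omega⟩
  have e3 : d - k * a = a + j := by omega
  have e4 : d - (k + 1) * a = j := by omega
  rw [e3] at h1 ⊢
  rw [e4] at h2 ⊢
  suffices hs : T (a + j + 1) = T (j + 1) + (a * d - T (a - 2) + 1 - a ^ 2 * k) by omega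
  have t1 := two_T (a + j + 1)
  have t2 := two_T (j + 1)
  have t3 : 2 * T (a - 2) + 3 * a = a * a + 2 := by
    rcases Nat.lt_or_ge a 2 with h | h
    · have : a = 1 := by omega
      subst this
      decide
    · have := two_T (a - 2)
      obtain ⟨b, rfl⟩ := Nat.exists_eq_add_of_le h
      rw [Nat.add_sub_cancel_left] at this ⊢
      rw [this]
      ring
  have t4 : a * d = a * a * k + a * a + a * j := by rw [hj]; ring
  have t5 : a ^ 2 * k = a * a * k := by ring
  have t6 : T (a - 2) ≤ a * a := by nlinarith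
  rw [t5, t4]
  have t7 : T (a + j + 1) + T (a - 2) = T (j + 1) + (a * a + a * j + 1) := by nlinarith
  omega

theorem mCloseR : S_CloseR.{u} := tCloseR mGlueR mRaise

theorem mElm1 : S_Elm1.{u} := tElm1 tNSemi mNInv tUnit tNClo

theorem mElm0 : S_Elm0.{u} := tElm0 tNSemi mNInv tUnit tNClo

theorem mFib1 : S_Fib1.{u} := tFib1 mNCons tNClo mFibDiv

theorem mPE : S_PE.{u} := tPE mElm1 mElm0 mFib1 mStA

theorem mHomC : S_HomC.{u} := tHomC mCloseR mPE

/-- Homogeneous systems with `s ≥ 30 m` points, every degree. -/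
theorem mHom : S_Hom.{u} := tHom mHomC

theorem mCollN : S_CollN.{u} := tCollN tNSemi mNInv mNCons tNClo

theorem mMacN : S_MacN.{u} := tMacN mNCons tNClo

theorem mStripG : S_StripG.{u} := tStripG mCollN mMacN mStA mStB mFib1 mNCons

theorem mLongG : S_LongG.{u} := tLongG mCloseR mStripG tWinG

/-- All vectors with `d ^ 2 ≥ 144 M ^ 3`. -/
theorem mAll : S_All.{u} := by
  intro F _ _ d M S hM hS hd
  exact tRed d M (hF F d) (hfun_hF F d fun n hn _ => Nat.cast_ne_zero.2 (by omega)) hM
    (fun S' hS' h1 h2 => mLongG F d M S' hM hS' hd h1 h2) S hS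

end ShghC
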