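import Pool.Agent.ShghC.SpecG2

/-!
# ShghC, module RedK: reduction to `-M < χ ≤ 0` with a base multiset `K`
-/

namespace ShghC

open ShghJ

private theorem add_onesK {d : ℕ} {h : Multiset ℕ → ℕ} (H : HFun d h) (S : Multiset ℕ) :
    ∀ c : ℕ, h S ≤ h (Multiset.replicate c 1 + S) + c ∧
      TT (Multiset.replicate c 1 + S) = c + TT S
  | 0 => by simp
  | c + 1 => by
    obtain ⟨h1, h2⟩ := add_onesK H S c
    have h3 : Multiset.replicate (c + 1) 1 + S = 1 ::ₘ (Multiset.replicate c 1 + S) := by
      rw [Multiset.replicate_succ, Multiset.cons_add]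
    have h4 := H.mac1 (Multiset.replicate c 1 + S) 0
    rw [H.zero] at h4
    have hT : T 1 = 1 := rfl
    rw [h3]
    constructor
    · have h5 : h (1 ::ₘ (Multiset.replicate c 1 + S)) =
          h ((0 + 1) ::ₘ (Multiset.replicate c 1 + S)) := rfl
      omega
    · rw [TT_cons, h2, hT]; omega

private theorem neg_caseK {d M : ℕ} {h : Multiset ℕ → ℕ} (H : HFun d h) (K : Multiset ℕ)
    (hK : K.sum ≤ d + 1)
    (hz : ∀ S : Multiset ℕ, (∀ x ∈ S, x ≤ M) → T (d + 1) ≤ TT (K + S) →
      TT (K + S) < T (d + 1) + M → h (K + S) = 0) (hM : 1 ≤ M) (S : Multiset ℕ) :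
    (∀ x ∈ S, x ≤ M) → T (d + 1) < TT (K + S) → h (K + S) = 0 := by
  induction S using Multiset.induction with
  | empty =>
    intro _ h1
    rw [add_zero] at h1
    have h2 := H.small K hK
    omega
  | cons a S ih =>
    intro hb h1
    have hbS : ∀ x ∈ S, x ≤ M := fun x hx => hb x (Multiset.mem_cons_of_mem hx)
    rw [Multiset.add_cons] at h1 ⊢
    by_cases h2 : T (d + 1) < TT (K + S)
    · have h3 := ih hbS h2
      have h4 := H.cons_le (K + S) a
      omega
    · push Not at h2
      rw [TT_cons] at h1
      have hex : ∃ j, T (d + 1) ≤ T j + TT (K + S) := ⟨a, h1.le⟩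
      classical
      have hj := Nat.find_spec hex
      have hja : Nat.find hex ≤ a := Nat.find_min' hex h1.le
      have haM : a ≤ M := hb a (Multiset.mem_cons_self a S)
      have hlt : T (Nat.find hex) + TT (K + S) < T (d + 1) + M := by
        rcases Nat.eq_zero_or_pos (Nat.find hex) with h0 | h0
        · rw [h0]
          have hT : T 0 = 0 := rfl
          omega
        · obtain ⟨i, hi⟩ := Nat.exists_eq_succ_of_ne_zero h0.ne'
          have hmin : ¬ T (d + 1) ≤ T i + TT (K + S) := Nat.find_min hex (by omega)
          have hTs : T (i + 1) = T i + (i + 1) := by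
            unfold T
            have h5 : (i + 1) * (i + 1 + 1) = i * (i + 1) + 2 * (i + 1) := by ring
            rw [h5, Nat.add_mul_div_left _ _ two_pos]
          rw [hi, Nat.succ_eq_add_one, hTs]
          omega
      have h6 := hz (Nat.find hex ::ₘ S) (by
        intro x hx
        rcases Multiset.mem_cons.1 hx with rfl | hx
        · exact hja.trans haM
        · exact hbS x hx) (by rw [Multiset.add_cons, TT_cons]; exact hj)
        (by rw [Multiset.add_cons, TT_cons]; exact hlt)
      rw [Multiset.add_cons] at h6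
      have h7 := H.anti_le (K + S) hja
      omega

theorem tRedK : S_RedK := by
  intro d M h H hM K hK hz S hb
  rcases Nat.lt_or_ge (T (d + 1)) (TT (K + S)) with h1 | h1
  · rw [neg_caseK H K hK hz hM S hb h1]
    omega
  · obtain ⟨h2, h3⟩ := add_onesK H (K + S) (T (d + 1) - TT (K + S))
    have e1 : Multiset.replicate (T (d + 1) - TT (K + S)) 1 + (K + S) =
        K + (Multiset.replicate (T (d + 1) - TT (K + S)) 1 + S) := by
      rw [add_left_comm]
    have h4 := hz (Multiset.replicate (T (d + 1) - TT (K + S)) 1 + S) (by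
      intro x hx
      rcases Multiset.mem_add.1 hx with hx | hx
      · rw [Multiset.eq_of_mem_replicate hx]; exact hM
      · exact hb x hx) (by rw [← e1, h3]; omega) (by rw [← e1, h3]; omega)
    rw [← e1] at h4
    have h5 := H.chi_le (K + S)
    omega

end ShghC
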