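import Pool.Agent.ShghC.SpecG2
import Pool.Agent.ShghJ.CombD3
import Pool.Agent.ShghJ.GeoD

/-!
# ShghC/RepF: the largest multiplicity `M` occurs at least `30 M` times
-/

namespace ShghC

open MvPolynomial ShghJ

universe u

/-- `count M S * T M ≤ TT S`. -/
private theorem rpf_TT (S : Multiset ℕ) (M : ℕ) : S.count M * T M ≤ TT S := by
  have h1 : Multiset.replicate (S.count M) M ≤ S := Multiset.le_count_iff_replicate_le.1 le_rfl
  obtain ⟨U, hU⟩ := Multiset.le_iff_exists_add.1 h1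
  have h2 : TT S = S.count M * T M + TT U := by
    conv_lhs => rw [hU]
    unfold TT
    rw [Multiset.map_add, Multiset.sum_add, Multiset.map_replicate, Multiset.sum_replicate,
      smul_eq_mul]
  omega

/-- The numbers `p` and `q`. -/
private theorem rpf_pq (m t χ : ℤ) (hm : 1 ≤ m) (ht : 2 * t = m * (m + 1))
    (h1 : 5 * χ + 1 ≤ 18 * m ^ 2) (h2 : 60 - 123 * m ^ 2 ≤ 60 * χ) :
    ∃ p q : ℤ, 18 * m ^ 2 ≤ 5 * p ∧ χ + t ≤ p ∧ 41 * m ^ 2 ≤ 20 * q ∧ t - χ ≤ q ∧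
      20 * (p - χ) ≤ 113 * m ^ 2 ∧ 20 * (p + q + t) ≤ 133 * m ^ 2 + 20 * m + 40 := by
  obtain ⟨p, hp1, hp2, hp3⟩ : ∃ p : ℤ, 18 * m ^ 2 ≤ 5 * p ∧ χ + t ≤ p ∧
      (5 * p ≤ 18 * m ^ 2 + 4 ∨ p = χ + t) := by
    by_cases h : 18 * m ^ 2 ≤ 5 * (χ + t)
    · exact ⟨χ + t, h, le_refl _, Or.inr rfl⟩
    · exact ⟨(18 * m ^ 2 + 4) / 5, by omega, by omega, Or.inl (by omega)⟩
  obtain ⟨q, hq1, hq2, hq3⟩ : ∃ q : ℤ, 41 * m ^ 2 ≤ 20 * q ∧ t - χ ≤ q ∧
      (20 * q ≤ 41 * m ^ 2 + 19 ∨ q = t - χ) := by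
    by_cases h : 41 * m ^ 2 ≤ 20 * (t - χ)
    · exact ⟨t - χ, h, le_refl _, Or.inr rfl⟩
    · exact ⟨(41 * m ^ 2 + 19) / 20, by omega, by omega, Or.inl (by omega)⟩
  have e3 : m ≤ m ^ 2 := by nlinarith
  have e5 : 20 * t = 10 * m ^ 2 + 10 * m := by linear_combination 10 * ht
  refine ⟨p, q, hp1, hp2, hq1, hq2, ?_, ?_⟩
  · rcases hp3 with hp3 | hp3
    · linarith
    · rw [hp3]
      linarith
  · rcases hp3 with hp3 | hp3 <;> rcases hq3 with hq3 | hq3 <;> linarith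

/-- There are no bad steps if all multiplicities are at most one. -/
private theorem rpf_one {d : ℕ} {h : Multiset ℕ → ℕ} (H : HFun d h) (S : Multiset ℕ)
    (hS : ∀ x ∈ S, x ≤ 1) : h S = T (d + 1) - TT S := by
  induction S using Multiset.induction_on with
  | empty =>
    have h1 := H.small 0 (by simp)
    have h2 : TT 0 = 0 := TT_zero
    omega
  | cons x S ih =>
    have ih' := ih (fun y hy => hS y (Multiset.mem_cons_of_mem hy))
    have hx := hS x (Multiset.mem_cons_self x S)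
    rw [TT_cons]
    rcases Nat.lt_or_ge x 1 with h0 | h0
    · have h3 : x = 0 := by omega
      subst h3
      rw [H.zero, T_zero, zero_add]
      exact ih'
    · have h3 : x = 1 := by omega
      subst h3
      have hb : ¬ (1 ≤ h (1 ::ₘ S) ∧ h S < h (1 ::ₘ S) + T 1) := fun hb => by
        have := H.bad_two_le hb
        omega
      have h4 := H.mac1 S 0
      rw [H.zero] at h4
      rw [T_one] at hb ⊢
      rw [zero_add] at h4
      omega

/-- Existence of `a`. -/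
private theorem rpf_ex (m X d a : ℤ) (hm : 2 ≤ m) (hX2 : 2 * X = (d + 1) * (d + 2))
    (hX : 300 * m ^ 3 + 259 * m ^ 2 + 20 ≤ 20 * X)
    (ha1 : (2 * m + 1) * a ≤ d + m + 2) (ha2 : d + m + 3 ≤ (2 * m + 1) * (a + 1)) :
    133 * m ^ 2 + 20 * m + 40 ≤ 10 * (a * (2 * d + 3 - (2 * m + 1) * a)) := by
  have h3 : (2 * (2 * m + 1) * a - (2 * d + 3)) ^ 2 ≤ (2 * m + 1) ^ 2 := by
    apply sq_le_sq'
    · linarith
    · linarith
  have h4 : 4 * (2 * m + 1) * (a * (2 * d + 3 - (2 * m + 1) * a)) =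
      (2 * d + 3) ^ 2 - (2 * (2 * m + 1) * a - (2 * d + 3)) ^ 2 := by ring
  have h5 : (2 * d + 3) ^ 2 = 8 * X + 1 := by linear_combination -4 * hX2
  have e3 : 2 * m ≤ m ^ 2 := by nlinarith
  have e4 : 2 * m ^ 2 ≤ m ^ 3 := by
    have : m ^ 3 = m * m ^ 2 := by ring
    nlinarith [sq_nonneg m]
  have h6 : (4 * (2 * m + 1)) * (133 * m ^ 2 + 20 * m + 40) ≤
      (4 * (2 * m + 1)) * (10 * (a * (2 * d + 3 - (2 * m + 1) * a))) := by
    have e6 : (4 * (2 * m + 1)) * (133 * m ^ 2 + 20 * m + 40) =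
        1064 * m ^ 3 + 692 * m ^ 2 + 400 * m + 160 := by ring
    have e7 : (4 * (2 * m + 1)) * (10 * (a * (2 * d + 3 - (2 * m + 1) * a))) =
        10 * (4 * (2 * m + 1) * (a * (2 * d + 3 - (2 * m + 1) * a))) := by ring
    rw [e6, e7, h4, h5]
    nlinarith
  exact le_of_mul_le_mul_left h6 (by linarith)

/-- The degree is small. -/
private theorem rpf_d (m d : ℤ) (hm : 1 ≤ m) (hd0 : 0 ≤ d) (hd2 : d ^ 2 < 144 * m ^ 3) :
    20 * d ≤ 90 * m ^ 2 + 160 * m := by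
  by_contra hc
  have hc' : 90 * m ^ 2 + 160 * m ≤ 20 * d := by linarith
  have h0 : 0 ≤ 90 * m ^ 2 + 160 * m := by positivity
  have h1 : (90 * m ^ 2 + 160 * m) ^ 2 ≤ (20 * d) ^ 2 := pow_le_pow_left₀ h0 hc' 2
  nlinarith [sq_nonneg (90 * m ^ 2 - 160 * m)]

/-- The bound of `b ^ 2`. -/
private theorem rpf_b (m d b : ℤ) (hm : 2 ≤ m) (hd0 : 0 ≤ d) (hb1 : 1 ≤ b)
    (hX : 300 * m ^ 3 + 259 * m ^ 2 + 20 ≤ 10 * ((d + 1) * (d + 2)))
    (h8 : 10 * (b * (d + m + 2)) < 133 * m ^ 2 + 20 * m + 40) : b ^ 2 ≤ 6 * m := by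
  by_contra hc
  have hc' : 6 * m ≤ b ^ 2 := by linarith
  have h11 : 300 * m ^ 3 + 259 * m ^ 2 + 20 ≤ 10 * (d + m + 2) ^ 2 := by
    have h12 : (d + 1) * (d + 2) ≤ (d + m + 2) * (d + m + 2) :=
      mul_le_mul (by linarith) (by linarith) (by linarith) (by linarith)
    nlinarith
  have h14 : (6 * m) * (300 * m ^ 3 + 259 * m ^ 2 + 20) ≤ b ^ 2 * (10 * (d + m + 2) ^ 2) :=
    mul_le_mul hc' h11 (by positivity) (by positivity)
  have h0 : 0 ≤ 10 * (b * (d + m + 2)) := by positivity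
  have h15 : (10 * (b * (d + m + 2))) ^ 2 ≤ (133 * m ^ 2 + 20 * m + 40) ^ 2 :=
    pow_le_pow_left₀ h0 h8.le 2
  have e1 : (10 * (b * (d + m + 2))) ^ 2 = 10 * (b ^ 2 * (10 * (d + m + 2) ^ 2)) := by ring
  have e2 : (133 * m ^ 2 + 20 * m + 40) ^ 2 =
      17689 * m ^ 4 + 5320 * m ^ 3 + 11040 * m ^ 2 + 1600 * m + 1600 := by ring
  have e3 : 10 * ((6 * m) * (300 * m ^ 3 + 259 * m ^ 2 + 20)) =
      18000 * m ^ 4 + 15540 * m ^ 3 + 1200 * m := by ring
  rw [e1, e2] at h15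
  have e5 : 0 ≤ (m - 2) * m ^ 3 := mul_nonneg (by linarith) (by positivity)
  have e6 : 0 ≤ (m - 2) * m ^ 2 := mul_nonneg (by linarith) (by positivity)
  have e7 : 0 ≤ (m - 2) * m := mul_nonneg (by linarith) (by positivity)
  nlinarith

/-- The main inequality. -/
private theorem rpf_star (m d b : ℤ) (hm : 2 ≤ m) (hd0 : 0 ≤ d) (hb1 : 1 ≤ b)
    (hd2 : d ^ 2 < 144 * m ^ 3) (hb : b ^ 2 ≤ 6 * m) :
    20 * d + 10 * (m + 1) * b ^ 2 + 70 ≤ 167 * m ^ 2 + 177 * m + 20 * m * b := by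
  rcases lt_or_ge m 3 with h | h
  · have hm2 : m = 2 := by omega
    subst hm2
    have h1 : d ≤ 33 := by
      by_contra hc
      have : 34 ≤ d := by omega
      nlinarith
    have h2 : b ≤ 3 := by
      by_contra hc
      have : 4 ≤ b := by omega
      nlinarith
    have h3 : 0 ≤ (3 - b) * (b - 1) := mul_nonneg (by linarith) (by linarith)
    nlinarith
  · have h1 := rpf_d m d (by linarith) hd0 hd2
    have h2 : (10 * (m + 1)) * b ^ 2 ≤ (10 * (m + 1)) * (6 * m) :=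
      mul_le_mul_of_nonneg_left hb (by linarith)
    have h3 : 20 * m * 1 ≤ 20 * m * b := mul_le_mul_of_nonneg_left hb1 (by linarith)
    nlinarith

/-- The estimates. -/
private theorem rpf_a (m t X d a : ℤ) (hm : 2 ≤ m) (ht : 2 * t = m * (m + 1))
    (hX2 : 2 * X = (d + 1) * (d + 2)) (hX : 300 * m ^ 3 + 259 * m ^ 2 + 20 ≤ 20 * X)
    (hd0 : 0 ≤ d) (hd2 : d ^ 2 < 144 * m ^ 3) (ha : 1 ≤ a)
    (ha1 : (2 * m + 1) * a ≤ d + m + 2)
    (hmin : 2 ≤ a →
      10 * ((a - 1) * (2 * d + 3 - (2 * m + 1) * (a - 1))) < 133 * m ^ 2 + 20 * m + 40) :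
    (m + 1) * a ≤ d ∧
      113 * m ^ 2 + 10 * m * (a * (2 * d + 3 - (2 * m + 1) * a)) + 20 * a ^ 2 * t ≤
        20 * (30 * m * t) := by
  have hX3 : 300 * m ^ 3 + 259 * m ^ 2 + 20 ≤ 10 * ((d + 1) * (d + 2)) := by
    rw [← hX2]
    linarith
  have e3 : 2 * m ≤ m ^ 2 := by nlinarith
  have e4 : 2 * m ^ 2 ≤ m ^ 3 := by
    have : m ^ 3 = m * m ^ 2 := by ring
    nlinarith [sq_nonneg m]
  have hd : 5 * m ≤ d := by
    by_contra hc
    have hc' : d + 1 ≤ 5 * m := by omega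
    have h3 : (d + 1) * (d + 2) ≤ (5 * m) * (5 * m + 1) :=
      mul_le_mul hc' (by linarith) (by linarith) (by linarith)
    nlinarith
  refine ⟨?_, ?_⟩
  · by_contra hc
    have hc' : d + 1 ≤ (m + 1) * a := by omega
    have h3 : (2 * m + 1) * (d + 1) ≤ (2 * m + 1) * ((m + 1) * a) :=
      mul_le_mul_of_nonneg_left hc' (by linarith)
    have h4 : (m + 1) * ((2 * m + 1) * a) ≤ (m + 1) * (d + m + 2) :=
      mul_le_mul_of_nonneg_left ha1 (by linarith)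
    have h5 : m * (5 * m) ≤ m * d := mul_le_mul_of_nonneg_left hd (by linarith)
    nlinarith
  · have e8 : 20 * (30 * m * t) = m * (300 * m ^ 2 + 300 * m) := by
      linear_combination 300 * m * ht
    have e9 : 20 * a ^ 2 * t = m * (10 * (m + 1) * a ^ 2) := by
      linear_combination 10 * a ^ 2 * ht
    have h20 := rpf_d m d (by linarith) hd0 hd2
    rw [e8, e9]
    rcases lt_or_ge a 2 with h | h
    · have ha' : a = 1 := by omega
      subst ha'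
      have e10 : 113 * m ^ 2 + 10 * m * (1 * (2 * d + 3 - (2 * m + 1) * 1)) +
          m * (10 * (m + 1) * 1 ^ 2) = m * (103 * m + 20 * d + 30) := by ring
      rw [e10]
      exact mul_le_mul_of_nonneg_left (by nlinarith) (by linarith)
    · have h7 := hmin h
      obtain ⟨b, hb⟩ : ∃ b, b = a - 1 := ⟨_, rfl⟩
      have hab : a = b + 1 := by linarith
      rw [← hb] at h7
      have hb1 : 1 ≤ b := by linarith
      have h8 : 10 * (b * (d + m + 2)) < 133 * m ^ 2 + 20 * m + 40 := by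
        have h9 : d + m + 2 ≤ 2 * d + 3 - (2 * m + 1) * b := by
          rw [hab] at ha1
          linarith
        have h10 : b * (d + m + 2) ≤ b * (2 * d + 3 - (2 * m + 1) * b) :=
          mul_le_mul_of_nonneg_left h9 (by linarith)
        linarith
      have hb2 := rpf_b m d b hm hd0 hb1 hX3 h8
      have hst := rpf_star m d b hm hd0 hb1 hd2 hb2
      have e10 : 113 * m ^ 2 + 10 * m * (a * (2 * d + 3 - (2 * m + 1) * a)) +
          m * (10 * (m + 1) * a ^ 2) =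
          m * (113 * m + 10 * (b * (2 * d + 3 - (2 * m + 1) * b)) + 10 * (2 * d + 3) -
            10 * ((2 * m + 1) * (2 * b + 1)) + 10 * (m + 1) * (b + 1) ^ 2) := by
        rw [hab]
        ring
      rw [e10]
      exact mul_le_mul_of_nonneg_left (by nlinarith) (by linarith)

theorem tRepF (h1 : S_HomC.{u}) (hAll : S_All.{u}) : S_RepF.{u} := by
  intro F _ _ d m S hm hS hc
  have hchar : ∀ d' : ℕ, ∀ n : ℕ, 1 ≤ n → n ≤ d' → (n : F) ≠ 0 :=
    fun _ n hn _ => Nat.cast_ne_zero.2 (by omega)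
  have HD : HFunD d (hF F d) := hfunD_hF F d (hchar d)
  rcases Nat.lt_or_ge m 2 with hm1 | hm2
  · have : m = 1 := by omega
    subst this
    exact rpf_one HD.toHFun S hS
  by_cases hdl : 144 * m ^ 3 ≤ d ^ 2
  · exact hAll F d m S hm hS hdl
  have hw := winD d (hF F d) HD m 0 S (by simp) hS
  rw [zero_add, Multiset.sum_zero] at hw
  obtain ⟨hw1, hw2⟩ := hw
  have hcT := rpf_TT S m
  obtain ⟨t, ht⟩ : ∃ t, t = T m := ⟨_, rfl⟩
  have ht2 : 2 * (t : ℤ) = (m : ℤ) * (m + 1) := by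
    rw [ht]
    exact_mod_cast two_T m
  obtain ⟨X, hX⟩ : ∃ X, X = T (d + 1) := ⟨_, rfl⟩
  obtain ⟨Y, hY⟩ : ∃ Y, Y = TT S := ⟨_, rfl⟩
  obtain ⟨c, hcc⟩ : ∃ c, c = S.count m := ⟨_, rfl⟩
  have hX2 : 2 * (X : ℤ) = ((d : ℤ) + 1) * (d + 2) := by
    rw [hX]
    have h4 : (2 * T (d + 1) : ℤ) = ((d : ℤ) + 1) * (d + 1 + 1) := by exact_mod_cast two_T (d + 1)
    rw [h4]
    ring
  rw [← ht, ← hcc, ← hY] at hcT
  rw [← hcc] at hc
  rw [← hX, ← hY] at hw1 hw2 ⊢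
  have hm' : (1 : ℤ) ≤ m := by exact_mod_cast hm
  by_cases hA : 18 * (m : ℤ) ^ 2 ≤ 5 * ((X : ℤ) - Y)
  · have h3 := hw2 (by
      push_cast
      nlinarith)
    omega
  by_cases hB : 1 ≤ hF F d S ∧ 123 * (m : ℤ) ^ 2 < 60 * (1 - ((X : ℤ) - Y))
  · exfalso
    have h3 := hw1 hB.1
    have h4 : 60 * ((1 : ℤ) + Y) ≤ m * (123 * m + 40 * 0) + 60 * X := by
      have h5 : 60 * (1 + Y) ≤ m * (123 * m + 40 * 0) + 60 * X := by
        have := hB.1
        omega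
      exact_mod_cast h5
    nlinarith [hB.2]
  by_cases hC : 123 * (m : ℤ) ^ 2 < 60 * (1 - ((X : ℤ) - Y))
  · have h3 : hF F d S = 0 := by
      by_contra hne
      exact hB ⟨Nat.one_le_iff_ne_zero.2 hne, hC⟩
    have h4 : (X : ℤ) ≤ Y := by nlinarith [sq_nonneg (m : ℤ)]
    have h5 : X ≤ Y := by exact_mod_cast h4
    omega
  -- the window
  obtain ⟨χ, hχ⟩ : ∃ χ : ℤ, χ = (X : ℤ) - Y := ⟨_, rfl⟩
  rw [← hχ] at hA hC
  have hct : 30 * (m : ℤ) * t ≤ c * t :=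
    mul_le_mul_of_nonneg_right (by exact_mod_cast hc) (Nat.cast_nonneg _)
  have hcY : (c : ℤ) * t ≤ Y := by exact_mod_cast hcT
  have h30 : 30 * (m : ℤ) * t = 15 * (m : ℤ) ^ 3 + 15 * (m : ℤ) ^ 2 := by
    linear_combination 15 * (m : ℤ) * ht2
  have hXl : 300 * (m : ℤ) ^ 3 + 259 * (m : ℤ) ^ 2 + 20 ≤ 20 * X := by
    have : (X : ℤ) = χ + Y := by linarith
    nlinarith
  have hd2 : (d : ℤ) ^ 2 < 144 * (m : ℤ) ^ 3 := by exact_mod_cast not_le.1 hdl
  have hm2' : (2 : ℤ) ≤ m := by exact_mod_cast hm2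
  obtain ⟨p, q, hp1, hp2, hq1, hq2, hp3, hpq⟩ := rpf_pq m t χ hm' ht2 (by omega) (by omega)
  -- the choice of `a`
  have hex : ∃ a : ℕ, 133 * (m : ℤ) ^ 2 + 20 * m + 40 ≤
      10 * ((a : ℤ) * (2 * d + 3 - (2 * m + 1) * a)) := by
    refine ⟨(d + m + 2) / (2 * m + 1), rpf_ex m X d _ hm2' hX2 hXl ?_ ?_⟩
    · exact_mod_cast Nat.mul_div_le (d + m + 2) (2 * m + 1)
    · have := Nat.lt_mul_div_succ (d + m + 2) (show 0 < 2 * m + 1 by omega)
      exact_mod_cast this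
  classical
  obtain ⟨a, ha⟩ : ∃ a, a = Nat.find hex := ⟨_, rfl⟩
  have haP := Nat.find_spec hex
  have hamin : ∀ b, b < a → ¬ (133 * (m : ℤ) ^ 2 + 20 * m + 40 ≤
      10 * ((b : ℤ) * (2 * d + 3 - (2 * m + 1) * b))) := by
    intro b hb
    rw [ha] at hb
    exact Nat.find_min hex hb
  have hale : a ≤ (d + m + 2) / (2 * m + 1) := by
    rw [ha]
    apply Nat.find_min' hex
    refine rpf_ex m X d _ hm2' hX2 hXl ?_ ?_
    · exact_mod_cast Nat.mul_div_le (d + m + 2) (2 * m + 1)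
    · have := Nat.lt_mul_div_succ (d + m + 2) (show 0 < 2 * m + 1 by omega)
      exact_mod_cast this
  rw [← ha] at haP
  have ha1 : (2 * (m : ℤ) + 1) * a ≤ d + m + 2 := by
    have h3 : (2 * m + 1) * a ≤ d + m + 2 :=
      (Nat.mul_le_mul_left _ hale).trans (Nat.mul_div_le _ _)
    exact_mod_cast h3
  have ha0 : 1 ≤ a := by
    by_contra hc0
    have : a = 0 := by omega
    rw [this] at haP
    simp only [Nat.cast_zero, zero_mul, mul_zero] at haP
    nlinarith [sq_nonneg (m : ℤ)]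
  obtain ⟨hma, hcnt⟩ := rpf_a m t X d a hm2' ht2 hX2 hXl (Int.natCast_nonneg _) hd2
    (by exact_mod_cast ha0) ha1 (by
      intro h2
      have h2' : 2 ≤ a := by exact_mod_cast h2
      have h4 := hamin (a - 1) (by omega)
      have h5 : ((a - 1 : ℕ) : ℤ) = (a : ℤ) - 1 := by
        push_cast [Nat.cast_sub ha0]
        ring
      rw [h5] at h4
      linarith)
  obtain ⟨g, hg⟩ : ∃ g, g = T (a - 2) := ⟨_, rfl⟩
  have hg2 : 2 * (g : ℤ) = ((a : ℤ) - 1) * (a - 2) := by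
    rcases Nat.lt_or_ge a 2 with h | h
    · have : a = 1 := by omega
      subst this
      rw [hg]
      simp [T]
    · obtain ⟨a', ha'⟩ : ∃ a', a = a' + 2 := ⟨a - 2, by omega⟩
      have h3 := two_T a'
      rw [hg, ha', Nat.add_sub_cancel]
      have h4 : (2 * T a' : ℤ) = a' * (a' + 1) := by exact_mod_cast h3
      rw [h4]
      push_cast
      ring
  have hp0 : 0 ≤ p := by nlinarith [sq_nonneg (m : ℤ)]
  have hq0 : 0 ≤ q := by nlinarith [sq_nonneg (m : ℤ)]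
  lift p to ℕ using hp0
  lift q to ℕ using hq0
  obtain ⟨t1, ht1⟩ : ∃ t, t = T (m - 1) := ⟨_, rfl⟩
  have ht12 : 2 * (t1 : ℤ) = ((m : ℤ) - 1) * m := by
    obtain ⟨m', hm'⟩ : ∃ m', m = m' + 1 := ⟨m - 1, by omega⟩
    have h3 := two_T m'
    rw [ht1, hm', Nat.add_sub_cancel]
    have h4 : (2 * T m' : ℤ) = m' * (m' + 1) := by exact_mod_cast h3
    rw [h4]
    push_cast
    ring
  have h9 := h1 F d a m p q S hm hS ha0 (by exact_mod_cast hma) (by exact_mod_cast hp1)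
    (by
      rw [← ht, ← hX, ← hY]
      have : (X : ℤ) + t ≤ Y + p := by linarith
      exact_mod_cast this)
    (by exact_mod_cast hq1)
    (by
      rw [← ht, ← hX, ← hY]
      have : (t : ℤ) + Y ≤ X + q := by linarith
      exact_mod_cast this)
    (by
      rw [← ht, ← hg]
      have : (p : ℤ) + q + t + g + (a : ℤ) ^ 2 * m ≤ a * d + 1 := by
        have e1 : 20 * ((a : ℤ) * d + 1 - g - (a : ℤ) ^ 2 * m) =
            10 * ((a : ℤ) * (2 * d + 3 - (2 * m + 1) * a)) := by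
          linear_combination -10 * hg2
        linarith
      exact_mod_cast this)
    (by
      rw [← ht, ← hX, ← hg, ← ht1, ← hY, ← hcc]
      have h3 : (p : ℤ) + m * (a * d + 1) + Y ≤ X + c * t + m * g + (a : ℤ) ^ 2 * t1 := by
        have e1 : 20 * ((m : ℤ) * (a * d + 1) - m * g - (a : ℤ) ^ 2 * t1) =
            10 * m * ((a : ℤ) * (2 * d + 3 - (2 * m + 1) * a)) + 20 * (a : ℤ) ^ 2 * t := by
          linear_combination -10 * (m : ℤ) * hg2 - 10 * (a : ℤ) ^ 2 * ht12 - 10 * (a : ℤ) ^ 2 * ht2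
        linarith
      exact_mod_cast h3)
  rw [h9, ← hX, ← hY]

end ShghC
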