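import Pool.Agent.ShghC.SpecG2
import Pool.Agent.ShghJ.CombD3
import Pool.Agent.ShghJ.GeoD

/-!
# ShghC/Sq: every degree if the sum of the squares of the multiplicities is at least `144 M ^ 3`
-/

namespace ShghC

open MvPolynomial ShghJ

universe u

private theorem sq_TT (S : Multiset ℕ) :
    2 * TT S = (S.map fun x => x ^ 2).sum + S.sum := by
  induction S using Multiset.induction_on with
  | empty => simp [TT]
  | cons a S ih =>
    rw [Multiset.map_cons, Multiset.sum_cons, Multiset.sum_cons, TT_cons, mul_add, ih, two_T a]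
    ring

private theorem sq_le (M : ℕ) (S : Multiset ℕ) (hS : ∀ x ∈ S, x ≤ M) :
    (S.map fun x => x ^ 2).sum ≤ M * S.sum := by
  induction S using Multiset.induction_on with
  | empty => simp
  | cons a S ih =>
    rw [Multiset.map_cons, Multiset.sum_cons, Multiset.sum_cons, mul_add]
    have h1 := ih fun x hx => hS x (Multiset.mem_cons_of_mem hx)
    have h2 : a ^ 2 ≤ M * a := by
      rw [pow_two]
      exact Nat.mul_le_mul_right _ (hS a (Multiset.mem_cons_self a S))
    exact Nat.add_le_add h2 h1

theorem tSq (h1 : S_All.{u}) : S_Sq.{u} := by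
  intro F _ _ d M S hM hS hsq
  by_cases hd : 144 * M ^ 3 ≤ d ^ 2
  · exact h1 F d M S hM hS hd
  · push Not at hd
    have HC := hfunD_hF F d fun n hn _ => Nat.cast_ne_zero.2 (show n ≠ 0 by omega)
    have h2 := HC.toHFun.chi_le S
    by_contra hne
    have h3 : 1 ≤ hF F d S := by
      by_contra h4
      omega
    have h4 := (winD d (hF F d) HC M 0 S (by simp) hS).1 (by rwa [zero_add])
    rw [zero_add, Multiset.sum_zero, Nat.mul_zero, Nat.add_zero] at h4
    have h5 := sq_TT S
    have h6 := sq_le M S hS
    have h7 := two_T (d + 1)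
    -- the sum of the multiplicities
    have h8 : 144 * M ^ 2 ≤ S.sum := by
      have h9 : M * (144 * M ^ 2) ≤ M * S.sum := by
        calc M * (144 * M ^ 2) = 144 * M ^ 3 := by ring
          _ ≤ _ := hsq.trans h6
      exact Nat.le_of_mul_le_mul_left h9 (by omega)
    -- the degree
    have h10 : d < 12 * M ^ 2 := by
      by_contra hc
      push Not at hc
      have h11 : (12 * M ^ 2) ^ 2 ≤ d ^ 2 := Nat.pow_le_pow_left hc 2
      have h12 : (12 * M ^ 2) ^ 2 = 144 * (M ^ 3 * M) := by ring
      have h13 : M ^ 3 ≤ M ^ 3 * M := Nat.le_mul_of_pos_right _ hM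
      omega
    have h14 : (d + 1) * (d + 1 + 1) = d ^ 2 + 3 * d + 2 := by ring
    have h15 : M * (123 * M) = 123 * M ^ 2 := by ring
    have h16 : 1 ≤ M ^ 2 := Nat.one_le_pow _ _ hM
    rw [h14] at h7
    rw [h15] at h4
    omega

end ShghC
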