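import Pool.Agent.ShghC.Spec
import Pool.Agent.ShghJ.Comb3

/-!
# ShghC: four copies of a cluster
-/

namespace ShghC

open MvPolynomial ShghJ

universe u

private theorem Clu_mono {i j : ℕ} (h : i ≤ j) : T i ≤ T j := by
  induction j, h using Nat.le_induction with
  | base => exact le_rfl
  | succ n _ ih => exact ih.trans (by rw [T_succ]; omega)

private theorem Clu_T1 {x : ℕ} (h : T x = 0) : x = 0 := by
  rcases x with _ | x
  · rfl
  · rw [T_succ] at h
    omega

private theorem Clu_exists (b : ℕ) (hb : 1 ≤ b) : ∃ κ, 1 ≤ κ ∧ T κ ≤ b ∧ b < T (κ + 1) := by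
  have hex : ∃ n, b < T (n + 1) := ⟨b, by rw [T_succ]; omega⟩
  classical
  refine ⟨Nat.find hex, ?_, ?_, Nat.find_spec hex⟩
  · by_contra h
    have h0 : Nat.find hex = 0 := by omega
    have h1 := Nat.find_spec hex
    rw [h0] at h1
    have h2 : T (0 + 1) = 1 := T_one
    omega
  · rcases hn : Nat.find hex with _ | n
    · have : T 0 = 0 := T_zero
      omega
    · have h1 := Nat.find_min hex (m := n) (by omega)
      omega

private theorem Clu_zero (B : Multiset ℕ) (hB : TT B = 0) : B.sum = 0 := by
  rw [Multiset.sum_eq_zero_iff]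
  intro x hx
  apply Clu_T1
  unfold TT at hB
  rw [Multiset.sum_eq_zero_iff] at hB
  exact hB (T x) (Multiset.mem_map_of_mem T hx)

private theorem Clu_smul (B : Multiset ℕ) (n : ℕ) : TT (n • B) = n * TT B := by
  induction n with
  | zero => rw [zero_nsmul, zero_mul]; exact TT_zero
  | succ n ih => rw [succ_nsmul, TT_add, ih]; ring

/-- The induction over the number of copies. -/
private theorem Clu_ind (h : Multiset ℕ → ℕ) (κ ρ : ℕ) (B : Multiset ℕ)
    (H : ∀ A, h (A + B) ≤ h ((κ + 1) ::ₘ A) ∨ h (A + B) + ρ ≤ h (κ ::ₘ A)) (n : ℕ) :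
    ∀ A, ∃ i ≤ n, h (A + n • B) + (n - i) * ρ ≤
      h (Multiset.replicate i (κ + 1) + Multiset.replicate (n - i) κ + A) := by
  induction n with
  | zero =>
    intro A
    refine ⟨0, le_rfl, ?_⟩
    simp
  | succ n ih =>
    intro A
    have e0 : A + (n + 1) • B = (A + n • B) + B := by
      rw [succ_nsmul, add_assoc]
    rw [e0]
    rcases H (A + n • B) with h1 | h1
    · obtain ⟨i, hi, h2⟩ := ih ((κ + 1) ::ₘ A)
      refine ⟨i + 1, by omega, ?_⟩
      rw [← Multiset.cons_add] at h1
      have e1 : Multiset.replicate i (κ + 1) + Multiset.replicate (n - i) κ + (κ + 1) ::ₘ A =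
          Multiset.replicate (i + 1) (κ + 1) + Multiset.replicate (n + 1 - (i + 1)) κ + A := by
        rw [Multiset.replicate_succ, show n + 1 - (i + 1) = n - i by omega, Multiset.add_cons,
          Multiset.cons_add, Multiset.cons_add]
      rw [e1] at h2
      have e2 : n + 1 - (i + 1) = n - i := by omega
      rw [e2] at h2 ⊢
      omega
    · obtain ⟨i, hi, h2⟩ := ih (κ ::ₘ A)
      refine ⟨i, by omega, ?_⟩
      rw [← Multiset.cons_add] at h1
      have e1 : Multiset.replicate i (κ + 1) + Multiset.replicate (n - i) κ + κ ::ₘ A =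
          Multiset.replicate i (κ + 1) + Multiset.replicate (n + 1 - i) κ + A := by
        rw [show n + 1 - i = (n - i) + 1 by omega, Multiset.replicate_succ, Multiset.add_cons,
          Multiset.add_cons, Multiset.cons_add]
      rw [e1] at h2
      have e2 : (n + 1 - i) * ρ = (n - i) * ρ + ρ := by
        rw [show n + 1 - i = (n - i) + 1 by omega]
        ring
      omega

theorem tClu (h1 : S_Four.{u}) : S_Clu.{u} := by
  intro F _ _ B hB j
  have hch : ∀ j n : ℕ, 1 ≤ n → n ≤ j → (n : F) ≠ 0 := fun j n hn _ => by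
    have : n ≠ 0 := by omega
    exact_mod_cast this
  have H : ∀ j, HFun j (hF F j) := fun j => hfun_hF F j (hch j)
  have hlow := (H j).chi_le (4 • B)
  rw [Clu_smul] at hlow ⊢
  rcases Nat.eq_zero_or_pos (TT B) with hb | hb
  · have hs := Clu_zero B hb
    have h2 := (H j).small (4 • B) (by rw [Multiset.sum_nsmul, hs]; simp)
    rw [Clu_smul] at h2
    omega
  · obtain ⟨κ, hκ1, hκ2, hκ3⟩ := Clu_exists (TT B) hb
    rcases Nat.lt_or_ge j κ with hj | hj
    · have h2 : hF F j B = 0 := by
        rw [hB j]
        have := Clu_mono (show j + 1 ≤ κ by omega)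
        omega
      have h3 : hF F j (4 • B) ≤ hF F j B := by
        have e : (4 • B : Multiset ℕ) = 3 • B + B := succ_nsmul B 3
        rw [e]
        exact (H j).add_le B (3 • B)
      have := Clu_mono (show j + 1 ≤ κ by omega)
      omega
    · have key : ∀ A, hF F j (A + B) ≤ hF F j ((κ + 1) ::ₘ A) ∨
          hF F j (A + B) + (TT B - T κ) ≤ hF F j (κ ::ₘ A) := by
        intro A
        have g1 := hB (κ - 1)
        have g2 := hB κ
        rw [show κ - 1 + 1 = κ by omega] at g1
        have t1 := T_succ κ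
        rcases ShghL.tCM F j κ A B (hch j) hκ1 hj with h2 | h2
        · left
          omega
        · right
          omega
      obtain ⟨i, hi, h2⟩ := Clu_ind (hF F j) κ (TT B - T κ) B key 4 0
      rw [zero_add, add_zero] at h2
      have h3 := h1 F j κ i hi
      have h4 : TT B - T κ + T κ = TT B := by omega
      interval_cases i <;> omega

end ShghC
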