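import Pool.Agent.ShghC.Spec

/-!
# ShghC, Col: the initial form of a family of curves with colliding points
-/

namespace ShghC

open MvPolynomial ShghJ

universe u

/-- The scaling `X 0 ↦ u X 0`, `X 1 ↦ v X 1`. -/
noncomputable def scl {R : Type*} [CommRing R] (u v : R) :
    MvPolynomial (Fin 2) R →ₐ[R] MvPolynomial (Fin 2) R :=
  aeval ![C u * X 0, C v * X 1]

theorem scl_X0 {R : Type*} [CommRing R] (u v : R) : scl u v (X 0) = C u * X 0 := by
  simp [scl]

theorem scl_X1 {R : Type*} [CommRing R] (u v : R) : scl u v (X 1) = C v * X 1 := by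
  simp [scl]

theorem scl_C {R : Type*} [CommRing R] (u v c : R) : scl u v (C c) = C c := by
  simp [scl]

theorem scl_coeff {R : Type*} [CommRing R] (u v : R) (f : MvPolynomial (Fin 2) R)
    (e : Fin 2 →₀ ℕ) : (scl u v f).coeff e = f.coeff e * (u ^ e 0 * v ^ e 1) := by
  induction f using MvPolynomial.induction_on' with
  | add p q hp hq => rw [map_add, coeff_add, hp, hq, coeff_add, add_mul]
  | monomial x a =>
    classical
    have h1 : scl u v (monomial x a) = monomial x (a * (u ^ x 0 * v ^ x 1)) := by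
      have h2 : (monomial x a : MvPolynomial (Fin 2) R) = C a * (X 0 ^ x 0 * X 1 ^ x 1) := by
        rw [MvPolynomial.monomial_eq, Finsupp.prod_fintype _ _ (fun i => pow_zero _),
          Fin.prod_univ_two]
      have h3 : (monomial x (a * (u ^ x 0 * v ^ x 1)) : MvPolynomial (Fin 2) R) =
          C (a * (u ^ x 0 * v ^ x 1)) * (X 0 ^ x 0 * X 1 ^ x 1) := by
        rw [MvPolynomial.monomial_eq, Finsupp.prod_fintype _ _ (fun i => pow_zero _),
          Fin.prod_univ_two]
      rw [h2, h3, map_mul, scl_C, map_mul, map_pow, map_pow, scl_X0, scl_X1, mul_pow, mul_pow,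
        C_mul, C_mul, C_pow, C_pow]
      ring
    rw [h1, coeff_monomial, coeff_monomial]
    split_ifs with h
    · rw [h]
    · rw [zero_mul]

theorem shift_scl {R : Type*} [CommRing R] (u v α β : R) (f : MvPolynomial (Fin 2) R) :
    ShghE.tfShift α β (scl u v f) = scl u v (ShghE.tfShift (u * α) (v * β) f) := by
  have h : (ShghE.tfShift α β).comp (scl u v) = (scl u v).comp (ShghE.tfShift (u * α) (v * β)) := by
    apply MvPolynomial.algHom_ext
    intro i
    fin_cases i
    · change ShghE.tfShift α β (scl u v (X 0)) = scl u v (ShghE.tfShift (u * α) (v * β) (X 0))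
      rw [scl_X0, map_mul, ShghE.tfShift_C, ShghE.tfShift_X0, ShghE.tfShift_X0, map_add, scl_X0,
        scl_C, C_mul]
      ring
    · change ShghE.tfShift α β (scl u v (X 1)) = scl u v (ShghE.tfShift (u * α) (v * β) (X 1))
      rw [scl_X1, map_mul, ShghE.tfShift_C, ShghE.tfShift_X1, ShghE.tfShift_X1, map_add, scl_X1,
        scl_C, C_mul]
      ring
  exact DFunLike.congr_fun h f

theorem tCol : S_Col.{u} := by
  intro K _ W D s ν x H hH hW hD hm
  classical
  set H' : MvPolynomial (Fin 2) (Polynomial K) :=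
    scl (Polynomial.X : Polynomial K) (Polynomial.X ^ (D + 1)) H with hH'
  have hco : ∀ e : Fin 2 →₀ ℕ, H'.coeff e =
      H.coeff e * Polynomial.X ^ (e 0 + (D + 1) * e 1) := by
    intro e
    rw [hH', scl_coeff, ← pow_mul, ← pow_add]
  have hcf : ∀ (k : ℕ) (e : Fin 2 →₀ ℕ), (cfk (k + (e 0 + (D + 1) * e 1)) H').coeff e =
      (cfk k H).coeff e := by
    intro k e
    rw [coeff_cfk, coeff_cfk, hco, Polynomial.coeff_mul_X_pow]
  have hex : ∃ k, cfk k H' ≠ 0 := by
    obtain ⟨e, he⟩ := MvPolynomial.ne_zero_iff.1 hH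
    obtain ⟨k, hk⟩ : ∃ k, (H.coeff e).coeff k ≠ 0 := by
      by_contra hcon
      push Not at hcon
      exact he (Polynomial.ext fun k => by rw [hcon k, Polynomial.coeff_zero])
    refine ⟨k + (e 0 + (D + 1) * e 1), fun h0 => hk ?_⟩
    have h1 := hcf k e
    rw [h0, coeff_zero, coeff_cfk] at h1
    exact h1.symm
  set N := Nat.find hex with hN
  have hN1 : cfk N H' ≠ 0 := Nat.find_spec hex
  have hN2 : ∀ k, k < N → cfk k H' = 0 := fun k hk => by
    by_contra h
    exact Nat.find_min hex hk h
  refine ⟨cfk N H', hN1, ?_, ?_⟩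
  · intro e he
    have h1 : e 0 + (D + 1) * e 1 ≤ N ∧ (H.coeff e).coeff (N - (e 0 + (D + 1) * e 1)) ≠ 0 := by
      rw [coeff_cfk, hco, Polynomial.coeff_mul_X_pow'] at he
      split_ifs at he with h
      · exact ⟨h, he⟩
      · exact absurd rfl he
    refine ⟨cfk (N - (e 0 + (D + 1) * e 1)) H, hW _, ?_, ?_⟩
    · rw [coeff_cfk]
      exact h1.2
    · intro e' hlt
      by_contra hne
      have hD' := hD _ (hW _) e' hne
      have hw : e' 0 + (D + 1) * e' 1 < e 0 + (D + 1) * e 1 := by
        rcases hlt with h | ⟨h, h'⟩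
        · obtain ⟨r, hr⟩ : ∃ r, e 1 = e' 1 + 1 + r := ⟨e 1 - e' 1 - 1, by omega⟩
          rw [hr]
          have : (D + 1) * (e' 1 + 1 + r) = (D + 1) * e' 1 + (D + 1) + (D + 1) * r := by ring
          rw [this]
          have := Nat.zero_le ((D + 1) * r)
          omega
        · rw [h]
          omega
      have h2 := hcf (N - (e 0 + (D + 1) * e 1)) e'
      rw [hN2 _ (by omega), coeff_zero] at h2
      exact hne h2.symm
  · intro i
    refine (ShghE.tf_mem_iff _ _ _ _).2 fun e he => ?_
    rw [cfk_shift, hH', shift_scl, scl_coeff, hm i e he, zero_mul, Polynomial.coeff_zero]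

end ShghC
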