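import Pool.Agent.ShghJ.GeoMain

/-!
# ShghC: definitions

Polynomials with a given set of exponents (trapezoids, strips) and fat points.
-/

namespace ShghC

open MvPolynomial ShghJ

/-- The polynomials with exponents in `N` and multiplicities `≥ μ i` at the points `P i`. -/
def LN {K : Type*} [Field K] {s : ℕ} (N : Finset (Fin 2 →₀ ℕ)) (μ : Fin s → ℕ)
    (P : Fin s → Fin 2 → K) : Submodule K (MvPolynomial (Fin 2) K) where
  carrier := {f | (∀ e, f.coeff e ≠ 0 → e ∈ N) ∧ ∀ i, f ∈ ShghT.pt (P i 0) (P i 1) ^ μ i}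
  add_mem' := fun {f g} hf hg => ⟨fun e he => by
    by_contra h
    apply he
    rw [coeff_add, not_not.1 fun h' => h (hf.1 e h'), not_not.1 fun h' => h (hg.1 e h'), add_zero],
    fun i => Ideal.add_mem _ (hf.2 i) (hg.2 i)⟩
  zero_mem' := ⟨fun e he => absurd (coeff_zero e) he, fun _ => Ideal.zero_mem _⟩
  smul_mem' := fun c f hf => ⟨fun e he => hf.1 e fun h => he (by rw [coeff_smul, h, smul_zero]),
    fun i => by
      rw [smul_eq_C_mul]
      exact Ideal.mul_mem_left _ _ (hf.2 i)⟩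

theorem mem_LN {K : Type*} [Field K] {s : ℕ} {N : Finset (Fin 2 →₀ ℕ)} {μ : Fin s → ℕ}
    {P : Fin s → Fin 2 → K} {f : MvPolynomial (Fin 2) K} :
    f ∈ LN N μ P ↔ (∀ e, f.coeff e ≠ 0 → e ∈ N) ∧ ∀ i, f ∈ ShghT.pt (P i 0) (P i 1) ^ μ i :=
  Iff.rfl

/-- The dimension of the space of polynomials with exponents in `N` and multiplicities `S` at
generic points. -/
noncomputable def hN (F : Type*) [Field F] (N : Finset (Fin 2 →₀ ℕ)) (S : Multiset ℕ) : ℕ :=
  Module.finrank (UF F) (LN N (fun i : Fin S.toList.length => S.toList.get i) (fun i => up F i))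

theorem ex_zero (i j : ℕ) : (ex i j) 0 = i := by simp [ex]

theorem ex_one (i j : ℕ) : (ex i j) 1 = j := by simp [ex]

theorem ex_eta (e : Fin 2 →₀ ℕ) : ex (e 0) (e 1) = e := by
  ext i
  fin_cases i <;> simp [ex]

theorem ex_deg (i j : ℕ) : (ex i j).degree = i + j := by
  rw [Finsupp.degree_eq_sum, Fin.sum_univ_two, ex_zero, ex_one]

theorem deg_eq (e : Fin 2 →₀ ℕ) : e.degree = e 0 + e 1 := by
  rw [Finsupp.degree_eq_sum, Fin.sum_univ_two]

/-- The exponents `(i, k)` with `i, k ≤ b` and `p i k`. -/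
noncomputable def boxSet (b : ℕ) (p : ℕ → ℕ → Prop) [∀ i k, Decidable (p i k)] :
    Finset (Fin 2 →₀ ℕ) :=
  ((Finset.range (b + 1) ×ˢ Finset.range (b + 1)).filter fun x => p x.1 x.2).map
    ⟨fun x => ex x.1 x.2, fun x y h => by
      have h0 := DFunLike.congr_fun h 0
      have h1 := DFunLike.congr_fun h 1
      simp only [ex_zero, ex_one] at h0 h1
      exact Prod.ext h0 h1⟩

theorem mem_boxSet {b : ℕ} {p : ℕ → ℕ → Prop} [∀ i k, Decidable (p i k)] {e : Fin 2 →₀ ℕ} :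
    e ∈ boxSet b p ↔ e 0 ≤ b ∧ e 1 ≤ b ∧ p (e 0) (e 1) := by
  unfold boxSet
  rw [Finset.mem_map]
  constructor
  · rintro ⟨x, hx, rfl⟩
    rw [Finset.mem_filter, Finset.mem_product, Finset.mem_range, Finset.mem_range] at hx
    simp only [Function.Embedding.coeFn_mk, ex_zero, ex_one]
    exact ⟨by omega, by omega, hx.2⟩
  · rintro ⟨h0, h1, h2⟩
    refine ⟨(e 0, e 1), ?_, ex_eta e⟩
    rw [Finset.mem_filter, Finset.mem_product, Finset.mem_range, Finset.mem_range]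
    exact ⟨⟨by simp only; omega, by simp only; omega⟩, h2⟩

/-- The trapezoid `i + k ≤ d`, `k ≤ θ`. -/
noncomputable def Trap (d θ : ℕ) : Finset (Fin 2 →₀ ℕ) :=
  boxSet d fun i k => i + k ≤ d ∧ k ≤ θ

theorem mem_Trap {d θ : ℕ} {e : Fin 2 →₀ ℕ} : e ∈ Trap d θ ↔ e 0 + e 1 ≤ d ∧ e 1 ≤ θ := by
  unfold Trap
  rw [mem_boxSet]
  constructor
  · rintro ⟨-, -, h⟩
    exact h
  · rintro ⟨h1, h2⟩
    exact ⟨by omega, by omega, h1, h2⟩

/-- The full strip `k ≤ τ`, `i + n k ≤ δ`. -/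
noncomputable def Sf (n τ δ : ℕ) : Finset (Fin 2 →₀ ℕ) :=
  boxSet (δ + τ) fun i k => k ≤ τ ∧ i + n * k ≤ δ

theorem mem_Sf {n τ δ : ℕ} {e : Fin 2 →₀ ℕ} : e ∈ Sf n τ δ ↔ e 1 ≤ τ ∧ e 0 + n * e 1 ≤ δ := by
  unfold Sf
  rw [mem_boxSet]
  constructor
  · rintro ⟨-, -, h⟩
    exact h
  · rintro ⟨h1, h2⟩
    have : e 0 ≤ δ := by
      have := Nat.zero_le (n * e 1)
      omega
    exact ⟨by omega, by omega, h1, h2⟩

/-- The strip with `ρ` monomials in the top row: `k < τ`, `i + n k ≤ δ` or `k = τ`, `i < ρ`. -/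
noncomputable def St (n τ δ ρ : ℕ) : Finset (Fin 2 →₀ ℕ) :=
  boxSet (δ + τ + ρ) fun i k => (k < τ ∧ i + n * k ≤ δ) ∨ (k = τ ∧ i < ρ)

theorem mem_St {n τ δ ρ : ℕ} {e : Fin 2 →₀ ℕ} :
    e ∈ St n τ δ ρ ↔ (e 1 < τ ∧ e 0 + n * e 1 ≤ δ) ∨ (e 1 = τ ∧ e 0 < ρ) := by
  unfold St
  rw [mem_boxSet]
  constructor
  · rintro ⟨-, -, h⟩
    exact h
  · intro h
    refine ⟨?_, ?_, h⟩
    · rcases h with ⟨h1, h2⟩ | ⟨h1, h2⟩
      · have := Nat.zero_le (n * e 1)
        omega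
      · omega
    · rcases h with ⟨h1, h2⟩ | ⟨h1, h2⟩ <;> omega

/-- The substitution `f(X, Y) ↦ f(X + η, Y + (X + η) ^ a)`. -/
noncomputable def Psi {R : Type*} [CommRing R] (η : R) (a : ℕ) :
    MvPolynomial (Fin 2) R →ₐ[R] MvPolynomial (Fin 2) R :=
  aeval ![X 0 + C η, X 1 + (X 0 + C η) ^ a]

theorem Psi_X0 {R : Type*} [CommRing R] (η : R) (a : ℕ) : Psi η a (X 0) = X 0 + C η := by
  simp [Psi]

theorem Psi_X1 {R : Type*} [CommRing R] (η : R) (a : ℕ) :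
    Psi η a (X 1) = X 1 + (X 0 + C η) ^ a := by
  simp [Psi]

theorem Psi_C {R : Type*} [CommRing R] (η : R) (a : ℕ) (c : R) : Psi η a (C c) = C c := by
  simp [Psi]

/-- The lowest exponents of the members of `W` (ordered by the exponent of `Y`, then by that
of `X`). -/
def Lx {K : Type*} [Field K] (W : Submodule K (MvPolynomial (Fin 2) K)) : Set (Fin 2 →₀ ℕ) :=
  {e | ∃ f ∈ W, f.coeff e ≠ 0 ∧
    ∀ e' : Fin 2 →₀ ℕ, (e' 1 < e 1 ∨ (e' 1 = e 1 ∧ e' 0 < e 0)) → f.coeff e' = 0}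

/-- The restriction to the line `X = x0`. -/
noncomputable def rst {K : Type*} [Field K] (x0 : K) :
    MvPolynomial (Fin 2) K →ₐ[K] Polynomial K :=
  aeval ![Polynomial.C x0, Polynomial.X]

/-- `GT B`: generic points of multiplicities `B` impose independent conditions or no curve has
these multiplicities, in every degree. -/
def GT (F : Type*) [Field F] (B : Multiset ℕ) : Prop :=
  ∀ j : ℕ, hF F j B = T (j + 1) - TT B

/-- The properties of the dimension `h e B` of the polynomials with exponents in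
`{k ≤ τ, i + n k ≤ e}` and multiplicities `B`. With `r e = h e - h (e - 1)`. -/
structure StripFun (n τ : ℕ) (h : ℕ → Multiset ℕ → ℕ) : Prop where
  /-- without points -/
  empty : ∀ e, h e 0 = ∑ k ∈ Finset.range (τ + 1), (e + 1 - n * k)
  /-- lower bound -/
  low : ∀ e m B, h e B ≤ h e (m ::ₘ B) + T m
  /-- monotonicity in the points -/
  anti : ∀ e m B, h e (m ::ₘ B) ≤ h e B
  /-- monotonicity in `e` -/
  mono : ∀ e B, h e B ≤ h (e + 1) B
  /-- `r (e + 1) ≤ τ + 1` -/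
  rle : ∀ e B, h (e + 1) B ≤ h e B + (τ + 1)
  /-- `r 0 ≤ r 1` -/
  conv0 : ∀ B, 2 * h 0 B ≤ h 1 B
  /-- `r (e + 1) ≤ r (e + 2)` -/
  conv : ∀ e B, 2 * h (e + 1) B ≤ h (e + 2) B + h e B
  /-- restriction to the fibres: `h e (m ::ₘ B) ≤ ∑_i max(0, r (e - i) - max(0, m - i))` -/
  fib : ∀ e m B, h e (m ::ₘ B) ≤
    ∑ i ∈ Finset.range (e + 1), ((h (e - i) B - (if e - i = 0 then 0 else h (e - i - 1) B)) - (m - i))

end ShghC
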