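import Pool.Agent.ShghC.Spec

/-!
# ShghC, FIBDIV: division by `X - x0` in a strip
-/

namespace ShghC

open MvPolynomial ShghJ

universe u

/-- Replacing `X 0` by `C x0` changes a polynomial by a multiple of `X 0 - C x0`. -/
private theorem fd_dvd_sub {K : Type*} [Field K] (x0 : K) (f : MvPolynomial (Fin 2) K) :
    (X 0 - C x0) ∣ f - aeval (![C x0, X 1] : Fin 2 → MvPolynomial (Fin 2) K) f := by
  induction f using MvPolynomial.induction_on with
  | C a => simp
  | add p q hp hq =>
    rw [map_add]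
    have e : p + q - (aeval (![C x0, X 1] : Fin 2 → MvPolynomial (Fin 2) K) p +
        aeval (![C x0, X 1] : Fin 2 → MvPolynomial (Fin 2) K) q) =
        (p - aeval (![C x0, X 1] : Fin 2 → MvPolynomial (Fin 2) K) p) +
        (q - aeval (![C x0, X 1] : Fin 2 → MvPolynomial (Fin 2) K) q) := by ring
    rw [e]
    exact dvd_add hp hq
  | mul_X p i hp =>
    rw [map_mul, aeval_X]
    have e : p * X i - aeval (![C x0, X 1] : Fin 2 → MvPolynomial (Fin 2) K) p *
        (![C x0, X 1] : Fin 2 → MvPolynomial (Fin 2) K) i =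
        (p - aeval (![C x0, X 1] : Fin 2 → MvPolynomial (Fin 2) K) p) * X i +
        aeval (![C x0, X 1] : Fin 2 → MvPolynomial (Fin 2) K) p *
          (X i - (![C x0, X 1] : Fin 2 → MvPolynomial (Fin 2) K) i) := by ring
    rw [e]
    refine dvd_add (Dvd.dvd.mul_right hp _) (Dvd.dvd.mul_left ?_ _)
    fin_cases i
    · simp
    · simp

private theorem fd_dvd {K : Type*} [Field K] (x0 : K) (f : MvPolynomial (Fin 2) K)
    (h : rst x0 f = 0) : (X 0 - C x0) ∣ f := by
  have h1 := fd_dvd_sub x0 f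
  have h2 : aeval (![C x0, X 1] : Fin 2 → MvPolynomial (Fin 2) K) f =
      Polynomial.aeval (X 1 : MvPolynomial (Fin 2) K) (rst x0 f) := by
    have e : (aeval (![C x0, X 1] : Fin 2 → MvPolynomial (Fin 2) K)) =
        (Polynomial.aeval (X 1 : MvPolynomial (Fin 2) K)).comp (rst x0) := by
      apply MvPolynomial.algHom_ext
      intro i
      fin_cases i
      · simp [rst, MvPolynomial.algebraMap_eq]
      · simp [rst]
    rw [e]
    rfl
  rwa [h2, h, map_zero, sub_zero] at h1

/-- The coefficients of `(X - x0) g`. -/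
private theorem fd_coeff_succ {K : Type*} [Field K] (x0 : K) (g : MvPolynomial (Fin 2) K)
    (i k : ℕ) : ((X 0 - C x0) * g).coeff (ex (i + 1) k) =
      g.coeff (ex i k) - x0 * g.coeff (ex (i + 1) k) := by
  rw [sub_mul, coeff_sub, coeff_C_mul]
  congr 1
  have e : ex (i + 1) k = Finsupp.single 0 1 + ex i k := by
    ext j
    fin_cases j
    · simp [ex, add_comm]
    · simp [ex]
  rw [e, coeff_X_mul]

private theorem fd_coeff_zero {K : Type*} [Field K] (x0 : K) (g : MvPolynomial (Fin 2) K)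
    (k : ℕ) : ((X 0 - C x0) * g).coeff (ex 0 k) = - (x0 * g.coeff (ex 0 k)) := by
  rw [sub_mul, coeff_sub, coeff_C_mul, coeff_X_mul', if_neg, zero_sub]
  simp [ex]

/-- The exponents of the quotient. -/
private theorem fd_quot {K : Type*} [Field K] (x0 : K) (g : MvPolynomial (Fin 2) K) (n τ δ : ℕ)
    (h : ∀ e, ((X 0 - C x0) * g).coeff e ≠ 0 → e ∈ Sf n τ δ) (i k : ℕ)
    (hik : g.coeff (ex i k) ≠ 0) : k ≤ τ ∧ i + 1 + n * k ≤ δ := by
  obtain ⟨e, he, hmax⟩ := Finset.exists_max_image (g.support.filter fun e => e 1 = k)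
    (fun e => e 0) ⟨ex i k, by
      rw [Finset.mem_filter]
      exact ⟨mem_support_iff.mpr hik, ex_one i k⟩⟩
  rw [Finset.mem_filter] at he
  obtain ⟨he1, he2⟩ := he
  have hi : i ≤ e 0 := by
    have := hmax (ex i k) (by
      rw [Finset.mem_filter]
      exact ⟨mem_support_iff.mpr hik, ex_one i k⟩)
    rwa [ex_zero] at this
  have hee : ex (e 0) k = e := by rw [← he2, ex_eta]
  have hnext : g.coeff (ex (e 0 + 1) k) = 0 := by
    by_contra hne
    have := hmax (ex (e 0 + 1) k) (by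
      rw [Finset.mem_filter]
      exact ⟨mem_support_iff.mpr hne, ex_one _ k⟩)
    rw [ex_zero] at this
    omega
  have hc : ((X 0 - C x0) * g).coeff (ex (e 0 + 1) k) ≠ 0 := by
    rw [fd_coeff_succ, hnext, mul_zero, sub_zero, hee]
    exact mem_support_iff.mp he1
  have := h _ hc
  rw [mem_Sf, ex_zero, ex_one] at this
  exact ⟨this.1, by omega⟩

theorem tFibDiv (h1 : S_Unit.{u}) : S_FibDiv.{u} := by
  intro K _ n τ s μ p x0 hp
  refine ⟨?_, ?_, ?_⟩
  · intro f hf h0
    obtain ⟨g, rfl⟩ := fd_dvd x0 f h0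
    rw [mem_LN] at hf
    have hg : g = 0 := by
      ext e
      rw [coeff_zero]
      by_contra hne
      rw [← ex_eta e] at hne
      have := (fd_quot x0 g n τ 0 hf.1 _ _ hne).2
      omega
    rw [hg, mul_zero]
  · intro e f hf h0
    obtain ⟨g, rfl⟩ := fd_dvd x0 f h0
    rw [mem_LN] at hf
    refine ⟨g, ⟨fun e' he' => ?_, fun i => ?_⟩, rfl⟩
    · rw [← ex_eta e'] at he'
      have := fd_quot x0 g n τ (e + 1) hf.1 _ _ he'
      rw [mem_Sf]
      exact ⟨this.1, by omega⟩
    · refine h1 K (p i 0) (p i 1) (μ i) (X 0 - C x0) g ?_ (hf.2 i)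
      simp only [map_sub, eval_X, eval_C, Matrix.cons_val_zero]
      exact sub_ne_zero.mpr (hp i)
  · intro e g hg x1
    rw [mem_LN] at hg ⊢
    refine ⟨fun e' he' => ?_, fun i => Ideal.mul_mem_left _ _ (hg.2 i)⟩
    rw [← ex_eta e'] at he'
    rw [mem_Sf]
    rcases Nat.eq_zero_or_pos (e' 0) with h0 | h0
    · rw [h0, fd_coeff_zero] at he'
      have hne : g.coeff (ex 0 (e' 1)) ≠ 0 := fun hh => he' (by rw [hh, mul_zero, neg_zero])
      have := hg.1 _ hne
      rw [mem_Sf, ex_zero, ex_one] at this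
      exact ⟨this.1, by omega⟩
    · obtain ⟨i, hi⟩ : ∃ i, e' 0 = i + 1 := ⟨e' 0 - 1, by omega⟩
      rw [hi, fd_coeff_succ] at he'
      by_cases hne : g.coeff (ex i (e' 1)) = 0
      · have hne' : g.coeff (ex (i + 1) (e' 1)) ≠ 0 := fun hh =>
          he' (by rw [hne, hh, mul_zero, sub_zero])
        have := hg.1 _ hne'
        rw [mem_Sf, ex_zero, ex_one] at this
        exact ⟨this.1, by omega⟩
      · have := hg.1 _ hne
        rw [mem_Sf, ex_zero, ex_one] at this
        exact ⟨this.1, by omega⟩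

end ShghC
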