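import Pool.Agent.ShghC.Spec
import Pool.Agent.ShghJ.Comb3

/-!
# ShghC: four points with multiplicities `κ`, `κ + 1`
-/

namespace ShghC

open MvPolynomial ShghJ

universe u

private theorem Four_T1 (κ : ℕ) : T (2 * κ + 1) = 4 * T κ + (κ + 1) := by
  have h1 := two_T (2 * κ + 1)
  have h2 := two_T κ
  have h3 : (2 * κ + 1) * (2 * κ + 1 + 1) = 4 * (κ * (κ + 1)) + 2 * (κ + 1) := by ring
  omega

private theorem Four_mono {i j : ℕ} (h : i ≤ j) : T i ≤ T j := by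
  induction j, h using Nat.le_induction with
  | base => exact le_rfl
  | succ n _ ih => exact ih.trans (by rw [T_succ]; omega)

private theorem Four_step (hL : S_Line.{u}) (F : Type u) [Field F] (j a b c d : ℕ) :
    hF F (j + 2) ((a + 1) ::ₘ (b + 1) ::ₘ (c + 1) ::ₘ (d + 1) ::ₘ 0) ≤
      hF F j (a ::ₘ b ::ₘ c ::ₘ d ::ₘ 0) + (j + 1 - (a + b)) + (j - (c + d)) := by
  have h1 := hL F (j + 2) (a + 1) (b + 1) ((c + 1) ::ₘ (d + 1) ::ₘ 0) (by omega) (by omega)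
    (by omega)
  have h2 := hL F (j + 1) (c + 1) (d + 1) (a ::ₘ b ::ₘ 0) (by omega) (by omega) (by omega)
  have e1 : (a ::ₘ b ::ₘ (c + 1) ::ₘ (d + 1) ::ₘ 0 : Multiset ℕ) =
      (c + 1) ::ₘ (d + 1) ::ₘ a ::ₘ b ::ₘ 0 := by
    rw [Multiset.cons_swap b (c + 1), Multiset.cons_swap b (d + 1), Multiset.cons_swap a (c + 1),
      Multiset.cons_swap a (d + 1)]
  have e2 : (c ::ₘ d ::ₘ a ::ₘ b ::ₘ 0 : Multiset ℕ) = a ::ₘ b ::ₘ c ::ₘ d ::ₘ 0 := by
    rw [Multiset.cons_swap d a, Multiset.cons_swap d b, Multiset.cons_swap c a,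
      Multiset.cons_swap c b]
  simp only [Nat.add_sub_cancel, show j + 2 - 1 = j + 1 from rfl] at h1 h2
  rw [e1] at h1
  rw [e2] at h2
  omega

/-- The multisets of the induction. -/
private def Four_ms (κ : ℕ) : ℕ → Multiset ℕ
  | 0 => κ ::ₘ κ ::ₘ κ ::ₘ κ ::ₘ 0
  | 1 => (κ + 1) ::ₘ κ ::ₘ κ ::ₘ κ ::ₘ 0
  | 2 => (κ + 1) ::ₘ κ ::ₘ (κ + 1) ::ₘ κ ::ₘ 0
  | _ => (κ + 1) ::ₘ (κ + 1) ::ₘ (κ + 1) ::ₘ κ ::ₘ 0

private theorem Four_ms_eq (κ i : ℕ) (hi : i ≤ 3) :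
    Multiset.replicate i (κ + 1) + Multiset.replicate (4 - i) κ = Four_ms κ i := by
  interval_cases i
  · rfl
  · rfl
  · unfold Four_ms
    rw [Multiset.cons_swap κ (κ + 1)]
    rfl
  · rfl

private theorem Four_low (κ i : ℕ) : ∃ a b c d : ℕ, Four_ms (κ + 1) i =
    (a + 1) ::ₘ (b + 1) ::ₘ (c + 1) ::ₘ (d + 1) ::ₘ 0 := by
  rcases i with _ | _ | _ | i
  · exact ⟨κ, κ, κ, κ, rfl⟩
  · exact ⟨κ + 1, κ, κ, κ, rfl⟩
  · exact ⟨κ + 1, κ, κ + 1, κ, rfl⟩
  · exact ⟨κ + 1, κ + 1, κ + 1, κ, rfl⟩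

private theorem Four_main (hL : S_Line.{u}) (F : Type u) [Field F] [CharZero F] (κ : ℕ) :
    ∀ j i : ℕ, i ≤ 3 → hF F j (Four_ms κ i) ≤ T (j + 1) - (i * T (κ + 1) + (4 - i) * T κ) := by
  have H : ∀ j, HFun j (hF F j) := fun j => hfun_hF F j fun n hn _ => by
    have : n ≠ 0 := by omega
    exact_mod_cast this
  have T0 : T 0 = 0 := T_zero
  have T1 : T 1 = 1 := T_one
  induction κ with
  | zero =>
    intro j i hi
    have T1' : T (0 + 1) = 1 := T_one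
    have hz0 : ∀ S : Multiset ℕ, hF F j (0 ::ₘ S) = hF F j S := (H j).zero
    have tj : T 2 = 3 := rfl
    have e0 : hF F j (Four_ms 0 0) = hF F j 0 := by
      change hF F j (0 ::ₘ 0 ::ₘ 0 ::ₘ 0 ::ₘ 0) = _
      rw [hz0, hz0, hz0, hz0]
    have e1 : hF F j (Four_ms 0 1) = hF F j (1 ::ₘ 0) := by
      change hF F j (1 ::ₘ 0 ::ₘ 0 ::ₘ 0 ::ₘ 0) = _
      rw [Multiset.cons_swap, hz0, Multiset.cons_swap, hz0, Multiset.cons_swap, hz0]
    have e2 : hF F j (Four_ms 0 2) = hF F j (1 ::ₘ 1 ::ₘ 0) := by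
      change hF F j (1 ::ₘ 0 ::ₘ 1 ::ₘ 0 ::ₘ 0) = _
      rw [Multiset.cons_swap, hz0, Multiset.cons_swap 1 0 0, Multiset.cons_swap, hz0]
    have e3 : hF F j (Four_ms 0 3) = hF F j (1 ::ₘ 1 ::ₘ 1 ::ₘ 0) := by
      change hF F j (1 ::ₘ 1 ::ₘ 1 ::ₘ 0 ::ₘ 0) = _
      rw [Multiset.cons_swap 1 0 0, Multiset.cons_swap 1 0, Multiset.cons_swap 1 0, hz0]
    have hs0 := (H j).small 0 (by simp)
    have hs1 := (H j).small (1 ::ₘ 0) (by simp)
    rw [TT_cons, TT_zero] at hs1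
    rw [TT_zero] at hs0
    interval_cases i
    · rw [e0]
      omega
    · rw [e1]
      omega
    · rw [e2]
      rcases j with _ | j
      · have := (H 0).cons_le (1 ::ₘ 0) 1
        change hF F 0 (1 ::ₘ 0) + _ = T 1 at hs1
        omega
      · have hs2 := (H (j + 1)).small (1 ::ₘ 1 ::ₘ 0) (by simp)
        rw [TT_cons, TT_cons, TT_zero] at hs2
        omega
    · rw [e3]
      rcases j with _ | _ | j
      · have h1 := (H 0).cons_le (1 ::ₘ 1 ::ₘ 0) 1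
        have h2 := (H 0).cons_le (1 ::ₘ 0) 1
        change hF F 0 (1 ::ₘ 0) + _ = T 1 at hs1
        omega
      · have h1 := hL F 1 1 1 (1 ::ₘ 0) (by omega) (by omega) (by omega)
        have h2 : hF F (1 - 1) ((1 - 1) ::ₘ (1 - 1) ::ₘ 1 ::ₘ 0) = 0 := by
          rw [Multiset.cons_swap (1 - 1) 1, Multiset.cons_swap (1 - 1) 1]
          exact (H 0).eq_zero_of_gt _ (by omega)
        change hF F 1 (1 ::ₘ 1 ::ₘ 1 ::ₘ 0) ≤ _
        omega
      · have hs3 := (H (j + 1 + 1)).small (1 ::ₘ 1 ::ₘ 1 ::ₘ 0) (by simp)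
        rw [TT_cons, TT_cons, TT_cons, TT_zero] at hs3
        omega
  | succ κ ih =>
    intro j i hi
    have t1 : T (κ + 2) = T (κ + 1) + (κ + 2) := T_succ (κ + 1)
    have t2 := T_succ κ
    rcases j with _ | _ | j
    · obtain ⟨a, b, c, d, e⟩ := Four_low κ i
      have h0 : hF F 0 (Four_ms (κ + 1) i) = 0 := by
        rw [e]
        exact (H 0).eq_zero_of_gt _ (Nat.succ_pos a)
      rw [h0]
      exact Nat.zero_le _
    · obtain ⟨a, b, c, d, e⟩ := Four_low κ i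
      have h0 : hF F 1 (Four_ms (κ + 1) i) = 0 := by
        rw [e]
        have h1 := hL F 1 (a + 1) (b + 1) ((c + 1) ::ₘ (d + 1) ::ₘ 0) (by omega) (by omega)
          (by omega)
        have h2 : hF F (1 - 1) ((a + 1 - 1) ::ₘ (b + 1 - 1) ::ₘ (c + 1) ::ₘ (d + 1) ::ₘ 0) = 0 := by
          rw [Multiset.cons_swap (b + 1 - 1), Multiset.cons_swap (a + 1 - 1)]
          exact (H 0).eq_zero_of_gt _ (Nat.succ_pos c)
        omega
      rw [show 0 + 1 = 1 from rfl, h0]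
      exact Nat.zero_le _
    change hF F (j + 2) (Four_ms (κ + 1) i) ≤ T (j + 3) - (i * T (κ + 2) + (4 - i) * T (κ + 1))
    have t3 : T (j + 3) = T (j + 2) + (j + 3) := T_succ (j + 2)
    have t4 : T (j + 2) = T (j + 1) + (j + 2) := T_succ (j + 1)
    have ih' := ih j i hi
    have t5 := Four_T1 κ
    have t6 : T (2 * κ + 2) = T (2 * κ + 1) + (2 * κ + 2) := T_succ (2 * κ + 1)
    have t7 := T_succ (2 * κ)
    have m1 : ∀ i', T (j + 1) ≤ T i' ∨ i' < j + 1 := by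
      intro i'
      rcases Nat.lt_or_ge i' (j + 1) with h | h
      · exact Or.inr h
      · exact Or.inl (Four_mono h)
    have m2 : ∀ i', T i' ≤ T (j + 1) ∨ j + 1 < i' := by
      intro i'
      rcases Nat.lt_or_ge (j + 1) i' with h | h
      · exact Or.inr h
      · exact Or.inl (Four_mono h)
    have m10 := m1 (2 * κ)
    have m11 := m1 (2 * κ + 1)
    have m12 := m1 (2 * κ + 2)
    have m20 := m2 (2 * κ)
    have m21 := m2 (2 * κ + 1)
    have m22 := m2 (2 * κ + 2)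
    interval_cases i
    · have h := Four_step hL F j κ κ κ κ
      change hF F (j + 2) (Four_ms (κ + 1) 0) ≤ hF F j (Four_ms κ 0) + _ + _ at h
      omega
    · have h := Four_step hL F j (κ + 1) κ κ κ
      change hF F (j + 2) (Four_ms (κ + 1) 1) ≤ hF F j (Four_ms κ 1) + _ + _ at h
      omega
    · have h := Four_step hL F j (κ + 1) κ (κ + 1) κ
      change hF F (j + 2) (Four_ms (κ + 1) 2) ≤ hF F j (Four_ms κ 2) + _ + _ at h
      omega
    · have h := Four_step hL F j (κ + 1) (κ + 1) (κ + 1) κ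
      change hF F (j + 2) (Four_ms (κ + 1) 3) ≤ hF F j (Four_ms κ 3) + _ + _ at h
      omega

theorem tFour (h1 : S_Line.{u}) : S_Four.{u} := by
  intro F _ _ j κ i hi
  rcases Nat.lt_or_ge i 4 with h | h
  · rw [Four_ms_eq κ i (by omega)]
    exact Four_main h1 F κ j i (by omega)
  · obtain rfl : i = 4 := by omega
    have e : Multiset.replicate 4 (κ + 1) + Multiset.replicate (4 - 4) κ = Four_ms (κ + 1) 0 := by
      rfl
    rw [e]
    have h2 := Four_main h1 F (κ + 1) j 0 (by omega)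
    omega

end ShghC
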