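import Pool.Agent.ShghC.Spec

/-!
# ShghC, GLUE: the gluing inequality
-/

namespace ShghC

open MvPolynomial ShghJ

universe u

private theorem glue_rep (h2 : S_NSimple.{u}) (F : Type u) [Field F] [CharZero F]
    (N : Finset (Fin 2 →₀ ℕ)) (S : Multiset ℕ) (k : ℕ) :
    hN F N (Multiset.replicate k 1 + S) = hN F N S - k := by
  induction k with
  | zero => simp
  | succ k ih =>
    rw [Multiset.replicate_succ, Multiset.cons_add, h2 F N, ih]
    omega

theorem tGlue (h1 : S_GlueN.{u}) (h2 : S_NSimple.{u}) : S_Glue.{u} := by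
  intro F _ _ d θ a τ A B ha hθ h0
  set N := St (2 * a - 1) τ (d - θ + a * θ) (hN F (Trap (d - τ * a) (θ - τ)) A) with hN'
  by_contra hlt
  push Not at hlt
  have hz : 1 ≤ hN F (Trap d θ) (A + (Multiset.replicate (hN F N B) 1 + B)) := by
    have e : A + (Multiset.replicate (hN F N B) 1 + B) =
        Multiset.replicate (hN F N B) 1 + (A + B) := by
      rw [← add_assoc, ← add_assoc, add_comm A]
    rw [e, glue_rep h2]
    omega
  have h3 := h1 F d θ a τ A (Multiset.replicate (hN F N B) 1 + B) ha hθ h0 hz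
  rw [← hN', glue_rep h2] at h3
  omega

end ShghC
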