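import Pool.Agent.ShghC.Spec

/-!
# ShghC, XRow: the number of lowest exponents in a row (no big point)

`V = LN (Trap d d) μ p` are the polynomials of degree `≤ d` with the multiplicities `μ`. The number
of lowest exponents of `Psi V` in the row `k` is at most `dim V_(d - k a) - dim V_(d - (k + 1) a)`.
-/

namespace ShghC

open MvPolynomial ShghJ

universe u v w

private theorem xr_psi {K : Type u} [Field K] (η : K) (a k : ℕ) (g : MvPolynomial (Fin 2) K) :
    Psi η a ((X 1 - X 0 ^ a) ^ k * g) = X 1 ^ k * Psi η a g := by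
  rw [map_mul, map_pow, map_sub, map_pow, Psi_X1, Psi_X0, add_sub_cancel_right]

private theorem xr_coeff {K : Type u} [Field K] (i k : ℕ) (h : MvPolynomial (Fin 2) K) :
    (X 1 ^ k * h).coeff (ex i k) = h.coeff (ex i 0) := by
  have he : ex i k = Finsupp.single 1 k + ex i 0 := by
    ext c
    fin_cases c
    · simp [ex]
    · simp [ex]
  rw [he, X_pow_eq_monomial, coeff_monomial_mul, one_mul]

private theorem xr_coeff_zero {K : Type u} [Field K] (i : ℕ) (h : MvPolynomial (Fin 2) K) :
    (X 1 * h).coeff (ex i 0) = 0 := by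
  classical
  rw [coeff_X_mul', if_neg]
  rw [Finsupp.mem_support_iff, ex_one]
  exact not_not.2 rfl

private theorem xr_tri {K : Type u} [Field K] {j : ℕ} {f : MvPolynomial (Fin 2) K} :
    (∀ e, f.coeff e ≠ 0 → e ∈ Trap j j) ↔ f.totalDegree ≤ j := by
  constructor
  · intro h
    refine Finset.sup_le fun m hm => ?_
    have := (mem_Trap.1 (h m (mem_support_iff.1 hm))).1
    rw [← deg_eq] at this
    exact this
  · intro h e he
    have h1 : e.degree ≤ f.totalDegree := le_totalDegree (mem_support_iff.2 he)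
    rw [deg_eq] at h1
    rw [mem_Trap]
    exact ⟨by omega, by omega⟩

private theorem xr_deg {K : Type u} [Field K] (a : ℕ) (ha : 1 ≤ a) :
    (X 1 - X 0 ^ a : MvPolynomial (Fin 2) K).totalDegree ≤ a := by
  refine (totalDegree_sub _ _).trans (max_le ?_ ?_)
  · rw [totalDegree_X]
    exact ha
  · refine (totalDegree_pow _ _).trans ?_
    rw [totalDegree_X, mul_one]

private theorem xr_ne {K : Type u} [Field K] (η : K) (a : ℕ) (ha : 1 ≤ a) :
    (X 1 - X 0 ^ a : MvPolynomial (Fin 2) K) ≠ 0 := by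
  intro h
  have h1 : Psi η a (X 1 - X 0 ^ a) = X 1 := by
    rw [map_sub, map_pow, Psi_X1, Psi_X0, add_sub_cancel_right]
  rw [h, map_zero] at h1
  exact X_ne_zero (1 : Fin 2) h1.symm

/-- The number of lowest exponents in a row. -/
theorem tXRow (h1 : S_RowDiv.{u}) (h3 : S_Seg.{u}) (h4 : S_Unit.{u}) (h5 : S_NClo.{u})
    {K : Type u} [Field K] [CharZero K] (D : Derivation ℤ K K) (η : K) (s d a k : ℕ)
    (μ : Fin s → ℕ) (p : Fin s → Fin 2 → K) (hη : D η = 1) (hD : ∀ i c, D (p i c) = 0)
    (hp : ∀ i, p i 1 ≠ p i 0 ^ a) (ha : 1 ≤ a) (hk : (k + 1) * a ≤ d)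
    (e : Fin 2 →₀ ℕ) (he : e ∈ Lx ((LN (Trap d d) μ p).map (Psi η a).toLinearMap))
    (hek : e 1 = k) :
    e 0 + 1 + Module.finrank K (LN (Trap (d - (k + 1) * a) (d - (k + 1) * a)) μ p) ≤
      Module.finrank K (LN (Trap (d - k * a) (d - k * a)) μ p) := by
  have hfin := h5.1 K
  obtain ⟨j, hj⟩ : ∃ j, j = d - k * a := ⟨_, rfl⟩
  have hja : d - (k + 1) * a = j - a := by
    rw [hj, Nat.add_mul, one_mul, Nat.sub_sub]
  have haj : a ≤ j := by
    rw [hj]
    rw [Nat.add_mul, one_mul] at hk
    omega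
  rw [hja, ← hj]
  -- the analysis of an element of `Lx`
  have key : ∀ e ∈ Lx ((LN (Trap d d) μ p).map (Psi η a).toLinearMap), e 1 = k →
      ∃ g ∈ LN (Trap j j) μ p, (Psi η a g).coeff (ex (e 0) 0) ≠ 0 ∧
        ∀ i, i < e 0 → (Psi η a g).coeff (ex i 0) = 0 := by
    rintro e ⟨F, ⟨f, hf, rfl⟩, hc, hlow⟩ hek
    change (Psi η a f).coeff e ≠ 0 at hc
    have hlow' : ∀ e' : Fin 2 →₀ ℕ, (e' 1 < e 1 ∨ (e' 1 = e 1 ∧ e' 0 < e 0)) →
        (Psi η a f).coeff e' = 0 := hlow
    have hf0 : f ≠ 0 := by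
      rintro rfl
      exact hc (by rw [map_zero, coeff_zero])
    obtain ⟨b1, b2, g, hg, hfg⟩ := h1 K η a k d d f ha hf0 hf.1
      (fun e' he' => hlow' e' (Or.inl (by omega)))
    have hcg : ∀ i, (Psi η a f).coeff (ex i k) = (Psi η a g).coeff (ex i 0) := by
      intro i
      rw [hfg, xr_psi, xr_coeff]
    refine ⟨g, mem_LN.2 ⟨fun e he => ?_, fun i => ?_⟩, ?_, fun i hi => ?_⟩
    · have h8 := mem_Trap.1 (hg e he)
      rw [← hj] at h8
      rw [mem_Trap]
      exact ⟨h8.1, by omega⟩
    · have h8 := hf.2 i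
      rw [hfg] at h8
      refine h4 K (p i 0) (p i 1) (μ i) ((X 1 - X 0 ^ a) ^ k) g ?_ h8
      rw [map_pow, map_sub, map_pow, eval_X, eval_X]
      apply pow_ne_zero
      exact sub_ne_zero.2 (hp i)
    · rw [← hcg, ← hek, ex_eta]
      exact hc
    · rw [← hcg]
      refine hlow' _ (Or.inr ⟨by rw [ex_one, hek], ?_⟩)
      rw [ex_zero]
      exact hi
  -- the segment
  have hseg : ∀ n i, i + n = e 0 →
      ex i k ∈ Lx ((LN (Trap d d) μ p).map (Psi η a).toLinearMap) := by
    intro n
    induction n with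
    | zero =>
      intro i hi
      have : ex i k = e := by
        rw [← hek, show i = e 0 by omega, ex_eta]
      rw [this]
      exact he
    | succ n ih =>
      intro i hi
      exact h3 K D η a s (Trap d d) μ p hη hD i k (ih (i + 1) (by omega))
  have hg : ∀ i : Fin (e 0 + 1), ∃ g ∈ LN (Trap j j) μ p,
      (Psi η a g).coeff (ex i 0) ≠ 0 ∧ ∀ i', i' < (i : ℕ) → (Psi η a g).coeff (ex i' 0) = 0 := by
    intro i
    obtain ⟨g, hg, hg1, hg2⟩ := key _ (hseg (e 0 - i) i (by omega)) (ex_one _ _)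
    rw [ex_zero] at hg1 hg2
    exact ⟨g, hg, hg1, hg2⟩
  choose g hgm hg1 hg2 using hg
  let v : Fin (e 0 + 1) → LN (Trap j j) μ p := fun i => ⟨g i, hgm i⟩
  let L : LN (Trap j j) μ p →ₗ[K] (Fin (e 0 + 1) → K) :=
    { toFun := fun f j => (Psi η a (f : MvPolynomial (Fin 2) K)).coeff (ex j 0)
      map_add' := fun f f' => by
        funext j
        rw [Submodule.coe_add, map_add, coeff_add]
        rfl
      map_smul' := fun c f => by
        funext j
        rw [Submodule.coe_smul, map_smul, coeff_smul]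
        rfl }
  let M : Matrix (Fin (e 0 + 1)) (Fin (e 0 + 1)) K := fun i j => L (v i) j
  have hM : M.BlockTriangular id := fun i j hij => hg2 i j hij
  have hdet : M.det ≠ 0 := by
    rw [Matrix.det_of_upperTriangular hM]
    exact Finset.prod_ne_zero_iff.2 fun i _ => hg1 i
  have hli : LinearIndependent K M.row := by
    rw [Matrix.linearIndependent_rows_iff_isUnit, Matrix.isUnit_iff_isUnit_det]
    exact isUnit_iff_ne_zero.2 hdet
  have hfj := hfin (Trap j j) s μ p
  have hfa := hfin (Trap (j - a) (j - a)) s μ p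
  -- the range
  have hrange : e 0 + 1 ≤ Module.finrank K (LinearMap.range L) := by
    have hli2 : LinearIndependent K (fun i => (⟨L (v i), LinearMap.mem_range_self L (v i)⟩ :
        LinearMap.range L)) := by
      apply LinearIndependent.of_comp (LinearMap.range L).subtype
      exact hli
    have h := hli2.fintype_card_le_finrank
    rw [Fintype.card_fin] at h
    exact h
  -- the kernel
  let ψ : LN (Trap (j - a) (j - a)) μ p →ₗ[K] LinearMap.ker L :=
    { toFun := fun f => ⟨⟨(X 1 - X 0 ^ a) * f.1, mem_LN.2 ⟨xr_tri.2 (by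
          refine (totalDegree_mul _ _).trans ?_
          have h8 := xr_deg (K := K) a ha
          have h9 := xr_tri.1 (mem_LN.1 f.2).1
          omega), fun i => Ideal.mul_mem_left _ _ ((mem_LN.1 f.2).2 i)⟩⟩, by
        rw [LinearMap.mem_ker]
        funext i
        change (Psi η a ((X 1 - X 0 ^ a) * f.1)).coeff (ex i 0) = 0
        have h8 := xr_psi η a 1 f.1
        rw [pow_one, pow_one] at h8
        rw [h8, xr_coeff_zero]⟩
      map_add' := fun f f' => by
        apply Subtype.ext
        apply Subtype.ext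
        change (X 1 - X 0 ^ a) * (f.1 + f'.1) = (X 1 - X 0 ^ a) * f.1 + (X 1 - X 0 ^ a) * f'.1
        ring
      map_smul' := fun c f => by
        apply Subtype.ext
        apply Subtype.ext
        change (X 1 - X 0 ^ a) * (c • f.1) = c • ((X 1 - X 0 ^ a) * f.1)
        rw [mul_smul_comm] }
  have hψ : Function.Injective ψ := by
    intro f f' h
    have h8 := congrArg (fun z => (z : LinearMap.ker L).1.1) h
    change (X 1 - X 0 ^ a) * f.1 = (X 1 - X 0 ^ a) * f'.1 at h8
    exact Subtype.ext (mul_left_cancel₀ (xr_ne η a ha) h8)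
  have hker := LinearMap.finrank_le_finrank_of_injective hψ
  have hsum := LinearMap.finrank_range_add_finrank_ker L
  omega

end ShghC
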