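import Pool.Agent.ShghC.GlueN
import Pool.Agent.ShghC.XRow

/-!
# ShghC, GlueR: the gluing along `Y = X ^ a` without a big point

`h_d (A + B) ≤ h (St n τ δ x; B)`, `x = h_(d - τ a) (A)`, if `h_(d - (τ + 1) a) (A) = 0` and
`h_(d - k a) (A) - h_(d - (k + 1) a) (A) ≤ δ + 1 - n k` for `k < τ`.
-/

namespace ShghC

open MvPolynomial ShghJ

universe u v

/-- The gluing over a field with a derivation, general region. -/
theorem glue_KR (hCol : S_Col.{u}) (hRZ : S_RowZ.{u}) {K : Type u} [Field K]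
    (η : K) (s r d θ a : ℕ) (μ : Fin s → ℕ)
    (p : Fin s → Fin 2 → K) (ν : Fin r → ℕ) (x : Fin r → Fin 2 → K)
    (N' : Finset (Fin 2 →₀ ℕ))
    (hN' : ∀ e ∈ Lx ((LN (Trap d θ) μ p).map (Psi η a).toLinearMap), e ∈ N')
    (H : MvPolynomial (Fin 2) (Polynomial K)) (hH : H ≠ 0)
    (hN : ∀ e, H.coeff e ≠ 0 → e ∈ Trap d θ)
    (hA : ∀ i, ∀ e : Fin 2 →₀ ℕ, e.degree < μ i →
      (ShghE.tfShift (Polynomial.C (p i 0)) (Polynomial.C (p i 1)) H).coeff e = 0)
    (hB : ∀ j, ∀ e : Fin 2 →₀ ℕ, e.degree < ν j →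
      (ShghE.tfShift (Polynomial.C η + Polynomial.X * Polynomial.C (x j 0))
        ((Polynomial.C η + Polynomial.X * Polynomial.C (x j 0)) ^ a +
          Polynomial.X ^ (d + a * θ + 1) * Polynomial.C (x j 1)) H).coeff e = 0) :
    ∃ G ∈ LN N' ν x, G ≠ 0 := by
  have hV : ∀ k, cfk k H ∈ LN (Trap d θ) μ p := by
    intro k
    refine mem_LN.2 ⟨fun e he => hN e fun h => he ?_, fun i => ?_⟩
    · rw [coeff_cfk, h, Polynomial.coeff_zero]
    · refine (ShghE.tf_mem_iff _ _ _ _).2 fun e he => ?_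
      rw [cfk_shift, hA i e he, Polynomial.coeff_zero]
  obtain ⟨G, hG0, hG1, hG2⟩ := hCol K ((LN (Trap d θ) μ p).map (Psi η a).toLinearMap)
    (d + a * θ) r ν x (Psi (Polynomial.C η) a H)
    (fun h => hH (by rw [← Phi_Psi (Polynomial.C η) a H, h, map_zero]))
    (fun k => by
      rw [cfk_Psi]
      exact Submodule.mem_map_of_mem (hV k))
    (by
      rintro _ ⟨g, hg, rfl⟩ e he
      exact hRZ.2 K η a d θ g (fun e he => (mem_LN.1 hg).1 e he) e he)
    (fun j => Psi_mult _ _ _ _ _ _ (hB j))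
  exact ⟨G, mem_LN.2 ⟨fun e he => hN' e (hG1 e he), hG2⟩, hG0⟩

/-- All lowest exponents lie in `N'`, in the presence of a suitable derivation. -/
def Reg (K : Type u) [Field K] (η : K) (s d θ a : ℕ) (μ : Fin s → ℕ) (p : Fin s → Fin 2 → K)
    (N' : Finset (Fin 2 →₀ ℕ)) : Prop :=
  ∀ D : Derivation ℤ K K, D η = 1 → (∀ i c, D (p i c) = 0) → (∀ i, p i 1 ≠ p i 0 ^ a) →
    ∀ e ∈ Lx ((LN (Trap d θ) μ p).map (Psi η a).toLinearMap), e ∈ N'

section

variable (F : Type u) [Field F]

theorem glueRN (h1 : S_NSemi.{u, u, u}) (h2 : S_NInv.{u, u}) (h4 : S_Col.{u})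
    (h6 : S_RowZ.{u}) (h7 : S_NClo.{u}) [CharZero F] (d θ a : ℕ) (A B : Multiset ℕ)
    (N' : Finset (Fin 2 →₀ ℕ))
    (hN' : Reg (UF F) (up F 0 0) A.toList.length d θ a (fun i => A.toList.get i)
      (fun i => up F ((i : ℕ) + 1)) N')
    (hAB : 1 ≤ hN F (Trap d θ) (A + B)) : 1 ≤ hN F N' B := by
  classical
  have hchar : CharZero (UF F) := charZero_of_injective_algebraMap (algebraMap F (UF F)).injective
  set s := A.toList.length with hs
  set r := B.toList.length with hr
  set μ : Fin s → ℕ := fun i => A.toList.get i with hμ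
  set ν : Fin r → ℕ := fun i => B.toList.get i with hν
  -- the derivations
  choose D₀ hD₀ using fun i c => tDer F i c
  choose D hD' using fun i c => geo_mkDer (UF F) (fun x => D₀ i c x)
    (fun a b => map_add (D₀ i c) a b) (fun a b => (D₀ i c).leibniz a b)
  have hD : ∀ (i : ℕ) (c : Fin 2) (i' : ℕ) (c' : Fin 2),
      D i c (up F i' c') = if i' = i ∧ c' = c then 1 else 0 := by
    intro i c i' c'
    rw [hD', hD₀]
  -- a nonzero polynomial with the special points
  have hμν : (Finset.univ.val.map (Fin.append μ ν : Fin (s + r) → ℕ)) = A + B := by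
    rw [Fin.univ_val_map, List.ofFn_fin_append, ← Multiset.coe_add, hμ, hν, List.ofFn_get,
      List.ofFn_get, Multiset.coe_toList, Multiset.coe_toList]
  have e1 := h2 F (UF F) (Trap d θ) (s + r) (Fin.append μ ν) (fun i => up F i)
    (geo_algInd F (fun i : Fin (s + r) => (i : ℕ)) Fin.val_injective)
  rw [hμν] at e1
  have e2 := h1 F (UF F) (FractionRing (Polynomial (UF F))) (Trap d θ) (s + r) (Fin.append μ ν)
    (fun i => up F i) (geo_algInd F (fun i : Fin (s + r) => (i : ℕ)) Fin.val_injective)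
    (fun i c => algebraMap (Polynomial (UF F)) (FractionRing (Polynomial (UF F)))
      (glP F a (d + a * θ + 1) s r i c))
  rw [e1] at e2
  obtain ⟨g, hgm, hg⟩ := coll_exists _ (hAB.trans e2)
  have hgm := mem_LN.1 hgm
  obtain ⟨H, hH0, hHe, hH⟩ := clearS (glP F a (d + a * θ + 1) s r) _ g hg hgm.2
  have hPA : ∀ i : Fin s, glP F a (d + a * θ + 1) s r (Fin.castAdd r i) =
      fun c => Polynomial.C (up F ((i : ℕ) + 1) c) := by
    intro i
    unfold glP
    rw [Fin.append_left]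
  have hPB : ∀ j : Fin r, glP F a (d + a * θ + 1) s r (Fin.natAdd s j) =
      ![Polynomial.C (up F 0 0) + Polynomial.X * Polynomial.C (up F (s + 1 + j) 0),
      (Polynomial.C (up F 0 0) + Polynomial.X * Polynomial.C (up F (s + 1 + j) 0)) ^ a +
        Polynomial.X ^ (d + a * θ + 1) * Polynomial.C (up F (s + 1 + j) 1)] := by
    intro j
    unfold glP
    rw [Fin.append_right]
  have hreg := hN' (D 0 0) (by rw [hD, if_pos ⟨rfl, rfl⟩])
    (fun i c => by
      rw [hD, if_neg]
      rintro ⟨h, -⟩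
      omega)
    (fun i h => by
      have h8 := hD ((i : ℕ) + 1) 1 ((i : ℕ) + 1) 1
      have h9 := hD ((i : ℕ) + 1) 1 ((i : ℕ) + 1) 0
      have h : up F ((i : ℕ) + 1) 1 = up F ((i : ℕ) + 1) 0 ^ a := h
      rw [if_neg (by rintro ⟨-, h⟩; exact absurd h (by decide))] at h9
      rw [if_pos ⟨rfl, rfl⟩, h, der_pow_zero _ _ _ h9] at h8
      exact zero_ne_one h8)
  obtain ⟨G, hG, hG0⟩ := glue_KR h4 h6 (up F 0 0) s r d θ a μ
    (fun i => up F ((i : ℕ) + 1)) ν (fun j => up F (s + 1 + j)) N' hreg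
    H hH0 (fun e he => hgm.1 e (hHe e he))
    (fun i e he => by
      have h8 := hH (Fin.castAdd r i) e (by rw [Fin.append_left]; exact he)
      rw [hPA] at h8
      exact h8)
    (fun j e he => by
      have h8 := hH (Fin.natAdd s j) e (by rw [Fin.append_right]; exact he)
      rw [hPB] at h8
      exact h8)
  have e3 := h2 F (UF F) N' r ν (fun j => up F (s + 1 + j))
    (geo_algInd F (fun j : Fin r => s + 1 + (j : ℕ)) (fun a b h => by
      apply Fin.ext
      simpa using h))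
  have e4 : (Finset.univ.val.map ν) = B := by
    rw [Fin.univ_val_map, hν, List.ofFn_get, Multiset.coe_toList]
  rw [e4] at e3
  rw [← e3]
  have hfin := h7.1 (UF F) N' r ν (fun j => up F (s + 1 + j))
  by_contra hlt
  have h9 := Submodule.finrank_eq_zero.1 (Nat.lt_one_iff.1 (not_le.1 hlt))
  rw [h9] at hG
  exact hG0 ((Submodule.mem_bot _).1 hG)

end

/-- A trapezoid which is a triangle. -/
theorem Trap_tri (d k a : ℕ) (ha : 1 ≤ a) : Trap (d - k * a) (d - k) =
    Trap (d - k * a) (d - k * a) := by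
  have hka : k ≤ k * a := Nat.le_mul_of_pos_right _ ha
  ext e
  rw [mem_Trap, mem_Trap]
  constructor
  · rintro ⟨h1, h2⟩
    exact ⟨h1, by omega⟩
  · rintro ⟨h1, h2⟩
    exact ⟨h1, by omega⟩

private theorem glue_rep' (h2 : S_NSimple.{u}) (F : Type u) [Field F] [CharZero F]
    (N : Finset (Fin 2 →₀ ℕ)) (S : Multiset ℕ) (k : ℕ) :
    hN F N (Multiset.replicate k 1 + S) = hN F N S - k := by
  induction k with
  | zero => simp
  | succ k ih =>
    rw [Multiset.replicate_succ, Multiset.cons_add, h2 F N, ih]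
    omega

/-- THE GLUING INEQUALITY WITHOUT A BIG POINT. -/
theorem tGlueR (h1 : S_NSemi.{u, u, u}) (h2 : S_NInv.{u, u}) (h3 : S_NCons.{u})
    (h4 : S_Col.{u}) (h5 : S_XSide.{u}) (h6 : S_RowZ.{u}) (h7 : S_NClo.{u})
    (h8 : S_RowDiv.{u}) (h9 : S_Seg.{u}) (h10 : S_Unit.{u}) (h11 : S_NSimple.{u})
    (F : Type u) [Field F] [CharZero F] (d a τ n δ : ℕ) (A B : Multiset ℕ) (ha : 1 ≤ a)
    (hτ : (τ + 1) * a ≤ d)
    (hX : hN F (Trap (d - (τ + 1) * a) (d - (τ + 1) * a)) A = 0)
    (hrow : ∀ k, k < τ → hN F (Trap (d - k * a) (d - k * a)) A ≤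
      hN F (Trap (d - (k + 1) * a) (d - (k + 1) * a)) A + (δ + 1 - n * k)) :
    hN F (Trap d d) (A + B) ≤
      hN F (St n τ δ (hN F (Trap (d - τ * a) (d - τ * a)) A)) B := by
  have hchar : CharZero (UF F) := charZero_of_injective_algebraMap (algebraMap F (UF F)).injective
  set N' := St n τ δ (hN F (Trap (d - τ * a) (d - τ * a)) A) with hNdef
  have key : ∀ B : Multiset ℕ, 1 ≤ hN F (Trap d d) (A + B) → 1 ≤ hN F N' B := by
    intro B hB
    refine glueRN F h1 h2 h4 h6 h7 d d a A B N' ?_ hB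
    intro D hD1 hD0 hne e he
    have hX' : Module.finrank (UF F) (LN (Trap (d - (τ + 1) * a) (d - (τ + 1)))
        (fun i : Fin A.toList.length => A.toList.get i) (fun i => up F ((i : ℕ) + 1))) = 0 := by
      rw [Trap_tri _ _ _ ha]
      rw [(h3 F _ A).1] at hX
      exact hX
    have h12 := h5 (UF F) D (up F 0 0) A.toList.length d d a τ
      (fun i : Fin A.toList.length => A.toList.get i) (fun i => up F ((i : ℕ) + 1))
      hD1 hD0 hne ha le_rfl hX' e he
    rw [Trap_tri _ _ _ ha, ← (h3 F _ A).1, mem_St] at h12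
    rw [hNdef, mem_St]
    rcases h12 with ⟨h13, -⟩ | h13
    · left
      refine ⟨h13, ?_⟩
      have hk : (e 1 + 1) * a ≤ d := (Nat.mul_le_mul_right a (by omega)).trans hτ
      have h14 := tXRow h8 h9 h10 h7 D (up F 0 0) A.toList.length d a (e 1)
        (fun i : Fin A.toList.length => A.toList.get i) (fun i => up F ((i : ℕ) + 1))
        hD1 hD0 hne ha hk e he rfl
      rw [← (h3 F _ A).1, ← (h3 F _ A).1] at h14
      have h15 := hrow (e 1) h13
      omega
    · exact Or.inr h13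
  by_contra hlt
  push Not at hlt
  have hz : 1 ≤ hN F (Trap d d) (A + (Multiset.replicate (hN F N' B) 1 + B)) := by
    have e : A + (Multiset.replicate (hN F N' B) 1 + B) =
        Multiset.replicate (hN F N' B) 1 + (A + B) := by
      rw [← add_assoc, ← add_assoc, add_comm A]
    rw [e, glue_rep' h11]
    omega
  have h12 := key (Multiset.replicate (hN F N' B) 1 + B) hz
  rw [glue_rep' h11] at h12
  omega

end ShghC
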