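import Pool.Agent.ShghC.Spec

/-!
# ShghC, LINE: restriction to the line through two points
-/

namespace ShghC

open MvPolynomial ShghJ

universe u

/-- The parametrization of the line `Y = b + c X`. -/
private noncomputable def lnPhi {K : Type*} [Field K] (b c : K) :
    MvPolynomial (Fin 2) K →ₐ[K] Polynomial K :=
  aeval ![Polynomial.X, Polynomial.C b + Polynomial.C c * Polynomial.X]

private theorem ln_dvd_sub {K : Type*} [Field K] (d : MvPolynomial (Fin 2) K)
    (v : Fin 2 → MvPolynomial (Fin 2) K) (hv : ∀ i, d ∣ X i - v i)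
    (f : MvPolynomial (Fin 2) K) : d ∣ f - aeval v f := by
  induction f using MvPolynomial.induction_on with
  | C a => simp
  | add p q hp hq =>
    rw [map_add]
    have e : p + q - (aeval v p + aeval v q) = (p - aeval v p) + (q - aeval v q) := by ring
    rw [e]
    exact dvd_add hp hq
  | mul_X p i hp =>
    rw [map_mul, aeval_X]
    have e : p * X i - aeval v p * v i = (p - aeval v p) * X i + aeval v p * (X i - v i) := by
      ring
    rw [e]
    exact dvd_add (Dvd.dvd.mul_right hp _) (Dvd.dvd.mul_left (hv i) _)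

private theorem ln_dvd {K : Type*} [Field K] (b c : K) (f : MvPolynomial (Fin 2) K)
    (h : lnPhi b c f = 0) : (X 1 - (C b + C c * X 0)) ∣ f := by
  have h1 := ln_dvd_sub (X 1 - (C b + C c * X 0)) ![X 0, C b + C c * X 0] (by
    intro i
    fin_cases i
    · simp
    · simp) f
  have h2 : aeval (![X 0, C b + C c * X 0] : Fin 2 → MvPolynomial (Fin 2) K) f =
      Polynomial.aeval (X 0 : MvPolynomial (Fin 2) K) (lnPhi b c f) := by
    have e : (aeval (![X 0, C b + C c * X 0] : Fin 2 → MvPolynomial (Fin 2) K)) =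
        (Polynomial.aeval (X 0 : MvPolynomial (Fin 2) K)).comp (lnPhi b c) := by
      apply MvPolynomial.algHom_ext
      intro i
      fin_cases i
      · simp [lnPhi]
      · simp [lnPhi, MvPolynomial.algebraMap_eq]
    rw [e]
    rfl
  rwa [h2, h, map_zero, sub_zero] at h1

private theorem ln_mult {K : Type*} [Field K] (b c x y : K) (hy : y = b + c * x) (m : ℕ)
    (f : MvPolynomial (Fin 2) K) (hf : f ∈ ShghT.pt x y ^ m) :
    (Polynomial.X - Polynomial.C x) ^ m ∣ lnPhi b c f := by
  have h1 := Ideal.mem_map_of_mem (lnPhi b c) hf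
  rw [Ideal.map_pow] at h1
  have h2 : Ideal.map (lnPhi b c) (ShghT.pt x y) ≤ Ideal.span {Polynomial.X - Polynomial.C x} := by
    rw [ShghT.pt, Ideal.map_span, Ideal.span_le]
    rintro q ⟨p, hp, rfl⟩
    rcases hp with rfl | hp
    · change lnPhi b c (X 0 - C x) ∈ Ideal.span {Polynomial.X - Polynomial.C x}
      rw [Ideal.mem_span_singleton]
      have e : lnPhi b c (X 0 - C x) = Polynomial.X - Polynomial.C x := by
        simp [lnPhi]
      rw [e]
    · rw [Set.mem_singleton_iff] at hp
      subst hp
      change lnPhi b c (X 1 - C y) ∈ Ideal.span {Polynomial.X - Polynomial.C x}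
      rw [Ideal.mem_span_singleton]
      have e : lnPhi b c (X 1 - C y) = Polynomial.C c * (Polynomial.X - Polynomial.C x) := by
        have e1 : lnPhi b c (X 1 - C y) =
            Polynomial.C b + Polynomial.C c * Polynomial.X - Polynomial.C y := by
          simp [lnPhi]
        rw [e1, hy, map_add, map_mul]
        ring
      rw [e]
      exact dvd_mul_left _ _
  have h3 := Ideal.pow_right_mono h2 m h1
  rwa [Ideal.span_singleton_pow, Ideal.mem_span_singleton] at h3

private theorem ln_coeff {K : Type*} [Field K] (c : K) (G : MvPolynomial (Fin 2) K) (i k : ℕ) :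
    ((X 1 - C c * X 0) * G).coeff (ex i (k + 1)) =
      G.coeff (ex i k) - c * (if i = 0 then 0 else G.coeff (ex (i - 1) (k + 1))) := by
  rw [sub_mul, coeff_sub, mul_assoc, coeff_C_mul]
  have e1 : ex i (k + 1) = Finsupp.single 1 1 + ex i k := by
    ext j
    fin_cases j
    · simp [ex]
    · simp [ex, add_comm]
  congr 1
  · rw [e1, coeff_X_mul]
  · congr 1
    split_ifs with h
    · rw [coeff_X_mul', if_neg]
      simp [ex, h]
    · obtain ⟨i', rfl⟩ : ∃ i', i = i' + 1 := ⟨i - 1, by omega⟩
      have e2 : ex (i' + 1) (k + 1) = Finsupp.single 0 1 + ex i' (k + 1) := by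
        ext j
        fin_cases j
        · simp [ex, add_comm]
        · simp [ex]
      rw [e2, coeff_X_mul, Nat.add_sub_cancel]

/-- Division by the line at a point of the line. -/
private theorem ln_quot {K : Type*} [Field K] (b c x y : K) (hy : y = b + c * x) (m : ℕ)
    (g : MvPolynomial (Fin 2) K)
    (h : (X 1 - (C b + C c * X 0)) * g ∈ ShghT.pt x y ^ m) : g ∈ ShghT.pt x y ^ (m - 1) := by
  rw [ShghT.pt, ShghE.tf_mem_iff] at h ⊢
  set G := ShghE.tfShift x y g with hG
  have e : ShghE.tfShift x y ((X 1 - (C b + C c * X 0)) * g) = (X 1 - C c * X 0) * G := by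
    have hCy : (C y : MvPolynomial (Fin 2) K) = C b + C c * C x := by
      rw [hy, map_add, map_mul]
    rw [map_mul, ← hG, map_sub, map_add, map_mul, ShghE.tfShift_X1, ShghE.tfShift_X0,
      ShghE.tfShift_C, ShghE.tfShift_C, hCy]
    ring
  rw [e] at h
  have key : ∀ i k, i + k < m - 1 → G.coeff (ex i k) = 0 := by
    intro i
    induction i with
    | zero =>
      intro k hk
      have h1 := h (ex 0 (k + 1)) (by rw [ex_deg]; omega)
      rw [ln_coeff, if_pos rfl, mul_zero, sub_zero] at h1
      exact h1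
    | succ i ih =>
      intro k hk
      have h1 := h (ex (i + 1) (k + 1)) (by rw [ex_deg]; omega)
      rw [ln_coeff, if_neg (Nat.succ_ne_zero i), Nat.add_sub_cancel, ih (k + 1) (by omega),
        mul_zero, sub_zero] at h1
      exact h1
  intro e' he'
  rw [← ex_eta e']
  apply key
  rw [deg_eq] at he'
  exact he'

/-- The inequality for arbitrary points. -/
private theorem ln_gen (h1 : S_Unit.{u}) (K : Type u) [Field K] (s j : ℕ) (b c : K)
    (μ μ' : Fin (s + 2) → ℕ) (P : Fin (s + 2) → Fin 2 → K) (hx : P 0 0 ≠ P 1 0)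
    (h0 : P 0 1 = b + c * P 0 0) (h1' : P 1 1 = b + c * P 1 0)
    (hi : ∀ i : Fin s, P i.succ.succ 1 ≠ b + c * P i.succ.succ 0) (hj : 1 ≤ j)
    (hμ0 : μ' 0 = μ 0 - 1) (hμ1 : μ' 1 = μ 1 - 1) (hμ : ∀ i : Fin s, μ' i.succ.succ = μ i.succ.succ) :
    Module.finrank K (ShghT.LS j μ P) ≤
      Module.finrank K (ShghT.LS (j - 1) μ' P) + (j + 1 - μ 0 - μ 1) := by
  set L : MvPolynomial (Fin 2) K := X 1 - (C b + C c * X 0) with hL
  have hLc : L.coeff (Finsupp.single 1 1) = 1 := by
    have e := ln_coeff c (1 : MvPolynomial (Fin 2) K) 0 0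
    rw [mul_one, if_pos rfl, mul_zero, sub_zero] at e
    have e1 : ex 0 (0 + 1) = Finsupp.single 1 1 := by simp [ex]
    have e2 : ex 0 0 = 0 := by simp [ex]
    rw [e1, e2] at e
    have e3 : L = (X 1 - C c * X 0) - C b := by rw [hL]; ring
    rw [e3, coeff_sub, e, coeff_C, if_neg, sub_zero]
    · simp
    · intro hh
      have := DFunLike.congr_fun hh 1
      simp at this
  have hL0 : L ≠ 0 := by
    intro hh
    rw [hh, coeff_zero] at hLc
    exact zero_ne_one hLc
  have hLd : 1 ≤ L.totalDegree := by
    have := le_totalDegree (p := L) (s := Finsupp.single 1 1) (by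
      rw [mem_support_iff, hLc]
      exact one_ne_zero)
    simpa using this
  set V := ShghT.LS j μ P with hV
  set V' := ShghT.LS (j - 1) μ' P with hV'
  let f : V →ₗ[K] Polynomial K := (lnPhi b c).toLinearMap.domRestrict V
  have hrk := LinearMap.finrank_range_add_finrank_ker f
  have hker : Module.finrank K (LinearMap.ker f) ≤ Module.finrank K V' := by
    rw [← Submodule.finrank_map_subtype_eq]
    refine le_trans (Submodule.finrank_mono (t := V'.map (LinearMap.mulLeft K L)) ?_)
      (Submodule.finrank_map_le _ _)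
    rintro g ⟨g', hg', rfl⟩
    have hg0 : lnPhi b c g'.1 = 0 := hg'
    obtain ⟨q, hq⟩ := ln_dvd b c g'.1 hg0
    have hgV := ShghT.mem_LS.mp g'.2
    refine ⟨q, ?_, ?_⟩
    · change q ∈ V'
      rw [hV', ShghT.mem_LS]
      constructor
      · by_cases hq0 : q = 0
        · rw [hq0, totalDegree_zero]
          exact Nat.zero_le _
        · have := totalDegree_mul_of_isDomain hL0 hq0
          rw [← hL] at hq
          rw [← hq] at this
          have := hgV.1
          omega
      · intro i
        have hi' := hgV.2 i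
        rw [hq] at hi'
        refine Fin.cases ?_ (fun i => Fin.cases ?_ (fun i => ?_) i) i (motive := fun i =>
          (X 1 - (C b + C c * X 0)) * q ∈ ShghT.pt (P i 0) (P i 1) ^ μ i →
          q ∈ ShghT.pt (P i 0) (P i 1) ^ μ' i) hi'
        · intro hh
          rw [hμ0]
          exact ln_quot b c _ _ h0 _ _ hh
        · intro hh
          have e : (Fin.succ 0 : Fin (s + 2)) = 1 := rfl
          rw [e] at hh ⊢
          rw [hμ1]
          exact ln_quot b c _ _ h1' _ _ hh
        · intro hh
          rw [hμ]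
          refine h1 K _ _ _ _ _ ?_ hh
          simp only [map_sub, map_add, map_mul, eval_X, eval_C, Matrix.cons_val_zero,
            Matrix.cons_val_one]
          exact sub_ne_zero.mpr (hi i)
    · exact hq.symm
  have hran : Module.finrank K (LinearMap.range f) ≤ j + 1 - μ 0 - μ 1 := by
    set D : Polynomial K := (Polynomial.X - Polynomial.C (P 0 0)) ^ μ 0 *
      (Polynomial.X - Polynomial.C (P 1 0)) ^ μ 1 with hD
    have hDm : D.Monic := ((Polynomial.monic_X_sub_C _).pow _).mul
      ((Polynomial.monic_X_sub_C _).pow _)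
    have hDd : D.natDegree = μ 0 + μ 1 := by
      rw [hD, Polynomial.Monic.natDegree_mul ((Polynomial.monic_X_sub_C _).pow _)
        ((Polynomial.monic_X_sub_C _).pow _), Polynomial.natDegree_pow, Polynomial.natDegree_pow,
        Polynomial.natDegree_X_sub_C, Polynomial.natDegree_X_sub_C, mul_one, mul_one]
    have hdeg : Module.finrank K (Polynomial.degreeLT K (j + 1 - μ 0 - μ 1)) =
        j + 1 - μ 0 - μ 1 := by
      rw [(Polynomial.degreeLTEquiv K _).finrank_eq, Module.finrank_fin_fun]
    have hfin : Module.Finite K (Polynomial.degreeLT K (j + 1 - μ 0 - μ 1)) :=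
      Module.Finite.equiv (Polynomial.degreeLTEquiv K _).symm
    refine le_trans (Submodule.finrank_mono
      (t := (Polynomial.degreeLT K (j + 1 - μ 0 - μ 1)).map (LinearMap.mulLeft K D)) ?_)
      (le_trans (Submodule.finrank_map_le _ _) hdeg.le)
    rintro q ⟨g, rfl⟩
    have hg := ShghT.mem_LS.mp g.2
    have d0 := ln_mult b c _ _ h0 _ _ (hg.2 0)
    have d1 := ln_mult b c _ _ h1' _ _ (hg.2 1)
    have hcop : IsCoprime ((Polynomial.X - Polynomial.C (P 0 0)) ^ μ 0)
        ((Polynomial.X - Polynomial.C (P 1 0)) ^ μ 1) :=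
      (Polynomial.isCoprime_X_sub_C_of_isUnit_sub (isUnit_iff_ne_zero.mpr
        (sub_ne_zero.mpr hx))).pow
    obtain ⟨r, hr⟩ := hcop.mul_dvd d0 d1
    rw [← hD] at hr
    have hdegf : (lnPhi b c g.1).natDegree ≤ j := by
      have := aeval_natDegree_le (n := 1) g.1 hg.1
        ![Polynomial.X, Polynomial.C b + Polynomial.C c * Polynomial.X] (by
          intro i
          fin_cases i
          · simp
          · change (Polynomial.C b + Polynomial.C c * Polynomial.X).natDegree ≤ 1
            rw [add_comm]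
            exact Polynomial.natDegree_linear_le)
      rwa [mul_one] at this
    refine ⟨r, ?_, hr.symm⟩
    change r ∈ Polynomial.degreeLT K (j + 1 - μ 0 - μ 1)
    rw [Polynomial.mem_degreeLT]
    by_cases hr0 : r = 0
    · rw [hr0, Polynomial.degree_zero]
      exact WithBot.bot_lt_coe _
    · have e := Polynomial.Monic.natDegree_mul' hDm hr0
      rw [← hr, hDd] at e
      rw [Polynomial.degree_eq_natDegree hr0]
      exact_mod_cast (show r.natDegree < j + 1 - μ 0 - μ 1 by omega)
  omega

private theorem ln_noncoll (F : Type u) [Field F] (i : ℕ) (hi : 2 ≤ i) :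
    (up F i 1 - up F 0 1) * (up F 1 0 - up F 0 0) ≠
      (up F 1 1 - up F 0 1) * (up F i 0 - up F 0 0) := by
  intro h
  unfold up at h
  rw [← map_sub, ← map_sub, ← map_sub, ← map_sub, ← map_mul, ← map_mul] at h
  have h1 := IsFractionRing.injective (MvPolynomial (ℕ × Fin 2) F) (UF F) h
  have h2 := congrArg (eval (fun p : ℕ × Fin 2 => if p = (i, 1) ∨ p = (1, 0) then (1 : F) else 0))
    h1
  have n2 : ¬ (i = 1) := by omega
  have n3 : ¬ (1 = i) := by omega
  have n4 : ¬ (0 = i) := by omega
  simp [n2, n3, n4] at h2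

theorem tLine (h1 : S_Unit.{u}) : S_Line.{u} := by
  intro F _ j m1 m2 R hj hm1 hm2
  set s := R.toList.length with hs
  let P : Fin (s + 2) → Fin 2 → UF F := fun i => up F i
  have key : ∀ (d a b : ℕ), Module.finrank (UF F) (ShghT.LS d
      (Fin.cons a (Fin.cons b fun i : Fin s => R.toList.get i) : Fin (s + 2) → ℕ) P) =
      hF F d (a ::ₘ b ::ₘ R) := by
    intro d a b
    rw [finrank_LS_eq_hF d _ P (geo_algInd F (fun i : Fin (s + 2) => (i : ℕ)) Fin.val_injective)]
    congr 1
    rw [Fin.univ_val_map, List.ofFn_cons, List.ofFn_cons, List.ofFn_get, ← Multiset.cons_coe,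
      ← Multiset.cons_coe, Multiset.coe_toList]
  rw [← key, ← key]
  have hx : up F 0 0 ≠ up F 1 0 := geo_up_ne F (by norm_num)
  have hx' : up F 1 0 - up F 0 0 ≠ 0 := sub_ne_zero.mpr hx.symm
  set c : UF F := (up F 1 1 - up F 0 1) / (up F 1 0 - up F 0 0) with hc
  set b : UF F := up F 0 1 - c * up F 0 0 with hb
  have hcx : c * (up F 1 0 - up F 0 0) = up F 1 1 - up F 0 1 := div_mul_cancel₀ _ hx'
  refine ln_gen h1 (UF F) s j b c _ _ P hx ?_ ?_ ?_ hj rfl rfl (fun i => rfl)
  · change up F 0 1 = b + c * up F 0 0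
    rw [hb]
    ring
  · change up F 1 1 = b + c * up F 1 0
    rw [hb]
    linear_combination -hcx
  · intro i hh
    have hh' : up F (i + 2) 1 = b + c * up F (i + 2) 0 := hh
    apply ln_noncoll F (i + 2) (by omega)
    rw [hh', hb]
    linear_combination (up F (i + 2) 0 - up F 0 0) * hcx

end ShghC
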