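import Pool.Agent.ShghC.Spec
import Pool.Agent.ShghL.Main1

/-!
# ShghC/Long: one big point, the closing argument
-/

namespace ShghC

open MvPolynomial ShghJ

universe u

/-- The number of monomials in the first `t` rows of a strip. -/
theorem long_rows (n δ : ℕ) : ∀ t : ℕ, n * (t - 1) ≤ δ + 1 →
    2 * (∑ k ∈ Finset.range t, (δ + 1 - n * k)) + n * (t * (t - 1)) = 2 * (t * (δ + 1)) := by
  intro t
  induction t with
  | zero => simp
  | succ t ih =>
    intro h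
    rw [Nat.add_sub_cancel] at h
    have h1 := ih (le_trans (Nat.mul_le_mul_left _ (Nat.sub_le _ _)) h)
    rw [Finset.sum_range_succ, Nat.add_sub_cancel]
    obtain ⟨r, hr⟩ : ∃ r, δ + 1 = n * t + r := Nat.exists_eq_add_of_le h
    rw [hr, Nat.add_sub_cancel_left]
    rw [hr] at h1
    rcases t with _ | t
    · simp at h1 ⊢
    · rw [Nat.add_sub_cancel] at h1
      nlinarith

/-- The numbers of monomials: a trapezoid is the union of a smaller one and a strip. -/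
theorem long_card (b κ' φ t : ℕ) (δ : ℕ) (hδ : δ = t * b + κ' + (b + 1) * (t + φ))
    (h : (2 * b + 1) * (t - 1) ≤ δ + 1) :
    T (κ' + φ + 1) + T (t * b + κ') + ∑ k ∈ Finset.range t, (δ + 1 - (2 * b + 1) * k) =
      T (t * b + κ' + (t + φ) + 1) + T κ' := by
  have h1 := long_rows (2 * b + 1) δ t h
  have h2 := two_T (κ' + φ + 1)
  have h3 := two_T (t * b + κ')
  have h4 := two_T (t * b + κ' + (t + φ) + 1)
  have h5 := two_T κ'
  generalize ∑ k ∈ Finset.range t, (δ + 1 - (2 * b + 1) * k) = s at *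
  subst hδ
  rcases t with _ | t
  · simp only [Nat.zero_mul, Nat.zero_add, Nat.mul_zero, Nat.add_zero] at *
    have : s = 0 := by omega
    subst this
    omega
  · rw [Nat.add_sub_cancel] at h1
    zify at *
    linarith

theorem long_St_zero (n τ δ : ℕ) (hτ : 1 ≤ τ) : St n τ δ 0 = Sf n (τ - 1) δ := by
  ext e
  rw [mem_St, mem_Sf]
  constructor
  · rintro (⟨h1, h2⟩ | ⟨_, h2⟩)
    · exact ⟨by omega, h2⟩
    · omega
  · rintro ⟨h1, h2⟩
    exact Or.inl ⟨by omega, h2⟩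

theorem tLong (h1 : S_Proj.{u}) (h2 : S_Glue.{u}) (h3 : S_Raise.{u}) (h4 : S_StA.{u})
    (h5 : S_StB.{u}) (h6 : S_StC.{u}) (h7 : S_StripWin) : S_Long.{u} := by
  intro F _ _ d κ M S hM hS hκ hκd
  have hchar : ∀ d' : ℕ, ∀ n : ℕ, 1 ≤ n → n ≤ d' → (n : F) ≠ 0 :=
    fun _ n hn _ => Nat.cast_ne_zero.2 (by omega)
  have HC : ∀ d', HFunC d' (hF F d') := fun d' => ShghL.hfunC_hF F d' (hchar d')
  have hlow := (HC d).toHFun.chi_le (κ ::ₘ S)
  by_cases hc1 : 16 * (M : ℤ) ^ 2 ≤ |(T (d + 1) : ℤ) - TT (κ ::ₘ S)|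
  · have h8 := winBase d (hF F d) (HC d) M {κ} S (by simpa using hκ) hS
      (by rw [Multiset.singleton_add]; exact hc1)
    rwa [Multiset.singleton_add] at h8
  by_cases hc2 : 2 * κ + 135 * M ^ 2 ≤ d
  · have h8 := ShghL.hF_large F d (hchar d) M {κ} S hM hS (by simpa using hc2)
    rwa [Multiset.singleton_add] at h8
  have hSF : ∀ n τ, StripFun n τ (fun e B => hN F (Sf n τ e) B) := fun n τ =>
    { empty := (h4 F n τ).1
      low := (h4 F n τ).2.1
      anti := (h4 F n τ).2.2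
      mono := (h5 F n τ).1
      rle := (h5 F n τ).2.1
      conv0 := (h5 F n τ).2.2.1
      conv := (h5 F n τ).2.2.2
      fib := fun e m B => h6 F n τ e m B }
  -- numbers
  have hM2 : M ≤ M ^ 2 := by nlinarith
  have hM3 : M ^ 2 ≤ M ^ 3 := by
    rw [pow_succ M 2]
    exact Nat.le_mul_of_pos_right _ hM
  have hκ20 : 20 * M + 1 ≤ κ := by
    by_contra hc
    have h8 : κ * d ≤ (20 * M) * (175 * M ^ 2) := Nat.mul_le_mul (by omega) (by omega)
    have h9 : (20 * M) * (175 * M ^ 2) = 3500 * M ^ 3 := by ring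
    omega
  have hd : 231 * M ≤ d := by
    by_contra hc
    have h8 : (2 * κ) * d ≤ (233 * M) * (231 * M) := Nat.mul_le_mul (by omega) (by omega)
    have h9 : (233 * M) * (231 * M) = 53823 * M ^ 2 := by ring
    have h10 : (2 * κ) * d = 2 * (κ * d) := by ring
    omega
  obtain ⟨w, hw⟩ : ∃ w, w = M ^ 2 := ⟨_, rfl⟩
  obtain ⟨τ, hτ⟩ : ∃ τ, τ = 20 * M := ⟨_, rfl⟩
  obtain ⟨b, hb⟩ : ∃ b, b = κ / (τ + 1) := ⟨_, rfl⟩
  obtain ⟨κ', hκ'⟩ : ∃ κ', κ' = κ % (τ + 1) := ⟨_, rfl⟩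
  have hκ'τ : κ' < τ + 1 := by rw [hκ']; exact Nat.mod_lt _ (by omega)
  have hdiv : κ = (τ + 1) * b + κ' := by rw [hb, hκ']; exact (Nat.div_add_mod _ _).symm
  have hb1 : 1 ≤ b := by
    rcases Nat.eq_zero_or_pos b with h | h
    · rw [h] at hdiv; omega
    · exact h
  obtain ⟨θ, hθ⟩ : ∃ θ, d = κ + θ := ⟨d - κ, by omega⟩
  obtain ⟨φ, hφ⟩ : ∃ φ, θ = 2 * τ + φ := ⟨θ - 2 * τ, by omega⟩
  have hθ114 : 114 * M ≤ θ := by omega
  have hτb : τ ≤ τ * b := Nat.le_mul_of_pos_right _ hb1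
  have hκb : κ = τ * b + (b + κ') := by rw [hdiv]; ring
  -- the capacity
  obtain ⟨c, hc⟩ : ∃ c, c = κ + τ + (b + 1) * φ := ⟨_, rfl⟩
  have hcw : 411 * w ≤ c := by
    have e1 : 16 * d ≤ 50 * φ := by omega
    have e2 : κ ≤ (b + 1) * (21 * M) := by
      have : (τ + 1) * b + κ' ≤ (b + 1) * (τ + 1) := by nlinarith
      have h8 : (b + 1) * (τ + 1) ≤ (b + 1) * (21 * M) := Nat.mul_le_mul_left _ (by omega)
      omega
    have e3 : 27000 * M ^ 3 ≤ (b + 1) * (21 * M) * d := hκd.trans (Nat.mul_le_mul_right _ e2)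
    have e4 : M * (27000 * M ^ 2) ≤ M * (21 * ((b + 1) * d)) := by
      calc M * (27000 * M ^ 2) = 27000 * M ^ 3 := by ring
        _ ≤ (b + 1) * (21 * M) * d := e3
        _ = M * (21 * ((b + 1) * d)) := by ring
    have e5 := Nat.le_of_mul_le_mul_left e4 hM
    have e6 : (b + 1) * (16 * d) ≤ (b + 1) * (50 * φ) := Nat.mul_le_mul_left _ e1
    have e7 : (b + 1) * (16 * d) = 16 * ((b + 1) * d) := by ring
    have e8 : (b + 1) * (50 * φ) = 50 * ((b + 1) * φ) := by ring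
    omega
  -- the number of monomials
  obtain ⟨δ, hδ⟩ : ∃ δ, δ = κ + (b + 1) * θ := ⟨_, rfl⟩
  have hδc : δ = (2 * b + 1) * τ + c := by
    rw [hδ, hc, hφ]; ring
  have hR1 := long_card b (b + κ') (τ + φ) τ δ (by
    rw [hδ, hφ, hκb]; ring) (by
      have : (2 * b + 1) * (τ - 1) ≤ (2 * b + 1) * τ := Nat.mul_le_mul_left _ (Nat.sub_le _ _)
      omega)
  have hR2 := long_card b κ' (τ + φ - 1) (τ + 1) δ (by
    have : τ + 1 + (τ + φ - 1) = θ := by omega
    rw [this, hδ, ← hdiv]) (by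
      rw [Nat.add_sub_cancel]
      omega)
  rw [show τ * b + (b + κ') = κ from hκb.symm] at hR1
  rw [← hdiv] at hR2
  rw [show κ + (τ + (τ + φ)) + 1 = d + 1 by omega] at hR1
  rw [show κ + (τ + 1 + (τ + φ - 1)) + 1 = d + 1 by omega] at hR2
  have hRR : ∑ k ∈ Finset.range (τ + 1), (δ + 1 - (2 * b + 1) * k) =
      ∑ k ∈ Finset.range τ, (δ + 1 - (2 * b + 1) * k) + (c + 1) := by
    rw [Finset.sum_range_succ, hδc]
    congr 1
    omega
  -- window on the right side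
  have hstr1 : 20 * M ≤ τ + 1 := by omega
  have hstr2 : 20 * M ≤ τ - 1 + 1 := by omega
  have hθM : (b + 1) * (108 * M) ≤ (b + 1) * θ := Nat.mul_le_mul_left _ (by omega)
  have hstr3 : 2 * ((2 * b + 1) * τ) + 14 * ((2 * b + 1) + 1) * M ≤ δ := by
    have e1 : 2 * ((2 * b + 1) * τ) + 14 * ((2 * b + 1) + 1) * M ≤ (b + 1) * (108 * M) := by
      rw [hτ]
      nlinarith
    omega
  have hstr4 : 2 * ((2 * b + 1) * (τ - 1)) + 14 * ((2 * b + 1) + 1) * M ≤ δ := by
    have : (2 * b + 1) * (τ - 1) ≤ (2 * b + 1) * τ := Nat.mul_le_mul_left _ (Nat.sub_le _ _)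
    omega
  -- the part
  have hTX : T (b + κ') + T (τ + φ + 1) ≤ T (b + κ' + (τ + φ) + 1) := by
    have := ShghL.T_add_le (b + κ') (τ + φ + 1)
    rw [show b + κ' + (τ + φ + 1) = b + κ' + (τ + φ) + 1 by ring] at this
    exact this
  obtain ⟨X, hX⟩ : ∃ X, T (b + κ' + (τ + φ) + 1) = X + T (b + κ') :=
    ⟨T (b + κ' + (τ + φ) + 1) - T (b + κ'), by omega⟩
  have hX175 : 175 * w ≤ X := by
    have e1 : T (τ + φ + 1) ≤ X := by omega
    have e2 := two_T (τ + φ + 1)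
    have e3 : (94 * M) * (94 * M) ≤ (τ + φ + 1) * (τ + φ + 1 + 1) :=
      Nat.mul_le_mul (by omega) (by omega)
    have e4 : (94 * M) * (94 * M) = 8836 * M ^ 2 := by ring
    omega
  have hTX' : T κ' ≤ T (κ' + (τ + φ - 1) + 1) := ShghL.T_mono (by omega)
  obtain ⟨X', hX'⟩ : ∃ X', T (κ' + (τ + φ - 1) + 1) = X' + T κ' :=
    ⟨T (κ' + (τ + φ - 1) + 1) - T κ', by omega⟩
  rw [hX] at hR1
  rw [hX', hRR] at hR2
  have hTTκ := TT_cons κ S
  have hwM : (w : ℤ) = (M : ℤ) ^ 2 := by rw [hw]; push_cast; rfl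
  rw [← hwM, not_le, abs_lt] at hc1
  generalize hRdef : ∑ k ∈ Finset.range τ, (δ + 1 - (2 * b + 1) * k) = R at *
  obtain ⟨B, A, hAB, hA1, hA2⟩ := ShghL.exists_part w (X - 174 * w) S
    (fun m hm => by rw [hw]; exact (ShghL.T_le_sq m).trans (Nat.pow_le_pow_left (hS m hm) 2))
    (by zify at *; omega)
  have hSA : ∀ m ∈ A, m ≤ M := fun m hm => hS m (by rw [hAB]; exact Multiset.mem_add.2 (Or.inr hm))
  have hSB : ∀ m ∈ B, m ≤ M := fun m hm => hS m (by rw [hAB]; exact Multiset.mem_add.2 (Or.inl hm))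
  have hTTS : TT S = TT B + TT A := by rw [hAB, TT_add]
  obtain ⟨x, hx⟩ : ∃ x, X = TT A + x := ⟨X - TT A, by omega⟩
  -- (ii)
  have hii : hN F (Trap (d - τ * (b + 1)) (θ - τ)) A = x := by
    have e1 : d - τ * (b + 1) = b + κ' + (τ + φ) := by
      have : d = τ * (b + 1) + (b + κ' + (τ + φ)) := by
        rw [hθ, hφ, hκb]; ring
      omega
    have e2 : θ - τ = τ + φ := by omega
    rw [e1, e2, h1 F _ _ A (by omega)]
    rw [show b + κ' + (τ + φ) - (τ + φ) = b + κ' by omega]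
    have h8 := winBase _ (hF F (b + κ' + (τ + φ))) (HC _) M {b + κ'} A (by
      rw [Multiset.sum_singleton]; omega) hSA (by
      rw [← hwM, Multiset.singleton_add, TT_cons]
      refine le_abs.2 (Or.inl ?_)
      zify at *
      omega)
    rw [Multiset.singleton_add, TT_cons] at h8
    omega
  -- (i)
  have hi : hN F (Trap (d - (τ + 1) * (b + 1)) (θ - (τ + 1))) A = 0 := by
    have e1 : d - (τ + 1) * (b + 1) = κ' + (τ + φ - 1) := by
      have : d = (τ + 1) * (b + 1) + (κ' + (τ + φ - 1)) := by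
        have e3 : (τ + 1) * (b + 1) = (τ + 1) * b + (τ + 1) := by ring
        omega
      omega
    have e2 : θ - (τ + 1) = τ + φ - 1 := by omega
    rw [e1, e2, h1 F _ _ A (by omega)]
    rw [show κ' + (τ + φ - 1) - (τ + φ - 1) = κ' by omega]
    have h8 := winBase _ (hF F (κ' + (τ + φ - 1))) (HC _) M {κ'} A (by
      rw [Multiset.sum_singleton]; omega) hSA (by
      rw [← hwM, Multiset.singleton_add, TT_cons]
      refine le_abs.2 (Or.inr ?_)
      zify at *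
      omega)
    rw [Multiset.singleton_add, TT_cons] at h8
    omega
  -- gluing
  have hglue := h2 F d θ (b + 1) τ A B (by omega) (by omega) hi
  rw [hii, show 2 * (b + 1) - 1 = 2 * b + 1 by omega, show d - θ = κ by omega, ← hδ,
    h1 F d θ (A + B) (by omega), show d - θ = κ by omega, add_comm A B, ← hAB] at hglue
  -- the strip
  have hs2 := (h7 _ τ _ (hSF (2 * b + 1) τ) M δ B hM hstr1 hSB hstr3).2
  have hs1 := (h7 _ (τ - 1) _ (hSF (2 * b + 1) (τ - 1)) M δ B hM hstr2 hSB hstr4).1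
  rw [show τ - 1 + 1 = τ by omega, hRdef] at hs1
  rw [hRR] at hs2
  have hm1 : M * (τ + 12 * M + 2) ≤ 34 * w := by
    rw [hτ, hw]; nlinarith
  have hm2 : 5 * M * (τ - 1 + 2) + 48 * M ^ 2 ≤ 153 * w := by
    rw [show τ - 1 + 2 = 20 * M + 1 by omega, hw]; nlinarith
  have hz : hN F (Sf (2 * b + 1) (τ - 1) δ) B = 0 := by
    by_contra hne
    have h8 := hs1 (Nat.one_le_iff_ne_zero.2 hne)
    zify at *
    omega
  have hy : hN F (Sf (2 * b + 1) τ δ) B + TT B = R + (c + 1) := hs2 (by zify at *; omega)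
  rcases h3 F (2 * b + 1) τ δ x B (by omega) (by omega) with h8 | h8
  · rw [long_St_zero _ _ _ (by omega), hz] at h8
    omega
  · rw [show δ - (2 * b + 1) * τ + 1 = c + 1 by omega] at h8
    omega

end ShghC
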