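import Pool.Agent.ShghC.Long
import Pool.Agent.ShghC.GlueR
import Pool.Agent.ShghJ.CombD5
import Pool.Agent.ShghJ.GeoD

/-!
# ShghC/Long2: all multiplicities, `d (d - 2 ΣK) ≥ 28200 M³`
-/

namespace ShghC

open MvPolynomial ShghJ

universe u

/-- The gluing inequality without a big point, for `hF`. -/
def S_GlueRL : Prop := ∀ (F : Type u) [Field F] [CharZero F] (d a τ n δ : ℕ) (A B : Multiset ℕ),
  1 ≤ a → (τ + 1) * a ≤ d → hF F (d - (τ + 1) * a) A = 0 →
  (∀ k, k < τ → hF F (d - k * a) A ≤ hF F (d - (k + 1) * a) A + (δ + 1 - n * k)) →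
  hF F d (A + B) ≤ hN F (St n τ δ (hF F (d - τ * a) A)) B

theorem hN_tri (h0 : S_Proj.{u}) (F : Type u) [Field F] [CharZero F] (j : ℕ) (A : Multiset ℕ) :
    hN F (Trap j j) A = hF F j A := by
  rw [h0 F j j A le_rfl, Nat.sub_self]
  exact (hfun_hF F j fun n hn _ => Nat.cast_ne_zero.2 (by omega)).zero A

theorem tGlueR' (h0 : S_Proj.{u}) (h1 : S_NSemi.{u, u, u}) (h2 : S_NInv.{u, u})
    (h3 : S_NCons.{u}) (h4 : S_Col.{u}) (h5 : S_XSide.{u}) (h6 : S_RowZ.{u}) (h7 : S_NClo.{u})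
    (h8 : S_RowDiv.{u}) (h9 : S_Seg.{u}) (h10 : S_Unit.{u}) (h11 : S_NSimple.{u}) :
    S_GlueRL.{u} := by
  intro F _ _ d a τ n δ A B ha hτ hX hrow
  have h := tGlueR h1 h2 h3 h4 h5 h6 h7 h8 h9 h10 h11 F d a τ n δ A B ha hτ
    (by rw [hN_tri h0]; exact hX)
    (by
      intro k hk
      rw [hN_tri h0, hN_tri h0]
      exact hrow k hk)
  rw [hN_tri h0, hN_tri h0] at h
  exact h

/-- The length of a row. -/
theorem long2_row (d a δ j : ℕ) (hj : a ≤ j + 1) (hd : j ≤ d)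
    (hδ : 2 * (δ + 1) + a * a = a * (2 * d + 3)) (k : ℕ) (hk : d = k * a + j) :
    T (j + 1) = T (j + 1 - a) + (δ + 1 - a * a * k) ∧ a * a * k ≤ δ + 1 := by
  obtain ⟨i, hi⟩ := Nat.exists_eq_add_of_le hj
  have h1 := two_T (j + 1)
  have h2 := two_T (j + 1 - a)
  rw [hi] at h1
  rw [hi, Nat.add_sub_cancel_left] at h2 ⊢
  have h3 : 2 * (a * a * k) + a * (2 * i + a + 1) = 2 * (δ + 1) := by
    have hj' : j = a + i - 1 := by omega
    have e : 2 * (δ + 1) + a * a = a * (2 * (k * a + j) + 3) := by rw [← hk]; exact hδ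
    zify at *
    have hj2 : (j : ℤ) = a + i - 1 := by omega
    rw [hj2] at e
    linarith
  have h4 : a * a * k ≤ δ + 1 := by nlinarith
  refine ⟨?_, h4⟩
  obtain ⟨r, hr⟩ := Nat.exists_eq_add_of_le h4
  rw [hr, Nat.add_sub_cancel_left]
  zify at *
  nlinarith

theorem tLong2 (h0 : S_GlueRL.{u}) (h3 : S_Raise.{u}) (h4 : S_StA.{u})
    (h5 : S_StB.{u}) (h6 : S_StC.{u}) (h7 : S_StripWin) (F : Type u) [Field F] [CharZero F]
    (d M : ℕ) (K S : Multiset ℕ) (hM : 1 ≤ M) (hS : ∀ x ∈ S, x ≤ M)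
    (hΔ1 : 2 * K.sum + 120 * M ≤ d) (hΔ2 : 28200 * M ^ 3 ≤ d * (d - 2 * K.sum)) :
    hF F d (K + S) = T (d + 1) - TT (K + S) := by
  have hchar : ∀ d' : ℕ, ∀ n : ℕ, 1 ≤ n → n ≤ d' → (n : F) ≠ 0 :=
    fun _ n hn _ => Nat.cast_ne_zero.2 (by omega)
  have HC : ∀ d', HFunD d' (hF F d') := fun d' => hfunD_hF F d' (hchar d')
  have hlow := (HC d).toHFun.chi_le (K + S)
  obtain ⟨w, hw⟩ : ∃ w, w = M ^ 2 := ⟨_, rfl⟩
  have hwin := winBaseD d (hF F d) (HC d) M K S (by omega) hS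
  rw [← hw] at hwin
  have hwM : (w : ℤ) = (M : ℤ) ^ 2 := by rw [hw]; push_cast; rfl
  rw [← hwM] at hwin
  by_cases hc1 : 23 * (w : ℤ) ≤ 2 * ((T (d + 1) : ℤ) - TT (K + S))
  · have h8 := hwin.2 hc1
    omega
  by_cases hc2 : hF F d (K + S) = 0
  · omega
  have hc3 := hwin.1 (Nat.one_le_iff_ne_zero.2 hc2)
  by_cases hc4 : 6 * w + T (d + 1) < TT (K + S)
  · omega
  have hSF : ∀ n τ, StripFun n τ (fun e B => hN F (Sf n τ e) B) := fun n τ =>
    { empty := (h4 F n τ).1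
      low := (h4 F n τ).2.1
      anti := (h4 F n τ).2.2
      mono := (h5 F n τ).1
      rle := (h5 F n τ).2.1
      conv0 := (h5 F n τ).2.2.1
      conv := (h5 F n τ).2.2.2
      fib := fun e m B => h6 F n τ e m B }
  -- numbers
  have hM2 : M ≤ M ^ 2 := by nlinarith
  rw [← hw] at hM2
  have hw1 : 1 ≤ w := hM.trans hM2
  obtain ⟨σ, hσ⟩ : ∃ σ, σ = K.sum := ⟨_, rfl⟩
  rw [← hσ] at hΔ1 hΔ2
  obtain ⟨Δ, hΔ⟩ : ∃ Δ, d = 2 * σ + Δ := ⟨d - 2 * σ, by omega⟩
  rw [show d - 2 * σ = Δ by omega] at hΔ2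
  have hΔ3 : 120 * M ≤ Δ := by omega
  obtain ⟨a, ha⟩ : ∃ a, a = Δ / (60 * M) := ⟨_, rfl⟩
  have ha1 : (60 * M) * a ≤ Δ := by rw [ha]; exact Nat.mul_div_le _ _
  have ha2 : Δ < (60 * M) * (a + 1) := by
    rw [ha, mul_comm (60 * M)]
    exact Nat.lt_mul_of_div_lt (Nat.lt_succ_self _) (by omega)
  have ha3 : 2 ≤ a := by
    rw [ha]
    exact (Nat.le_div_iff_mul_le (by omega)).2 (by omega)
  have hMa : M ≤ M * a := Nat.le_mul_of_pos_right _ (by omega)
  have ha4 : Δ ≤ (90 * M) * a := by nlinarith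
  have hadw : 28200 * w ≤ 90 * (a * d) := by
    have e1 : d * Δ ≤ d * ((90 * M) * a) := Nat.mul_le_mul_left _ ha4
    have e2 : M * (28200 * M ^ 2) ≤ M * (90 * (a * d)) := by
      calc M * (28200 * M ^ 2) = 28200 * M ^ 3 := by ring
        _ ≤ d * Δ := hΔ2
        _ ≤ d * ((90 * M) * a) := e1
        _ = M * (90 * (a * d)) := by ring
    have e3 := Nat.le_of_mul_le_mul_left e2 hM
    rw [hw]
    exact e3
  have haM : 60 * (a * a * M) ≤ a * d := by
    have e1 : a * ((60 * M) * a) ≤ a * d := Nat.mul_le_mul_left _ (by omega)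
    calc 60 * (a * a * M) = a * ((60 * M) * a) := by ring
      _ ≤ a * d := e1
  have haa : a * a ≤ a * a * M := Nat.le_mul_of_pos_right _ hM
  have haa4 : 4 * M ≤ a * a * M := Nat.mul_le_mul_right _ (by nlinarith)
  obtain ⟨τ, hτ⟩ : ∃ τ, τ = 20 * M := ⟨_, rfl⟩
  have hτa : (τ + 1) * a ≤ Δ := by
    have e1 : (τ + 1) * a ≤ (60 * M) * a := Nat.mul_le_mul_right _ (by omega)
    omega
  have hτa' : (τ + 1) * a = τ * a + a := by ring
  have hτa3 : 3 * (τ * a) ≤ Δ := by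
    have : 3 * (τ * a) = (60 * M) * a := by rw [hτ]; ring
    omega
  have had : a ≤ d := by omega
  -- the length of the first row
  obtain ⟨δ, hδ⟩ : ∃ δ, 2 * (δ + 1) + a * a = a * (2 * d + 3) := by
    have h8 := two_T (d + 1)
    have h9 := two_T (d + 1 - a)
    have h10 : T (d + 1 - a) + 1 ≤ T (d + 1) := by
      have e1 : T (d + 1 - a) ≤ T d := ShghL.T_mono (by omega)
      have e2 := T_succ d
      omega
    obtain ⟨i, hi⟩ := Nat.exists_eq_add_of_le (show a ≤ d + 1 by omega)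
    refine ⟨T (d + 1) - T (d + 1 - a) - 1, ?_⟩
    rw [show T (d + 1) - T (d + 1 - a) - 1 + 1 = T (d + 1) - T (d + 1 - a) by omega]
    rw [hi, Nat.add_sub_cancel_left] at h9
    rw [show d + 1 - a = i by omega] at h10 ⊢
    have hd : d = a + i - 1 := by omega
    zify [show T i ≤ T (d + 1) by omega] at *
    have hd' : (d : ℤ) = a + i - 1 := by omega
    rw [hd'] at h8 ⊢
    linarith
  have hδ1 : a * d + a * a ≤ δ + 1 + a * a + a * a := by nlinarith
  have hδ2 : 2 * (a * d) ≤ 2 * δ + a * a := by nlinarith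
  have hnτ : a * a * τ = 20 * (a * a * M) := by rw [hτ]; ring
  have hnτδ : a * a * τ ≤ δ := by omega
  obtain ⟨c, hc⟩ : ∃ c, δ = a * a * τ + c := Nat.exists_eq_add_of_le hnτδ
  have hcw : 206 * w ≤ c := by omega
  -- rows
  have hrow : ∀ k, k ≤ τ → T (d - k * a + 1) =
      T (d - (k + 1) * a + 1) + (δ + 1 - a * a * k) ∧ a * a * k ≤ δ + 1 := by
    intro k hk
    have e1 : (k + 1) * a ≤ (τ + 1) * a := Nat.mul_le_mul_right _ (by omega)
    have e2 : (k + 1) * a = k * a + a := by ring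
    obtain ⟨j, hj⟩ : ∃ j, d = k * a + j := ⟨d - k * a, by omega⟩
    have h8 := long2_row d a δ j (by omega) (by omega) hδ k hj
    rw [show d - k * a + 1 = j + 1 by omega, show d - (k + 1) * a + 1 = j + 1 - a by omega]
    exact h8
  have hsum : ∀ t, t ≤ τ + 1 → T (d + 1) = T (d - t * a + 1) +
      ∑ k ∈ Finset.range t, (δ + 1 - a * a * k) := by
    intro t
    induction t with
    | zero => simp
    | succ t ih =>
      intro ht
      rw [Finset.sum_range_succ, ih (by omega), (hrow t (by omega)).1]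
      omega
  have hsum1 := hsum τ (by omega)
  have hrowτ := (hrow τ le_rfl).1
  rw [hc, show a * a * τ + c + 1 - a * a * τ = c + 1 by omega] at hrowτ
  have hRR : ∑ k ∈ Finset.range (τ + 1), (δ + 1 - a * a * k) =
      ∑ k ∈ Finset.range τ, (δ + 1 - a * a * k) + (c + 1) := by
    rw [Finset.sum_range_succ]
    congr 1
    omega
  -- window on the right side
  have hstr3 : 2 * (a * a * τ) + 14 * (a * a + 1) * M ≤ δ := by
    have e1 : 14 * (a * a + 1) * M = 14 * (a * a * M) + 14 * M := by ring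
    omega
  have hstr4 : 2 * (a * a * (τ - 1)) + 14 * (a * a + 1) * M ≤ δ := by
    have : a * a * (τ - 1) ≤ a * a * τ := Nat.mul_le_mul_left _ (Nat.sub_le _ _)
    omega
  -- the part
  have hTK := ShghL.TT_le_T_sum K
  rw [← hσ] at hTK
  have hd2 : 28200 * w ≤ d * d := by
    have e1 : d * Δ ≤ d * d := Nat.mul_le_mul_left _ (by omega)
    have e2 : M ^ 2 ≤ M ^ 3 := by
      rw [pow_succ M 2]
      exact Nat.le_mul_of_pos_right _ hM
    omega
  have hX166 : 166 * w + TT K ≤ T (d - τ * a + 1) := by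
    obtain ⟨j, hj⟩ : ∃ j, d - τ * a + 1 = σ + j := ⟨d - τ * a + 1 - σ, by omega⟩
    have e1 := ShghL.T_add_le σ j
    have e2 := two_T j
    have e3 : d ≤ 2 * j := by omega
    have e4 : d * d ≤ (2 * j) * (2 * j) := Nat.mul_le_mul e3 e3
    have e5 : (2 * j) * (2 * j) = 4 * (j * j) := by ring
    have e6 : j * (j + 1) = j * j + j := by ring
    rw [hj]
    omega
  have hTTKS := TT_add K S
  generalize hRdef : ∑ k ∈ Finset.range τ, (δ + 1 - a * a * k) = R at *
  obtain ⟨X, hX⟩ : ∃ X, T (d - τ * a + 1) = X + TT K := ⟨T (d - τ * a + 1) - TT K, by omega⟩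
  obtain ⟨B, A, hAB, hA1, hA2⟩ := ShghL.exists_part w (X - 165 * w) S
    (fun m hm => by rw [hw]; exact (ShghL.T_le_sq m).trans (Nat.pow_le_pow_left (hS m hm) 2))
    (by zify at *; omega)
  have hSA : ∀ m ∈ A, m ≤ M := fun m hm => hS m (by rw [hAB]; exact Multiset.mem_add.2 (Or.inr hm))
  have hSB : ∀ m ∈ B, m ≤ M := fun m hm => hS m (by rw [hAB]; exact Multiset.mem_add.2 (Or.inl hm))
  have hTTS : TT S = TT B + TT A := by rw [hAB, TT_add]
  have hTTKA := TT_add K A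
  obtain ⟨x, hx⟩ : ∃ x, X = TT A + x := ⟨X - TT A, by omega⟩
  have hKS : K + S = (K + A) + B := by rw [hAB]; abel
  -- regularity on the left side
  have hreg : ∀ k, k ≤ τ → hF F (d - k * a) (K + A) + TT (K + A) = T (d - k * a + 1) := by
    intro k hk
    have e1 : k * a ≤ τ * a := Nat.mul_le_mul_right _ hk
    have e2 : T (d - τ * a + 1) ≤ T (d - k * a + 1) := ShghL.T_mono (by omega)
    have h8 := (winBaseD _ (hF F (d - k * a)) (HC _) M K A (by omega) hSA).2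
    rw [← hwM] at h8
    exact h8 (by zify at *; omega)
  have hii : hF F (d - τ * a) (K + A) = x := by
    have := hreg τ le_rfl
    omega
  have hi : hF F (d - (τ + 1) * a) (K + A) = 0 := by
    by_contra hne
    have h8 := (winBaseD _ (hF F (d - (τ + 1) * a)) (HC _) M K A (by omega) hSA).1
      (Nat.one_le_iff_ne_zero.2 hne)
    rw [← hw] at h8
    omega
  -- gluing
  have hglue := h0 F d a τ (a * a) δ (K + A) B (by omega) (by omega) hi (by
    intro k hk
    have e1 := hreg k hk.le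
    have e2 := (HC (d - (k + 1) * a)).toHFun.chi_le (K + A)
    have e3 := (hrow k hk.le).1
    omega)
  rw [hii, ← hKS] at hglue
  -- the strip
  have hs2 := (h7 _ τ _ (hSF (a * a) τ) M δ B hM (by omega) hSB hstr3).2
  have hs1 := (h7 _ (τ - 1) _ (hSF (a * a) (τ - 1)) M δ B hM (by omega) hSB hstr4).1
  rw [show τ - 1 + 1 = τ by omega, hRdef] at hs1
  rw [hRR] at hs2
  have hm1 : M * (τ + 12 * M + 2) ≤ 34 * w := by
    rw [hτ, hw]; nlinarith
  have hm2 : 5 * M * (τ - 1 + 2) + 48 * M ^ 2 ≤ 153 * w := by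
    rw [show τ - 1 + 2 = 20 * M + 1 by omega, hw]
    rw [hw] at hM2
    nlinarith
  have hz : hN F (Sf (a * a) (τ - 1) δ) B = 0 := by
    by_contra hne
    have h8 := hs1 (Nat.one_le_iff_ne_zero.2 hne)
    zify at *
    omega
  have hy : hN F (Sf (a * a) τ δ) B + TT B = R + (c + 1) := hs2 (by zify at *; omega)
  rcases h3 F (a * a) τ δ x B (by omega) (by omega) with h8 | h8
  · rw [long_St_zero _ _ _ (by omega), hz] at h8
    omega
  · rw [show δ - a * a * τ + 1 = c + 1 by omega] at h8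
    zify at *
    omega

end ShghC
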