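import Pool.Agent.ShghC.SpecG

/-!
# ShghC, SpecG2: the final forms (statements with proofs)
-/

namespace ShghC

open MvPolynomial ShghJ

universe u v w

/-- REDK: reduction to `-M < χ ≤ 0` with a base multiset `K`. PROOF. As `S_Red`; the chain starts
with `K`, `TT K ≤ T (d+1)` by `HFun.small`. -/
def S_RedK : Prop := ∀ (d M : ℕ) (h : Multiset ℕ → ℕ), HFun d h → 1 ≤ M → ∀ K : Multiset ℕ,
  K.sum ≤ d + 1 →
  (∀ S : Multiset ℕ, (∀ x ∈ S, x ≤ M) → T (d + 1) ≤ TT (K + S) → TT (K + S) < T (d + 1) + M →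
    h (K + S) = 0) →
  ∀ S : Multiset ℕ, (∀ x ∈ S, x ≤ M) → h (K + S) = T (d + 1) - TT (K + S)

/-- LONGK: the closing with a base multiset `K`. PROOF. As `S_LongG` with `winBaseD` (`6 M^2` and
`(23/2) M^2`, for `2 ΣK ≤ degree + 2`) on the `X` side: `L = d - 2 ΣK`, `τ = 3M + 1`,
`a = min (L / (τ+1)) (the integer nearest to d / (2τ))`, so `2 ΣK ≤ d - (τ+1) a`,
`c = a d - g - a^2 τ ≥` about `d L / (4τ)`; `p = ⌈23 M^2/2⌉`, `q = max (6 M^2) ((M-1)(13M+6)/2 + 1 +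
(M-1))`, `p + q + T M ≤ c + 1` (checked by computer for `d L ≥ 260 M^3`, `L ≥ 6M`, all `M`);
`x = T (d-τa+1) - TT (K + A) ∈ [p, p + T M)`, possible because
`T (d-τa+1) - TT K ≥ T (d-τa+1) - T (ΣK) ≥ p + T M`. -/
def S_LongK : Prop := ∀ (F : Type u) [Field F] [CharZero F] (d M : ℕ) (K S : Multiset ℕ), 1 ≤ M →
  (∀ x ∈ S, x ≤ M) → 2 * K.sum + 12 * M ≤ d → 288 * M ^ 3 ≤ d * (d - 2 * K.sum) →
  T (d + 1) ≤ TT (K + S) → TT (K + S) < T (d + 1) + M → hF F d (K + S) = 0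

/-- ALLK: PROOF. `S_RedK`, `S_LongK`, `hfun_hF`. -/
def S_AllK : Prop := ∀ (F : Type u) [Field F] [CharZero F] (d M : ℕ) (K S : Multiset ℕ), 1 ≤ M →
  (∀ x ∈ S, x ≤ M) → 2 * K.sum + 12 * M ≤ d → 288 * M ^ 3 ≤ d * (d - 2 * K.sum) →
  hF F d (K + S) = T (d + 1) - TT (K + S)

/-- SQ: every degree if `∑ m_i ^ 2 ≥ 144 M ^ 3`. PROOF. `144 M^3 ≤ d^2`: `S_All`. Otherwise
`2 TT S = ∑ m_i^2 + ∑ m_i`, `∑ m_i ≥ (∑ m_i^2) / M ≥ 144 M^2`, `2 T (d+1) = d^2 + 3d + 2`,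
`3 d ≤ 36 M^(3/2) ≤ 36 M^2`: so `2 TT S - 2 T (d+1) ≥ 144 M^2 - 36 M^2 - 2 > (41/10) M^2` and
`winD` (`W = 0`) gives `h = 0`. -/
def S_Sq : Prop := ∀ (F : Type u) [Field F] [CharZero F] (d M : ℕ) (S : Multiset ℕ), 1 ≤ M →
  (∀ x ∈ S, x ≤ M) → 144 * M ^ 3 ≤ (S.map fun x => x ^ 2).sum → hF F d S = T (d + 1) - TT S

/-- REPF: the largest multiplicity `M` occurs at least `30 M` times, every degree (in particular all
homogeneous systems `(d; m ^ s)` with `s ≥ 30 m`). PROOF. `χ = T (d+1) - TT S`. If `5 χ ≥ 18 M^2` or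
`60 (1 - χ) > 123 M^2`: `winD` (`W = 0`). If `144 M^3 ≤ d^2`: `S_All`. Otherwise `S_HomC` with `m = M`,
`p = max (⌈18 M^2/5⌉, χ + T M)`, `q = max (⌈41 M^2/20⌉, T M - χ)` (so `p + q + T M ≤ (133 M^2 + 20 M +
40)/20` in all cases) and the least `a` with `20 (a d - T (a-2) - a^2 M + 1) ≥ 133 M^2 + 20 M + 40`. It
exists: `(d+1)(d+2) ≥ 30 M (M^2 + M) - (41/10) M^2`, so `d^2/(4M) ≥ 7.5 M^2 + ..`, take the integer
nearest to `d/(2M)` (for `M ≥ 3`; `M = 1`: no bad steps, `HFun.bad_two_le`; `M = 2`: `18 ≤ d ≤ 33`,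
`interval_cases d`). Number of points: with `N' = M (a d - T (a-2) + 1) - a^2 T (M-1)` we need
`p + N' - χ ≤ count * T M`, `p - χ ≤ (113 M^2 + 20)/20`: from the minimality of `a`:
`a d ≤ 6.65 M^2 + M + 2 + d + (a-1)^2 M + ..`, `N' ≤ 6.65 M^3 + M d + a^2 M^2/2 + ..`, `M d ≤
d^2/24 + 6 M^2 ≤ 6 M^3 + 6 M^2`. (Checked by computer: `27 M` is enough for all `M ≤ 200`.) -/
def S_RepF : Prop := ∀ (F : Type u) [Field F] [CharZero F] (d M : ℕ) (S : Multiset ℕ), 1 ≤ M →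
  (∀ x ∈ S, x ≤ M) → 30 * M ≤ S.count M → hF F d S = T (d + 1) - TT S

end ShghC
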