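import Pool.Agent.ShghC.MainG
import Pool.Agent.ShghC.SpecG2
import Pool.Agent.ShghC.RedK
import Pool.Agent.ShghC.LongK
import Pool.Agent.ShghC.Sq
import Pool.Agent.ShghC.RepF

/-!
# ShghC/MainG2: the final forms
-/

namespace ShghC

open MvPolynomial ShghJ

universe u

theorem mSq : S_Sq.{u} := tSq mAll

theorem mRepF : S_RepF.{u} := tRepF mHomC mAll

theorem mLongK : S_LongK.{u} := tLongK mCloseR mStripG tWinG

theorem mAllK : S_AllK.{u} := by
  intro F _ _ d M K S hM hS h1 h2
  refine tRedK d M (hF F d) (hfun_hF F d fun n hn _ => Nat.cast_ne_zero.2 (by omega)) hM K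
    (by omega) ?_ S hS
  intro S' hS' h3 h4
  exact mLongK F d M K S' hM hS' h1 h2 h3 h4

end ShghC
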