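import Pool.Agent.ShghC.Spec
import Pool.Agent.ShghJ.Dc

/-!
# ShghC/NClo: finite dimension and closedness under derivations
-/

namespace ShghC

open MvPolynomial ShghJ

universe u v w

theorem tNClo : S_NClo.{u} := by
  refine ⟨?_, ?_⟩
  · intro K _ N s μ P
    let ψ : LN N μ P →ₗ[K] (N → K) :=
      { toFun := fun f e => (f : MvPolynomial (Fin 2) K).coeff e
        map_add' := fun f g => by
          ext e
          simp
        map_smul' := fun c f => by
          ext e
          simp }
    have hinj : Function.Injective ψ := by
      intro f g hfg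
      apply Subtype.ext
      ext e
      by_cases he : e ∈ N
      · exact congrFun hfg ⟨e, he⟩
      · have h1 : (f : MvPolynomial (Fin 2) K).coeff e = 0 := by
          by_contra h
          exact he ((mem_LN.1 f.2).1 e h)
        have h2 : (g : MvPolynomial (Fin 2) K).coeff e = 0 := by
          by_contra h
          exact he ((mem_LN.1 g.2).1 e h)
        rw [h1, h2]
    exact Module.Finite.of_injective ψ hinj
  · intro K _ D N s μ P hP f hf
    rw [mem_LN] at hf ⊢
    refine ⟨?_, fun i => ?_⟩
    · intro e he
      rw [coeff_Dc] at he
      refine hf.1 e ?_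
      intro h
      rw [h, map_zero] at he
      exact he rfl
    · have h1 := (ShghE.tf_mem_iff _ _ _ _).1 (hf.2 i)
      refine (ShghE.tf_mem_iff _ _ _ _).2 fun x hx => ?_
      rw [tDc K D _ _ f, hP i 0, hP i 1, C_0, zero_mul, zero_mul, sub_zero, sub_zero, coeff_Dc,
        h1 x hx, map_zero]

end ShghC
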