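import Pool.Agent.ShghC.Spec
import Pool.Agent.ShghJ.Geo

/-!
# ShghC/NCons: one more point
-/

namespace ShghC

open MvPolynomial ShghJ

universe u v w

private theorem ncons_LN {K : Type*} [Field K] {s : ℕ} (N : Finset (Fin 2 →₀ ℕ)) (j : ℕ)
    (μ : Fin s → ℕ) (P : Fin (s + 1) → Fin 2 → K) :
    LN N (Fin.cons j μ : Fin (s + 1) → ℕ) P = fil (LN N μ (fun i => P i.succ)) (P 0) j := by
  ext f
  constructor
  · intro h
    rw [mem_LN] at h
    refine ⟨mem_LN.2 ⟨h.1, fun i => ?_⟩, ?_⟩
    · have := h.2 i.succ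
      rwa [Fin.cons_succ] at this
    · have := h.2 0
      rwa [Fin.cons_zero] at this
  · rintro ⟨h1, h2⟩
    rw [mem_LN] at h1
    rw [mem_LN]
    refine ⟨h1.1, fun i => ?_⟩
    refine Fin.cases ?_ (fun i => ?_) i
    · rw [Fin.cons_zero]
      exact h2
    · rw [Fin.cons_succ]
      exact h1.2 i

theorem tNCons (h1 : S_NInv.{u, u}) : S_NCons.{u} := by
  intro F _ N S
  refine ⟨?_, fun j => ?_⟩
  · have h := h1 F (UF F) N S.toList.length (fun i => S.toList.get i) (fun i => up F (i + 1))
      (geo_algInd F (fun i : Fin S.toList.length => (i : ℕ) + 1) (fun a b h => by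
        apply Fin.ext
        simpa using h))
    rw [geo_toList] at h
    exact h.symm
  · have h := h1 F (UF F) N (S.toList.length + 1) (Fin.cons j (fun i => S.toList.get i))
      (fun i => up F i) (geo_algInd F (fun i : Fin (S.toList.length + 1) => (i : ℕ))
        Fin.val_injective)
    have e : (Finset.univ.val.map
        (Fin.cons j (fun i => S.toList.get i) : Fin (S.toList.length + 1) → ℕ)) = j ::ₘ S := by
      rw [Fin.univ_val_map, List.ofFn_succ]
      simp only [Fin.cons_zero, Fin.cons_succ]
      rw [List.ofFn_get, ← Multiset.cons_coe, Multiset.coe_toList]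
    rw [e, ncons_LN] at h
    exact h.symm

end ShghC
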