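import Pool.Agent.ShghC.Spec
import Pool.Agent.ShghJ.Dc
import Pool.Agent.ShghJ.Der
import Pool.Agent.ShghJ.Geo

/-!
# ShghC/NSimple: a simple generic point imposes one condition
-/

namespace ShghC

open MvPolynomial ShghJ

universe u v w

private theorem nsimple_zero {K : Type u} [Field K] [CharZero K]
    (D : Fin 2 → Derivation ℤ K K) (p : Fin 2 → K)
    (hD : ∀ c c', D c (p c') = if c = c' then 1 else 0)
    (V : Submodule K (MvPolynomial (Fin 2) K)) (hV : ∀ c, ∀ f ∈ V, Dc (D c) f ∈ V)
    (h0 : ∀ f ∈ V, (ShghE.tfShift (p 0) (p 1) f).coeff 0 = 0) : ∀ f ∈ V, f = 0 := by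
  have key : ∀ j : ℕ, ∀ f ∈ V, ∀ x : Fin 2 →₀ ℕ, x.degree = j →
      (ShghE.tfShift (p 0) (p 1) f).coeff x = 0 := by
    intro j
    induction j with
    | zero =>
      intro f hf x hx
      have hx0 : x = 0 := (Finsupp.degree_eq_zero_iff x).1 hx
      rw [hx0]
      exact h0 f hf
    | succ j ih =>
      intro f hf x hx
      have hex : ∃ c : Fin 2, x c ≠ 0 := by
        by_contra hcon
        push Not at hcon
        have : x = 0 := by
          ext c
          exact hcon c
        rw [this, map_zero] at hx
        omega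
      obtain ⟨c, hc⟩ := hex
      obtain ⟨y, hy⟩ : ∃ y, x = y + Finsupp.single c 1 := by
        refine ⟨x - Finsupp.single c 1, ?_⟩
        rw [tsub_add_cancel_of_le]
        rw [Finsupp.single_le_iff]
        omega
      have hyd : y.degree = j := by
        rw [hy, map_add, Finsupp.degree_single] at hx
        omega
      have h1 := ih _ (hV c f hf) y hyd
      have h2 := ih f hf y hyd
      rw [tDc K (D c) (p 0) (p 1) f, coeff_sub, coeff_sub, coeff_Dc, h2, map_zero, hD, hD] at h1
      have h3 : (pderiv c (ShghE.tfShift (p 0) (p 1) f)).coeff y = 0 := by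
        fin_cases c
        · simpa using h1
        · simpa using h1
      rw [coeff_pderiv, ← hy] at h3
      rcases mul_eq_zero.1 h3 with h4 | h4
      · exact h4
      · exfalso
        have h5 : ((y c : K) + 1) ≠ 0 := by exact_mod_cast Nat.succ_ne_zero (y c)
        exact h5 h4
  intro f hf
  have h5 : ShghE.tfShift (p 0) (p 1) f = 0 := by
    ext x
    rw [key _ f hf x rfl, coeff_zero]
  rw [← ShghE.tfShift_neg (p 0) (p 1) f, h5, map_zero]

theorem tNSimple (h1 : S_NCons.{u}) (h2 : S_NClo.{u}) : S_NSimple.{u} := by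
  classical
  intro F _ _ N S
  obtain ⟨hc0, hc1⟩ := h1 F N S
  rw [hc1 1, hc0]
  set V := LN N (fun i : Fin S.toList.length => S.toList.get i)
    (fun i => up F (i + 1)) with hVdef
  have hfin : Module.Finite (UF F) V := h2.1 (UF F) N _ _ _
  haveI : CharZero (UF F) := by
    exact charZero_of_injective_algebraMap (algebraMap F (UF F)).injective
  let ev : V →ₗ[UF F] UF F :=
    { toFun := fun f => (ShghE.tfShift (up F 0 0) (up F 0 1) (f : MvPolynomial (Fin 2) (UF F))).coeff 0
      map_add' := fun f g => by
        simp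
      map_smul' := fun c f => by
        simp }
  have hmem : ∀ f : MvPolynomial (Fin 2) (UF F), f ∈ ShghT.pt (up F 0 0) (up F 0 1) ^ 1 ↔
      (ShghE.tfShift (up F 0 0) (up F 0 1) f).coeff 0 = 0 := by
    intro f
    constructor
    · intro h
      exact (ShghE.tf_mem_iff _ _ _ _).1 h 0 (by simp)
    · intro h
      refine (ShghE.tf_mem_iff _ _ _ _).2 fun x hx => ?_
      have hx0 : x = 0 := by
        have : x.degree = 0 := by omega
        exact (Finsupp.degree_eq_zero_iff x).1 this
      rw [hx0]
      exact h
  have hker : Module.finrank (UF F) (LinearMap.ker ev)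
      = Module.finrank (UF F) (fil V (up F 0) 1) := by
    have e1 : (LinearMap.ker ev).map V.subtype = fil V (up F 0) 1 := by
      ext f
      rw [Submodule.mem_map]
      constructor
      · rintro ⟨g, hg, rfl⟩
        refine ⟨g.2, ?_⟩
        rw [LinearMap.mem_ker] at hg
        exact (hmem _).2 hg
      · rintro ⟨hf1, hf2⟩
        refine ⟨⟨f, hf1⟩, ?_, rfl⟩
        rw [LinearMap.mem_ker]
        exact (hmem _).1 hf2
    rw [← e1]
    exact (Submodule.finrank_map_subtype_eq V (LinearMap.ker ev)).symm
  have hrn := LinearMap.finrank_range_add_finrank_ker ev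
  rw [hker] at hrn
  have hr1 : Module.finrank (UF F) (LinearMap.range ev) ≤ 1 := by
    have h := Submodule.finrank_le (LinearMap.range ev)
    rwa [Module.finrank_self] at h
  by_cases hr0 : Module.finrank (UF F) (LinearMap.range ev) = 0
  · have hbot : LinearMap.range ev = ⊥ := Submodule.finrank_eq_zero.1 hr0
    have hev : ∀ f ∈ V, (ShghE.tfShift (up F 0 0) (up F 0 1) f).coeff 0 = 0 := by
      intro f hf
      have h : ev ⟨f, hf⟩ ∈ LinearMap.range ev := LinearMap.mem_range_self _ _
      rw [hbot, Submodule.mem_bot] at h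
      exact h
    choose D₀ hD₀ using tDer F 0
    choose D hD' using fun c => geo_mkDer (UF F) (fun x => D₀ c x)
      (fun a b => map_add (D₀ c) a b) (fun a b => (D₀ c).leibniz a b)
    have hD : ∀ (c : Fin 2) (i' : ℕ) (c' : Fin 2),
        D c (up F i' c') = if i' = 0 ∧ c' = c then 1 else 0 := by
      intro c i' c'
      rw [hD', hD₀]
    have hD0 : ∀ c (i : ℕ) c', D c (up F (i + 1) c') = 0 := by
      intro c i c'
      rw [hD, if_neg]
      rintro ⟨h, -⟩
      omega
    have hD1 : ∀ c c', D c (up F 0 c') = if c = c' then 1 else 0 := by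
      intro c c'
      rw [hD]
      by_cases h : c = c'
      · rw [if_pos ⟨rfl, h.symm⟩, if_pos h]
      · rw [if_neg (fun h' => h h'.2.symm), if_neg h]
    have hz := nsimple_zero D (up F 0) hD1 V
      (fun c f hf => h2.2 (UF F) (D c) N _ _ _ (fun i c' => hD0 c i c') f hf) hev
    have hV0 : Module.finrank (UF F) V = 0 := by
      have hVb : V = ⊥ := by
        rw [eq_bot_iff]
        intro f hf
        rw [Submodule.mem_bot]
        exact hz f hf
      rw [hVb]
      exact finrank_bot _ _
    omega
  · omega

end ShghC
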