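import Pool.Agent.ShghC.Spec
import Pool.Agent.ShghL.Tr
import Pool.Agent.ShghJ.Inv

/-!
# ShghC, Proj: a big point at infinity
-/

namespace ShghC

open MvPolynomial ShghJ

universe u v w

private theorem proj_up_ne (F : Type u) [Field F] (i : ℕ) (c : Fin 2) : up F i c ≠ 0 := by
  intro h
  have h1 : (X (i, c) : MvPolynomial (ℕ × Fin 2) F) = 0 :=
    IsFractionRing.injective (MvPolynomial (ℕ × Fin 2) F) (UF F) (h.trans (map_zero _).symm)
  exact X_ne_zero _ h1

theorem tProj (h1 : S_NSemi.{u, u, u}) (h2 : S_ProjMap.{u}) : S_Proj.{u} := by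
  intro F _ d θ S hθ
  have hd : d - (d - θ) = θ := by omega
  have hκ : d - θ ≤ d := Nat.sub_le _ _
  set μ : Fin S.toList.length → ℕ := fun i => S.toList.get i with hμ
  have hI : AlgebraicIndependent F
      (fun ij : Fin S.toList.length × Fin 2 => (fun i : Fin S.toList.length => up F i) ij.1 ij.2) :=
    geo_algInd F (fun i : Fin S.toList.length => (i : ℕ)) Fin.val_injective
  apply le_antisymm
  · -- generic points to special points
    set Q : Fin S.toList.length → Fin 2 → UF F := fun i c => up F (i + 1) c - up F 0 c with hQ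
    have hQ0 : ∀ i, Q i 0 ≠ 0 := by
      intro i
      have h0 : up F ((i : ℕ) + 1) 0 ≠ up F 0 0 :=
        geo_up_ne (F := F) (i := (i : ℕ) + 1) (j := 0) (Nat.succ_ne_zero _)
      exact sub_ne_zero.2 h0
    have a1 := h1 F (UF F) (UF F) (Trap d θ) S.toList.length μ
      (fun i : Fin S.toList.length => up F i) hI
      (fun i => ![Q i 1 / Q i 0, 1 / Q i 0])
    have a2 := h2 (UF F) d (d - θ) S.toList.length μ Q hκ hQ0
    rw [hd] at a2
    have a3 := ShghL.tTr (UF F) S.toList.length d (d - θ) μ (fun i => up F (i + 1)) (up F 0)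
    have a4 := geo_hF_cons F d tInv (d - θ) S
    rw [a4]
    unfold geoV
    rw [a3]
    unfold hN
    exact a1.trans a2.ge
  · set Q : Fin S.toList.length → Fin 2 → UF F :=
      fun i => ![1 / up F i 1, up F i 0 / up F i 1] with hQ
    have hQ0 : ∀ i, Q i 0 ≠ 0 := fun i => one_div_ne_zero (proj_up_ne F i 1)
    have a2 := h2 (UF F) d (d - θ) S.toList.length μ Q hκ hQ0
    rw [hd] at a2
    have e : (fun i : Fin S.toList.length => ![Q i 1 / Q i 0, 1 / Q i 0]) =
        fun i : Fin S.toList.length => up F i := by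
      funext i c
      have h0 := proj_up_ne F i 1
      fin_cases c
      · change up F i 0 / up F i 1 / (1 / up F i 1) = up F i 0
        field_simp
      · change 1 / (1 / up F i 1) = up F i 1
        rw [one_div_one_div]
    rw [e] at a2
    have a3 := ShghL.tTr (UF F) S.toList.length d (d - θ) μ Q 0
    have e3 : (fun (i : Fin S.toList.length) (c : Fin 2) => Q i c - (0 : Fin 2 → UF F) c) = Q := by
      funext i c
      rw [Pi.zero_apply, sub_zero]
    rw [e3] at a3
    have a4 := geo_hF_cons F d tInv (d - θ) S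
    have a5 : fil (geoV F d S.toList) (up F 0) (d - θ) =
        ShghT.LS d (Fin.cons (d - θ) μ : Fin (S.toList.length + 1) → ℕ)
          (fun i : Fin (S.toList.length + 1) => up F (i : ℕ)) := by
      have h := geo_cons_LS (K := UF F) d (d - θ) μ
        (fun i : Fin (S.toList.length + 1) => up F (i : ℕ))
      simp only [Fin.val_succ, Fin.val_zero] at h
      exact h.symm
    have a6 := ShghT.finrank_LS_le (F := F) (K := UF F) (K' := UF F)
      (fun i : Fin (S.toList.length + 1) => up F i)
      (geo_algInd F (fun i : Fin (S.toList.length + 1) => (i : ℕ)) Fin.val_injective)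
      (Fin.cons 0 Q : Fin (S.toList.length + 1) → Fin 2 → UF F) d
      (Fin.cons (d - θ) μ : Fin (S.toList.length + 1) → ℕ)
    have a7 : ShghT.LS d (Fin.cons (d - θ) μ : Fin (S.toList.length + 1) → ℕ)
        (Fin.cons 0 Q : Fin (S.toList.length + 1) → Fin 2 → UF F) =
        fil (ShghT.LS d μ Q) 0 (d - θ) := geo_cons_LS d (d - θ) μ _
    rw [a4, a5]
    unfold hN
    rw [a7, a3, a2] at a6
    exact a6

end ShghC
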