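import Pool.Agent.ShghC.Spec

/-!
# ShghC/Raise: the raising operator on the strip
-/

namespace ShghC

open MvPolynomial ShghJ

universe u v

namespace RaiseAux

/-- The operator. -/
noncomputable def nab {K : Type u} [Field K] (D : Derivation ℤ K K) (n δ : ℕ)
    (f : MvPolynomial (Fin 2) K) : MvPolynomial (Fin 2) K :=
  Dc D f + X 0 * (X 0 * pderiv 0 f + C (n : K) * (X 1 * pderiv 1 f) - C (δ : K) * f)

theorem coeff_euler {K : Type u} [Field K] (i : Fin 2) (f : MvPolynomial (Fin 2) K)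
    (e : Fin 2 →₀ ℕ) : (X i * pderiv i f).coeff e = f.coeff e * (e i : K) := by
  classical
  rw [coeff_X_mul']
  split_ifs with h
  · rw [coeff_pderiv]
    have h1 : 1 ≤ e i := Nat.one_le_iff_ne_zero.2 (Finsupp.mem_support_iff.1 h)
    have h2 : e - Finsupp.single i 1 + Finsupp.single i 1 = e :=
      tsub_add_cancel_of_le (Finsupp.single_le_iff.2 h1)
    rw [h2]
    congr 1
    rw [Finsupp.tsub_apply, Finsupp.single_eq_same]
    push_cast [Nat.cast_sub h1]
    ring
  · rw [Finsupp.notMem_support_iff.1 h, Nat.cast_zero, mul_zero]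

theorem coeff_nab {K : Type u} [Field K] (D : Derivation ℤ K K) (n δ : ℕ)
    (f : MvPolynomial (Fin 2) K) (i k : ℕ) : (nab D n δ f).coeff (ex i k) =
      D (f.coeff (ex i k)) + (if i = 0 then 0 else
        f.coeff (ex (i - 1) k) * (((i - 1 : ℕ) : K) + n * k - δ)) := by
  classical
  unfold nab
  rw [coeff_add, coeff_Dc, coeff_X_mul']
  congr 1
  by_cases hi : i = 0
  · subst hi
    rw [if_neg, if_pos rfl]
    simp [ex]
  · rw [if_pos, if_neg hi, coeff_sub, coeff_add, coeff_euler, coeff_C_mul, coeff_euler,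
      coeff_C_mul]
    · have h1 : ex i k - Finsupp.single 0 1 = ex (i - 1) k := by
        ext r
        fin_cases r <;> simp [ex]
      rw [h1, ex_zero, ex_one]
      ring
    · simp [ex, hi]

theorem shift_pderiv {K : Type u} [Field K] (a b : K) (j : Fin 2) (f : MvPolynomial (Fin 2) K) :
    ShghE.tfShift a b (pderiv j f) = pderiv j (ShghE.tfShift a b f) := by
  induction f using MvPolynomial.induction_on with
  | C c => rw [pderiv_C, map_zero, ShghE.tfShift_C, pderiv_C]
  | add f g hf hg => rw [map_add, map_add, hf, hg, map_add, map_add]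
  | mul_X f i hf =>
    rw [pderiv_mul, map_add, map_mul, map_mul, hf, map_mul, pderiv_mul]
    congr 2
    fin_cases i <;> fin_cases j
    · simp only [Fin.zero_eta, Fin.isValue]
      rw [ShghE.tfShift_X0, map_add, pderiv_X_self, pderiv_C, map_one, add_zero]
    · simp only [Fin.zero_eta, Fin.mk_one, Fin.isValue]
      rw [ShghE.tfShift_X0, map_add, pderiv_X_of_ne (by decide), pderiv_C, map_zero, add_zero]
    · simp only [Fin.zero_eta, Fin.mk_one, Fin.isValue]
      rw [ShghE.tfShift_X1, map_add, pderiv_X_of_ne (by decide), pderiv_C, map_zero, add_zero]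
    · simp only [Fin.mk_one, Fin.isValue]
      rw [ShghE.tfShift_X1, map_add, pderiv_X_self, pderiv_C, map_one, add_zero]

theorem shift_nab {K : Type u} [Field K] (D : Derivation ℤ K K) (n δ : ℕ) (a b : K)
    (ha : D a = a ^ 2) (hb : D b = n * a * b) (f : MvPolynomial (Fin 2) K) :
    ShghE.tfShift a b (nab D n δ f) = Dc D (ShghE.tfShift a b f) +
      ((X 0 + C (2 * a)) * (X 0 * pderiv 0 (ShghE.tfShift a b f)) +
      C (n : K) * ((X 0 + C a) * (X 1 * pderiv 1 (ShghE.tfShift a b f)) +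
        C b * (X 0 * pderiv 1 (ShghE.tfShift a b f))) -
      C (δ : K) * (X 0 + C a) * ShghE.tfShift a b f) := by
  unfold nab
  rw [map_add, map_mul, map_sub, map_add, map_mul, map_mul, map_mul, map_mul, shift_pderiv,
    shift_pderiv, ShghE.tfShift_X0, ShghE.tfShift_X1, ShghE.tfShift_C, ShghE.tfShift_C,
    tDc K D a b f, ha, hb, C_mul, C_mul, C_mul, C_pow]
  have h2 : (C (2 : K) : MvPolynomial (Fin 2) K) = 2 := by
    rw [show (2 : K) = ((2 : ℕ) : K) by norm_num, map_natCast]
    norm_num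
  rw [h2]
  ring

/-- The derivative multiplied by a variable keeps the order at the origin. -/
theorem order_pderiv {K : Type u} [Field K] (m : ℕ) (i j : Fin 2) (f : MvPolynomial (Fin 2) K)
    (h : f ∈ idealOfVars (Fin 2) K ^ m) : X i * pderiv j f ∈ idealOfVars (Fin 2) K ^ m := by
  classical
  rw [mem_pow_idealOfVars_iff'] at h ⊢
  intro x hx
  rw [coeff_X_mul']
  split_ifs with h1
  · rw [coeff_pderiv, h, zero_mul]
    have h2 : 1 ≤ x i := Nat.one_le_iff_ne_zero.2 (Finsupp.mem_support_iff.1 h1)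
    have h3 : x - Finsupp.single i 1 + Finsupp.single i 1 = x :=
      tsub_add_cancel_of_le (Finsupp.single_le_iff.2 h2)
    have h4 : (x - Finsupp.single i 1).degree + 1 = x.degree := by
      conv_rhs => rw [← h3]
      rw [map_add, Finsupp.degree_single]
    rw [map_add, Finsupp.degree_single, h4]
    exact hx
  · rfl

theorem order_Dc {K : Type u} [Field K] (D : Derivation ℤ K K) (m : ℕ)
    (f : MvPolynomial (Fin 2) K) (h : f ∈ idealOfVars (Fin 2) K ^ m) :
    Dc D f ∈ idealOfVars (Fin 2) K ^ m := by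
  rw [mem_pow_idealOfVars_iff'] at h ⊢
  intro x hx
  rw [coeff_Dc, h x hx, map_zero]

/-- The operator keeps the multiplicities. -/
theorem nab_pt {K : Type u} [Field K] (D : Derivation ℤ K K) (n δ m : ℕ) (a b : K)
    (ha : D a = a ^ 2) (hb : D b = n * a * b) (f : MvPolynomial (Fin 2) K)
    (hf : f ∈ ShghT.pt a b ^ m) : nab D n δ f ∈ ShghT.pt a b ^ m := by
  have h1 := (ShghE.tf_mem_iff _ _ _ _).1 hf
  refine (ShghE.tf_mem_iff _ _ _ _).2 ?_
  rw [← mem_pow_idealOfVars_iff'] at h1 ⊢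
  rw [shift_nab D n δ a b ha hb]
  refine Ideal.add_mem _ (order_Dc D m _ h1) ?_
  refine Ideal.sub_mem _ (Ideal.add_mem _ ?_ ?_) (Ideal.mul_mem_left _ _ h1)
  · exact Ideal.mul_mem_left _ _ (order_pderiv m 0 0 _ h1)
  · refine Ideal.mul_mem_left _ _ (Ideal.add_mem _ ?_ ?_)
    · exact Ideal.mul_mem_left _ _ (order_pderiv m 1 1 _ h1)
    · exact Ideal.mul_mem_left _ _ (order_pderiv m 0 1 _ h1)

variable {K : Type u} [Field K]

theorem St_step {s n τ δ t : ℕ} (μ : Fin s → ℕ) (P : Fin s → Fin 2 → K) :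
    LN (St n τ δ t) μ P = LN (St n τ δ (t + 1)) μ P ⊓ LinearMap.ker (lcoeff K (ex t τ)) := by
  ext f
  rw [Submodule.mem_inf, mem_LN, mem_LN, LinearMap.mem_ker, lcoeff_apply]
  constructor
  · rintro ⟨h1, h2⟩
    refine ⟨⟨fun e he => ?_, h2⟩, ?_⟩
    · have h3 := h1 e he
      rw [mem_St] at h3 ⊢
      omega
    · by_contra h3
      have h4 := h1 _ h3
      rw [mem_St, ex_zero, ex_one] at h4
      omega
  · rintro ⟨⟨h1, h2⟩, h3⟩
    refine ⟨fun e he => ?_, h2⟩
    have h4 := h1 e he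
    rw [mem_St] at h4 ⊢
    rcases h4 with h4 | ⟨h4, h5⟩
    · exact Or.inl h4
    · refine Or.inr ⟨h4, ?_⟩
      by_contra h6
      have h7 : e 0 = t := by omega
      apply he
      rw [← ex_eta e, h7, h4]
      exact h3

theorem St_top {n τ δ : ℕ} (h : n * τ ≤ δ) : St n τ δ (δ - n * τ + 1) = Sf n τ δ := by
  ext e
  rw [mem_St, mem_Sf]
  constructor
  · rintro (⟨h1, h2⟩ | ⟨h1, h2⟩)
    · exact ⟨h1.le, h2⟩
    · refine ⟨h1.le, ?_⟩
      rw [h1]
      omega
  · rintro ⟨h1, h2⟩
    rcases Nat.lt_or_ge (e 1) τ with h3 | h3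
    · exact Or.inl ⟨h3, h2⟩
    · have h4 : e 1 = τ := le_antisymm h1 h3
      rw [h4] at h2
      exact Or.inr ⟨h4, by omega⟩

/-- The column `t` is taken. -/
def Ep {s : ℕ} (μ : Fin s → ℕ) (P : Fin s → Fin 2 → K) (n τ δ t : ℕ) : Prop :=
  t ≤ δ - n * τ ∧ ∃ f ∈ LN (St n τ δ (t + 1)) μ P, f.coeff (ex t τ) ≠ 0

theorem Ep_succ [CharZero K] (D : Derivation ℤ K K) {s n τ δ t : ℕ} {μ : Fin s → ℕ}
    {P : Fin s → Fin 2 → K} (h0 : ∀ i, D (P i 0) = P i 0 ^ 2)
    (h1 : ∀ i, D (P i 1) = n * P i 0 * P i 1) (hnτ : n * τ ≤ δ) (ht1 : t + 1 ≤ δ - n * τ)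
    (h : Ep μ P n τ δ t) : Ep μ P n τ δ (t + 1) := by
  obtain ⟨ht, f, hf, hf0⟩ := h
  rw [mem_LN] at hf
  obtain ⟨hf1, hf2⟩ := hf
  refine ⟨ht1, nab D n δ f, ?_, ?_⟩
  · rw [mem_LN]
    refine ⟨fun e he => ?_, fun i => nab_pt D n δ _ _ _ (h0 i) (h1 i) f (hf2 i)⟩
    rw [← ex_eta e, coeff_nab, ex_eta] at he
    rw [mem_St]
    by_cases h2 : f.coeff e = 0
    · rw [h2, map_zero, zero_add] at he
      by_cases h3 : e 0 = 0
      · rw [if_pos h3] at he
        exact absurd rfl he
      · rw [if_neg h3] at he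
        have h4 := hf1 _ (left_ne_zero_of_mul he)
        have h5 : e 0 - 1 + n * e 1 ≠ δ := by
          intro h6
          apply right_ne_zero_of_mul he
          rw [← h6]
          push_cast
          ring
        rw [mem_St, ex_zero, ex_one] at h4
        rcases h4 with ⟨h4, h6⟩ | ⟨h4, h6⟩
        · exact Or.inl ⟨h4, by omega⟩
        · exact Or.inr ⟨h4, by omega⟩
    · have h4 := hf1 e h2
      rw [mem_St] at h4
      omega
  · have h2 : f.coeff (ex (t + 1) τ) = 0 := by
      by_contra h3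
      have h4 := hf1 _ h3
      rw [mem_St, ex_zero, ex_one] at h4
      omega
    rw [coeff_nab, h2, map_zero, zero_add, if_neg (by omega), Nat.add_sub_cancel]
    refine mul_ne_zero hf0 ?_
    intro h3
    have h4 : ((t + n * τ : ℕ) : K) = (δ : K) := by
      push_cast
      exact sub_eq_zero.1 h3
    have h5 := Nat.cast_injective h4
    omega

theorem main [CharZero K] (h1 : S_NClo.{u}) (D : Derivation ℤ K K) {s n τ δ ρ : ℕ}
    {μ : Fin s → ℕ} {P : Fin s → Fin 2 → K} (hD0 : ∀ i, D (P i 0) = P i 0 ^ 2)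
    (hD1 : ∀ i, D (P i 1) = n * P i 0 * P i 1) (hnτ : n * τ ≤ δ) (hρ : ρ ≤ δ - n * τ + 1) :
    Module.finrank K (LN (St n τ δ ρ) μ P) ≤ Module.finrank K (LN (St n τ δ 0) μ P) ∨
    Module.finrank K (LN (St n τ δ ρ) μ P) + (δ - n * τ + 1 - ρ) ≤
      Module.finrank K (LN (Sf n τ δ) μ P) := by
  classical
  have hstep : ∀ t ≤ δ - n * τ, Module.finrank K (LN (St n τ δ (t + 1)) μ P) =
      Module.finrank K (LN (St n τ δ t) μ P) + (if Ep μ P n τ δ t then 1 else 0) := by
    intro t ht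
    have := h1.1 K (St n τ δ (t + 1)) s μ P
    rw [ShghL.DimFAux.functional (LN (St n τ δ (t + 1)) μ P) (lcoeff K (ex t τ)), ← St_step]
    congr 1
    have h2 : (∃ f ∈ LN (St n τ δ (t + 1)) μ P, lcoeff K (ex t τ) f ≠ 0) ↔ Ep μ P n τ δ t :=
      ⟨fun h => ⟨ht, h⟩, fun h => h.2⟩
    by_cases h3 : Ep μ P n τ δ t
    · rw [if_pos h3, if_pos (h2.2 h3)]
    · rw [if_neg h3, if_neg fun h => h3 (h2.1 h)]
  have hup : ∀ t j, t + j ≤ δ - n * τ → Ep μ P n τ δ t → Ep μ P n τ δ (t + j) := by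
    intro t j
    induction j with
    | zero => exact fun _ h => h
    | succ j ih => exact fun hj h => Ep_succ D hD0 hD1 hnτ hj (ih (by omega) h)
  rcases Nat.eq_zero_or_pos ρ with rfl | hρ0
  · exact Or.inl le_rfl
  obtain ⟨r, rfl⟩ : ∃ r, ρ = r + 1 := ⟨ρ - 1, by omega⟩
  by_cases hr : Ep μ P n τ δ r
  · right
    have key : ∀ j, r + 1 + j ≤ δ - n * τ + 1 →
        Module.finrank K (LN (St n τ δ (r + 1)) μ P) + j =
          Module.finrank K (LN (St n τ δ (r + 1 + j)) μ P) := by
      intro j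
      induction j with
      | zero => intro _; rfl
      | succ j ih =>
        intro hj
        have h2 : Ep μ P n τ δ (r + (1 + j)) := hup r (1 + j) (by omega) hr
        rw [show r + (1 + j) = r + 1 + j by omega] at h2
        have h3 := hstep (r + 1 + j) h2.1
        rw [if_pos h2] at h3
        have h4 := ih (by omega)
        rw [show r + 1 + (j + 1) = r + 1 + j + 1 by omega]
        omega
    have h2 := key (δ - n * τ + 1 - (r + 1)) (by omega)
    rw [show r + 1 + (δ - n * τ + 1 - (r + 1)) = δ - n * τ + 1 by omega, St_top hnτ] at h2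
    exact h2.le
  · left
    have key : ∀ t ≤ r + 1, Module.finrank K (LN (St n τ δ t) μ P) =
        Module.finrank K (LN (St n τ δ 0) μ P) := by
      intro t
      induction t with
      | zero => intro _; rfl
      | succ t ih =>
        intro ht
        have h3 : ¬ Ep μ P n τ δ t := fun h => hr (by
          have := hup t (r - t) (by omega) h
          rwa [show t + (r - t) = r by omega] at this)
        rw [hstep t (by omega), if_neg h3, add_zero]
        exact ih (by omega)
    rw [key (r + 1) le_rfl]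

theorem sumDer (K : Type u) [Field K] (D1 D2 : Derivation ℤ K K) :
    ∃ E : Derivation ℤ K K, ∀ x, E x = D1 x + D2 x :=
  geo_mkDer K (fun x => D1 x + D2 x) (fun a b => by rw [map_add, map_add]; ring)
    (fun a b => by
      rw [D1.leibniz, D2.leibniz, smul_eq_mul, smul_eq_mul, smul_eq_mul, smul_eq_mul]; ring)

end RaiseAux

theorem tRaise (h1 : S_NClo.{u}) : S_Raise.{u} := by
  classical
  intro F _ _ n τ δ ρ B hnτ hρ
  choose D₀ hD₀ using fun (i : ℕ) (c : Fin 2) => tDer F i c
  choose D hD' using fun (i : ℕ) (c : Fin 2) => geo_mkDer (UF F) (fun x => D₀ i c x)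
    (fun a b => map_add (D₀ i c) a b) (fun a b => (D₀ i c).leibniz a b)
  have hD : ∀ (i : ℕ) (c : Fin 2) (i' : ℕ) (c' : Fin 2),
      D i c (up F i' c') = if i' = i ∧ c' = c then 1 else 0 := by
    intro i c i' c'
    rw [hD', hD₀]
  set s := B.toList.length with hs
  obtain ⟨Da, hDa⟩ := ShghL.cm_der (UF F) (fun i : Fin s => up F i 0 ^ 2)
    (fun i : Fin s => D i 0)
  obtain ⟨Db, hDb⟩ := ShghL.cm_der (UF F) (fun i : Fin s => (n : UF F) * up F i 0 * up F i 1)
    (fun i : Fin s => D i 1)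
  obtain ⟨E, hE⟩ := RaiseAux.sumDer (UF F) Da Db
  have hE0 : ∀ i : Fin s, E (up F i 0) = up F i 0 ^ 2 := by
    intro i
    rw [hE, hDa, hDb, Finset.sum_eq_single i, Finset.sum_eq_zero]
    · rw [hD, if_pos ⟨rfl, rfl⟩, mul_one, add_zero]
    · intro j _
      rw [hD, if_neg, mul_zero]
      rintro ⟨-, h⟩
      exact absurd h (by decide)
    · intro j _ hj
      rw [hD, if_neg, mul_zero]
      rintro ⟨h, -⟩
      exact hj (Fin.ext h.symm)
    · intro h
      exact absurd (Finset.mem_univ _) h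
  have hE1 : ∀ i : Fin s, E (up F i 1) = n * up F i 0 * up F i 1 := by
    intro i
    rw [hE, hDa, hDb, Finset.sum_eq_zero, Finset.sum_eq_single i]
    · rw [hD, if_pos ⟨rfl, rfl⟩, mul_one, zero_add]
    · intro j _ hj
      rw [hD, if_neg, mul_zero]
      rintro ⟨h, -⟩
      exact hj (Fin.ext h.symm)
    · intro h
      exact absurd (Finset.mem_univ _) h
    · intro j _
      rw [hD, if_neg, mul_zero]
      rintro ⟨-, h⟩
      exact absurd h (by decide)
  have hchar : CharZero (UF F) := charZero_of_injective_algebraMap (algebraMap F (UF F)).injective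
  exact RaiseAux.main (K := UF F) h1 E (P := fun i : Fin s => up F i) hE0 hE1 hnτ hρ

end ShghC
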