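import Pool.Agent.ShghC.Spec
import Pool.Agent.ShghJ.Comb3

/-!
# ShghC: replacing a cluster by a big point
-/

namespace ShghC

open MvPolynomial ShghJ

universe u

theorem tReduce : S_Reduce.{u} := by
  intro F _ _ d κ A B hB hκ1 hκd hT1 hT2 hA1 hA2
  have hch : ∀ n : ℕ, 1 ≤ n → n ≤ d → (n : F) ≠ 0 := fun n hn _ => by
    have : n ≠ 0 := by omega
    exact_mod_cast this
  have hlow := (hfun_hF F d hch).chi_le (A + B)
  have g1 := hB (κ - 1)
  have g2 := hB κ
  rw [show κ - 1 + 1 = κ by omega] at g1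
  have t1 := T_succ κ
  rw [TT_cons] at hA1 hA2
  rw [TT_add] at hlow ⊢
  rcases ShghL.tCM F d κ A B hch hκ1 hκd with h2 | h2
  · omega
  · omega

end ShghC
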