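import Pool.Agent.ShghC.Spec
import Pool.Agent.ShghJ.Comb3

/-!
# ShghC: equal multiplicities, `4 ^ h` points
-/

namespace ShghC

open MvPolynomial ShghJ

universe u

private theorem Rep_mono {i j : ℕ} (h : i ≤ j) : T i ≤ T j := by
  induction j, h using Nat.le_induction with
  | base => exact le_rfl
  | succ n _ ih => exact ih.trans (by rw [T_succ]; omega)

theorem tRep (h1 : S_Clu.{u}) : S_Rep.{u} := by
  intro F _ _ m h
  induction h with
  | zero =>
    intro j
    have H : HFun j (hF F j) := hfun_hF F j fun n hn _ => by
      have : n ≠ 0 := by omega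
      exact_mod_cast this
    change hF F j (m ::ₘ 0) = T (j + 1) - TT (m ::ₘ 0)
    rw [TT_cons, TT_zero]
    rcases Nat.lt_or_ge (j + 1) m with hm | hm
    · rw [H.eq_zero_of_gt 0 (by omega)]
      have := Rep_mono hm.le
      omega
    · have h2 := H.small (m ::ₘ 0) (by simpa using hm)
      rw [TT_cons, TT_zero] at h2
      omega
  | succ h ih =>
    have h2 := h1 F _ ih
    have e : Multiset.replicate (4 ^ (h + 1)) m = 4 • Multiset.replicate (4 ^ h) m := by
      rw [Multiset.nsmul_replicate, pow_succ, mul_comm]
    rw [e]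
    exact h2

end ShghC
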