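import Pool.Agent.ShghC.Spec

/-!
# ShghC, RowDiv: vanishing rows of `Psi f` mean division by `(Y - X ^ a) ^ k`
-/

namespace ShghC

open MvPolynomial ShghJ

universe u v w

/-- the inverse of `Psi η a` -/
private noncomputable def Phi {K : Type u} [Field K] (η : K) (a : ℕ) :
    MvPolynomial (Fin 2) K →ₐ[K] MvPolynomial (Fin 2) K :=
  aeval ![X 0 - C η, X 1 - X 0 ^ a]

private theorem Phi_X0 {K : Type u} [Field K] (η : K) (a : ℕ) :
    Phi η a (X 0) = X 0 - C η := by
  simp [Phi]

private theorem Phi_X1 {K : Type u} [Field K] (η : K) (a : ℕ) :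
    Phi η a (X 1) = X 1 - X 0 ^ a := by
  simp [Phi]

private theorem Phi_C {K : Type u} [Field K] (η : K) (a : ℕ) (c : K) : Phi η a (C c) = C c := by
  simp [Phi]

private theorem Phi_Psi {K : Type u} [Field K] (η : K) (a : ℕ) (f : MvPolynomial (Fin 2) K) :
    Phi η a (Psi η a f) = f := by
  induction f using MvPolynomial.induction_on with
  | C c => rw [Psi_C, Phi_C]
  | add f g hf hg => rw [map_add, map_add, hf, hg]
  | mul_X f i hf =>
    rw [map_mul, map_mul, hf]
    fin_cases i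
    · simp only [Fin.zero_eta, Fin.isValue]
      rw [Psi_X0, map_add, Phi_X0, Phi_C]
      ring
    · simp only [Fin.mk_one, Fin.isValue]
      rw [Psi_X1, map_add, map_pow, map_add, Phi_X0, Phi_X1, Phi_C]
      ring

private theorem X1_pow_dvd {K : Type u} [Field K] (k : ℕ) (F : MvPolynomial (Fin 2) K)
    (h : ∀ e : Fin 2 →₀ ℕ, e 1 < k → F.coeff e = 0) : ∃ G, F = X 1 ^ k * G := by
  classical
  have hd : (monomial (Finsupp.single (1 : Fin 2) k) (1 : K)) ∣ F := by
    rw [monomial_one_dvd_iff_modMonomial_eq_zero]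
    ext e
    rw [coeff_zero]
    by_cases hle : Finsupp.single (1 : Fin 2) k ≤ e
    · exact coeff_modMonomial_of_le F hle
    · rw [coeff_modMonomial_of_not_le F hle]
      refine h e ?_
      by_contra hlt
      apply hle
      rw [Finsupp.single_le_iff]
      omega
  obtain ⟨G, hG⟩ := hd
  refine ⟨G, ?_⟩
  rw [hG, X_pow_eq_monomial]

private theorem deg_pow {K : Type u} [Field K] (a : ℕ) (ha : 1 ≤ a) (k : ℕ)
    (g : MvPolynomial (Fin 2) K) (hg : g ≠ 0) :
    k + degreeOf 1 g ≤ degreeOf 1 ((X 1 - X 0 ^ a) ^ k * g) ∧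
    k * a + totalDegree g ≤ totalDegree ((X 1 - X 0 ^ a) ^ k * g) := by
  classical
  have c1 : (X 1 - X 0 ^ a : MvPolynomial (Fin 2) K).coeff (Finsupp.single 1 1) ≠ 0 := by
    rw [coeff_sub, X_pow_eq_monomial, coeff_monomial, coeff_X', if_pos rfl, if_neg, sub_zero]
    · exact one_ne_zero
    · intro h
      have := DFunLike.congr_fun h 0
      rw [Finsupp.single_eq_same, Finsupp.single_eq_of_ne (by decide)] at this
      omega
  have c0 : (X 1 - X 0 ^ a : MvPolynomial (Fin 2) K).coeff (Finsupp.single 0 a) ≠ 0 := by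
    rw [coeff_sub, X_pow_eq_monomial, coeff_monomial, coeff_X', if_pos rfl, if_neg, zero_sub]
    · exact neg_ne_zero.2 one_ne_zero
    · intro h
      have := DFunLike.congr_fun h 1
      rw [Finsupp.single_eq_same, Finsupp.single_eq_of_ne (by decide)] at this
      omega
  have hne : (X 1 - X 0 ^ a : MvPolynomial (Fin 2) K) ≠ 0 := by
    intro h
    rw [h, coeff_zero] at c1
    exact c1 rfl
  have d1 : 1 ≤ degreeOf 1 (X 1 - X 0 ^ a : MvPolynomial (Fin 2) K) := by
    have := monomial_le_degreeOf (1 : Fin 2) (mem_support_iff.2 c1)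
    rwa [Finsupp.single_eq_same] at this
  have d0 : a ≤ totalDegree (X 1 - X 0 ^ a : MvPolynomial (Fin 2) K) := by
    have := le_totalDegree (mem_support_iff.2 c0)
    rwa [Finsupp.sum_single_index rfl] at this
  induction k with
  | zero =>
    rw [pow_zero, one_mul, zero_add, zero_mul, zero_add]
    exact ⟨le_rfl, le_rfl⟩
  | succ k ih =>
    have hk : (X 1 - X 0 ^ a : MvPolynomial (Fin 2) K) ^ k * g ≠ 0 :=
      mul_ne_zero (pow_ne_zero k hne) hg
    have he : (X 1 - X 0 ^ a : MvPolynomial (Fin 2) K) ^ (k + 1) * g =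
        (X 1 - X 0 ^ a) * ((X 1 - X 0 ^ a) ^ k * g) := by ring
    rw [he, degreeOf_mul_eq hne hk, totalDegree_mul_of_isDomain hne hk, Nat.succ_mul]
    obtain ⟨ih1, ih2⟩ := ih
    exact ⟨by omega, by omega⟩

theorem tRowDiv : S_RowDiv.{u} := by
  classical
  intro K _ η a k d θ f ha hf0 hf hrow
  obtain ⟨G, hG⟩ := X1_pow_dvd k (Psi η a f) hrow
  have hfg : f = (X 1 - X 0 ^ a) ^ k * Phi η a G := by
    conv_lhs => rw [← Phi_Psi η a f]
    rw [hG, map_mul, map_pow, Phi_X1]
  have hg0 : Phi η a G ≠ 0 := by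
    intro h
    apply hf0
    rw [hfg, h, mul_zero]
  obtain ⟨h1, h2⟩ := deg_pow a ha k (Phi η a G) hg0
  rw [← hfg] at h1 h2
  have hd1 : degreeOf 1 f ≤ θ := by
    rw [degreeOf_le_iff]
    intro m hm
    exact (mem_Trap.1 (hf m (mem_support_iff.1 hm))).2
  have hd0 : totalDegree f ≤ d := by
    refine Finset.sup_le fun m hm => ?_
    have := (mem_Trap.1 (hf m (mem_support_iff.1 hm))).1
    rw [← deg_eq] at this
    exact this
  refine ⟨by omega, by omega, Phi η a G, ?_, hfg⟩
  intro e he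
  rw [mem_Trap]
  have m1 := monomial_le_degreeOf (1 : Fin 2) (mem_support_iff.2 he)
  have m0 := le_totalDegree (mem_support_iff.2 he)
  have m0' : e 0 + e 1 ≤ totalDegree (Phi η a G) := by
    rw [← deg_eq]
    exact m0
  exact ⟨by omega, by omega⟩

end ShghC
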