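import Pool.Agent.ShghC.Spec

/-!
# ShghC, RowZ: degrees of `Psi g`
-/

namespace ShghC

open MvPolynomial ShghJ

universe u v w

/-- weighted degree at most `B` -/
private def WB {K : Type u} [Field K] (a B : ℕ) (h : MvPolynomial (Fin 2) K) : Prop :=
  ∀ e : Fin 2 →₀ ℕ, h.coeff e ≠ 0 → e 0 + a * e 1 ≤ B

private theorem WB_mul {K : Type u} [Field K] {a B B' : ℕ} {h h' : MvPolynomial (Fin 2) K}
    (h1 : WB a B h) (h2 : WB a B' h') : WB a (B + B') (h * h') := by
  classical
  intro e he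
  rw [coeff_mul] at he
  obtain ⟨x, hx, hx0⟩ := Finset.exists_ne_zero_of_sum_ne_zero he
  have ha := h1 x.1 (left_ne_zero_of_mul hx0)
  have hb := h2 x.2 (right_ne_zero_of_mul hx0)
  have hxe := Finset.HasAntidiagonal.mem_antidiagonal.1 hx
  have e0 : e 0 = x.1 0 + x.2 0 := by rw [← hxe, Finsupp.add_apply]
  have e1 : e 1 = x.1 1 + x.2 1 := by rw [← hxe, Finsupp.add_apply]
  rw [e0, e1, Nat.mul_add]
  omega

private theorem WB_one {K : Type u} [Field K] (a : ℕ) : WB a 0 (1 : MvPolynomial (Fin 2) K) := by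
  classical
  intro e he
  rw [coeff_one] at he
  by_cases h : (0 : Fin 2 →₀ ℕ) = e
  · rw [← h]
    simp
  · rw [if_neg h] at he
    exact absurd rfl he

private theorem WB_pow {K : Type u} [Field K] {a B : ℕ} {h : MvPolynomial (Fin 2) K}
    (h1 : WB a B h) (n : ℕ) : WB a (n * B) (h ^ n) := by
  induction n with
  | zero =>
    rw [pow_zero, zero_mul]
    exact WB_one a
  | succ n ih =>
    rw [pow_succ, Nat.succ_mul]
    exact WB_mul ih h1

private theorem WB_mono {K : Type u} [Field K] {a B B' : ℕ} {h : MvPolynomial (Fin 2) K}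
    (h1 : WB a B h) (hB : B ≤ B') : WB a B' h := fun e he => le_trans (h1 e he) hB

private theorem WB_add {K : Type u} [Field K] {a B : ℕ} {h h' : MvPolynomial (Fin 2) K}
    (h1 : WB a B h) (h2 : WB a B h') : WB a B (h + h') := by
  intro e he
  rw [coeff_add] at he
  by_cases hh : h.coeff e = 0
  · refine h2 e ?_
    intro h0
    rw [hh, h0, add_zero] at he
    exact he rfl
  · exact h1 e hh

private theorem WB_C {K : Type u} [Field K] (a : ℕ) (c : K) :
    WB a 0 (C c : MvPolynomial (Fin 2) K) := by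
  classical
  intro e he
  rw [coeff_C] at he
  by_cases h : (0 : Fin 2 →₀ ℕ) = e
  · rw [← h]
    simp
  · rw [if_neg h] at he
    exact absurd rfl he

private theorem WB_X0 {K : Type u} [Field K] (a : ℕ) :
    WB a 1 (X 0 : MvPolynomial (Fin 2) K) := by
  classical
  intro e he
  rw [coeff_X'] at he
  by_cases h : (Finsupp.single (0 : Fin 2) 1) = e
  · rw [← h]
    simp
  · rw [if_neg h] at he
    exact absurd rfl he

private theorem WB_X1 {K : Type u} [Field K] (a : ℕ) :
    WB a a (X 1 : MvPolynomial (Fin 2) K) := by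
  classical
  intro e he
  rw [coeff_X'] at he
  by_cases h : (Finsupp.single (1 : Fin 2) 1) = e
  · rw [← h]
    simp
  · rw [if_neg h] at he
    exact absurd rfl he

private theorem Psi_coeff_ne {K : Type u} [Field K] (η : K) (a : ℕ) (g : MvPolynomial (Fin 2) K)
    (e' : Fin 2 →₀ ℕ) (h : (Psi η a g).coeff e' ≠ 0) :
    ∃ e : Fin 2 →₀ ℕ, g.coeff e ≠ 0 ∧ e' 0 + a * e' 1 ≤ e 0 + a * e 1 := by
  classical
  rw [g.as_sum, map_sum, coeff_sum] at h
  obtain ⟨e, he, he0⟩ := Finset.exists_ne_zero_of_sum_ne_zero h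
  refine ⟨e, mem_support_iff.1 he, ?_⟩
  have hX0 : WB a 1 (X 0 + C η : MvPolynomial (Fin 2) K) :=
    WB_add (WB_X0 a) (WB_mono (WB_C a η) (Nat.zero_le 1))
  have hX1 : WB a a (X 1 + (X 0 + C η) ^ a : MvPolynomial (Fin 2) K) := by
    refine WB_add (WB_X1 a) ?_
    have := WB_pow hX0 a
    rwa [mul_one] at this
  have hm : Psi η a (monomial e (g.coeff e)) =
      C (g.coeff e) * ((X 0 + C η) ^ e 0 * (X 1 + (X 0 + C η) ^ a) ^ e 1) := by
    unfold Psi
    rw [aeval_monomial, Finsupp.prod_fintype _ _ (fun i => pow_zero _), Fin.prod_univ_two]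
    simp only [Matrix.cons_val_zero, Matrix.cons_val_one, algebraMap_eq]
  rw [hm] at he0
  have := WB_mul (WB_C a (g.coeff e)) (WB_mul (WB_pow hX0 (e 0)) (WB_pow hX1 (e 1))) e' he0
  rw [Nat.mul_comm a (e 1)]
  omega

theorem tRowZ : S_RowZ.{u} := by
  refine ⟨?_, ?_⟩
  · intro K _ η a d θ g ha hg i hi
    obtain ⟨e, he, hle⟩ := Psi_coeff_ne η a g _ hi
    rw [ex_zero, ex_one, mul_zero, add_zero] at hle
    have ht := mem_Trap.1 (hg e he)
    obtain ⟨b, rfl⟩ : ∃ b, a = b + 1 := ⟨a - 1, by omega⟩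
    have h1 : b * e 1 ≤ b * θ := Nat.mul_le_mul_left b ht.2
    rw [Nat.add_sub_cancel]
    rw [Nat.succ_mul] at hle
    omega
  · intro K _ η a d θ g hg e' he'
    obtain ⟨e, he, hle⟩ := Psi_coeff_ne η a g e' he'
    have ht := mem_Trap.1 (hg e he)
    have h1 : a * e 1 ≤ a * θ := Nat.mul_le_mul_left a ht.2
    have h2 := Nat.zero_le (a * e' 1)
    omega

end ShghC
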