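import Pool.Agent.ShghC.Spec

/-!
# ShghC, SEED: one cluster of equal multiplicities
-/

namespace ShghC

open MvPolynomial ShghJ

universe u

private theorem seed_two_T (j : ℕ) : 2 * T j = j * (j + 1) := by
  unfold T
  exact Nat.mul_div_cancel' (Nat.even_mul_succ_self j).two_dvd

private theorem seed_mono {i j : ℕ} (hij : i ≤ j) : T i ≤ T j := by
  have h1 := seed_two_T i
  have h2 := seed_two_T j
  nlinarith

private theorem seed_TT (n m : ℕ) : TT (Multiset.replicate n m) = n * T m := by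
  simp [TT, Multiset.map_replicate, Multiset.sum_replicate]

theorem tSeed (h1 : S_Rep.{u}) (h2 : S_Reduce.{u}) (h3 : S_Long.{u}) : S_Seed.{u} := by
  intro F _ _ d M m h S hM hS hm hcount hd hbig
  set B := Multiset.replicate (4 ^ h) m with hB
  have hBS : B ≤ S := Multiset.le_count_iff_replicate_le.mp hcount
  set A := S - B with hA
  have hAB : A + B = S := tsub_add_cancel_of_le hBS
  have hAM : ∀ x ∈ A, x ≤ M := fun x hx => hS x (Multiset.mem_of_le (Multiset.sub_le_self S B) hx)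
  have h4 : (4 : ℕ) ^ h = 2 ^ h * 2 ^ h := by
    rw [← Nat.mul_pow]
  have hpos : 1 ≤ 2 ^ h := Nat.one_le_two_pow
  have hTB : TT B = 4 ^ h * T m := seed_TT _ _
  set p := 2 ^ h with hp
  have hlow : T (p * m) ≤ TT B := by
    have e1 := seed_two_T (p * m)
    have e2 := seed_two_T m
    rw [hTB, h4]
    nlinarith [Nat.mul_le_mul hpos (le_refl (p * m))]
  have hup : TT B < T (p * (m + 1)) := by
    have e1 := seed_two_T (p * (m + 1))
    have e2 := seed_two_T m
    rw [hTB, h4]
    nlinarith [Nat.mul_pos hpos (Nat.succ_pos m)]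
  have hex : ∃ j, TT B < T (j + 1) := by
    exact ⟨p * (m + 1), lt_of_lt_of_le hup (seed_mono (Nat.le_succ _))⟩
  classical
  obtain ⟨κ, hκ1, hκ2⟩ : ∃ κ, TT B < T (κ + 1) ∧ ∀ j, j < κ → ¬ TT B < T (j + 1) :=
    ⟨Nat.find hex, Nat.find_spec hex, fun j hj => Nat.find_min hex hj⟩
  have hκ3 : κ + 1 ≤ p * (m + 1) := by
    by_contra hc
    have hpm : 1 ≤ p * (m + 1) := Nat.mul_pos hpos (Nat.succ_pos m)
    apply hκ2 (p * (m + 1) - 1) (by omega)
    rwa [Nat.sub_add_cancel hpm]
  have hκ4 : p * m ≤ κ := by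
    by_contra hc
    have := seed_mono (show κ + 1 ≤ p * m by omega)
    omega
  have hpm1 : 1 ≤ p * m := Nat.mul_pos hpos hm
  have hκ5 : T κ ≤ TT B := by
    rcases Nat.eq_zero_or_pos κ with h0 | h0
    · rw [h0]
      exact Nat.zero_le _
    · have := hκ2 (κ - 1) (by omega)
      rw [Nat.sub_add_cancel h0] at this
      omega
  have hbigκ : 27000 * M ^ 3 ≤ κ * d := hbig.trans (Nat.mul_le_mul_right d hκ4)
  rw [← hAB]
  refine h2 F d κ A B (h1 F m h) (by omega) (by omega) hκ5 hκ1 ?_ ?_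
  · exact h3 F d κ M A hM hAM (by omega) hbigκ
  · exact h3 F d (κ + 1) M A hM hAM (by omega)
      (hbigκ.trans (Nat.mul_le_mul_right d (Nat.le_succ κ)))

end ShghC
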