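import Pool.Agent.ShghC.Spec

/-!
# ShghC, Seg: the lowest exponents form initial segments of the rows
-/

namespace ShghC

open MvPolynomial ShghJ

universe u v w

private theorem dc_mul {K : Type u} [Field K] (D : Derivation ℤ K K)
    (f g : MvPolynomial (Fin 2) K) : Dc D (f * g) = Dc D f * g + f * Dc D g := by
  classical
  ext e
  rw [coeff_Dc, coeff_add, coeff_mul, coeff_mul, coeff_mul, map_sum, ← Finset.sum_add_distrib]
  refine Finset.sum_congr rfl fun x _ => ?_
  rw [Derivation.leibniz, coeff_Dc, coeff_Dc, smul_eq_mul, smul_eq_mul]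
  ring

private theorem dc_C {K : Type u} [Field K] (D : Derivation ℤ K K) (c : K) :
    Dc D (C c) = C (D c) := by
  classical
  ext e
  rw [coeff_Dc, coeff_C, coeff_C]
  split_ifs with h
  · rfl
  · exact map_zero D

private theorem dc_X {K : Type u} [Field K] (D : Derivation ℤ K K) (i : Fin 2) :
    Dc D (X i) = 0 := by
  classical
  ext e
  rw [coeff_Dc, coeff_X', coeff_zero]
  split_ifs with h
  · exact Derivation.map_one_eq_zero D
  · exact map_zero D

/-- `E = Dc D - pderiv 0` kills the powers of `X 0 + C η`. -/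
private theorem dc_pow {K : Type u} [Field K] (D : Derivation ℤ K K) (η : K) (hη : D η = 1)
    (n : ℕ) : Dc D ((X 0 + C η : MvPolynomial (Fin 2) K) ^ n) =
      pderiv 0 ((X 0 + C η : MvPolynomial (Fin 2) K) ^ n) := by
  induction n with
  | zero =>
    rw [pow_zero, pderiv_one, ← C_1, dc_C, Derivation.map_one_eq_zero, C_0]
  | succ n ih =>
    rw [pow_succ, dc_mul, ih, pderiv_mul, map_add, dc_X, dc_C, hη, map_add, pderiv_X_self,
      pderiv_C, C_1]
    ring

private theorem dc_Psi {K : Type u} [Field K] (D : Derivation ℤ K K) (η : K) (hη : D η = 1)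
    (a : ℕ) (f : MvPolynomial (Fin 2) K) :
    Psi η a (Dc D f) = Dc D (Psi η a f) - pderiv 0 (Psi η a f) := by
  induction f using MvPolynomial.induction_on with
  | C c =>
    rw [dc_C, Psi_C, Psi_C, dc_C, pderiv_C, sub_zero]
  | add f g hf hg =>
    rw [map_add, map_add, hf, hg, map_add, map_add, map_add]
    ring
  | mul_X f i hf =>
    rw [dc_mul, dc_X, mul_zero, add_zero, map_mul, hf, map_mul, dc_mul, pderiv_mul]
    fin_cases i
    · simp only [Fin.zero_eta, Fin.isValue]
      rw [Psi_X0, map_add, dc_X, dc_C, hη, map_add, pderiv_X_self, pderiv_C, C_1]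
      ring
    · simp only [Fin.mk_one, Fin.isValue]
      rw [Psi_X1, map_add, dc_X, dc_pow D η hη, map_add, pderiv_X_of_ne (by decide)]
      ring

theorem tSeg (h1 : S_NClo.{u}) : S_Seg.{u} := by
  classical
  intro K _ _ D η a s N μ p hη hp i k hik
  obtain ⟨F, hF, hne, hlow⟩ := hik
  obtain ⟨f, hf, rfl⟩ := Submodule.mem_map.1 hF
  rw [AlgHom.toLinearMap_apply] at hne hlow
  have hDf := h1.2 K D N s μ p hp f hf
  have hco : ∀ e : Fin 2 →₀ ℕ, (Psi η a (Dc D f)).coeff e =
      D ((Psi η a f).coeff e) -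
        (Psi η a f).coeff (e + Finsupp.single 0 1) * ((e 0 : K) + 1) := by
    intro e
    rw [dc_Psi D η hη, coeff_sub, coeff_Dc, coeff_pderiv]
  refine ⟨Psi η a (Dc D f), ⟨Dc D f, hDf, rfl⟩, ?_, ?_⟩
  · rw [hco, hlow (ex i k) (Or.inr ⟨by rw [ex_one, ex_one], by rw [ex_zero, ex_zero]; omega⟩),
      map_zero, zero_sub, neg_ne_zero, ex_zero]
    have he : ex i k + Finsupp.single 0 1 = ex (i + 1) k := by
      ext j
      fin_cases j <;> simp [ex]
    rw [he]
    refine mul_ne_zero hne ?_
    exact Nat.cast_add_one_ne_zero i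
  · intro e' he'
    rw [ex_one, ex_zero] at he'
    rw [hco, hlow e' ?_, hlow (e' + Finsupp.single 0 1) ?_, map_zero, zero_mul, sub_zero]
    · rw [ex_one, ex_zero, Finsupp.add_apply, Finsupp.add_apply, Finsupp.single_eq_same,
        Finsupp.single_eq_of_ne (by decide)]
      rcases he' with h | ⟨h, h'⟩
      · exact Or.inl (by omega)
      · exact Or.inr ⟨by omega, by omega⟩
    · rw [ex_one, ex_zero]
      rcases he' with h | ⟨h, h'⟩
      · exact Or.inl h
      · exact Or.inr ⟨h, by omega⟩

end ShghC
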