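import Pool.Agent.ShghC.Spec

/-!
# ShghC, STRIPWIN: the window of a strip
-/

set_option autoImplicit false

namespace ShghC

open ShghJ

namespace StripWin

variable {n τ : ℕ} {h : ℕ → Multiset ℕ → ℕ}

theorem TT_add' (A B : Multiset ℕ) : TT (A + B) = TT A + TT B := by
  unfold TT
  rw [Multiset.map_add, Multiset.sum_add]

/-- the increment `r e = h e - h (e - 1)` -/
def sr (h : ℕ → Multiset ℕ → ℕ) (B : Multiset ℕ) (e : ℕ) : ℕ :=
  h e B - (if e = 0 then 0 else h (e - 1) B)

theorem sr_zero (B : Multiset ℕ) : sr h B 0 = h 0 B := by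
  unfold sr
  rw [if_pos rfl, Nat.sub_zero]

theorem sr_succ (B : Multiset ℕ) (e : ℕ) : sr h B (e + 1) = h (e + 1) B - h e B := by
  unfold sr
  rw [if_neg (Nat.succ_ne_zero e), Nat.add_sub_cancel]

theorem sr_mono (H : StripFun n τ h) (B : Multiset ℕ) : Monotone (sr h B) := by
  refine monotone_nat_of_le_succ fun e => ?_
  rcases e with _ | e
  · rw [sr_zero, sr_succ]
    have := H.conv0 B
    rw [Nat.zero_add]
    omega
  · rw [sr_succ, sr_succ]
    have h1 : 2 * h (e + 1) B ≤ h (e + 1 + 1) B + h e B := H.conv e B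
    have h2 := H.mono e B
    have h3 := H.mono (e + 1) B
    omega

theorem sr_le (H : StripFun n τ h) (B : Multiset ℕ) (e : ℕ) : sr h B e ≤ τ + 1 := by
  refine (sr_mono H B (Nat.le_succ e)).trans ?_
  rw [Nat.succ_eq_add_one, sr_succ]
  have := H.rle e B
  omega

theorem h_sum' (H : StripFun n τ h) (B : Multiset ℕ) (e : ℕ) :
    h e B = ∑ j ∈ Finset.range (e + 1), sr h B j := by
  induction e with
  | zero => rw [Finset.sum_range_one, sr_zero]
  | succ e ih =>
    rw [Finset.sum_range_succ, ← ih, sr_succ]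
    have := H.mono e B
    omega

theorem h_sum (H : StripFun n τ h) (B : Multiset ℕ) (e : ℕ) :
    h e B = ∑ i ∈ Finset.range (e + 1), sr h B (e - i) := by
  rw [h_sum' H, ← Finset.sum_range_reflect]
  refine Finset.sum_congr rfl fun i _ => ?_
  rw [Nat.add_sub_cancel]

/-- the drop of `h e` -/
theorem drop (H : StripFun n τ h) (B : Multiset ℕ) (e m : ℕ) :
    h e (m ::ₘ B) + ∑ i ∈ Finset.range (e + 1), min (sr h B (e - i)) (m - i) ≤ h e B := by
  have h1 := H.fib e m B
  have h2 := h_sum H B e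
  have h3 : ∑ i ∈ Finset.range (e + 1), ((h (e - i) B -
      (if e - i = 0 then 0 else h (e - i - 1) B)) - (m - i)) +
      ∑ i ∈ Finset.range (e + 1), min (sr h B (e - i)) (m - i) =
      ∑ i ∈ Finset.range (e + 1), sr h B (e - i) := by
    rw [← Finset.sum_add_distrib]
    refine Finset.sum_congr rfl fun i _ => ?_
    show sr h B (e - i) - (m - i) + min (sr h B (e - i)) (m - i) = sr h B (e - i)
    omega
  omega

theorem h_mono (H : StripFun n τ h) (B : Multiset ℕ) {e e' : ℕ} (he : e ≤ e') :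
    h e B ≤ h e' B := by
  induction e', he using Nat.le_induction with
  | base => exact le_refl _
  | succ k _ ih => exact ih.trans (H.mono k B)

theorem h_anti (H : StripFun n τ h) (e : ℕ) (A B : Multiset ℕ) : h e (A + B) ≤ h e B := by
  induction A using Multiset.induction_on with
  | empty => rw [zero_add]
  | cons a A ih =>
    rw [Multiset.cons_add]
    exact (H.anti e a (A + B)).trans ih

/-- the first degree with `h ≥ 1` -/
noncomputable def d1 (h : ℕ → Multiset ℕ → ℕ) (B : Multiset ℕ) : ℕ := sInf {j | 1 ≤ h j B}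

theorem d1_le {B : Multiset ℕ} {e : ℕ} (he : 1 ≤ h e B) : d1 h B ≤ e := Nat.sInf_le he

theorem d1_spec {B : Multiset ℕ} {e : ℕ} (he : 1 ≤ h e B) : 1 ≤ h (d1 h B) B :=
  Nat.sInf_mem (s := {j | 1 ≤ h j B}) ⟨e, he⟩

theorem d1_lt {B : Multiset ℕ} {e : ℕ} (he : e < d1 h B) : h e B = 0 := by
  by_contra hcon
  have := d1_le (h := h) (B := B) (e := e) (by omega)
  omega

theorem d1_mono (H : StripFun n τ h) {m : ℕ} {B : Multiset ℕ} {e : ℕ}
    (he : 1 ≤ h e (m ::ₘ B)) : d1 h B ≤ d1 h (m ::ₘ B) :=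
  d1_le ((d1_spec he).trans (H.anti _ m B))

theorem two_T' (j : ℕ) : 2 * T j = j * (j + 1) := by
  unfold T
  exact Nat.mul_div_cancel' (Nat.even_mul_succ_self j).two_dvd

theorem sum_T (m : ℕ) : ∑ i ∈ Finset.range m, (m - i) = T m := by
  have h1 : ∑ i ∈ Finset.range m, (m - i) = ∑ i ∈ Finset.range m, (i + 1) := by
    rw [← Finset.sum_range_reflect]
    refine Finset.sum_congr rfl fun i hi => ?_
    have := Finset.mem_range.1 hi
    omega
  rw [h1]
  have h2 : ∀ k : ℕ, 2 * ∑ i ∈ Finset.range k, (i + 1) = k * (k + 1) := by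
    intro k
    induction k with
    | zero => rfl
    | succ k ih =>
      rw [Finset.sum_range_succ, mul_add, ih]
      ring
  have h3 := h2 m
  have h4 := two_T' m
  omega

/-- a bad step: small increments -/
theorem bad1 (H : StripFun n τ h) {B : Multiset ℕ} {e m : ℕ}
    (hb : h e B < h e (m ::ₘ B) + T m) {j : ℕ} (hj : j + m ≤ e + 1) : sr h B j + 1 ≤ m := by
  by_contra hcon
  push Not at hcon
  have h1 := drop H B e m
  have h2 : T m ≤ ∑ i ∈ Finset.range (e + 1), min (sr h B (e - i)) (m - i) := by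
    rw [← sum_T m]
    calc ∑ i ∈ Finset.range m, (m - i)
        ≤ ∑ i ∈ Finset.range m, min (sr h B (e - i)) (m - i) := by
          refine Finset.sum_le_sum fun i hi => ?_
          have hi' := Finset.mem_range.1 hi
          have h3 : sr h B j ≤ sr h B (e - i) := sr_mono H B (by omega)
          omega
      _ ≤ ∑ i ∈ Finset.range (e + 1), min (sr h B (e - i)) (m - i) :=
          Finset.sum_le_sum_of_subset (Finset.range_subset_range.2 (by omega))
  omega

/-- a bad step: `h e B` is small -/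
theorem bad2 (H : StripFun n τ h) {B : Multiset ℕ} {e m : ℕ}
    (hb : h e B < h e (m ::ₘ B) + T m) (hd : d1 h B ≤ e) :
    1 ≤ m ∧ h e B ≤ (m - 1) * (e - d1 h B + τ + 2) := by
  have hm : 1 ≤ m := by
    by_contra hm
    have : m = 0 := by omega
    subst this
    have h1 := H.anti e 0 B
    have h2 : T 0 = 0 := rfl
    omega
  refine ⟨hm, ?_⟩
  have h1 : ∀ j ∈ Finset.range (e + 1), sr h B j ≤
      (if d1 h B ≤ j then m - 1 else 0) + (if e + 1 < j + m then τ + 1 else 0) := by
    intro j hj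
    by_cases h2 : e + 1 < j + m
    · rw [if_pos h2]
      have := sr_le H B j
      omega
    · rw [if_neg h2, add_zero]
      by_cases h3 : d1 h B ≤ j
      · rw [if_pos h3]
        have := bad1 H hb (j := j) (by omega)
        omega
      · rw [if_neg h3]
        have h4 : h j B = 0 := d1_lt (by omega)
        unfold sr
        omega
  have h2 := Finset.sum_le_sum h1
  rw [← h_sum' H, Finset.sum_add_distrib, ← Finset.sum_filter, ← Finset.sum_filter,
    Finset.sum_const, Finset.sum_const, smul_eq_mul, smul_eq_mul] at h2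
  have h3 : ((Finset.range (e + 1)).filter fun j => d1 h B ≤ j).card ≤ e + 1 - d1 h B := by
    have : (Finset.range (e + 1)).filter (fun j => d1 h B ≤ j) ⊆ Finset.Ico (d1 h B) (e + 1) := by
      intro j hj
      rw [Finset.mem_filter, Finset.mem_range] at hj
      rw [Finset.mem_Ico]
      exact ⟨hj.2, hj.1⟩
    exact (Finset.card_le_card this).trans (by rw [Nat.card_Ico])
  have h4 : ((Finset.range (e + 1)).filter fun j => e + 1 < j + m).card ≤ m - 1 := by
    have : (Finset.range (e + 1)).filter (fun j => e + 1 < j + m) ⊆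
        Finset.Ico (e + 2 - m) (e + 1) := by
      intro j hj
      rw [Finset.mem_filter, Finset.mem_range] at hj
      rw [Finset.mem_Ico]
      omega
    exact (Finset.card_le_card this).trans (by rw [Nat.card_Ico]; omega)
  calc h e B ≤ _ := h2
    _ ≤ (e + 1 - d1 h B) * (m - 1) + (m - 1) * (τ + 1) :=
        add_le_add (Nat.mul_le_mul_right _ h3) (Nat.mul_le_mul_right _ h4)
    _ = (m - 1) * (e - d1 h B + τ + 2) := by
        rw [show e + 1 - d1 h B = e - d1 h B + 1 by omega]
        ring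

/-- one step of the chain -/
theorem step (H : StripFun n τ h) {B : Multiset ℕ} {e M μ : ℕ} (hM : M ≤ e) (hμ : μ ≤ M)
    (h1 : 1 ≤ h (e - M) (μ ::ₘ B)) :
    3 * T μ + 12 * h e (μ ::ₘ B) + 2 * (M + 1) * d1 h B ≤
      12 * h e B + 2 * (M + 1) * d1 h (μ ::ₘ B) := by
  have hd := d1_mono H h1
  have hT := two_T' μ
  by_cases hc : μ ≤ 4 * sr h B (e - μ / 2)
  · have h2 := drop H B e μ
    have h3 : (μ / 2 + 1) * μ ≤ 4 * ∑ i ∈ Finset.range (e + 1), min (sr h B (e - i)) (μ - i) := by
      calc (μ / 2 + 1) * μ = ∑ i ∈ Finset.range (μ / 2 + 1), μ := by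
            rw [Finset.sum_const, Finset.card_range, smul_eq_mul]
        _ ≤ ∑ i ∈ Finset.range (μ / 2 + 1), 4 * min (sr h B (e - i)) (μ - i) := by
            refine Finset.sum_le_sum fun i hi => ?_
            have hi' := Finset.mem_range.1 hi
            have h4 : sr h B (e - μ / 2) ≤ sr h B (e - i) := sr_mono H B (by omega)
            omega
        _ = 4 * ∑ i ∈ Finset.range (μ / 2 + 1), min (sr h B (e - i)) (μ - i) := by
            rw [Finset.mul_sum]
        _ ≤ _ := Nat.mul_le_mul_left _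
            (Finset.sum_le_sum_of_subset (Finset.range_subset_range.2 (by omega)))
    have h4 : μ * (μ + 1) ≤ 2 * ((μ / 2 + 1) * μ) := by
      have : μ + 1 ≤ 2 * (μ / 2 + 1) := by omega
      calc μ * (μ + 1) ≤ μ * (2 * (μ / 2 + 1)) := Nat.mul_le_mul_left _ this
        _ = 2 * ((μ / 2 + 1) * μ) := by ring
    have h5 : 2 * (M + 1) * d1 h B ≤ 2 * (M + 1) * d1 h (μ ::ₘ B) := Nat.mul_le_mul_left _ hd
    omega
  · push Not at hc
    set d' := d1 h (μ ::ₘ B) with hd'
    have h2 : d' ≤ e - M := d1_le h1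
    have h3 : 1 ≤ h d' (μ ::ₘ B) := d1_spec h1
    have h4 := H.fib d' μ B
    obtain ⟨i, hi, hi2⟩ : ∃ i ∈ Finset.range (d' + 1), μ - i < sr h B (d' - i) := by
      by_contra hcon
      push Not at hcon
      have h5 : ∑ i ∈ Finset.range (d' + 1), ((h (d' - i) B -
          (if d' - i = 0 then 0 else h (d' - i - 1) B)) - (μ - i)) = 0 := by
        refine Finset.sum_eq_zero fun i hi => ?_
        have h6 := hcon i hi
        show sr h B (d' - i) - (μ - i) = 0
        omega
      omega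
    have hi' := Finset.mem_range.1 hi
    have h5 : sr h B (d' - i) ≤ sr h B (e - μ / 2) := sr_mono H B (by omega)
    have h6 : 1 ≤ h (d' - i) B := by
      have : sr h B (d' - i) ≤ h (d' - i) B := by
        unfold sr
        omega
      omega
    have h7 : d1 h B ≤ d' - i := d1_le h6
    have h8 : 3 * μ + 5 ≤ 4 * (d' - d1 h B) := by omega
    have h9 := H.anti e μ B
    have h10 : 3 * (μ * (μ + 1)) ≤ 4 * ((M + 1) * (d' - d1 h B)) := by
      calc 3 * (μ * (μ + 1)) ≤ (M + 1) * (3 * μ + 5) := by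
            calc 3 * (μ * (μ + 1)) = (μ + 1) * (3 * μ) := by ring
              _ ≤ (M + 1) * (3 * μ + 5) := Nat.mul_le_mul (by omega) (by omega)
        _ ≤ (M + 1) * (4 * (d' - d1 h B)) := Nat.mul_le_mul_left _ h8
        _ = 4 * ((M + 1) * (d' - d1 h B)) := by ring
    have h11 : 2 * (M + 1) * d' = 2 * ((M + 1) * (d' - d1 h B)) + 2 * (M + 1) * d1 h B := by
      obtain ⟨k, hk⟩ := Nat.exists_eq_add_of_le hd
      rw [hk, Nat.add_sub_cancel_left]
      ring
    omega

/-- the chain -/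
theorem chain (H : StripFun n τ h) {e M : ℕ} (hM : M ≤ e) (B : Multiset ℕ) :
    ∀ A : Multiset ℕ, (∀ x ∈ A, x ≤ M) → 1 ≤ h (e - M) (A + B) →
    3 * TT A + 12 * h e (A + B) + 2 * (M + 1) * d1 h B ≤
      12 * h e B + 2 * (M + 1) * d1 h (A + B) := by
  intro A
  induction A using Multiset.induction_on with
  | empty =>
    intro _ _
    rw [zero_add]
    have : TT (0 : Multiset ℕ) = 0 := by simp [TT]
    omega
  | cons a A ih =>
    intro hA h1
    rw [Multiset.cons_add] at h1 ⊢
    have h2 := ih (fun x hx => hA x (Multiset.mem_cons_of_mem hx)) (h1.trans (H.anti _ a (A + B)))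
    have h3 := step H hM (hA a (Multiset.mem_cons_self a A)) h1
    have h4 : TT (a ::ₘ A) = T a + TT A := by simp [TT]
    omega

/-- the number of conditions is a bound -/
theorem low_all (H : StripFun n τ h) (e : ℕ) (B : Multiset ℕ) : h e 0 ≤ h e B + TT B := by
  induction B using Multiset.induction_on with
  | empty => omega
  | cons a B ih =>
    have h1 := H.low e a B
    have h4 : TT (a ::ₘ B) = T a + TT B := by simp [TT]
    omega

/-- a first bad step -/
def FB (h : ℕ → Multiset ℕ → ℕ) (M e : ℕ) (B : Multiset ℕ) (m : ℕ) : Prop :=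
  h e B < h e (m ::ₘ B) + T m ∧ h e B + TT B = h e 0 ∧ 1 ≤ h e B ∧ m ≤ M ∧ ∀ x ∈ B, x ≤ M

theorem first (H : StripFun n τ h) {M e : ℕ} : ∀ B : Multiset ℕ, (∀ x ∈ B, x ≤ M) →
    1 ≤ h e B → h e B + TT B ≤ h e 0 ∨ ∃ (A B₁ : Multiset ℕ) (m : ℕ), B = (m ::ₘ A) + B₁ ∧
      FB h M e B₁ m := by
  intro B
  induction B using Multiset.induction_on with
  | empty =>
    intro _ _
    left
    have : TT (0 : Multiset ℕ) = 0 := by simp [TT]
    omega
  | cons a B ih =>
    intro hB h1
    have h2 : 1 ≤ h e B := h1.trans (H.anti _ a B)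
    have hB' : ∀ x ∈ B, x ≤ M := fun x hx => hB x (Multiset.mem_cons_of_mem hx)
    have h4 : TT (a ::ₘ B) = T a + TT B := by simp [TT]
    rcases ih hB' h2 with h3 | ⟨A, B₁, m, h3, h5⟩
    · by_cases hb : h e B < h e (a ::ₘ B) + T a
      · right
        refine ⟨0, B, a, ?_, hb, ?_, h2, hB a (Multiset.mem_cons_self a B), hB'⟩
        · rw [Multiset.cons_add, zero_add]
        · have := low_all H e B
          omega
      · left
        omega
    · right
      refine ⟨a ::ₘ A, B₁, m, ?_, h5⟩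
      rw [h3, Multiset.cons_swap, Multiset.cons_add a]

/-- (P4) -/
theorem p4 (H : StripFun n τ h) {M e : ℕ} (hM1 : 1 ≤ M) (hM : M ≤ e) (B : Multiset ℕ)
    (hB : ∀ x ∈ B, x ≤ M) (h1 : 1 ≤ h (e - M) B) : TT B ≤ h e 0 ∨ ∃ (B₁ : Multiset ℕ) (m : ℕ),
      FB h M e B₁ m ∧ TT B ≤ h e 0 + 4 * M * (e - d1 h B₁ + τ + 2) := by
  have h2 : 1 ≤ h e B := h1.trans (h_mono H B (Nat.sub_le e M))
  rcases first H B hB h2 with h3 | ⟨A, B₁, m, h3, h4⟩
  · left
    omega
  · right
    refine ⟨B₁, m, h4, ?_⟩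
    obtain ⟨b1, b2, b3, b4, b5⟩ := h4
    have hd : d1 h B₁ ≤ e := d1_le b3
    obtain ⟨hm, b6⟩ := bad2 H b1 hd
    have hA : ∀ x ∈ m ::ₘ A, x ≤ M := fun x hx => hB x (by
      rw [h3]
      exact Multiset.mem_add.2 (Or.inl hx))
    rw [h3] at h1
    have h5 := chain H hM B₁ (m ::ₘ A) hA h1
    rw [← h3] at h5
    have h6 : d1 h B ≤ e - M := d1_le (by rw [h3]; exact h1)
    have h7 : TT B = TT (m ::ₘ A) + TT B₁ := by rw [h3, TT_add']
    set u := e - d1 h B₁ with hu
    have h8 : (m - 1) * (u + τ + 2) ≤ (M - 1) * (u + τ + 2) := Nat.mul_le_mul_right _ (by omega)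
    have h9 : 2 * (M + 1) * d1 h B ≤ 2 * (M + 1) * (d1 h B₁ + u) :=
      Nat.mul_le_mul_left _ (by omega)
    have h10 : 2 * (M + 1) * (d1 h B₁ + u) = 2 * (M + 1) * d1 h B₁ + 2 * (M + 1) * u := by ring
    have h11 : 9 * ((M - 1) * (u + τ + 2)) + 2 * (M + 1) * u ≤ 12 * M * (u + τ + 2) := by
      obtain ⟨k, rfl⟩ := Nat.exists_eq_add_of_le hM1
      rw [Nat.add_sub_cancel_left]
      nlinarith
    have h12 : 12 * M * (u + τ + 2) = 3 * (4 * M * (u + τ + 2)) := by ring
    omega

/-- the sum of the rows -/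
theorem G_succ (H : StripFun n τ h) {e : ℕ} (he : n * τ ≤ e) : h (e + 1) 0 = h e 0 + (τ + 1) := by
  rw [H.empty, H.empty]
  have h1 : ∀ k ∈ Finset.range (τ + 1), e + 1 + 1 - n * k = (e + 1 - n * k) + 1 := by
    intro k hk
    have h2 : n * k ≤ n * τ := Nat.mul_le_mul_left _ (by
      have := Finset.mem_range.1 hk
      omega)
    omega
  rw [Finset.sum_congr rfl h1, Finset.sum_add_distrib, Finset.sum_const, Finset.card_range,
    smul_eq_mul, mul_one]

theorem G_add (H : StripFun n τ h) {e : ℕ} (he : n * τ ≤ e) (k : ℕ) :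
    h (e + k) 0 = h e 0 + k * (τ + 1) := by
  induction k with
  | zero => simp
  | succ k ih =>
    rw [← add_assoc, G_succ H (he.trans (Nat.le_add_right _ _)), ih]
    ring

/-- (P5) -/
theorem p5 (H : StripFun n τ h) {M : ℕ} (hM1 : 1 ≤ M) (hτ : 20 * M ≤ τ + 1) :
    ∀ e : ℕ, n * τ ≤ e → ∀ (B : Multiset ℕ) (m : ℕ), FB h M e B m →
      e - d1 h B ≤ 12 * M + (n * τ + 14 * (n + 1) * M - (e - n * τ)) := by
  intro e
  induction e using Nat.strong_induction_on with
  | _ e ih =>
    intro he B m hF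
    by_contra hcon
    push Not at hcon
    obtain ⟨b1, b2, b3, b4, b5⟩ := hF
    have hd : d1 h B ≤ e := d1_le b3
    obtain ⟨hm, b6⟩ := bad2 H b1 hd
    obtain ⟨N, hN⟩ : ∃ N, N = n * τ := ⟨_, rfl⟩
    obtain ⟨W, hW⟩ : ∃ W, W = (n + 1) * M := ⟨_, rfl⟩
    have hW2 : 14 * (n + 1) * M = 14 * W := by rw [hW]; ring
    rw [hW2] at hcon
    rw [← hN] at hcon he
    -- the next degree
    set e' := max (d1 h B + M) N with he'
    have h1 : e' < e := by
      rw [he', max_lt_iff]
      constructor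
      · omega
      · by_contra h2
        omega
    have h2 : N ≤ e' := le_max_right _ _
    have h3 : d1 h B + M ≤ e' := le_max_left _ _
    have h4 : 1 ≤ h (e' - M) B := (d1_spec b3).trans (h_mono H B (by omega))
    have h5 := G_add H (e := e') (by rw [← hN]; exact h2) (e - e')
    rw [Nat.add_sub_cancel' (le_of_lt h1)] at h5
    have h6 : (m - 1) * (e - d1 h B + τ + 2) ≤ (M - 1) * (e - d1 h B + τ + 2) :=
      Nat.mul_le_mul_right _ (by omega)
    -- the bound
    obtain ⟨u', hu', h7⟩ : ∃ u' : ℕ, (u' ≤ e' ∧ u' ≤ 12 * M + (N + 14 * W - (e' - N))) ∧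
        TT B ≤ h e' 0 + 4 * M * (u' + τ + 2) := by
      rcases p4 H hM1 (le_trans (by omega) h3) B b5 h4 with h8 | ⟨B₂, m₂, h8, h9⟩
      · exact ⟨0, ⟨Nat.zero_le _, Nat.zero_le _⟩, h8.trans (Nat.le_add_right _ _)⟩
      · refine ⟨e' - d1 h B₂, ⟨Nat.sub_le _ _, ?_⟩, h9⟩
        have := ih e' h1 (by rw [← hN]; exact h2) B₂ m₂ h8
        rw [hW2, ← hN] at this
        exact this
    set u := e - d1 h B with hu
    have h8 : (e - e') * (τ + 1) ≤ (M - 1) * (u + τ + 2) + 4 * M * (u' + τ + 2) := by omega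
    rcases le_total (d1 h B + M) N with h9 | h9
    · -- `e' = n τ`
      have h10 : e' = N := max_eq_right h9
      rw [h10] at h8 hu'
      obtain ⟨y, rfl⟩ := Nat.exists_eq_add_of_le he
      rw [Nat.add_sub_cancel_left] at h8
      have h11 : 7 * W + 6 * M < y := by omega
      have h12 : u ≤ N + y := by omega
      have h13 : y * (τ + 1) ≤ (M - 1) * (N + y + τ + 2) + 4 * M * (N + τ + 2) := by
        refine h8.trans (add_le_add (Nat.mul_le_mul_left _ (by omega))
          (Nat.mul_le_mul_left _ (by omega)))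
      obtain ⟨k, rfl⟩ := Nat.exists_eq_add_of_le hM1
      rw [Nat.add_sub_cancel_left] at h13
      obtain ⟨t, ht⟩ := Nat.exists_eq_add_of_le hτ
      nlinarith
    · have h10 : e' = d1 h B + M := max_eq_left h9
      obtain ⟨w, hw⟩ : ∃ w, u = w + M := ⟨u - M, by omega⟩
      have h11 : e - e' = w := by omega
      rw [h11] at h8
      obtain ⟨z, hz⟩ : ∃ z, z = N + 14 * W - (e - N) := ⟨_, rfl⟩
      rw [← hz] at hcon
      have h12 : u' ≤ 12 * M + z + w := by omega
      have h13 : w * (τ + 1) ≤ (M - 1) * (w + M + τ + 2) + 4 * M * (12 * M + z + w + τ + 2) := by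
        refine h8.trans (add_le_add (Nat.mul_le_mul_left _ (by omega))
          (Nat.mul_le_mul_left _ (by omega)))
      have h14 : 11 * M + z < w := by omega
      obtain ⟨k, rfl⟩ := Nat.exists_eq_add_of_le hM1
      rw [Nat.add_sub_cancel_left] at h13
      obtain ⟨t, ht⟩ := Nat.exists_eq_add_of_le hτ
      obtain ⟨v, rfl⟩ := Nat.exists_eq_add_of_le (Nat.succ_le_of_lt h14)
      nlinarith

end StripWin

open StripWin in
theorem tStripWin : S_StripWin := by
  intro n τ h H M e B hM1 hτ hB he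
  rw [← H.empty e]
  constructor
  · intro h1
    have h2 : 1 ≤ h (e + M - M) B := by
      rw [Nat.add_sub_cancel]
      exact h1
    have h0 : n * τ ≤ e := by
      have := Nat.zero_le (14 * (n + 1) * M)
      omega
    have h3 := G_add H h0 M
    have h4 : M * (τ + 1) + 4 * M * (12 * M + τ + 2) ≤ 5 * M * (τ + 2) + 48 * M ^ 2 := by
      nlinarith
    rcases p4 H hM1 (Nat.le_add_left M e) B hB h2 with h5 | ⟨B₁, m, h5, h6⟩
    · omega
    · have h7 := p5 H hM1 hτ (e + M) (h0.trans (Nat.le_add_right _ _)) B₁ m h5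
      have h8 : e + M - d1 h B₁ ≤ 12 * M := by omega
      have h9 : 4 * M * (e + M - d1 h B₁ + τ + 2) ≤ 4 * M * (12 * M + τ + 2) :=
        Nat.mul_le_mul_left _ (by omega)
      omega
  · intro h1
    have h0 : n * τ ≤ e := by
      have := Nat.zero_le (14 * (n + 1) * M)
      omega
    have h2 := low_all H e B
    have h3 : 1 ≤ M * (τ + 12 * M + 2) := Nat.mul_pos hM1 (by omega)
    rcases first H (M := M) (e := e) B hB (by omega) with h4 | ⟨A, B₁, m, h4, h5⟩
    · omega
    · exfalso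
      have h7 := p5 H hM1 hτ e h0 B₁ m h5
      obtain ⟨b1, b2, b3, b4, b5⟩ := h5
      obtain ⟨hm, b6⟩ := bad2 H b1 (d1_le b3)
      have h8 : e - d1 h B₁ ≤ 12 * M := by omega
      have h9 : TT B = TT (m ::ₘ A) + TT B₁ := by rw [h4, TT_add']
      have h10 : (m - 1) * (e - d1 h B₁ + τ + 2) ≤ (M - 1) * (12 * M + τ + 2) :=
        Nat.mul_le_mul (by omega) (by omega)
      have h11 : (M - 1) * (12 * M + τ + 2) + (12 * M + τ + 2) = M * (τ + 12 * M + 2) := by
        obtain ⟨k, rfl⟩ := Nat.exists_eq_add_of_le hM1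
        rw [Nat.add_sub_cancel_left]
        ring
      omega

end ShghC
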