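import Pool.Agent.ShghC.Spec

/-!
# ShghC: module XA (many equal multiplicities, arithmetic)
-/

namespace ShghC

open MvPolynomial ShghJ

universe u

private theorem xa_d {M d : ℕ} (hM : 1 ≤ M) (h : 216000 * M ^ 3 ≤ d ^ 2) : 4 * M ≤ d := by
  by_contra hlt
  push Not at hlt
  have h1 : d ^ 2 < (4 * M) ^ 2 := Nat.pow_lt_pow_left hlt two_ne_zero
  have h2 : M ^ 2 ≤ M ^ 3 := Nat.pow_le_pow_right hM (by norm_num)
  have h3 : (4 * M) ^ 2 = 16 * M ^ 2 := by ring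
  omega

private theorem xa_step {M d m g : ℕ} (hm : 1 ≤ m) (h1 : 216000 * M ^ 3 ≤ d ^ 2)
    (h2 : 2 ^ g * m * d < 27000 * M ^ 3) : 2 ^ (g + 1) * (m + 1) * 2 ≤ d := by
  have h3 : 8 * (2 ^ g * m) * d < d * d := by
    have e1 : 8 * (2 ^ g * m) * d = 8 * (2 ^ g * m * d) := by ring
    have e2 : d * d = d ^ 2 := by ring
    rw [e1, e2]
    omega
  have h4 : 8 * (2 ^ g * m) < d := lt_of_mul_lt_mul_right h3 (Nat.zero_le _)
  have h5 : 2 ^ (g + 1) * (m + 1) * 2 ≤ 8 * (2 ^ g * m) := by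
    have e3 : 2 ^ (g + 1) * (m + 1) * 2 = 2 ^ g * (4 * (m + 1)) := by ring
    have e4 : 8 * (2 ^ g * m) = 2 ^ g * (8 * m) := by ring
    rw [e3, e4]
    exact Nat.mul_le_mul_left _ (by omega)
  omega

private theorem xa_cnt {M d m g c : ℕ} (hm : 1 ≤ m) (hd : 1 ≤ d)
    (h2 : 2 ^ g * m * d < 27000 * M ^ 3) (h3 : 54000 ^ 2 * M ^ 6 ≤ c * (m * d) ^ 2) :
    4 ^ (g + 1) ≤ c := by
  have h4 : 4 ^ (g + 1) * (m * d) ^ 2 < c * (m * d) ^ 2 := by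
    have e1 : 4 ^ (g + 1) * (m * d) ^ 2 = (2 * (2 ^ g * m * d)) ^ 2 := by
      have e2 : (4 : ℕ) = 2 ^ 2 := by norm_num
      rw [e2, ← pow_mul]
      ring
    have e3 : (54000 * M ^ 3) ^ 2 = 54000 ^ 2 * M ^ 6 := by ring
    have h5 : (2 * (2 ^ g * m * d)) ^ 2 < (54000 * M ^ 3) ^ 2 :=
      Nat.pow_lt_pow_left (by omega) two_ne_zero
    rw [e1]
    rw [e3] at h5
    exact lt_of_lt_of_le h5 h3
  exact (lt_of_mul_lt_mul_right h4 (Nat.zero_le _)).le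

theorem tXA (h1 : S_Seed.{u}) : S_XA.{u} := by
  intro F _ _ d M m S hM hS hm hd hc
  have hMp : 0 < M ^ 6 := pow_pos hM 6
  have hM3 : 0 < M ^ 3 := pow_pos hM 3
  have hc0 : S.count m ≠ 0 := by
    intro h0
    rw [h0, zero_mul] at hc
    omega
  have hmM : m ≤ M := hS m (Multiset.count_ne_zero.1 hc0)
  have h4 : 4 * M ≤ d := xa_d hM hd
  have hd1 : 1 ≤ d := by omega
  have hex : ∃ h, 27000 * M ^ 3 ≤ 2 ^ h * m * d := by
    refine ⟨27000 * M ^ 3, ?_⟩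
    have e1 : 27000 * M ^ 3 ≤ 2 ^ (27000 * M ^ 3) := Nat.lt_two_pow_self.le
    have e2 : 2 ^ (27000 * M ^ 3) * 1 * 1 ≤ 2 ^ (27000 * M ^ 3) * m * d :=
      Nat.mul_le_mul (Nat.mul_le_mul_left _ hm) hd1
    rw [mul_one, mul_one] at e2
    exact e1.trans e2
  classical
  obtain ⟨h, hh, hmin⟩ : ∃ h, 27000 * M ^ 3 ≤ 2 ^ h * m * d ∧
      ∀ g, g < h → 2 ^ g * m * d < 27000 * M ^ 3 :=
    ⟨Nat.find hex, Nat.find_spec hex, fun g hg => not_le.1 (Nat.find_min hex hg)⟩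
  cases h with
  | zero =>
    refine h1 F d M m 0 S hM hS hm ?_ ?_ hh
    · rw [pow_zero]
      omega
    · rw [pow_zero]
      omega
  | succ g =>
    have hg := hmin g (Nat.lt_succ_self g)
    exact h1 F d M m (g + 1) S hM hS hm (xa_cnt hm hd1 hg hc) (xa_step hm hd hg) hh

end ShghC
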