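import Pool.Agent.ShghC.Spec
import Pool.Agent.ShghL.Main1

/-!
# ShghC: all vectors with `d ^ 4 ≥ 10 ^ 10 M ^ 7`
-/

namespace ShghC

open MvPolynomial ShghJ

universe u

theorem xb_T_le (m : ℕ) : T m ≤ m ^ 2 := by
  unfold T
  apply Nat.div_le_of_le_mul
  nlinarith [Nat.le_mul_self m]

theorem xb_pow {a b : ℕ} (n : ℕ) (hn : n ≠ 0) (h : a ^ n ≤ b ^ n) : a ≤ b :=
  (Nat.pow_le_pow_iff_left hn).1 h

/-- pigeonhole over the multiplicities -/
theorem xb_pig (d M : ℕ) (S : Multiset ℕ) (hM : 1 ≤ M) (hS : ∀ x ∈ S, x ≤ M)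
    (h : d ^ 2 ≤ 3 * TT S) : ∃ m, 1 ≤ m ∧ d ^ 2 ≤ 3 * M * (S.count m * m ^ 2) := by
  classical
  by_contra hcon
  push Not at hcon
  have h1 : TT S ≤ ∑ m ∈ Finset.Icc 1 M, S.count m * m ^ 2 := by
    unfold TT
    rw [Finset.sum_multiset_map_count]
    have h2 : ∀ m ∈ S.toFinset, S.count m • T m ≤ S.count m * m ^ 2 := by
      intro m _
      rw [smul_eq_mul]
      exact Nat.mul_le_mul_left _ (xb_T_le m)
    refine (Finset.sum_le_sum h2).trans ?_
    have h3 : S.toFinset ⊆ insert 0 (Finset.Icc 1 M) := by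
      intro m hm
      rw [Multiset.mem_toFinset] at hm
      have := hS m hm
      rw [Finset.mem_insert, Finset.mem_Icc]
      omega
    refine (Finset.sum_le_sum_of_subset h3).trans ?_
    rw [Finset.sum_insert (by simp)]
    simp
  have h4 : 3 * M * TT S < M * d ^ 2 := by
    calc 3 * M * TT S ≤ 3 * M * ∑ m ∈ Finset.Icc 1 M, S.count m * m ^ 2 :=
          Nat.mul_le_mul_left _ h1
      _ = ∑ m ∈ Finset.Icc 1 M, 3 * M * (S.count m * m ^ 2) := Finset.mul_sum _ _ _
      _ < ∑ m ∈ Finset.Icc 1 M, d ^ 2 := by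
          apply Finset.sum_lt_sum_of_nonempty
          · rw [Finset.nonempty_Icc]; exact hM
          · intro m hm
            rw [Finset.mem_Icc] at hm
            exact hcon m hm.1
      _ = M * d ^ 2 := by simp
  have h5 : M * d ^ 2 ≤ M * (3 * TT S) := Nat.mul_le_mul_left _ h
  have h6 : M * (3 * TT S) = 3 * M * TT S := by ring
  omega

theorem tXB (h1 : S_XA.{u}) : S_XB.{u} := by
  intro F _ _ d M S hM hS hd
  have hchar : ∀ n : ℕ, 1 ≤ n → n ≤ d → (n : F) ≠ 0 := fun n hn _ =>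
    Nat.cast_ne_zero.mpr (by omega)
  by_cases hwin : 16 * (M : ℤ) ^ 2 ≤ |(T (d + 1) : ℤ) - TT (0 + S)|
  · have := winBase d (hF F d) (ShghL.hfunC_hF F d hchar) M 0 S (by simp) hS hwin
    rwa [zero_add] at this
  · push Not at hwin
    rw [zero_add] at hwin
    by_cases hM30 : M ≤ 30
    · have h2 : 135 * M ^ 2 ≤ d := by
        apply xb_pow 4 (by norm_num)
        calc (135 * M ^ 2) ^ 4 = 332150625 * M * M ^ 7 := by ring
          _ ≤ 10 ^ 10 * M ^ 7 := Nat.mul_le_mul_right _ (by omega)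
          _ ≤ d ^ 4 := hd
      have := ShghL.hF_large F d hchar M 0 S hM hS (by simpa using h2)
      rwa [zero_add] at this
    · push Not at hM30
      have hd100 : 100 * M ≤ d := by
        apply xb_pow 4 (by norm_num)
        calc (100 * M) ^ 4 = 10 ^ 8 * (M ^ 4 * 1) := by ring
          _ ≤ 10 ^ 8 * (M ^ 4 * M ^ 3) :=
              Nat.mul_le_mul_left _ (Nat.mul_le_mul_left _ (Nat.one_le_pow _ _ hM))
          _ = 10 ^ 8 * M ^ 7 := by ring
          _ ≤ 10 ^ 10 * M ^ 7 := Nat.mul_le_mul_right _ (by norm_num)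
          _ ≤ d ^ 4 := hd
      have hdd : 10000 * M ^ 2 ≤ d ^ 2 := by
        calc 10000 * M ^ 2 = (100 * M) ^ 2 := by ring
          _ ≤ d ^ 2 := Nat.pow_le_pow_left hd100 2
      have hT2 : 2 * T (d + 1) = (d + 1) * (d + 2) := by
        unfold T
        exact Nat.two_mul_div_two_of_even (Nat.even_mul_succ_self (d + 1))
      have hTT : d ^ 2 ≤ 3 * TT S := by
        have h3 := (abs_lt.mp hwin).2
        have h4 : (2 : ℤ) * T (d + 1) = (d + 1) * (d + 2) := by exact_mod_cast hT2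
        have h5 : (10000 : ℤ) * M ^ 2 ≤ d ^ 2 := by exact_mod_cast hdd
        have h6 : (0 : ℤ) ≤ d := Int.natCast_nonneg _
        have h7 : (d : ℤ) ^ 2 ≤ 3 * TT S := by nlinarith
        exact_mod_cast h7
      obtain ⟨m, hm1, hm2⟩ := xb_pig d M S hM hS hTT
      have hA : 216000 * M ^ 3 ≤ d ^ 2 := by
        apply xb_pow 2 (by norm_num)
        calc (216000 * M ^ 3) ^ 2 = 46656000000 * M ^ 6 := by ring
          _ ≤ 10 ^ 10 * M * M ^ 6 := Nat.mul_le_mul_right _ (by omega)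
          _ = 10 ^ 10 * M ^ 7 := by ring
          _ ≤ d ^ 4 := hd
          _ = (d ^ 2) ^ 2 := by ring
      have hB : 54000 ^ 2 * M ^ 6 ≤ S.count m * (m * d) ^ 2 := by
        have h3 : 10 ^ 10 * M ^ 7 ≤ 3 * M * (S.count m * (m * d) ^ 2) := by
          calc 10 ^ 10 * M ^ 7 ≤ d ^ 4 := hd
            _ = d ^ 2 * d ^ 2 := by ring
            _ ≤ 3 * M * (S.count m * m ^ 2) * d ^ 2 := Nat.mul_le_mul_right _ hm2
            _ = 3 * M * (S.count m * (m * d) ^ 2) := by ring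
        have h4 : M * (54000 ^ 2 * M ^ 6) ≤ M * (S.count m * (m * d) ^ 2) := by
          have h5 : 3 * M * (54000 ^ 2 * M ^ 6) ≤ 10 ^ 10 * M ^ 7 := by
            calc 3 * M * (54000 ^ 2 * M ^ 6) = 8748000000 * M ^ 7 := by ring
              _ ≤ 10 ^ 10 * M ^ 7 := Nat.mul_le_mul_right _ (by norm_num)
          have h6 := h5.trans h3
          have h7 : 3 * (M * (54000 ^ 2 * M ^ 6)) ≤ 3 * (M * (S.count m * (m * d) ^ 2)) := by
            calc 3 * (M * (54000 ^ 2 * M ^ 6)) = 3 * M * (54000 ^ 2 * M ^ 6) := by ring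
              _ ≤ _ := h6
              _ = _ := by ring
          omega
        exact Nat.le_of_mul_le_mul_left h4 hM
      exact h1 F d M m S hM hS hm1 hA hB

end ShghC
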