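import Pool.Agent.ShghC.Spec
import Pool.Agent.ShghJ.CombK2
import Pool.Agent.ShghJ.GeoC

/-!
# ShghC: the largest multiplicity is attained often, every degree
-/

namespace ShghC

open MvPolynomial ShghJ

universe u

private theorem XC_count (S : Multiset ℕ) (M : ℕ) : S.count M * T M ≤ TT S := by
  obtain ⟨R, hR⟩ := Multiset.le_iff_exists_add.1 (Multiset.le_count_iff_replicate_le.1
    (le_refl (S.count M)))
  have h1 : TT (Multiset.replicate (S.count M) M) = S.count M * T M := by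
    unfold TT
    rw [Multiset.map_replicate, Multiset.sum_replicate, smul_eq_mul]
  have h2 : TT S = TT (Multiset.replicate (S.count M) M) + TT R := by
    rw [← TT_add, ← hR]
  omega

private theorem XC_num (d M c t u : ℕ) (hM : 1 ≤ M) (hc : 500000 * M ≤ c)
    (h1 : 2 * u = (d + 1) * (d + 2)) (h2 : 2 * t = M * (M + 1)) (h3 : c * t < u + 16 * M ^ 2) :
    216000 * M ^ 3 ≤ d ^ 2 ∧ 54000 ^ 2 * M ^ 6 ≤ c * (M * d) ^ 2 := by
  have h4 : c * M ^ 2 < (d + 1) * (d + 2) + 32 * M ^ 2 := by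
    have h5 : c * M ^ 2 ≤ c * (2 * t) := Nat.mul_le_mul_left c (by rw [h2]; nlinarith)
    nlinarith
  have h6 : 500000 * M * M ^ 2 ≤ c * M ^ 2 := Nat.mul_le_mul_right _ hc
  have hM2 : 1 ≤ M ^ 2 := Nat.one_le_pow _ _ hM
  have hM3 : M ^ 2 ≤ M ^ 3 := Nat.pow_le_pow_right hM (by omega)
  have h7 : 4 ≤ d := by
    by_contra hcon
    push Not at hcon
    have : (d + 1) * (d + 2) ≤ 4 * 5 := Nat.mul_le_mul (by omega) (by omega)
    nlinarith
  have h8 : (d + 1) * (d + 2) ≤ 2 * d ^ 2 := by nlinarith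
  have h9 : 64 * M ^ 2 ≤ c * M ^ 2 := by nlinarith
  have h10 : c * M ^ 2 ≤ 4 * d ^ 2 := by omega
  refine ⟨by nlinarith, ?_⟩
  have h11 : (500000 * M * M ^ 2) * (500000 * M * M ^ 2) ≤ (c * M ^ 2) * (4 * d ^ 2) :=
    Nat.mul_le_mul h6 (h6.trans h10)
  have e1 : (500000 * M * M ^ 2) * (500000 * M * M ^ 2) = 250000000000 * M ^ 6 := by ring
  have e2 : (c * M ^ 2) * (4 * d ^ 2) = 4 * (c * (M * d) ^ 2) := by ring
  rw [e1, e2] at h11
  omega

theorem tXC (h1 : S_XA.{u}) : S_XC.{u} := by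
  intro F _ _ d M S hM hS hc
  have hch : ∀ n : ℕ, 1 ≤ n → n ≤ d → (n : F) ≠ 0 := fun n hn _ => by
    have : n ≠ 0 := by omega
    exact_mod_cast this
  by_cases hχ : 16 * (M : ℤ) ^ 2 ≤ |(T (d + 1) : ℤ) - TT S|
  · have h2 := winBase d (hF F d) (hfunC_hF F d hch) M 0 S (by simp) hS (by
      rw [zero_add]
      exact hχ)
    rw [zero_add] at h2
    exact h2
  · push Not at hχ
    have h3 : TT S < T (d + 1) + 16 * M ^ 2 := by
      have h4 := neg_abs_le ((T (d + 1) : ℤ) - TT S)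
      have h5 : ((TT S : ℕ) : ℤ) < ((T (d + 1) + 16 * M ^ 2 : ℕ) : ℤ) := by
        push_cast
        linarith
      exact_mod_cast h5
    have h6 := XC_count S M
    obtain ⟨h7, h8⟩ := XC_num d M (S.count M) (T M) (T (d + 1)) hM hc (two_T (d + 1)) (two_T M)
      (by omega)
    exact h1 F d M M S hM hS hM h7 h8

end ShghC
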