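import Pool.Agent.ShghC.Spec

/-!
# ShghC, XSide: location of the lowest exponents
-/

namespace ShghC

open MvPolynomial ShghJ

universe u v w

private theorem xs_psi {K : Type u} [Field K] (η : K) (a k : ℕ) (g : MvPolynomial (Fin 2) K) :
    Psi η a ((X 1 - X 0 ^ a) ^ k * g) = X 1 ^ k * Psi η a g := by
  rw [map_mul, map_pow, map_sub, map_pow, Psi_X1, Psi_X0, add_sub_cancel_right]

private theorem xs_coeff {K : Type u} [Field K] (i k : ℕ) (h : MvPolynomial (Fin 2) K) :
    (X 1 ^ k * h).coeff (ex i k) = h.coeff (ex i 0) := by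
  have he : ex i k = Finsupp.single 1 k + ex i 0 := by
    ext c
    fin_cases c
    · simp [ex]
    · simp [ex]
  rw [he, X_pow_eq_monomial, coeff_monomial_mul, one_mul]

private theorem xs_div (h1 : S_RowDiv.{u}) (h4 : S_Unit.{u}) {K : Type u} [Field K] (η : K)
    (s d θ a k : ℕ) (μ : Fin s → ℕ) (p : Fin s → Fin 2 → K) (hp : ∀ i, p i 1 ≠ p i 0 ^ a)
    (ha : 1 ≤ a) (f : MvPolynomial (Fin 2) K) (hf : f ∈ LN (Trap d θ) μ p) (hf0 : f ≠ 0)
    (hr : ∀ e : Fin 2 →₀ ℕ, e 1 < k → (Psi η a f).coeff e = 0) :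
    k ≤ θ ∧ k * a ≤ d ∧ ∃ g ∈ LN (Trap (d - k * a) (θ - k)) μ p, g ≠ 0 ∧
      f = (X 1 - X 0 ^ a) ^ k * g := by
  obtain ⟨b1, b2, g, hg, rfl⟩ := h1 K η a k d θ f ha hf0 hf.1 hr
  refine ⟨b1, b2, g, ⟨hg, fun i => ?_⟩, ?_, rfl⟩
  · refine h4 K (p i 0) (p i 1) (μ i) ((X 1 - X 0 ^ a) ^ k) g ?_ (hf.2 i)
    rw [map_pow, map_sub, map_pow, eval_X, eval_X]
    apply pow_ne_zero
    exact sub_ne_zero.2 (hp i)
  · rintro rfl
    exact hf0 (mul_zero _)

theorem tXSide (h1 : S_RowDiv.{u}) (h2 : S_RowZ.{u}) (h3 : S_Seg.{u}) (h4 : S_Unit.{u})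
    (h5 : S_NClo.{u}) : S_XSide.{u} := by
  intro K _ _ D η s d θ a τ μ p hη hD hp ha hθ h0 e he
  rw [mem_St]
  have hfin := h5.1 K
  -- the analysis of an element of `Lx`
  have key : ∀ e ∈ Lx ((LN (Trap d θ) μ p).map (Psi η a).toLinearMap), e 1 ≤ τ ∧
      e 0 + (2 * a - 1) * e 1 ≤ d - θ + a * θ ∧
      ∃ g ∈ LN (Trap (d - e 1 * a) (θ - e 1)) μ p, (Psi η a g).coeff (ex (e 0) 0) ≠ 0 ∧
        ∀ i, i < e 0 → (Psi η a g).coeff (ex i 0) = 0 := by
    rintro e ⟨F, ⟨f, hf, rfl⟩, hc, hlow⟩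
    change (Psi η a f).coeff e ≠ 0 at hc
    have hlow' : ∀ e' : Fin 2 →₀ ℕ, (e' 1 < e 1 ∨ (e' 1 = e 1 ∧ e' 0 < e 0)) →
        (Psi η a f).coeff e' = 0 := hlow
    have hf0 : f ≠ 0 := by
      rintro rfl
      exact hc (by rw [map_zero, coeff_zero])
    have hτ : e 1 ≤ τ := by
      by_contra hlt
      obtain ⟨-, -, g, hg, hg0, -⟩ := xs_div h1 h4 η s d θ a (τ + 1) μ p hp ha f hf hf0
        (fun e' he' => hlow' e' (Or.inl (by omega)))
      have := hfin (Trap (d - (τ + 1) * a) (θ - (τ + 1))) s μ p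
      have hb := Submodule.finrank_eq_zero.1 h0
      rw [hb, Submodule.mem_bot] at hg
      exact hg0 hg
    obtain ⟨b1, b2, g, hg, hg0, hfg⟩ := xs_div h1 h4 η s d θ a (e 1) μ p hp ha f hf hf0
      (fun e' he' => hlow' e' (Or.inl he'))
    have hcg : ∀ i, (Psi η a f).coeff (ex i (e 1)) = (Psi η a g).coeff (ex i 0) := by
      intro i
      rw [hfg, xs_psi, xs_coeff]
    have hce : (Psi η a g).coeff (ex (e 0) 0) ≠ 0 := by
      rw [← hcg, ex_eta]
      exact hc
    refine ⟨hτ, ?_, g, hg, hce, fun i hi => ?_⟩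
    · have h := h2.1 K η a (d - e 1 * a) (θ - e 1) g ha hg.1 (e 0) hce
      obtain ⟨a', rfl⟩ := Nat.exists_eq_add_of_le ha
      obtain ⟨θ', hθ'⟩ := Nat.exists_eq_add_of_le b1
      obtain ⟨d', hd'⟩ := Nat.exists_eq_add_of_le b2
      obtain ⟨d'', hd''⟩ := Nat.exists_eq_add_of_le hθ
      have e1 : θ - e 1 = θ' := by omega
      have e2 : d - e 1 * (1 + a') = d' := by omega
      have e3 : d - θ = d'' := by omega
      have e4 : 2 * (1 + a') - 1 = 2 * a' + 1 := by omega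
      have e5 : 1 + a' - 1 = a' := by omega
      rw [e1, e2, e5] at h
      rw [e3, e4]
      have h6 : e 1 * (1 + a') + d' = θ + d'' := by omega
      rw [hθ'] at h6 ⊢
      nlinarith
    · rw [← hcg]
      refine hlow' _ (Or.inr ⟨ex_one _ _, ?_⟩)
      rw [ex_zero]
      exact hi
  obtain ⟨k1, k2, -⟩ := key e he
  rcases Nat.lt_or_ge (e 1) τ with hlt | hge
  · exact Or.inl ⟨hlt, k2⟩
  · have hτ : e 1 = τ := le_antisymm k1 hge
    refine Or.inr ⟨hτ, ?_⟩
    -- the segment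
    have hseg : ∀ n i, i + n = e 0 →
        ex i τ ∈ Lx ((LN (Trap d θ) μ p).map (Psi η a).toLinearMap) := by
      intro n
      induction n with
      | zero =>
        intro i hi
        have : ex i τ = e := by
          rw [← hτ, show i = e 0 by omega, ex_eta]
        rw [this]
        exact he
      | succ n ih =>
        intro i hi
        exact h3 K D η a s (Trap d θ) μ p hη hD i τ (ih (i + 1) (by omega))
    have hg : ∀ i : Fin (e 0 + 1), ∃ g ∈ LN (Trap (d - τ * a) (θ - τ)) μ p,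
        (Psi η a g).coeff (ex i 0) ≠ 0 ∧ ∀ i', i' < (i : ℕ) → (Psi η a g).coeff (ex i' 0) = 0 := by
      intro i
      obtain ⟨-, -, g, hg, hg1, hg2⟩ := key _ (hseg (e 0 - i) i (by omega))
      rw [ex_one] at hg
      rw [ex_zero] at hg1 hg2
      exact ⟨g, hg, hg1, hg2⟩
    choose g hgm hg1 hg2 using hg
    let v : Fin (e 0 + 1) → LN (Trap (d - τ * a) (θ - τ)) μ p := fun i => ⟨g i, hgm i⟩
    let L : LN (Trap (d - τ * a) (θ - τ)) μ p →ₗ[K] (Fin (e 0 + 1) → K) :=
      { toFun := fun f j => (Psi η a (f : MvPolynomial (Fin 2) K)).coeff (ex j 0)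
        map_add' := fun f f' => by
          funext j
          rw [Submodule.coe_add, map_add, coeff_add]
          rfl
        map_smul' := fun c f => by
          funext j
          rw [Submodule.coe_smul, map_smul, coeff_smul]
          rfl }
    let M : Matrix (Fin (e 0 + 1)) (Fin (e 0 + 1)) K := fun i j => L (v i) j
    have hM : M.BlockTriangular id := fun i j hij => hg2 i j hij
    have hdet : M.det ≠ 0 := by
      rw [Matrix.det_of_upperTriangular hM]
      exact Finset.prod_ne_zero_iff.2 fun i _ => hg1 i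
    have hli : LinearIndependent K M.row := by
      rw [Matrix.linearIndependent_rows_iff_isUnit, Matrix.isUnit_iff_isUnit_det]
      exact isUnit_iff_ne_zero.2 hdet
    have hli2 : LinearIndependent K v := LinearIndependent.of_comp L hli
    have := hfin (Trap (d - τ * a) (θ - τ)) s μ p
    have h := hli2.fintype_card_le_finrank
    rw [Fintype.card_fin] at h
    exact h

end ShghC
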