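import Pool.Agent.ShghC.NSemi
import Pool.Agent.ShghC.NInv
import Pool.Agent.ShghC.NCons
import Pool.Agent.ShghC.NClo
import Pool.Agent.ShghC.NSimple
import Pool.Agent.ShghC.ProjMap
import Pool.Agent.ShghC.Proj
import Pool.Agent.ShghC.Unit
import Pool.Agent.ShghC.Col
import Pool.Agent.ShghC.RowDiv
import Pool.Agent.ShghC.RowZ
import Pool.Agent.ShghC.Seg
import Pool.Agent.ShghC.XSide
import Pool.Agent.ShghC.GlueN
import Pool.Agent.ShghC.Glue
import Pool.Agent.ShghC.Raise
import Pool.Agent.ShghC.StA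
import Pool.Agent.ShghC.FibDiv
import Pool.Agent.ShghC.StB
import Pool.Agent.ShghC.StC
import Pool.Agent.ShghC.StripWin
import Pool.Agent.ShghC.Line
import Pool.Agent.ShghC.Four
import Pool.Agent.ShghC.Clu
import Pool.Agent.ShghC.Rep
import Pool.Agent.ShghC.Reduce
import Pool.Agent.ShghC.Long
import Pool.Agent.ShghC.Seed
import Pool.Agent.ShghC.XA
import Pool.Agent.ShghC.XB
import Pool.Agent.ShghC.XC

/-!
# ShghC: assembly of Theorem X
-/

namespace ShghC

universe u

theorem mGlueN : S_GlueN.{u} :=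
  tGlueN tNSemi (tNInv tNSemi tNSemi) (tNCons (tNInv tNSemi tNSemi)) tCol
    (tXSide tRowDiv tRowZ (tSeg tNClo) tUnit tNClo) tRowZ tNClo

theorem mNCons : S_NCons.{u} := tNCons (tNInv tNSemi tNSemi)

theorem mGlue : S_Glue.{u} := tGlue mGlueN (tNSimple mNCons tNClo)

theorem mProj : S_Proj.{u} := tProj tNSemi tProjMap

theorem mStA : S_StA.{u} := tStA mNCons tNClo

theorem mStB : S_StB.{u} := tStB mNCons tNClo (tFibDiv tUnit)

theorem mStC : S_StC.{u} := tStC mNCons tNClo (tFibDiv tUnit)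

theorem mLong : S_Long.{u} :=
  tLong mProj mGlue (tRaise tNClo) mStA mStB mStC tStripWin

theorem mRep : S_Rep.{u} := tRep (tClu (tFour (tLine tUnit)))

theorem mXA : S_XA.{u} := tXA (tSeed mRep tReduce mLong)

theorem mXB : S_XB.{u} := tXB mXA

theorem mXC : S_XC.{u} := tXC mXA

end ShghC
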