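import Pool.Agent.ShghC.Spec
import Pool.Agent.ShghT.SemiB

/-!
# ShghC/NSemi: semicontinuity for polynomials with exponents in `N`
-/

namespace ShghC

open MvPolynomial ShghJ

universe u v w

section

variable {K : Type*} [Field K] {s : ℕ}

/-- The matrix of the conditions. -/
private noncomputable def nsMat (N : Finset (Fin 2 →₀ ℕ)) (μ : Fin s → ℕ) (P : Fin s → Fin 2 → K) :
    Matrix (ShghE.tfRow μ) N K :=
  fun r e => ShghE.tfM (P r.1 0) (P r.1 1) e r.2

/-- The coefficients. -/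
private noncomputable def nsPsi (N : Finset (Fin 2 →₀ ℕ)) (μ : Fin s → ℕ)
    (P : Fin s → Fin 2 → K) : LN N μ P →ₗ[K] (N → K) where
  toFun f e := (f : MvPolynomial (Fin 2) K).coeff e
  map_add' f g := by
    ext e
    simp
  map_smul' c f := by
    ext e
    simp

private theorem ns_expand {R : Type*} [CommRing R] {N : Finset (Fin 2 →₀ ℕ)}
    {f : MvPolynomial (Fin 2) R} (h : ∀ e, f.coeff e ≠ 0 → e ∈ N) :
    f = ∑ e : N, monomial (e : Fin 2 →₀ ℕ) (f.coeff e) := by
  rw [Finset.sum_coe_sort N (fun e => monomial e (f.coeff e))]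
  conv_lhs => rw [f.as_sum]
  refine Finset.sum_subset (fun e he => h e (mem_support_iff.1 he)) fun e _ he => ?_
  rw [notMem_support_iff.1 he, monomial_zero]

private theorem ns_sum_coeff {R : Type*} [CommRing R] {N : Finset (Fin 2 →₀ ℕ)} (c : N → R)
    (e : N) : (∑ e : N, monomial (e : Fin 2 →₀ ℕ) (c e)).coeff e = c e := by
  classical
  rw [coeff_sum, Finset.sum_eq_single e]
  · rw [coeff_monomial, if_pos rfl]
  · intro e' _ he'
    rw [coeff_monomial, if_neg fun h => he' (Subtype.ext h)]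
  · intro h
    exact absurd (Finset.mem_univ _) h

private theorem ns_sum_mem {R : Type*} [CommRing R] {N : Finset (Fin 2 →₀ ℕ)} (c : N → R)
    (e : Fin 2 →₀ ℕ) (he : (∑ e : N, monomial (e : Fin 2 →₀ ℕ) (c e)).coeff e ≠ 0) : e ∈ N := by
  classical
  by_contra hcon
  apply he
  rw [coeff_sum]
  refine Finset.sum_eq_zero fun e' _ => ?_
  rw [coeff_monomial, if_neg]
  rintro rfl
  exact hcon e'.2

private theorem ns_ker (N : Finset (Fin 2 →₀ ℕ)) (μ : Fin s → ℕ) (P : Fin s → Fin 2 → K) :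
    LinearMap.ker (nsPsi N μ P) = ⊥ := by
  rw [LinearMap.ker_eq_bot']
  intro f hf
  apply Subtype.ext
  rw [ns_expand (mem_LN.1 f.2).1]
  refine Finset.sum_eq_zero fun e _ => ?_
  have : (f : MvPolynomial (Fin 2) K).coeff e = 0 := congrFun hf e
  rw [this, monomial_zero]

private theorem ns_range (N : Finset (Fin 2 →₀ ℕ)) (μ : Fin s → ℕ) (P : Fin s → Fin 2 → K) :
    LinearMap.range (nsPsi N μ P) = LinearMap.ker (nsMat N μ P).mulVecLin := by
  classical
  ext c
  rw [LinearMap.mem_range, LinearMap.mem_ker]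
  constructor
  · rintro ⟨f, rfl⟩
    ext r
    obtain ⟨i, x, hx⟩ := r
    have h1 := (ShghE.tf_mem_iff _ _ _ _).1 ((mem_LN.1 f.2).2 i) x (by simpa using hx)
    rw [ns_expand (mem_LN.1 f.2).1, ShghE.tf_coeff] at h1
    simpa [Matrix.mulVec, dotProduct, nsMat, nsPsi] using h1
  · intro h
    have hmem : (∑ e : N, monomial (e : Fin 2 →₀ ℕ) (c e)) ∈ LN N μ P := by
      rw [mem_LN]
      refine ⟨ns_sum_mem c, fun i => ?_⟩
      refine (ShghE.tf_mem_iff _ _ _ _).2 fun x hx => ?_
      rw [ShghE.tf_coeff]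
      have := congrFun h ⟨i, ⟨x, by simpa using hx⟩⟩
      simpa [Matrix.mulVec, dotProduct, nsMat] using this
    refine ⟨⟨_, hmem⟩, ?_⟩
    ext e
    exact ns_sum_coeff c e

private theorem ns_finrank (N : Finset (Fin 2 →₀ ℕ)) (μ : Fin s → ℕ) (P : Fin s → Fin 2 → K) :
    Module.finrank K (LN N μ P) + (nsMat N μ P).rank = Fintype.card N := by
  have h1 : Module.finrank K (LN N μ P) =
      Module.finrank K (LinearMap.ker (nsMat N μ P).mulVecLin) := by
    rw [← ns_range]
    exact (LinearMap.finrank_range_of_inj (LinearMap.ker_eq_bot.1 (ns_ker N μ P))).symm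
  rw [h1, Matrix.rank, add_comm, LinearMap.finrank_range_add_finrank_ker,
    Module.finrank_fintype_fun_eq_card]

/-- The linear system over the polynomial ring in the coordinates of the points. -/
private noncomputable def nsGen (F : Type*) [Field F] (N : Finset (Fin 2 →₀ ℕ)) (μ : Fin s → ℕ) :
    Matrix (ShghE.tfRow μ) N (MvPolynomial (Fin s × Fin 2) F) :=
  fun r e => ShghE.tfM (X (r.1, 0)) (X (r.1, 1)) e r.2

private theorem ns_map {F : Type*} [Field F] [Algebra F K] (N : Finset (Fin 2 →₀ ℕ))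
    (μ : Fin s → ℕ) (P : Fin s → Fin 2 → K) :
    (nsGen F N μ).map (aeval (fun ij : Fin s × Fin 2 => P ij.1 ij.2) : _ →ₐ[F] K).toRingHom =
      nsMat N μ P := by
  ext r e
  change (aeval (fun ij : Fin s × Fin 2 => P ij.1 ij.2) : _ →ₐ[F] K).toRingHom
    (ShghE.tfM (X (r.1, 0)) (X (r.1, 1)) e r.2) = _
  rw [← ShghE.tfM_map]
  simp [nsMat]

end

theorem tNSemi : S_NSemi.{u, v, w} := by
  intro F K K' _ _ _ _ _ N s μ P hP P'
  have h1 := ns_finrank N μ P
  have h2 := ns_finrank N μ P'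
  have key := ShghT.semib_rank_le (nsGen F N μ)
    (aeval (fun ij : Fin s × Fin 2 => P ij.1 ij.2)).toRingHom hP
    (aeval (fun ij : Fin s × Fin 2 => P' ij.1 ij.2) : _ →ₐ[F] K').toRingHom
  rw [ns_map, ns_map] at key
  omega

end ShghC
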