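import Pool.Agent.ShghC.Spec
import Pool.Agent.ShghJ.Cnt

/-!
# ShghC: first properties of the strip function
-/

namespace ShghC

open MvPolynomial ShghJ

universe u

theorem sta_T_succ (m : ℕ) : T (m + 1) = T m + (m + 1) := by
  unfold T
  have h1 : (m + 1) * (m + 1 + 1) = m * (m + 1) + 2 * (m + 1) := by ring
  rw [h1, Nat.add_mul_div_left _ _ (by norm_num)]

theorem sta_fil {K : Type u} [Field K] (V : Submodule K (MvPolynomial (Fin 2) K))
    [Module.Finite K V] (p : Fin 2 → K) (m : ℕ) :
    Module.finrank K V ≤ Module.finrank K (fil V p m) + T m := by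
  induction m with
  | zero =>
    have h0 : fil V p 0 = V := by
      ext f
      constructor
      · exact fun h => h.1
      · exact fun h => ⟨h, by rw [pow_zero, Ideal.one_eq_top]; exact Submodule.mem_top⟩
    rw [h0]
    exact Nat.le_add_right _ _
  | succ m ih =>
    have h1 := tCnt K V p m inferInstance
    have h2 : (degSet V p m).card ≤ m + 1 := by
      classical
      refine (Finset.card_le_card (Finset.filter_subset _ _)).trans ?_
      rw [Finset.card_range]
    have h3 := sta_T_succ m
    omega

theorem sta_card (n τ e : ℕ) :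
    (Sf n τ e).card = ∑ k ∈ Finset.range (τ + 1), (e + 1 - n * k) := by
  classical
  rw [Finset.card_eq_sum_card_fiberwise (f := fun x : Fin 2 →₀ ℕ => x 1)
    (t := Finset.range (τ + 1))]
  · refine Finset.sum_congr rfl fun k hk => ?_
    rw [Finset.mem_range] at hk
    have h1 : ((Sf n τ e).filter fun x : Fin 2 →₀ ℕ => x 1 = k) =
        (Finset.range (e + 1 - n * k)).image fun i => ex i k := by
      ext x
      rw [Finset.mem_filter, mem_Sf, Finset.mem_image]
      constructor
      · rintro ⟨⟨h1, h2⟩, h3⟩
        refine ⟨x 0, ?_, ?_⟩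
        · rw [Finset.mem_range]
          rw [h3] at h2
          omega
        · rw [← h3]
          exact ex_eta x
      · rintro ⟨i, hi, rfl⟩
        rw [Finset.mem_range] at hi
        rw [ex_zero, ex_one]
        exact ⟨⟨by omega, by omega⟩, rfl⟩
    rw [h1, Finset.card_image_of_injective, Finset.card_range]
    intro i i' h
    have h0 := DFunLike.congr_fun h 0
    simpa only [ex_zero] using h0
  · intro x hx
    rw [Finset.mem_coe, mem_Sf] at hx
    rw [Finset.mem_coe, Finset.mem_range]
    exact Nat.lt_succ_of_le hx.1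

theorem sta_empty {K : Type u} [Field K] (N : Finset (Fin 2 →₀ ℕ)) (s : ℕ) (hs : s = 0)
    (μ : Fin s → ℕ) (P : Fin s → Fin 2 → K) : Module.finrank K (LN N μ P) = N.card := by
  subst hs
  have h1 : LN N μ P = restrictSupport K (N : Set (Fin 2 →₀ ℕ)) := by
    ext f
    rw [mem_LN, mem_restrictSupport_iff]
    constructor
    · rintro ⟨h, -⟩ e he
      exact h e (mem_support_iff.1 he)
    · intro h
      exact ⟨fun e he => h (mem_support_iff.2 he), fun i => i.elim0⟩
  rw [h1, Module.finrank_eq_card_basis (basisRestrictSupport K (N : Set (Fin 2 →₀ ℕ)))]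
  simp

theorem tStA (h1 : S_NCons.{u}) (h2 : S_NClo.{u}) : S_StA.{u} := by
  intro F _ n τ
  refine ⟨fun e => ?_, fun e m B => ?_, fun e m B => ?_⟩
  · rw [← sta_card, hN]
    exact sta_empty _ _ (by simp) _ _
  · obtain ⟨h3, h4⟩ := h1 F (Sf n τ e) B
    rw [h3, h4 m]
    haveI := h2.1 (UF F) (Sf n τ e) B.toList.length (fun i => B.toList.get i)
      (fun i => up F (i + 1))
    exact sta_fil _ _ _
  · obtain ⟨h3, h4⟩ := h1 F (Sf n τ e) B
    rw [h3, h4 m]
    haveI := h2.1 (UF F) (Sf n τ e) B.toList.length (fun i => B.toList.get i)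
      (fun i => up F (i + 1))
    exact Submodule.finrank_mono (geo_fil_le _ _ _)

end ShghC
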