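import Pool.Agent.ShghC.Long2
import Pool.Agent.ShghC.NInv
import Pool.Agent.ShghC.NSemi
import Pool.Agent.ShghC.NCons
import Pool.Agent.ShghC.NClo
import Pool.Agent.ShghC.NSimple
import Pool.Agent.ShghC.ProjMap
import Pool.Agent.ShghC.Proj
import Pool.Agent.ShghC.Unit
import Pool.Agent.ShghC.RowDiv
import Pool.Agent.ShghC.RowZ
import Pool.Agent.ShghC.Seg
import Pool.Agent.ShghC.XSide
import Pool.Agent.ShghC.Raise
import Pool.Agent.ShghC.StA
import Pool.Agent.ShghC.StB
import Pool.Agent.ShghC.StC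
import Pool.Agent.ShghC.FibDiv
import Pool.Agent.ShghC.StripWin
import Pool.Agent.ShghC.Col

/-!
# ShghC/MainX: all multiplicities, exponent `3 / 2`
-/

namespace ShghC

open MvPolynomial ShghJ

universe u

theorem mNInv : S_NInv.{u, u} := tNInv tNSemi tNSemi

theorem mNCons : S_NCons.{u} := tNCons mNInv

theorem mNSimple : S_NSimple.{u} := tNSimple mNCons tNClo

theorem mSeg : S_Seg.{u} := tSeg tNClo

theorem mXSide : S_XSide.{u} := tXSide tRowDiv tRowZ mSeg tUnit tNClo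

theorem mProj : S_Proj.{u} := tProj tNSemi tProjMap

theorem mRaise : S_Raise.{u} := tRaise tNClo

theorem mFibDiv : S_FibDiv.{u} := tFibDiv tUnit

theorem mStA : S_StA.{u} := tStA mNCons tNClo

theorem mStB : S_StB.{u} := tStB mNCons tNClo mFibDiv

theorem mStC : S_StC.{u} := tStC mNCons tNClo mFibDiv

theorem mGlueRL : S_GlueRL.{u} :=
  tGlueR' mProj tNSemi mNInv mNCons tCol mXSide tRowZ tNClo tRowDiv mSeg tUnit mNSimple

/-- SHGH for all multiplicities `≤ M` outside of an arbitrary part `K`, with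
`d - 2 ΣK ≥ 120 M` and `d (d - 2 ΣK) ≥ 28200 M³`. -/
theorem hF_X1 (F : Type u) [Field F] [CharZero F] (d M : ℕ) (K S : Multiset ℕ) (hM : 1 ≤ M)
    (hS : ∀ x ∈ S, x ≤ M) (h1 : 2 * K.sum + 120 * M ≤ d)
    (h2 : 28200 * M ^ 3 ≤ d * (d - 2 * K.sum)) :
    hF F d (K + S) = T (d + 1) - TT (K + S) :=
  tLong2 mGlueRL mRaise mStA mStB mStC tStripWin F d M K S hM hS h1 h2

theorem TT_sq (S : Multiset ℕ) : (S.map (fun x => x ^ 2)).sum ≤ 2 * TT S := by
  induction S using Multiset.induction_on with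
  | empty => simp
  | cons a S ih =>
    rw [Multiset.map_cons, Multiset.sum_cons, TT_cons]
    have h1 := two_T a
    nlinarith

/-- SHGH for all multiplicities `≤ M` if `d² ≥ 28200 M³` or `Σ m² ≥ 29000 M³`. -/
theorem hF_X2 (F : Type u) [Field F] [CharZero F] (d M : ℕ) (S : Multiset ℕ) (hM : 1 ≤ M)
    (hS : ∀ x ∈ S, x ≤ M)
    (h : 28200 * M ^ 3 ≤ d ^ 2 ∨ 29000 * M ^ 3 ≤ (S.map (fun x => x ^ 2)).sum) :
    hF F d S = T (d + 1) - TT S := by
  have hM2 : M ^ 2 ≤ M ^ 3 := by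
    rw [pow_succ M 2]
    exact Nat.le_mul_of_pos_right _ hM
  have key : 28200 * M ^ 3 ≤ d ^ 2 → hF F d S = T (d + 1) - TT S := by
    intro hd
    have h1 : 120 * M ≤ d := by
      by_contra hc
      have h2 : d ^ 2 ≤ (120 * M) ^ 2 := Nat.pow_le_pow_left (by omega) 2
      have h3 : (120 * M) ^ 2 = 14400 * M ^ 2 := by ring
      have h4 : 1 ≤ M ^ 2 := Nat.one_le_pow _ _ hM
      omega
    have h2 := hF_X1 F d M 0 S hM hS (by simpa using h1) (by
      rw [Multiset.sum_zero, Nat.mul_zero, Nat.sub_zero, ← pow_two]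
      exact hd)
    rwa [zero_add] at h2
  rcases h with h | h
  · exact key h
  · by_cases hd : 28200 * M ^ 3 ≤ d ^ 2
    · exact key hd
    · have HC := hfunD_hF F d fun n hn _ => Nat.cast_ne_zero.2 (show n ≠ 0 by omega)
      have h1 := winBaseD d (hF F d) HC M 0 S (by simp) hS
      rw [zero_add] at h1
      have h2 := HC.toHFun.chi_le S
      by_contra hne
      have h3 : 1 ≤ hF F d S := by
        by_contra h4
        omega
      have h4 := h1.1 h3
      have h5 := TT_sq S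
      have h6 := two_T (d + 1)
      -- `(d + 1) (d + 2) ≥ 29000 M³ - 12 M²`
      have h7 : 29000 * M ^ 3 ≤ 12 * M ^ 2 + (d + 1) * (d + 1 + 1) := by
        have h8 : TT S ≤ 6 * M ^ 2 + T (d + 1) := by omega
        omega
      have h8 : (d + 1) * (d + 1 + 1) = d ^ 2 + 3 * d + 2 := by ring
      rw [h8] at h7
      have h9 : 788 * M ^ 3 ≤ 3 * d + 2 := by omega
      have h10 : 250 * M ^ 2 ≤ d := by omega
      have h11 : (250 * M ^ 2) ^ 2 ≤ d ^ 2 := Nat.pow_le_pow_left h10 2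
      have h12 : (250 * M ^ 2) ^ 2 = 62500 * (M ^ 3 * M) := by ring
      have h13 : M ^ 3 ≤ M ^ 3 * M := Nat.le_mul_of_pos_right _ hM
      omega

end ShghC
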