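import Pool.Agent.ShghC.Defs
import Pool.Agent.ShghL.CM
import Pool.Agent.ShghJ.CollC

/-!
# ShghC: statements of the modules, with proofs in the docstrings

THEOREM (long rational double curves). In characteristic `0`, for `d ≥ C M ^ (7/4)`, and for every
`d` if the largest multiplicity `M` occurs at least `C M` times, generic fat points of multiplicities
`≤ M` impose independent conditions on the polynomials of degree `≤ d`, or there is no such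
polynomial.

Existing modules which can be used: `ShghJ.*` (`tDc`, `tCnt`, `tInv`, `tDer`, `geo_mkDer`,
`geo_hF_cons`, `geo_algInd`, `hfun_hF`, `coeff_Dc`), `ShghJ.CollC` (`shift_map`, `shift_shift`,
`coll_clear`, `cfk`, `coeff_cfk`, `cfk_shift`, `coll_exists`), `ShghL.*` (`tCM`, `tTr`, `tDimP`),
`ShghE.tf_mem_iff` (multiplicity = vanishing of the coefficients of degree `< m` of the translated
polynomial), `ShghT.semib_rank_le`, `ShghT.finrank_LS_le`.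
-/

namespace ShghC

open MvPolynomial ShghJ

universe u v w

/-- NSEMI: semicontinuity. PROOF. As `ShghT.finrank_LS_le` (`Pool.Agent.ShghT.SemiB`), with the
columns `e ∈ N` in place of the exponents of degree `≤ δ`. -/
def S_NSemi : Prop := ∀ (F : Type u) (K : Type v) (K' : Type w) [Field F] [Field K] [Field K']
  [Algebra F K] [Algebra F K'] (N : Finset (Fin 2 →₀ ℕ)) (s : ℕ) (μ : Fin s → ℕ)
  (P : Fin s → Fin 2 → K), AlgebraicIndependent F (fun ij : Fin s × Fin 2 => P ij.1 ij.2) →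
  ∀ P' : Fin s → Fin 2 → K', Module.finrank K (LN N μ P) ≤ Module.finrank K' (LN N μ P')

/-- NINV: the dimension depends only on the multiset. PROOF. As `ShghJ.tInv` (`S_NSemi` in both
directions and the permutation of the points). -/
def S_NInv : Prop := ∀ (F : Type u) (K : Type v) [Field F] [Field K] [Algebra F K]
  (N : Finset (Fin 2 →₀ ℕ)) (s : ℕ) (μ : Fin s → ℕ) (P : Fin s → Fin 2 → K),
  AlgebraicIndependent F (fun ij : Fin s × Fin 2 => P ij.1 ij.2) →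
  Module.finrank K (LN N μ P) = hN F N (Finset.univ.val.map μ)

/-- NCONS: one more point. PROOF. From `S_NInv` exactly as `ShghJ.geo_hF`, `ShghJ.geo_hF_cons`. -/
def S_NCons : Prop := ∀ (F : Type u) [Field F] (N : Finset (Fin 2 →₀ ℕ)) (S : Multiset ℕ),
  hN F N S = Module.finrank (UF F) (LN N (fun i : Fin S.toList.length => S.toList.get i)
    (fun i => up F (i + 1))) ∧
  ∀ j : ℕ, hN F N (j ::ₘ S) = Module.finrank (UF F)
    (fil (LN N (fun i : Fin S.toList.length => S.toList.get i) (fun i => up F (i + 1))) (up F 0) j)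

/-- NFIN, NCLO: `LN N μ P` is finite-dimensional and closed under coefficientwise derivations which
kill the coordinates of the points. PROOF. Finite: it embeds into `N → K` by the coefficients.
Closed: as `ShghJ.tClo`. -/
def S_NClo : Prop := (∀ (K : Type u) [Field K] (N : Finset (Fin 2 →₀ ℕ)) (s : ℕ) (μ : Fin s → ℕ)
  (P : Fin s → Fin 2 → K), Module.Finite K (LN N μ P)) ∧
  ∀ (K : Type u) [Field K] (D : Derivation ℤ K K) (N : Finset (Fin 2 →₀ ℕ)) (s : ℕ)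
  (μ : Fin s → ℕ) (P : Fin s → Fin 2 → K), (∀ i c, D (P i c) = 0) → ∀ f ∈ LN N μ P,
  Dc D f ∈ LN N μ P

/-- NSIMPLE: a simple generic point imposes one condition. PROOF. `S_NCons`. `V = LN N S` at the
points `up (i + 1)`, `p = up 0`. `V / (V ∩ pt p)` has dimension `≤ 1` (evaluation at `p`). If it is
`0` then `V ⊆ pt p ^ j` for all `j ≥ 1`: let `V ⊆ pt p ^ j`, `f ∈ V`; the derivations `D_c` with
`D_c (up 0 c') = δ`, `D_c (up (i+1) c') = 0` preserve `V` (`S_NClo`), and `tfShift p (Dc D_c f) =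
Dc D_c (tfShift p f) - ∂_c (tfShift p f)` (`tDc`) has no coefficients of degree `< j`; so the
coefficients of degree `j - 1` of `∂_c (tfShift p f)` vanish, `c = 0, 1`, hence (characteristic `0`,
`j ≥ 1`) the coefficients of degree `j` of `tfShift p f`. So `f = 0` (`tfShift_neg`). -/
def S_NSimple : Prop := ∀ (F : Type u) [Field F] [CharZero F] (N : Finset (Fin 2 →₀ ℕ))
  (S : Multiset ℕ), hN F N (1 ::ₘ S) = hN F N S - 1

/-- PROJMAP: the projective transformation `(x, y) ↦ (y / x, 1 / x)`.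
PROOF. `f = ∑ f_{ij} x^i y^j ↦ g = ∑ f_{ij} X^j Y^(d-i-j)` is a linear bijection from the polynomials
with `κ ≤ i + j ≤ d` to the polynomials with exponents in `Trap d (d - κ)`; it is its own inverse up
to the obvious symmetry (`(i, j) ↦ (j, d - i - j)` has the inverse `(j, k) ↦ (d - j - k, j)`).
Multiplicities: let `x0 ≠ 0`. In `K[X, Y, 1/Y]` (or `FractionRing`, or: `Y^d f(1/Y, X/Y)`), `φ x = 1/Y`,
`φ y = X/Y`: `φ (x - x0) = - (x0 / Y) (Y - 1/x0)`, `φ (y - y0) = (1/Y) ((X - y0/x0) - y0 (Y - 1/x0))`,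
so `f ∈ pt x0 y0 ^ m` gives `Y^N g ∈ pt (y0/x0) (1/x0) ^ m` for some `N`, and `Y ∉ pt (y0/x0) (1/x0)`
so `g ∈ pt (y0/x0) (1/x0) ^ m` (see `S_Unit`). An elementary way: by linearity and `d`: the map
`R_d f = ∑ f_{ij} X^j Y^(d-i-j)` satisfies `R_(d+d') (f g) = R_d f * R_d' g`, `R_1 (x - x0) =
1 - x0 Y`, `R_1 (y - y0) = X - y0 Y`; if `f ∈ pt ^ m` then `f` is a sum of products
`(x-x0)^a (y-y0)^b h`, `a + b = m` (expand at the point: `h` can be taken of degree `≤ d - m` as `f` has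
degree `≤ d`, a combination of `(x-x0)^a' (y-y0)^b'`, `m ≤ a' + b' ≤ d`), each of which is mapped
to `(1 - x0 Y)^a' (X - y0 Y)^b' Y^(d-a'-b') ∈ pt ^ m`. The inverse direction is similar. -/
def S_ProjMap : Prop := ∀ (K : Type u) [Field K] (d κ s : ℕ) (μ : Fin s → ℕ)
  (Q : Fin s → Fin 2 → K), κ ≤ d → (∀ i, Q i 0 ≠ 0) →
  Module.finrank K (ShghL.FF (ShghT.LS d μ Q) κ 0) =
    Module.finrank K (LN (Trap d (d - κ)) μ (fun i => ![Q i 1 / Q i 0, 1 / Q i 0]))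

/-- PROJ: a big point at infinity. PROOF. `≤`: `S_NSemi` (points `up i` to the points
`Q'_i = (Q_i1 / Q_i0, 1 / Q_i0)`, `Q_i = up (i + 1) - up 0`), `S_ProjMap`, `ShghL.tTr`
(`Pool.Agent.ShghL.Tr`) and `geo_hF_cons`: `hN F (Trap d θ) S ≤ finrank (FF (LS d μ Q) κ 0) =
finrank (fil (LS d μ (up (i+1))) (up 0) κ) = hF F d (κ ::ₘ S)`. `≥`: `ShghT.finrank_LS_le` from the
generic points to the point `(0, 0)` with multiplicity `κ` and `Q''_i = (1 / up i 1, up i 0 / up i 1)`: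
`hF F d (κ ::ₘ S) ≤ finrank (FF (LS d μ Q'') κ 0)` (multiplicity `≥ κ` at `(0, 0)` = no monomials of
degree `< κ`, `mem_pow_idealOfVars_iff'` or `tf_mem_iff`), and by `S_ProjMap` this is `finrank (LN (Trap
d θ) μ up)`, because `(Q''_1 / Q''_0, 1 / Q''_0) = up i`. -/
def S_Proj : Prop := ∀ (F : Type u) [Field F] (d θ : ℕ) (S : Multiset ℕ), θ ≤ d →
  hN F (Trap d θ) S = hF F d ((d - θ) ::ₘ S)

/-- UNIT. PROOF. `u - C (eval u) ∈ pt`, `c = eval u ≠ 0`, `pt = span {X 0 - C x, X 1 - C y}`; the ideals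
`span {u}` and `pt` are coprime, so `span {u}` and `pt ^ m` are, `1 = α u + β`, `β ∈ pt ^ m`,
`f = α u f + β f`. -/
def S_Unit : Prop := ∀ (K : Type u) [Field K] (x y : K) (m : ℕ) (u f : MvPolynomial (Fin 2) K),
  eval ![x, y] u ≠ 0 → u * f ∈ ShghT.pt x y ^ m → f ∈ ShghT.pt x y ^ m

/-- COL: the initial form of a family of curves with points `(t x_i, t^(D+1) y_i)` colliding at the
origin. (helper21 proves this.) -/
def S_Col : Prop := ∀ (K : Type u) [Field K] (W : Submodule K (MvPolynomial (Fin 2) K)) (D s : ℕ)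
  (ν : Fin s → ℕ) (x : Fin s → Fin 2 → K) (H : MvPolynomial (Fin 2) (Polynomial K)), H ≠ 0 →
  (∀ k, cfk k H ∈ W) → (∀ f ∈ W, ∀ e, f.coeff e ≠ 0 → e 0 ≤ D) →
  (∀ i, ∀ e : Fin 2 →₀ ℕ, e.degree < ν i → (ShghE.tfShift (Polynomial.X * Polynomial.C (x i 0))
    (Polynomial.X ^ (D + 1) * Polynomial.C (x i 1)) H).coeff e = 0) →
  ∃ G : MvPolynomial (Fin 2) K, G ≠ 0 ∧ (∀ e, G.coeff e ≠ 0 → e ∈ Lx W) ∧
    ∀ i, G ∈ ShghT.pt (x i 0) (x i 1) ^ ν i

/-- ROWDIV. PROOF. `Psi η a` is an automorphism, its inverse `Φ` maps `X 0 ↦ X 0 - C η`,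
`X 1 ↦ X 1 - X 0 ^ a`. By hypothesis `X 1 ^ k ∣ Psi f`, so `(X 1 - X 0 ^ a) ^ k ∣ f`, `f = (X 1 - X 0
^ a) ^ k g`, `g ≠ 0`. Degree in `X 1`: `X 1 - X 0 ^ a` is monic of degree one in `X 1`
(`MvPolynomial.degreeOf_mul_eq` or similar, domain), so `degreeOf 1 f = k + degreeOf 1 g`. Total degree
(`totalDegree_mul_of_isDomain`): `f` has `k a + totalDegree g`, as `X 1 - X 0 ^ a` has total degree `a`
(`a ≥ 1`). -/
def S_RowDiv : Prop := ∀ (K : Type u) [Field K] (η : K) (a k d θ : ℕ)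
  (f : MvPolynomial (Fin 2) K), 1 ≤ a → f ≠ 0 → (∀ e, f.coeff e ≠ 0 → e ∈ Trap d θ) →
  (∀ e : Fin 2 →₀ ℕ, e 1 < k → (Psi η a f).coeff e = 0) →
  k ≤ θ ∧ k * a ≤ d ∧ ∃ g : MvPolynomial (Fin 2) K,
    (∀ e, g.coeff e ≠ 0 → e ∈ Trap (d - k * a) (θ - k)) ∧ f = (X 1 - X 0 ^ a) ^ k * g

/-- ROWZ. PROOF. The coefficient of `Y^0` of `Psi g` is `g(X + η, (X + η)^a)`; a monomial `X^i Y^l`
with `i + l ≤ d`, `l ≤ θ` gives the degree `i + a l ≤ d + (a - 1) θ` in `X`. (Use linearity, or the ring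
homomorphism to `K[X]`, `natDegree`.) Also for `e 0` in general: `Psi g` has degree `≤ d + a θ` in `X 0`. -/
def S_RowZ : Prop := (∀ (K : Type u) [Field K] (η : K) (a d θ : ℕ) (g : MvPolynomial (Fin 2) K),
  1 ≤ a → (∀ e, g.coeff e ≠ 0 → e ∈ Trap d θ) →
  ∀ i, (Psi η a g).coeff (ex i 0) ≠ 0 → i ≤ d + (a - 1) * θ) ∧
  ∀ (K : Type u) [Field K] (η : K) (a d θ : ℕ) (g : MvPolynomial (Fin 2) K),
  (∀ e, g.coeff e ≠ 0 → e ∈ Trap d θ) → ∀ e, (Psi η a g).coeff e ≠ 0 → e 0 ≤ d + a * θ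

/-- SEG. PROOF. For `f ∈ LN N μ p`: `Psi η a (Dc D f) = Dc D (Psi η a f) - pderiv 0 (Psi η a f)`
(`D η = 1`; both sides are additive in `f`, vanish-compatible with `C` and with multiplication by
`X 0`, `X 1`: induction as in `ShghJ.tDc`), and `Dc D f ∈ LN N μ p` (`S_NClo`). If `Psi f` has the lowest
exponent `e` (with respect to the order in `Lx`), `e 0 ≥ 1`, then the coefficient of `Psi (Dc D f)` at
`(e 0 - 1, e 1)` is `D 0 - e 0 * coeff ≠ 0`, and at every smaller `e'` it is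
`D 0 - (e' 0 + 1) * coeff_(e' 0 + 1, e' 1) = 0`. -/
def S_Seg : Prop := ∀ (K : Type u) [Field K] [CharZero K] (D : Derivation ℤ K K) (η : K) (a s : ℕ)
  (N : Finset (Fin 2 →₀ ℕ)) (μ : Fin s → ℕ) (p : Fin s → Fin 2 → K), D η = 1 →
  (∀ i c, D (p i c) = 0) → ∀ i k : ℕ, ex (i + 1) k ∈ Lx ((LN N μ p).map (Psi η a).toLinearMap) →
  ex i k ∈ Lx ((LN N μ p).map (Psi η a).toLinearMap)

/-- XSIDE. PROOF. Let `e ∈ Lx W`, `W = map Psi V`, `V = LN (Trap d θ) μ p`, witness `Psi f`, `k = e 1`,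
so `f ≠ 0` and the rows `< k` of `Psi f` vanish. `S_RowDiv`: `k ≤ θ`, `k a ≤ d`, `f = (X 1 - X 0 ^ a)^k
g`, and `Psi f = X 1 ^ k * Psi g`, so `coeff (ex (e 0) k) (Psi f) = coeff (ex (e 0) 0) (Psi g)`, and
`S_RowZ` for `g`: `e 0 ≤ d - k a + (a - 1) (θ - k)`, i.e. `e 0 + (2 a - 1) k ≤ d - θ + a θ`. If
`k ≥ τ + 1` then the rows `< τ + 1` vanish and `S_RowDiv` with `τ + 1`, `S_Unit`
(`eval (p i) (X 1 - X 0 ^ a) ≠ 0`) give a nonzero element of `LN (Trap (d - (τ+1) a) (θ - (τ+1))) μ p`: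
contradiction. If `k = τ`: by `S_Seg` all `ex i τ`, `i ≤ e 0`, are in `Lx W`; their witnesses
`Psi f_i` are linearly independent (different lowest exponents) and `f_i = (X 1 - X 0 ^ a)^τ g_i` with
`g_i ∈ LN (Trap (d - τ a) (θ - τ)) μ p` linearly independent, so `e 0 + 1 ≤ finrank`. -/
def S_XSide : Prop := ∀ (K : Type u) [Field K] [CharZero K] (D : Derivation ℤ K K) (η : K)
  (s d θ a τ : ℕ) (μ : Fin s → ℕ) (p : Fin s → Fin 2 → K), D η = 1 → (∀ i c, D (p i c) = 0) →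
  (∀ i, p i 1 ≠ p i 0 ^ a) → 1 ≤ a → θ ≤ d →
  Module.finrank K (LN (Trap (d - (τ + 1) * a) (θ - (τ + 1))) μ p) = 0 →
  ∀ e ∈ Lx ((LN (Trap d θ) μ p).map (Psi η a).toLinearMap),
    e ∈ St (2 * a - 1) τ (d - θ + a * θ)
      (Module.finrank K (LN (Trap (d - τ * a) (θ - τ)) μ p))

/-- GLUEN. PROOF. `K = UF F`, `p_i = up (i + 1)` (`i < |A|`), `η = up 0 0`, `x_j = up (|A| + 1 + j)`,
`E = FractionRing K[t]`, `B_j = (η + t x_j0, (η + t x_j0)^a + t^(D+1) x_j1)`, `D = d + a θ`. By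
`S_NSemi` (generic points to these points) there is a nonzero element of
`LN (Trap d θ) (μ, ν) (p, B)` over `E`; clear denominators (as `ShghJ.coll_clear`): `H0 ≠ 0` over
`K[t]` with exponents in `Trap d θ` and vanishing coefficients of `tfShift (C p_i) H0` (degree `< μ i`)
and `tfShift B_j H0` (degree `< ν j`). `H = Psi (C η) a H0 ≠ 0` (injective), `cfk k H = Psi η a
(cfk k H0)` (both are additive, check on monomials, or `map`), `cfk k H0 ∈ LN (Trap d θ) μ p`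
(`cfk_shift`). Multiplicities of `H` at `(t x_j0, t^(D+1) x_j1)`: `Psi` maps `pt B_j` into
`pt (t x_j0) (t^(D+1) x_j1)`: `Psi (X 0 - C(η + t x_j0)) = X 0 - C(t x_j0)`,
`Psi (X 1 - C((η + t x_j0)^a + t^(D+1) x_j1)) = X 1 - C(t^(D+1) x_j1) + ((X 0 + η)^a - (η + t x_j0)^a)`
(`sub_dvd_pow_sub_pow`); `Ideal.mem_map_of_mem`, `tf_mem_iff` over the ring `K[t]`. `S_Col` with
`W = map Psi (LN (Trap d θ) μ p)` (degrees in `X 0`: `S_RowZ`), `S_XSide` (derivation `∂/∂(up 0 0)` from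
`tDer` and `geo_mkDer`; `up (i+1) 1 ≠ up (i+1) 0 ^ a`): `G ≠ 0` in `LN (St ..) ν x`, so
`hN F (St ..) B ≥ 1` (`S_NInv`). -/
def S_GlueN : Prop := ∀ (F : Type u) [Field F] [CharZero F] (d θ a τ : ℕ) (A B : Multiset ℕ),
  1 ≤ a → θ ≤ d → hN F (Trap (d - (τ + 1) * a) (θ - (τ + 1))) A = 0 →
  1 ≤ hN F (Trap d θ) (A + B) →
  1 ≤ hN F (St (2 * a - 1) τ (d - θ + a * θ) (hN F (Trap (d - τ * a) (θ - τ)) A)) B

/-- GLUE: the gluing inequality. PROOF. Let `z = hN F (St ..) B`. By `S_NSimple` `z` times: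
`hN F (St ..) (replicate z 1 + B) = 0`. By `S_GlueN` (with `B` replaced by `replicate z 1 + B`):
`hN F (Trap d θ) (A + (replicate z 1 + B)) = 0`, and by `S_NSimple` again
`hN F (Trap d θ) (A + B) ≤ z`. -/
def S_Glue : Prop := ∀ (F : Type u) [Field F] [CharZero F] (d θ a τ : ℕ) (A B : Multiset ℕ),
  1 ≤ a → θ ≤ d → hN F (Trap (d - (τ + 1) * a) (θ - (τ + 1))) A = 0 →
  hN F (Trap d θ) (A + B) ≤
    hN F (St (2 * a - 1) τ (d - θ + a * θ) (hN F (Trap (d - τ * a) (θ - τ)) A)) B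

/-- RAISE. PROOF. As `ShghL.tDimP`, over `K = UF F`, points `x_i = up i`, derivation
`D = ∑_i (up i 0 ^ 2 D_(i,0) + n (up i 0) (up i 1) D_(i,1))`, i.e. `D (x_i0) = x_i0 ^ 2`,
`D (x_i1) = n x_i0 x_i1`; operator `∇ g = Dc D g + X0 ^ 2 ∂_0 g + n X0 X1 ∂_1 g - δ X0 g`. It preserves
`LN (Sf n τ δ) ν x`: exponents: `X^i Y^k ↦ (i + n k - δ) X^(i+1) Y^k`, which is `0` for
`i + n k = δ`; multiplicities: `F = tfShift x g`, `tfShift x (∇ g) = Dc D F - x0^2 ∂_0 F -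
n x0 x1 ∂_1 F + (X0 + x0)^2 ∂_0 F + n (X0 + x0) (X1 + x1) ∂_1 F - δ (X0 + x0) F`, and the coefficients
of `∂_0 F`, `∂_1 F` in this expression have no constant term, so there are no coefficients of degree
`< m` if `F` has none (`coeff_X_mul'`; or: the expression lies in the ideal `(X0, X1)^m`,
`mem_pow_idealOfVars_iff'`). `c = δ - n τ`. `E = {i ≤ c : some g ∈ LN (Sf n τ δ) has coefficient ≠ 0 at
(i, τ) and = 0 at (i', τ), i' > i}`. If `i ∈ E`, `i < c`, then `i + 1 ∈ E` (the coefficient of `∇ g` at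
`(i + 1, τ)` is `D 0 + (i - c) g_i`, characteristic `0`). `LN (St n τ δ (ρ+1))` has dimension
`finrank (LN (St n τ δ ρ)) + (1 if ρ ∈ E)`, `St n τ δ (c+1) = Sf n τ δ`. -/
def S_Raise : Prop := ∀ (F : Type u) [Field F] [CharZero F] (n τ δ ρ : ℕ) (B : Multiset ℕ),
  n * τ ≤ δ → ρ ≤ δ - n * τ + 1 →
  hN F (St n τ δ ρ) B ≤ hN F (St n τ δ 0) B ∨
  hN F (St n τ δ ρ) B + (δ - n * τ + 1 - ρ) ≤ hN F (Sf n τ δ) B

/-- STA: the first properties of the strip function. PROOF. `empty`: for `B = 0` there are no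
conditions, `finrank = (Sf n τ e).card` (basis of monomials), and the card is the sum over the rows.
`low`: `S_NCons` and `finrank V ≤ finrank (fil V p m) + T m` for finite-dimensional `V` (the
coefficients of degree `< m` of `tfShift p f` are `T m` linear functionals). `anti`: clear. -/
def S_StA : Prop := ∀ (F : Type u) [Field F] (n τ : ℕ),
  (∀ e, hN F (Sf n τ e) 0 = ∑ k ∈ Finset.range (τ + 1), (e + 1 - n * k)) ∧
  (∀ e m B, hN F (Sf n τ e) B ≤ hN F (Sf n τ e) (m ::ₘ B) + T m) ∧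
  (∀ e m B, hN F (Sf n τ e) (m ::ₘ B) ≤ hN F (Sf n τ e) B)

/-- FIBDIV: division by `X - x0` in a strip. PROOF. `f = ∑_k f_k(X) Y^k`, `rst x0 f = ∑ f_k(x0) Y^k = 0`
so `X 0 - C x0` divides `f` (e.g. `f` is in the kernel of the evaluation `X 0 ↦ C x0`; or
`finSuccEquiv`, or `X 0 ↦ X 0 + C x0` and divisibility by `X 0` of a polynomial without monomials
`Y^k`). The exponents of the quotient `g`: let `(i, k)` be an exponent of `g` with `i` maximal for this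
`k`; then `(i + 1, k)` is an exponent of `f` (`coeff_X_mul'`), so `k ≤ τ`, `i + 1 + n k ≤ e + 1`. For
`e = 0` (first claim): exponents `(0, k)` only, so `f = rst`. Multiplicities of `g`: `S_Unit` with
`u = X 0 - C x0`. -/
def S_FibDiv : Prop := ∀ (K : Type u) [Field K] (n τ s : ℕ) (μ : Fin s → ℕ)
  (p : Fin s → Fin 2 → K) (x0 : K), (∀ i, p i 0 ≠ x0) →
  (∀ f ∈ LN (Sf n τ 0) μ p, rst x0 f = 0 → f = 0) ∧
  (∀ e, ∀ f ∈ LN (Sf n τ (e + 1)) μ p, rst x0 f = 0 →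
    ∃ g ∈ LN (Sf n τ e) μ p, f = (X 0 - C x0) * g) ∧
  (∀ e, ∀ g ∈ LN (Sf n τ e) μ p, ∀ x1 : K, (X 0 - C x1) * g ∈ LN (Sf n τ (e + 1)) μ p)

/-- STB: restriction to a fibre. PROOF. `K = UF F`, `V e = LN (Sf n τ e) ν x` at the points
`x_i = up (i + 1)` (`S_NCons`), `x0 = up 0 0`, `x1 = up 0 1` (different from all `up (i+1) 0`).
`R e` = image of `V e` under `rst x0` (`f ↦ f(x0, Y)`). The kernel is `(X - x0) V (e - 1)` for
`e ≥ 1`, and `0` for `e = 0`: `S_FibDiv`. So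
`finrank (V e) = finrank (V (e-1)) + finrank (R e)` and `finrank (R e) ≤ τ + 1`. `R e ⊆ R (e + 1)`: for
`f ∈ V e` the polynomial `(X - C x1) f` is in `V (e + 1)` and restricts to `(x0 - x1) f(x0, Y)`. -/
def S_StB : Prop := ∀ (F : Type u) [Field F] (n τ : ℕ),
  (∀ e B, hN F (Sf n τ e) B ≤ hN F (Sf n τ (e + 1)) B) ∧
  (∀ e B, hN F (Sf n τ (e + 1)) B ≤ hN F (Sf n τ e) B + (τ + 1)) ∧
  (∀ B, 2 * hN F (Sf n τ 0) B ≤ hN F (Sf n τ 1) B) ∧
  (∀ e B, 2 * hN F (Sf n τ (e + 1)) B ≤ hN F (Sf n τ (e + 2)) B + hN F (Sf n τ e) B)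

/-- STC: the fibre inequality. PROOF. Notation of `S_StB`, `p = up 0 = (x0, y0)`. Let
`U e m` = members of `V e` with multiplicity `≥ m` at `p`; `finrank (U e m) = hN F (Sf n τ e)
(m ::ₘ B)`. Claim: `finrank (U e m) ≤ finrank (U (e-1) (m-1)) + (r e - m)` (`U (-1) = 0`), the statement
follows by induction on `e`. The kernel of `f ↦ f(x0, Y)` on `U e m` is `(X - x0) U (e-1) (m-1)` (if
`(X - x0) g` has multiplicity `≥ m` at `p` then `g` has multiplicity `≥ m - 1`: look at the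
translated polynomials, `X0 * G`), and the image lies in `{φ ∈ R e : (Y - y0)^m ∣ φ}`, which has
dimension `≤ r e - m`: the derivation `D = D_(0,1)` (`D y0 = 1`, kills `x0` and all `up (i+1)`)
preserves `V e` (`S_NClo`) and hence `R e`; for `φ ∈ R e` with order exactly `j ≥ 1` at `y0` the
polynomial `D φ` (coefficientwise) has order exactly `j - 1` (`φ = ∑ c_l (Y - y0)^l`, `D φ =
∑ (D c_l - (l+1) c_(l+1)) (Y - y0)^l`, characteristic `0`); so if `R e` contains an element of order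
`≥ m`, then it contains elements of the orders `0, ..., m - 1`, and `dim {order ≥ m} ≤ r e - m`. -/
def S_StC : Prop := ∀ (F : Type u) [Field F] [CharZero F] (n τ e m : ℕ) (B : Multiset ℕ),
  hN F (Sf n τ e) (m ::ₘ B) ≤ ∑ i ∈ Finset.range (e + 1),
    ((hN F (Sf n τ (e - i)) B - (if e - i = 0 then 0 else hN F (Sf n τ (e - i - 1)) B)) - (m - i))

/-- STRIPWIN: the window of a strip, pure arithmetic. PROOF. `r e = h e - h (e-1)` (`r 0 = h 0`, `r = 0`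
for negative arguments), nondecreasing, `≤ τ + 1`. `G e = h e 0`, `G (e+1) = G e + (τ+1)` for
`e ≥ n τ`. `d1 B = min {j : h j B ≥ 1}`. BAD (e, B, m): `h e (m ::ₘ B) ≥ 1` and
`h e (m ::ₘ B) + T m > h e B`. (P1) bad implies `r (e - m + 1) ≤ m - 1` (otherwise `fib` gives
`h e (m ::ₘ B) ≤ h e B - T m`). (P2) bad, `m ≤ M`, `u = e - d1 B`: `h e B ≤ (M-1)(u + τ + 2)`.
(P3) chain `B_1 ⊂ .. ⊂ B'` (one point after the other, all `≤ M`) with `e ≥ M`, `h (e - M) B' ≥ 1`: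
`3 (TT B' - TT B_1) ≤ 12 (h e B_1 - h e B') + 2 (M+1) (d1 B' - d1 B_1)`: for a step `μ`: if
`4 r(e - μ/2) ≥ μ` then `T μ ≤ 4 (h e B_j - h e B_(j+1))`, because `fib` lowers `h e` by at least
`∑_(i ≤ μ/2) min(μ - i, r(e - i))`; otherwise with `ρ = r(e - μ/2)`, `4 ρ < μ`, and
`d' = d1 B_(j+1) ≤ e - M`: `h d' B_(j+1) ≥ 1` and `fib` give `i` with `r(d' - i) > μ - i`, so
`d' ≥ d1 B_j + μ - ρ + 1` and `3 T μ ≤ 2 (M+1) (d' - d1 B_j)`. (P4) if `h (e - M) B' ≥ 1` then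
`TT B' ≤ G e` or there is a first bad `(e, B_1, m)` in the chain, `h e B_1 + TT B_1 = G e`, and
`TT B' ≤ G e + 4 M (u + τ + 2)`, `u = e - d1 B_1`. (P5) for a first bad `(e, B_1)` with `e ≥ n τ`:
`u ≤ 12 M + (X - (e - n τ))^+`, `X = n τ + 14 (n+1) M`: strong induction on `e`. Trivial (`u ≤ e`) if
`2 e ≤ 12 M + X + n τ`. Otherwise let `e' = max (d1 B_1 + M) (n τ)`; if `e' ≥ e` then `u ≤ M`. (P4)
for `(e', B_1)`, with `u'` of its first bad step: `(e - e')(τ+1) ≤ (M-1)(u + τ + 2) + 4M(u' + τ + 2)`.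
If `e' = n τ`: `u ≤ e`, `u' ≤ n τ`, so `(e - nτ)(τ+2-M) ≤ 5 M (n+1)(τ+2)`, contradiction. If
`e' = e - u + M`: `u (τ+2-M) ≤ 6M(τ+2) + 4M u'`, `u' ≤ 11 M + u + (X - (e - n τ))^+`, so
`u (τ + 2 - 5M) ≤ 6M(τ+2) + 44 M^2 + 4 M z`, `z = (X - (e-nτ))^+`, and `τ + 2 - 5M ≥ 3/4 (τ+2) ≥ 15 M`
give `u ≤ 12 M + z`. (P6) `e - n τ ≥ X`: second claim: at a first bad step `h e B_1 ≤ (M-1)(12M+τ+2)`
but `h e B_1 ≥ G e - TT B`. First claim: (P4) at `e + M`. -/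
def S_StripWin : Prop := ∀ (n τ : ℕ) (h : ℕ → Multiset ℕ → ℕ), StripFun n τ h → ∀ (M e : ℕ)
  (B : Multiset ℕ), 1 ≤ M → 20 * M ≤ τ + 1 → (∀ x ∈ B, x ≤ M) →
  2 * (n * τ) + 14 * (n + 1) * M ≤ e →
  (1 ≤ h e B → TT B ≤ ∑ k ∈ Finset.range (τ + 1), (e + 1 - n * k) +
    (5 * M * (τ + 2) + 48 * M ^ 2)) ∧
  (TT B + M * (τ + 12 * M + 2) ≤ ∑ k ∈ Finset.range (τ + 1), (e + 1 - n * k) →
    h e B + TT B = ∑ k ∈ Finset.range (τ + 1), (e + 1 - n * k))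

/-- LINE: the line through two points. PROOF. `V = LS j (m1, m2, R)` at generic points `P1, P2, ..`,
`L` = equation of the line through `P1`, `P2`. Restriction to the line (parametrized) is a polynomial
of degree `≤ j` in one variable, divisible by `(z - z1)^m1 (z - z2)^m2`, `z1 ≠ z2`: image of
dimension `≤ j + 1 - m1 - m2` (truncated). The kernel is `L * LS (j-1) (m1 - 1, m2 - 1, R)`: division
by `L` (the line `L = 0` contains no other point; `S_Unit` for these; at `P1`, `P2` the translated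
`L` is a linear form without constant term, and `linear form * G` of order `≥ m` implies `G` of order
`≥ m - 1`). Easier after the affine transformation which moves `P1`, `P2` to the line `y = 0`:
semicontinuity is not needed if one works with `P1 = (x1, y1)`, `P2 = (x2, y2)` and parametrizes the
line by `x`. -/
def S_Line : Prop := ∀ (F : Type u) [Field F] (j m1 m2 : ℕ) (R : Multiset ℕ), 1 ≤ j → 1 ≤ m1 →
  1 ≤ m2 → hF F j (m1 ::ₘ m2 ::ₘ R) ≤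
    hF F (j - 1) ((m1 - 1) ::ₘ (m2 - 1) ::ₘ R) + (j + 1 - m1 - m2)

/-- FOUR: four points with multiplicities in `{κ, κ + 1}`. PROOF. Induction on `κ` with `S_Line`
twice (pairs of points 1, 2 and 3, 4): `i` points have multiplicity `κ + 1`, `i = 0, .., 4`.
`i = 0`: `(j; κ^4) → (j-1; κ-1, κ-1, κ, κ) → (j-2; (κ-1)^4)`, remainders `j + 1 - 2κ`, `j - 2κ`.
`i = 1`: `(κ+1, κ), (κ, κ)`: `j + 1 - (2κ+1)`, `j - 2κ`. `i = 2`: pairs `(κ+1, κ), (κ+1, κ)`: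
`j - 2κ`, `j - (2κ+1)`. `i = 3`: pairs `(κ+1, κ+1), (κ+1, κ)`: `j - 2κ - 1`, `j - 2κ - 1`. `i = 4` is
`i = 0` for `κ + 1`. If `j ≥ 2κ` (`i = 0`), `j ≥ 2κ + 1` (`i = 1, 2`), `j ≥ 2κ + 2` (`i = 3`) all these
remainders are exact (no truncation), so `h ≤ χ` follows from the case `κ - 1` in degree `j - 2`, down to
`κ = 0` (at most three simple points, degree `≥ 1`, `≥ 1`, `≥ 2`: base `Σ m ≤ j + 1`). For smaller `j` all
remainders are `0` and one comes down to `(j - 2κ; 1^i)` with `j < 2κ` resp. `j - 2κ ≤ 0`, `≤ 1`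
(`i = 3`: `(1; 1, 1, 1)`), which is `0` (for `i = 0` to degree `0` with a positive multiplicity). It
suffices to prove `hF ≤ T (j+1) - Σ T` (truncated). -/
def S_Four : Prop := ∀ (F : Type u) [Field F] [CharZero F] (j κ i : ℕ), i ≤ 4 →
  hF F j (Multiset.replicate i (κ + 1) + Multiset.replicate (4 - i) κ) ≤
    T (j + 1) - (i * T (κ + 1) + (4 - i) * T κ)

/-- CLU: four copies. PROOF. `b = TT B`. If `b = 0` all multiplicities of `B` are `0`: clear. Let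
`T κ ≤ b < T (κ+1)`, `κ ≥ 1`, `ρ = b - T κ ≤ κ`. `GT`: `hF κ B = T (κ+1) - b = κ + 1 - ρ`,
`hF (κ-1) B = 0`. For `j ≥ κ` and every `A`, `ShghL.tCM`: `hF j (A + B) ≤ hF j ((κ+1) ::ₘ A)` or
`hF j (A + B) + ρ ≤ hF j (κ ::ₘ A)`. Four times: there is `i ≤ 4` with
`hF j (4 B) + (4 - i) ρ ≤ hF j (replicate i (κ+1) + replicate (4-i) κ)` (or `hF j (4 B) = 0`), which is
by `S_Four` at most `T (j+1) - 4 T κ - i (κ+1)` truncated, so `hF j (4B) ≤ T (j+1) - 4 b` truncated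
(as `i ρ ≤ i (κ+1)`). For `j < κ`: `hF j (4B) ≤ hF j B ≤ hF (κ - 1) B = 0`. The lower bound
`hF j (4B) ≥ T (j+1) - TT (4B)` is `ShghT.le_finrank_LS` / `HFun.chi_le`. -/
def S_Clu : Prop := ∀ (F : Type u) [Field F] [CharZero F] (B : Multiset ℕ), GT F B → GT F (4 • B)

/-- REP. PROOF. `GT F {m}`: `hF F j {m} = T (j+1) - T m` (base, or `Δ_j = j + 1` for `j ≤ d`). Then
`S_Clu` `h` times: `replicate (4 ^ h) m = 4 • replicate (4 ^ (h-1)) m`. -/
def S_Rep : Prop := ∀ (F : Type u) [Field F] [CharZero F] (m h : ℕ),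
  GT F (Multiset.replicate (4 ^ h) m)

/-- REDUCE: replacing a cluster by a big point. PROOF. `T κ ≤ TT B < T (κ+1)`; `ShghL.tCM` as in
`S_Clu`: `hF d (A + B) ≤ hF d ((κ+1) ::ₘ A)` or `hF d (A + B) + (TT B - T κ) ≤ hF d (κ ::ₘ A)`, both right
sides are known. -/
def S_Reduce : Prop := ∀ (F : Type u) [Field F] [CharZero F] (d κ : ℕ) (A B : Multiset ℕ),
  GT F B → 1 ≤ κ → κ ≤ d → T κ ≤ TT B → TT B < T (κ + 1) →
  hF F d (κ ::ₘ A) = T (d + 1) - TT (κ ::ₘ A) →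
  hF F d ((κ + 1) ::ₘ A) = T (d + 1) - TT ((κ + 1) ::ₘ A) →
  hF F d (A + B) = T (d + 1) - TT (A + B)

/-- LONG: one big point. PROOF. `χ = T (d+1) - TT (κ ::ₘ S)`. If `|χ| ≥ 16 M^2`: `ShghJ.winBase` with
`K = {κ}` (`hfunC_hF`). If `2 κ + 135 M^2 ≤ d`: `ShghL.hF_large`. Otherwise `κ ≥ 20 M + 1` (else
`d < 175 M^2`, `κ d < 3500 M^3`), and `d ≥ 220 M` (from `κ ≤ (d+2)/2`). `θ = d - κ ≥ d/2 - 1`,
`τ = 20 M`, `a = κ / (τ + 1) + 1` (so `a ≥ 2`, `(τ+1)(a-1) ≤ κ < (τ+1) a`), `n = 2a - 1`,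
`δ = κ + a θ`, `c = δ - n τ = κ + τ + a (θ - 2 τ)`, and `θ - 2τ ≥ d/4`, so
`c ≥ a d / 4 ≥ κ d / (84 M) ≥ 300 M^2`. `X0 = #Trap (d - τ a) (θ - τ) = T (d - τa + 1) - T (κ - τ(a-1))`,
`#Sf n (τ-1) δ = ∑_(k<τ) (δ + 1 - n k)`, identity `X0 + #Sf n (τ-1) δ = T (d+1) - T κ` (and the same with
`τ + 1`; `#Sf n τ δ = #Sf n (τ-1) δ + c + 1`). `exists_part` (`ShghL.Close1`): `S = A + B` with
`x = X0 - TT A ∈ [174 M^2, 175 M^2]` (possible: `X0 ≥ 175 M^2` and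
`X0 - TT S = χ - #Sf n (τ-1) δ < 174 M^2`). Then: (i) `x - (c+1) ≤ - 16 M^2`: the system
`(d - (τ+1)a; κ - (τ+1)(a-1), A)` is empty, (ii) `hF (d - τ a) ((κ - τ(a-1)) ::ₘ A) = x` (`winBase`;
`2 (κ - τ(a-1)) ≤ d - τ a + 2` as `a ≥ 2`), `S_Proj`; (iii) `y = #Sf n τ δ - TT B = c + 1 + χ - x`,
`y ≥ 34 M^2`: `S_StripWin` (second claim): `hN (Sf n τ δ) B = y`; (iv) `y - (c+1) = χ - x ≤ -158 M^2`:
`S_StripWin` (first claim) for `τ - 1` (`20 M ≤ (τ-1) + 1`): `hN (Sf n (τ-1) δ) B = 0`, and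
`St n τ δ 0 = Sf n (τ-1) δ`. `S_Glue`, `S_Raise` with `ρ = x`: `hF d (κ ::ₘ S) ≤ 0` or
`≤ y - (c + 1 - x) = χ`. Conditions of `S_StripWin`: `δ ≥ 2 n τ + 14 (n+1) M` as
`δ ≥ a θ`, `2 n τ + 28 a M ≤ a (80 M + 28 M)`, `θ ≥ 108 M`. -/
def S_Long : Prop := ∀ (F : Type u) [Field F] [CharZero F] (d κ M : ℕ) (S : Multiset ℕ), 1 ≤ M →
  (∀ x ∈ S, x ≤ M) → 2 * κ ≤ d + 2 → 27000 * M ^ 3 ≤ κ * d →
  hF F d (κ ::ₘ S) = T (d + 1) - TT (κ ::ₘ S)

/-- SEED. PROOF. `S = A + replicate (4^h) m`, `B = replicate (4^h) m`, `TT B = 4^h m (m+1) / 2`, `κ` with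
`T κ ≤ TT B < T (κ+1)`: `2^h m ≤ κ < 2^h (m+1)` (`T` is monotone and `T (2^h m) ≤ 4^h T m <
T (2^h (m+1))`). `S_Rep`, `S_Long` for `κ` and `κ + 1` (`2 (κ+1) ≤ 2^(h+1) (m+1) ≤ d`), `S_Reduce`. -/
def S_Seed : Prop := ∀ (F : Type u) [Field F] [CharZero F] (d M m h : ℕ) (S : Multiset ℕ), 1 ≤ M →
  (∀ x ∈ S, x ≤ M) → 1 ≤ m → 4 ^ h ≤ S.count m → 2 ^ h * (m + 1) * 2 ≤ d →
  27000 * M ^ 3 ≤ 2 ^ h * m * d → hF F d S = T (d + 1) - TT S

/-- XA: many equal multiplicities. PROOF. Choose `h` minimal with `27000 M^3 ≤ 2^h m d`. If `h = 0`: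
`4^0 = 1 ≤ count`, `2 (m+1) ≤ 4 M ≤ d`. If `h ≥ 1`: `2^(h-1) m d < 27000 M^3`, so
`2^h (m+1) 2 ≤ 8 (2^(h-1) m) < 216000 M^3 / d ≤ d` and `4^h (m d)^2 < (54000 M^3)^2 ≤ count * (m d)^2`. -/
def S_XA : Prop := ∀ (F : Type u) [Field F] [CharZero F] (d M m : ℕ) (S : Multiset ℕ), 1 ≤ M →
  (∀ x ∈ S, x ≤ M) → 1 ≤ m → 216000 * M ^ 3 ≤ d ^ 2 →
  54000 ^ 2 * M ^ 6 ≤ S.count m * (m * d) ^ 2 → hF F d S = T (d + 1) - TT S

/-- XB: all multiplicities, `d ^ 4 ≥ 10 ^ 10 M ^ 7`. PROOF. If `|χ| ≥ 16 M^2`: `ShghJ.winBase`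
(`K = 0`). Otherwise `TT S ≥ T (d+1) - 16 M^2 ≥ d^2 / 3` (as `d ≥ 100 M`). `TT S = ∑_(1≤m≤M)
(count m) T m ≤ ∑ (count m) m^2`, so some `m` has `3 M (count m) m^2 ≥ d^2`, and then
`count m (m d)^2 ≥ d^4 / (3M) ≥ (10^10 / 3) M^6 ≥ 54000^2 M^6`; `d^2 ≥ 10^5 M^(7/2) ≥ 216000 M^3` only for
`M ≥ 5`; for `M ≤ 4` (or `M^(1/2) ≤ 2.16`): `ShghL.hF_large` (`135 M^2 ≤ d`: `d ≥ 316 M^(7/4) ≥
135 M^2` for `M ≤ 30`). -/
def S_XB : Prop := ∀ (F : Type u) [Field F] [CharZero F] (d M : ℕ) (S : Multiset ℕ), 1 ≤ M →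
  (∀ x ∈ S, x ≤ M) → 10 ^ 10 * M ^ 7 ≤ d ^ 4 → hF F d S = T (d + 1) - TT S

/-- XC: the largest multiplicity is attained `≥ 500000 M` times, every degree; homogeneous systems.
PROOF. If `|χ| ≥ 16 M^2`: `ShghJ.winBase` (`K = 0`). Otherwise `T (d+1) ≥ count * T M - 16 M^2 ≥
(count - 32) M^2 / 2`, so `(d+1)(d+2) ≥ 499968 M^3`, `d^2 ≥ 216000 M^3`, and with `c = count`:
`2 d^2 ≥ (d+1)(d+2) ≥ (c - 32) M^2 ≥ c M^2 / 2`, `c (M d)^2 ≥ c^2 M^4 / 4 ≥ 6.25 * 10^10 M^6`; `S_XA`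
with `m = M`. -/
def S_XC : Prop := ∀ (F : Type u) [Field F] [CharZero F] (d M : ℕ) (S : Multiset ℕ), 1 ≤ M →
  (∀ x ∈ S, x ≤ M) → 500000 * M ≤ S.count M → hF F d S = T (d + 1) - TT S

end ShghC
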