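import Pool.Agent.ShghC.Spec
import Pool.Agent.ShghJ.HFunD

/-!
# ShghC, SpecE: exact strips and small constants (statements, with proofs in the docstrings)

THEOREM H. In characteristic `0`: homogeneous systems `(d; m ^ s)` with `s ≥ 30 m` are non-special
for every `d`; the same for every system whose largest multiplicity `M` occurs at least `70 M` times.

The curve `Y = X ^ a` without a big point (helper15): the row `k` of the lowest exponents has
`h_(d - k a)(A) - h_(d - (k + 1) a)(A)` elements; `g = T (a - 2) = (a - 1)(a - 2) / 2`,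
`δ = a d - g`, `n = a ^ 2`.
-/

namespace ShghC

open MvPolynomial ShghJ

universe u v w

/-- ELM1: elementary transformation at a point of multiplicity `m` on a strip with `τ = m`.
PROOF. `hN F N (m ::ₘ B)` is at most the dimension for special points (`S_NSemi.{u,u,u}`, generic
points `up i` to the points `(0, 0)` and `Q_j = (x_j, x_j y_j)`, `(x_j, y_j) = up j`; as in
`ShghJ.geo_hF_cons` write the generic space with `Fin.cons`, `S_NInv`). Let `f` have exponents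
in `Sf (n + 1) m e` and multiplicity `m` at `(0, 0)`, i.e. exponents with `i + k ≥ m`
(`ShghE.tf_mem_iff` with the shift by `0`, or `mem_pow_idealOfVars_iff'`). Let
`f' = ∑ f_ik X^(i+k-m) Y^k`; its exponents `(i', k)`, `i' = i + k - m`, satisfy `k ≤ m`,
`i' + n k = i + (n + 1) k - m ≤ e - m`. The map `f ↦ f'` is linear and injective, and
`f (X, X Y) = X^m f'(X, Y)`. The homomorphism `X ↦ X`, `Y ↦ X Y` maps `pt x_j (x_j y_j)` into
`pt x_j y_j` (`X Y - x_j y_j = (X - x_j) Y + x_j (Y - y_j)`), so `X^m f' ∈ pt x_j y_j ^ ν_j` and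
`f' ∈ pt x_j y_j ^ ν_j` by `S_Unit` (`x_j ≠ 0`). So the special dimension is at most
`finrank (LN (Sf n m (e - m)) ν up) = hN F (Sf n m (e - m)) B`. If `e < m` there are no exponents
with `i + k ≥ m`, `i + (n + 1) k ≤ e`. -/
def S_Elm1 : Prop := ∀ (F : Type u) [Field F] (n m e : ℕ) (B : Multiset ℕ),
  (m ≤ e → hN F (Sf (n + 1) m e) (m ::ₘ B) ≤ hN F (Sf n m (e - m)) B) ∧
  (e < m → hN F (Sf (n + 1) m e) (m ::ₘ B) = 0)

/-- ELM0: the same for `n = 0`, with the flip `Y ↦ 1 / Y`. PROOF. As `S_Elm1` with the special points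
`(0, 0)` and `Q_j = (x_j, x_j / y_j)`. `f = ∑ f_ik X^i Y^k`, `i ≤ e`, `k ≤ m`, `i + k ≥ m`,
`f' = ∑ f_ik X^(i+k-m) Y^(m-k)`: exponents `(i', k')` with `k' = m - k ≤ m`, `i' + k' = i ≤ e`. Now
`Y^m f (X, X / Y) = X^m f'`. Multiplicity: `f` has degree `≤ m` in `Y` and multiplicity `ν` at
`(x, x / y)`: expand, `f = ∑ c_ab (X - x)^a (Y - x/y)^b`, `a + b ≥ ν`, `b ≤ m`, and so
`X^m f' = ∑ c_ab (X - x)^a (X - (x/y) Y)^b Y^(m-b)`, `X - (x/y) Y = (X - x) - (x/y)(Y - y)`, is in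
`pt x y ^ ν`; `S_Unit`. (For the identity check the monomials: the linear maps
`f ↦ X^m f'` and the one with `(X - x)^a (Y - x/y)^b ↦ (X - x)^a (X - (x/y) Y)^b Y^(m-b)` agree on
polynomials of degree `≤ m` in `Y`: both are `f ↦ ∑ f_k(X) X^k Y^(m-k)`, use
`X^k Y^(m-k) = ((X - c Y) + c Y)^k Y^(m-k)` and the binomial formula.) -/
def S_Elm0 : Prop := ∀ (F : Type u) [Field F] (m e : ℕ) (B : Multiset ℕ),
  hN F (Sf 0 m e) (m ::ₘ B) ≤ hN F (Sf 1 m e) B

/-- FIB1: a point of multiplicity `m + 1 > τ` contains its fibre. PROOF. `ShghC.StCAux.step`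
(`Pool.Agent.ShghC.StC`) and `S_StB` (`h (e+1) ≤ h e + (τ+1)`), and `h 0 ≤ τ + 1`
(`Sf n τ 0` has at most `τ + 1` elements). -/
def S_Fib1 : Prop := ∀ (F : Type u) [Field F] [CharZero F] (n τ m : ℕ) (B : Multiset ℕ), τ ≤ m →
  (∀ e, hN F (Sf n τ (e + 1)) ((m + 1) ::ₘ B) ≤ hN F (Sf n τ e) (m ::ₘ B)) ∧
  hN F (Sf n τ 0) ((m + 1) ::ₘ B) = 0

/-- PE: exact strips with equal multiplicities (pure arithmetic from `S_Elm1`, `S_Elm0`, `S_Fib1`,
`S_StA`). PROOF. Write `R r m = replicate r m`, truncated subtraction in `ℕ`. For all `m ≥ 0`: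
(i) `hN (Sf 0 m e) (R (2t) m) ≤ (m+1) (e + 1 - t m)`: induction on `t`, `t = 0`: `S_StA`;
`t + 1`: `S_Elm0` (to `Sf 1 m e`, `R (2t+1) m`), `S_Elm1` (to `Sf 0 m (e-m)`, `R (2t) m`, or `0` if
`e < m`). (ii) `hN (Sf 0 m e) (R (2t+1) m) ≤ ∑ k in range (m+1), (e + 1 - t m - k)`: induction on
`t`; `t = 0`: `S_Elm0` and `S_StA` for `Sf 1 m e`. (iii) `hN (Sf n m e) (R (n+r) m) ≤
hN (Sf 0 m (e - n m)) (R r m)` if `n m ≤ e` and `= 0` if `e < n m`: induction on `n`, `S_Elm1`.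
First claim: `b = n + r`; the hypothesis gives `(2n + r + 1) m ≤ 2 (e + 1)` (cancel `(m+1)/2`), so
`n m ≤ e`. `r = 2t`: (iii), (i), and `(2n + 2t) T m = (n+t) m (m+1)`. `r = 2t+1`: with
`E = e + 1 - (n+t) m ≥ m`, (ii) is `∑ (E - k) = (m+1) E - T m`.
Second claim, `m = m' + 1`: (iv) `hN (Sf n m' e) (R b (m'+1) + R r m') ≤
hN (Sf n m' (e - b)) (R (b+r) m')` if `b ≤ e`, `= 0` if `e < b`: induction on `b`, `S_Fib1` with
`τ = m'`. The hypothesis is `2 (e+1) + m' ≤ (n + b) m' + 2 b` if `m ≥ 1` (cancel `m/2`). If `b ≤ e`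
let `e' = e - b`: `2 (e'+1) + m' ≤ (2n + r) m'`, `b = n + r`. If `e' < n m'`: (iii) gives `0`.
Otherwise `e'' = e' - n m'`, `2 (e''+1) + m' ≤ r m'`: `r = 2t`: `e''+1 ≤ t m'`, (i) gives `0`;
`r = 2t+1`: `e''+1 ≤ t m'`, (ii) gives `0`. -/
def S_PE : Prop := ∀ (F : Type u) [Field F] [CharZero F] (n m e b : ℕ), 1 ≤ m → n ≤ b →
  ((n + b + 1) * T m ≤ (m + 1) * (e + 1) →
    hN F (Sf n m e) (Multiset.replicate b m) + (n + b) * T m ≤ (m + 1) * (e + 1)) ∧
  (m * (e + 1) + T (m - 1) ≤ n * T (m - 1) + b * T m →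
    hN F (Sf n (m - 1) e) (Multiset.replicate b m) = 0)

/-- GLUER (helper15): gluing along the curve `Y = X ^ a` without a big point. -/
def S_GlueR : Prop := ∀ (F : Type u) [Field F] [CharZero F] (d a τ : ℕ) (A B : Multiset ℕ),
  1 ≤ a → (τ + 1) * a ≤ d → hF F (d - τ * a) A + TT A = T (d - τ * a + 1) →
  hF F (d - (τ + 1) * a) A = 0 →
  hF F d (A + B) ≤ hN F (St (a ^ 2) τ (a * d - T (a - 2)) (hF F (d - τ * a) A)) B

/-- CLOSER: gluing and transversality. PROOF. `S_GlueR`, `S_Raise` (with `n = a ^ 2`,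
`δ = a d - T (a - 2)`, `ρ = hF F (d - τ a) A`), `St n τ δ 0 = Sf n (τ - 1) δ` for `τ ≥ 1`
(`Finset.ext`, `mem_St`, `mem_Sf`). -/
def S_CloseR : Prop := ∀ (F : Type u) [Field F] [CharZero F] (d a τ y : ℕ) (A B : Multiset ℕ),
  1 ≤ a → 1 ≤ τ → (τ + 1) * a ≤ d → hF F (d - τ * a) A + TT A = T (d - τ * a + 1) →
  hF F (d - (τ + 1) * a) A = 0 → a ^ 2 * τ + T (a - 2) ≤ a * d →
  hF F (d - τ * a) A ≤ a * d - T (a - 2) - a ^ 2 * τ + 1 →
  hN F (Sf (a ^ 2) τ (a * d - T (a - 2))) B ≤ y →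
  hN F (Sf (a ^ 2) (τ - 1) (a * d - T (a - 2))) B = 0 →
  hF F d (A + B) ≤ y + hF F (d - τ * a) A - (a * d - T (a - 2) - a ^ 2 * τ + 1)

/-- HOMC: the closing with exact strips, `τ = m`. Notation: `g = T (a - 2)`, `δ = a d - g`, `n = a ^ 2`,
`c = δ - n m`, `χ = T (d+1) - TT S`, `N' = m (δ + 1) - n T (m - 1)` (the number of elements of the
rows `< m`). PROOF. Identities (in `ℤ`): `T (d+1) = T (d - m a + 1) + N'`,
`T (d - m a + 1) = T (d - (m+1) a + 1) + (c + 1)` (each row: `T (D+1) - T (D-a+1) = a D + 1 - g` for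
`D ≥ a`, with `D = d - k a`; by induction on `k` or `T` explicitly, `2 g = (a-1)(a-2)`).
`b =` the least number with `b T m ≥ p + N' - χ`; the last hypothesis gives `b ≤ count m S`, and
`b T m ≥ N' + T m ≥ n T m` (as `p ≥ χ + T m`, `c ≥ 0`) gives `n ≤ b`. `S = A + replicate b m`,
`x = T (d - m a + 1) - TT A = χ - N' + b T m`, `p ≤ x < p + T m ≤ c + 1 - q`.
`ShghJ.winD` (`CombD3`, with `W = 0`, `M = m`, `hfunD_hF`): `108 m^2 ≤ 30 x`, so
`hF (d - m a) A + TT A = T (d - m a + 1)`; in degree `d - (m+1) a` the expected dimension is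
`x - (c+1) ≤ - q`, and `h ≥ 1` would give `60 (h + TT A) ≤ 123 m^2 + 60 T`, `60 (1 + q) ≤ 123 m^2`:
so `h = 0`. `y = c + 1 + χ - x ≥ T m` (as `q ≥ T m - χ`), `y = (m+1)(δ+1) - (n + b) T m`: `S_PE`
first claim: `hN (Sf n m δ) (replicate b m) ≤ y`. Second claim: `m (δ+1) - n T (m-1) - b T m =
χ - x ≤ - T m ≤ - T (m - 1)`: `hN (Sf n (m-1) δ) .. = 0`. `S_CloseR`: `hF d S ≤ y + x - (c+1)`,
which is `χ` if `χ ≥ 0` and `0` otherwise (truncated); lower bound `HFun.chi_le`. -/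
def S_HomC : Prop := ∀ (F : Type u) [Field F] [CharZero F] (d a m p q : ℕ) (S : Multiset ℕ),
  1 ≤ m → (∀ x ∈ S, x ≤ m) → 1 ≤ a → (m + 1) * a ≤ d →
  18 * m ^ 2 ≤ 5 * p → T (d + 1) + T m ≤ TT S + p →
  41 * m ^ 2 ≤ 20 * q → T m + TT S ≤ T (d + 1) + q →
  p + q + T m + T (a - 2) + a ^ 2 * m ≤ a * d + 1 →
  p + m * (a * d + 1) + TT S ≤
    T (d + 1) + S.count m * T m + m * T (a - 2) + a ^ 2 * T (m - 1) →
  hF F d S = T (d + 1) - TT S

/-- HOM: homogeneous systems with `s ≥ 30 m` points. PROOF. `χ = T (d+1) - s T m`. If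
`5 χ ≥ 18 m^2` or `60 (1 - χ) > 123 m^2`: `ShghJ.winD` (`W = 0`, `hfunD_hF`). Otherwise `S_HomC` with
`a =` the integer nearest to `d / (2m)` (or `a = (d + m) / (2m)`), `p = max (⌈18 m^2/5⌉, χ + T m)`,
`q = max (⌈41 m^2/20⌉, T m - χ)`, so that `p + q + T m ≤ 6.65 m^2 + m + 2` in all cases. Capacity:
`a d - a^2 m ≥ d^2/(4m) - m/4`, `T (a-2) ≤ a^2/2`. (Checked by computer: for all `m ≤ 1000`, `s ≥ 27 m`
some `a` works.) Number of points: `p + N' - χ ≤ s T m` is clear from `N' = T (d+1) - T (d - m a + 1)`: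
it says `p ≤ T (d - m a + 1)`. -/
def S_Hom : Prop := ∀ (F : Type u) [Field F] [CharZero F] (d m s : ℕ), 1 ≤ m → 30 * m ≤ s →
  hF F d (Multiset.replicate s m) = T (d + 1) - s * T m

/-- REP: the largest multiplicity `M` occurs at least `70 M` times, every degree. PROOF. Window as in
`S_Hom`. If `d` is large use `ShghI.hF_rel_full` with `K = 0` (`20 M^2 + 3 k ≤ d + 2`,
`3 M d ≤ k (k+1) + 1`). Otherwise `d < 20 M^2 + ..`; choose the least `a` with capacity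
`20 (a d - T (a-2) - a^2 M + 1) ≥ 133 M^2 + 20 M + 40` (exists as `d^2 ≥ 69 M^3`), then check the number of
points: `20 N' + 113 M^2 + 20 ≤ 20 (count) T M`. (Checked by computer for `M ≤ 140`: `64 M` is enough.) -/
def S_RepE : Prop := ∀ (F : Type u) [Field F] [CharZero F] (d M : ℕ) (S : Multiset ℕ), 1 ≤ M →
  (∀ x ∈ S, x ≤ M) → 70 * M ≤ S.count M → hF F d S = T (d + 1) - TT S

end ShghC
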