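import Pool.Agent.ShghT.Semi

/-!
# Barycentric coordinates and homogeneous polynomials

`Tri K`: a triangle in the affine plane. `lam t` are the barycentric coordinates: affine linear functions with
`lam t (A s) = δ_{ts}`, `∑ lam t = 1`, `∑ lam t A_t = (X 0, X 1)`.
`hg T D f` is the homogeneous polynomial of degree `D` in the barycentric coordinates which represents the
polynomial `f` of degree `≤ D`; `ev T` is the inverse (`X t ↦ lam t`).
-/

namespace ShghT

open MvPolynomial

/-- A (non-degenerate) triangle with its barycentric coordinates. -/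
structure Tri (K : Type*) [Field K] where
  A : Fin 3 → Fin 2 → K
  lam : Fin 3 → MvPolynomial (Fin 2) K
  deg : ∀ t, (lam t).totalDegree ≤ 1
  sum : ∑ t, lam t = 1
  inv : ∀ i, ∑ t, lam t * C (A t i) = X i
  val : ∀ t s, eval (A s) (lam t) = if t = s then 1 else 0

variable {K : Type*} [Field K]

private noncomputable def triLin (a b c : K) : MvPolynomial (Fin 2) K :=
  C a * X 0 + C b * X 1 + C c

private theorem triLin_deg (d a b c : K) : (C d * triLin a b c).totalDegree ≤ 1 := by
  have h0 : ∀ (x : K) (i : Fin 2), (C x * X i : MvPolynomial (Fin 2) K).totalDegree ≤ 1 := by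
    intro x i
    refine (totalDegree_mul _ _).trans ?_
    rw [totalDegree_C, totalDegree_X]
  refine (totalDegree_mul _ _).trans ?_
  rw [totalDegree_C, zero_add, triLin]
  refine (totalDegree_add _ _).trans (max_le ((totalDegree_add _ _).trans
    (max_le (h0 a 0) (h0 b 1))) ?_)
  rw [totalDegree_C]
  exact zero_le_one

/-- PROOF. `lam 0 = det (·, A 1, A 2) / det (A 0, A 1, A 2)` and so on (determinants of the points with a third
coordinate one). -/
theorem exists_tri (A : Fin 3 → Fin 2 → K)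
    (h : (A 1 0 - A 0 0) * (A 2 1 - A 0 1) - (A 2 0 - A 0 0) * (A 1 1 - A 0 1) ≠ 0) :
    ∃ T : Tri K, T.A = A := by
  set dl : K := (A 1 0 - A 0 0) * (A 2 1 - A 0 1) - (A 2 0 - A 0 0) * (A 1 1 - A 0 1) with hdl
  have h1 : dl⁻¹ * dl = 1 := inv_mul_cancel₀ h
  have h2 : (C dl⁻¹ : MvPolynomial (Fin 2) K) * ((C (A 1 0) - C (A 0 0)) * (C (A 2 1) - C (A 0 1)) -
      (C (A 2 0) - C (A 0 0)) * (C (A 1 1) - C (A 0 1))) = 1 := by
    rw [← C_sub, ← C_sub, ← C_sub, ← C_sub, ← C_mul, ← C_mul, ← C_sub, ← hdl, ← C_mul, h1, C_1]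
  refine ⟨{ A := A
            lam := ![C dl⁻¹ * triLin (A 1 1 - A 2 1) (A 2 0 - A 1 0) (A 1 0 * A 2 1 - A 2 0 * A 1 1),
              C dl⁻¹ * triLin (A 2 1 - A 0 1) (A 0 0 - A 2 0) (A 2 0 * A 0 1 - A 0 0 * A 2 1),
              C dl⁻¹ * triLin (A 0 1 - A 1 1) (A 1 0 - A 0 0) (A 0 0 * A 1 1 - A 1 0 * A 0 1)]
            deg := ?_
            sum := ?_
            inv := ?_
            val := ?_ }, rfl⟩
  · intro t
    fin_cases t <;> exact triLin_deg _ _ _ _
  · rw [Fin.sum_univ_three]
    simp only [triLin, Matrix.cons_val_zero, Matrix.cons_val_one, Matrix.cons_val, C_sub, C_mul]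
    linear_combination h2
  · intro i
    rw [Fin.sum_univ_three]
    fin_cases i
    · simp only [triLin, Matrix.cons_val_zero, Matrix.cons_val_one, Matrix.cons_val, C_sub, C_mul,
        Fin.zero_eta]
      linear_combination X 0 * h2
    · simp only [triLin, Matrix.cons_val_zero, Matrix.cons_val_one, Matrix.cons_val, C_sub, C_mul,
        Fin.mk_one]
      linear_combination X 1 * h2
  · intro t s
    rw [hdl] at h1
    fin_cases t <;> fin_cases s <;>
      simp [triLin] <;> first | linear_combination h1 | (ring_nf; simp)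

namespace Tri

variable (T : Tri K)

/-- The homogeneous polynomial representing a polynomial of degree `≤ D`. -/
noncomputable def hg (D : ℕ) (f : MvPolynomial (Fin 2) K) : MvPolynomial (Fin 3) K :=
  ∑ e ∈ f.support, C (f.coeff e) * (∑ t, X t * C (T.A t 0)) ^ e 0 *
    (∑ t, X t * C (T.A t 1)) ^ e 1 * (∑ t, X t) ^ (D - (e 0 + e 1))

/-- Barycentric coordinates as an algebra map. -/
noncomputable def ev : MvPolynomial (Fin 3) K →ₐ[K] MvPolynomial (Fin 2) K := aeval T.lam

private theorem hg_eq_sum (D : ℕ) (f : MvPolynomial (Fin 2) K) (S : Finset (Fin 2 →₀ ℕ))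
    (hS : f.support ⊆ S) : T.hg D f = ∑ e ∈ S, C (f.coeff e) * (∑ t, X t * C (T.A t 0)) ^ e 0 *
      (∑ t, X t * C (T.A t 1)) ^ e 1 * (∑ t, X t) ^ (D - (e 0 + e 1)) := by
  rw [hg]
  refine Finset.sum_subset hS fun s _ hs => ?_
  rw [notMem_support_iff.mp hs, map_zero, zero_mul, zero_mul, zero_mul]

theorem hg_add (D : ℕ) (f g : MvPolynomial (Fin 2) K) : T.hg D (f + g) = T.hg D f + T.hg D g := by
  classical
  rw [hg_eq_sum T D (f + g) (f.support ∪ g.support) support_add,
    hg_eq_sum T D f (f.support ∪ g.support) Finset.subset_union_left,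
    hg_eq_sum T D g (f.support ∪ g.support) Finset.subset_union_right,
    ← Finset.sum_add_distrib]
  refine Finset.sum_congr rfl fun s _ => ?_
  rw [coeff_add, map_add]
  ring

private theorem hg_zero (D : ℕ) : T.hg D 0 = 0 := by
  rw [hg, support_zero, Finset.sum_empty]

private theorem hg_sum {ι : Type*} (D : ℕ) (s : Finset ι) (f : ι → MvPolynomial (Fin 2) K) :
    T.hg D (∑ i ∈ s, f i) = ∑ i ∈ s, T.hg D (f i) := by
  classical
  induction s using Finset.induction_on with
  | empty => rw [Finset.sum_empty, Finset.sum_empty, hg_zero]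
  | insert a s ha ih => rw [Finset.sum_insert ha, Finset.sum_insert ha, hg_add, ih]

private theorem hg_monomial (D : ℕ) (e : Fin 2 →₀ ℕ) (c : K) :
    T.hg D (monomial e c) = C c * (∑ t, X t * C (T.A t 0)) ^ e 0 *
      (∑ t, X t * C (T.A t 1)) ^ e 1 * (∑ t, X t) ^ (D - (e 0 + e 1)) := by
  rw [hg_eq_sum T D _ {e} support_monomial_subset, Finset.sum_singleton, coeff_monomial, if_pos rfl]

theorem hg_C_mul (D : ℕ) (c : K) (f : MvPolynomial (Fin 2) K) :
    T.hg D (C c * f) = C c * T.hg D f := by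
  have hS : (C c * f).support ⊆ f.support := by
    intro s hs
    rw [mem_support_iff, coeff_C_mul] at hs
    rw [mem_support_iff]
    exact right_ne_zero_of_mul hs
  rw [hg_eq_sum T D _ _ hS, hg, Finset.mul_sum]
  refine Finset.sum_congr rfl fun s _ => ?_
  rw [coeff_C_mul, map_mul]
  ring

private theorem tri_deg_le {D : ℕ} {g : MvPolynomial (Fin 2) K} (hg : g.totalDegree ≤ D)
    {s : Fin 2 →₀ ℕ} (hs : s ∈ g.support) : s 0 + s 1 ≤ D := by
  have h1 := (le_totalDegree hs).trans hg
  rwa [Finsupp.sum_fintype _ _ (fun _ => rfl), Fin.sum_univ_two] at h1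

private theorem tri_form_hom (c : Fin 3 → K) :
    (∑ t, X t * C (c t) : MvPolynomial (Fin 3) K).IsHomogeneous 1 := by
  refine IsHomogeneous.sum _ _ _ fun t _ => ?_
  have h := (isHomogeneous_X K t).mul (isHomogeneous_C (Fin 3) (c t))
  simpa using h

private theorem tri_X_hom : (∑ t, X t : MvPolynomial (Fin 3) K).IsHomogeneous 1 :=
  IsHomogeneous.sum _ _ _ fun t _ => isHomogeneous_X K t

theorem hg_isHomogeneous {D : ℕ} {f : MvPolynomial (Fin 2) K} (hf : f.totalDegree ≤ D) :
    (T.hg D f).IsHomogeneous D := by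
  rw [hg]
  refine IsHomogeneous.sum _ _ _ fun e he => ?_
  have h1 := tri_deg_le hf he
  have h2 := (((isHomogeneous_C (Fin 3) (f.coeff e)).mul
    ((tri_form_hom fun t => T.A t 0).pow (e 0))).mul
    ((tri_form_hom fun t => T.A t 1).pow (e 1))).mul ((tri_X_hom (K := K)).pow (D - (e 0 + e 1)))
  have h3 : 0 + 1 * e 0 + 1 * e 1 + 1 * (D - (e 0 + e 1)) = D := by omega
  rwa [h3] at h2

/-- As `Phi_mul`. -/
theorem hg_mul {D E : ℕ} {f g : MvPolynomial (Fin 2) K} (hf : f.totalDegree ≤ D)
    (hg' : g.totalDegree ≤ E) : T.hg (D + E) (f * g) = T.hg D f * T.hg E g := by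
  have h1 : f * g = ∑ s ∈ f.support, ∑ t ∈ g.support,
      monomial (s + t) (f.coeff s * g.coeff t) := by
    conv_lhs => rw [MvPolynomial.as_sum f, MvPolynomial.as_sum g]
    rw [Finset.sum_mul_sum]
    refine Finset.sum_congr rfl fun s _ => Finset.sum_congr rfl fun t _ => ?_
    rw [MvPolynomial.monomial_mul]
  rw [h1, hg_sum]
  simp only [hg_sum, hg_monomial]
  rw [hg, hg, Finset.sum_mul_sum]
  refine Finset.sum_congr rfl fun s hs => Finset.sum_congr rfl fun t ht => ?_
  have h2 := tri_deg_le hf hs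
  have h3 := tri_deg_le hg' ht
  have h4 : D + E - ((s + t) 0 + (s + t) 1) = (D - (s 0 + s 1)) + (E - (t 0 + t 1)) := by
    rw [Finsupp.add_apply, Finsupp.add_apply]
    omega
  rw [h4, Finsupp.add_apply, Finsupp.add_apply, map_mul, pow_add, pow_add, pow_add]
  ring

private theorem tri_hg_one {f : MvPolynomial (Fin 2) K} (hf : f.totalDegree ≤ 1) :
    T.hg 1 f = ∑ s, X s * C (eval (T.A s) f) := by
  have h1 : ∀ s : Fin 3, (X s * C (eval (T.A s) f) : MvPolynomial (Fin 3) K) =
      ∑ e ∈ f.support, X s * (C (f.coeff e) * (C (T.A s 0) ^ e 0 * C (T.A s 1) ^ e 1)) := by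
    intro s
    rw [eval_eq', map_sum, Finset.mul_sum]
    refine Finset.sum_congr rfl fun e _ => ?_
    rw [Fin.prod_univ_two, C_mul, C_mul, C_pow, C_pow]
  rw [hg, Finset.sum_congr rfl fun s _ => h1 s, Finset.sum_comm]
  refine Finset.sum_congr rfl fun e he => ?_
  have h2 := tri_deg_le hf he
  have h3 : e 0 = 0 ∧ e 1 = 0 ∨ e 0 = 1 ∧ e 1 = 0 ∨ e 0 = 0 ∧ e 1 = 1 := by omega
  rcases h3 with ⟨h3, h4⟩ | ⟨h3, h4⟩ | ⟨h3, h4⟩ <;> rw [h3, h4] <;>
    simp only [pow_zero, pow_one, mul_one, one_mul, Nat.add_zero, Nat.zero_add, Nat.sub_self,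
      Nat.sub_zero, Finset.mul_sum] <;>
    refine Finset.sum_congr rfl fun s _ => ?_ <;> ring

theorem hg_lam (t : Fin 3) : T.hg 1 (T.lam t) = X t := by
  rw [tri_hg_one T (T.deg t), Finset.sum_eq_single t]
  · rw [T.val, if_pos rfl, C_1, mul_one]
  · intro s _ hs
    rw [T.val, if_neg (Ne.symm hs), C_0, mul_zero]
  · intro h
    exact absurd (Finset.mem_univ t) h

private theorem tri_ev_X (t : Fin 3) : T.ev (X t) = T.lam t := by
  rw [ev, aeval_X]

private theorem tri_ev_C (c : K) : T.ev (C c) = C c := by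
  rw [ev, aeval_C]
  rfl

theorem ev_hg {D : ℕ} {f : MvPolynomial (Fin 2) K} (hf : f.totalDegree ≤ D) :
    T.ev (T.hg D f) = f := by
  have _ := hf
  have h1 : ∀ i, T.ev (∑ t, X t * C (T.A t i)) = X i := by
    intro i
    rw [map_sum, ← T.inv i]
    refine Finset.sum_congr rfl fun t _ => ?_
    rw [map_mul, tri_ev_X, tri_ev_C]
  have h2 : T.ev (∑ t, X t) = 1 := by
    rw [map_sum, ← T.sum]
    exact Finset.sum_congr rfl fun t _ => tri_ev_X T t
  rw [hg, map_sum]
  conv_rhs => rw [MvPolynomial.as_sum f]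
  refine Finset.sum_congr rfl fun e _ => ?_
  rw [map_mul, map_mul, map_mul, map_pow, map_pow, map_pow, h1, h1, h2, one_pow, mul_one, tri_ev_C,
    monomial_eq, Finsupp.prod_fintype _ _ (fun _ => pow_zero _), Fin.prod_univ_two, mul_assoc]

theorem totalDegree_ev {D : ℕ} {G : MvPolynomial (Fin 3) K} (hG : G.IsHomogeneous D) :
    (T.ev G).totalDegree ≤ D := by
  rw [ev, aeval_def, eval₂_eq']
  refine totalDegree_finsetSum_le fun e he => ?_
  refine (totalDegree_mul _ _).trans ?_
  have h0 : (algebraMap K (MvPolynomial (Fin 2) K) (G.coeff e)).totalDegree = 0 :=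
    totalDegree_C (G.coeff e)
  rw [h0, zero_add]
  refine (totalDegree_finsetProd _ _).trans ?_
  have h1 : ∀ t ∈ (Finset.univ : Finset (Fin 3)), (T.lam t ^ e t).totalDegree ≤ e t := fun t _ =>
    (totalDegree_pow _ _).trans ((Nat.mul_le_mul_left _ (T.deg t)).trans_eq (mul_one _))
  refine (Finset.sum_le_sum h1).trans_eq ?_
  have h2 := hG.degree_eq_sum_deg_support he
  rw [← Finsupp.degree_apply, Finsupp.degree_eq_sum] at h2
  exact h2.symm

private theorem tri_hg_zero_one : T.hg 0 (1 : MvPolynomial (Fin 2) K) = 1 := by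
  have h1 : (1 : MvPolynomial (Fin 2) K) = monomial 0 1 := rfl
  rw [h1, hg_monomial, map_one]
  simp

private theorem tri_hg_lam_pow (t : Fin 3) (n : ℕ) : T.hg n (T.lam t ^ n) = X t ^ n := by
  induction n with
  | zero => rw [pow_zero, pow_zero, tri_hg_zero_one]
  | succ n ih =>
    have h1 : (T.lam t ^ n).totalDegree ≤ n :=
      (totalDegree_pow _ _).trans ((Nat.mul_le_mul_left _ (T.deg t)).trans_eq (mul_one _))
    rw [pow_succ, pow_succ, hg_mul T h1 (T.deg t), ih, hg_lam]

/-- PROOF. Linear in `G`; for a monomial use `hg_mul` and `hg_lam`. -/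
theorem hg_ev {D : ℕ} {G : MvPolynomial (Fin 3) K} (hG : G.IsHomogeneous D) :
    T.hg D (T.ev G) = G := by
  have hp : ∀ (t : Fin 3) (n : ℕ), (T.lam t ^ n).totalDegree ≤ n := fun t n =>
    (totalDegree_pow _ _).trans ((Nat.mul_le_mul_left _ (T.deg t)).trans_eq (mul_one _))
  conv_lhs => rw [MvPolynomial.as_sum G]
  conv_rhs => rw [MvPolynomial.as_sum G]
  rw [map_sum, hg_sum]
  refine Finset.sum_congr rfl fun e he => ?_
  have h2 := hG.degree_eq_sum_deg_support he
  rw [← Finsupp.degree_apply, Finsupp.degree_eq_sum, Fin.sum_univ_three] at h2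
  rw [monomial_eq, Finsupp.prod_fintype _ _ (fun _ => pow_zero _), Fin.prod_univ_three, map_mul,
    map_mul, map_mul, map_pow, map_pow, map_pow, tri_ev_X, tri_ev_X, tri_ev_X, tri_ev_C, hg_C_mul,
    h2, hg_mul T ((totalDegree_mul _ _).trans (add_le_add (hp 0 (e 0)) (hp 1 (e 1)))) (hp 2 (e 2)),
    hg_mul T (hp 0 (e 0)) (hp 1 (e 1)), tri_hg_lam_pow, tri_hg_lam_pow, tri_hg_lam_pow]

/-- Passage from one triangle to another. -/
private noncomputable def triTr (T' : Tri K) : MvPolynomial (Fin 3) K →ₐ[K] MvPolynomial (Fin 3) K :=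
  aeval fun t => T'.hg 1 (T.lam t)

private theorem triTr_ev (T' : Tri K) (G : MvPolynomial (Fin 3) K) :
    T'.ev (triTr T T' G) = T.ev G := by
  have h : (T'.ev).comp (triTr T T') = T.ev := by
    apply MvPolynomial.algHom_ext
    intro t
    rw [AlgHom.comp_apply, triTr, aeval_X, ev_hg T' (T.deg t), tri_ev_X]
  exact DFunLike.congr_fun h G

private theorem triTr_hg (T' : Tri K) {D : ℕ} {f : MvPolynomial (Fin 2) K}
    (hf : f.totalDegree ≤ D) : triTr T T' (T.hg D f) = T'.hg D f := by
  have h1 : (triTr T T' (T.hg D f)).IsHomogeneous D := by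
    have h := (hg_isHomogeneous T hf).aeval (fun t => T'.hg 1 (T.lam t)) (n := 1)
      (fun t => hg_isHomogeneous T' (T.deg t))
    rwa [one_mul] at h
  rw [← hg_ev T' h1, triTr_ev, ev_hg T hf]

private theorem triTr_comp (T' : Tri K) (G : MvPolynomial (Fin 3) K) :
    triTr T' T (triTr T T' G) = G := by
  have h : (triTr T' T).comp (triTr T T') = AlgHom.id K _ := by
    apply MvPolynomial.algHom_ext
    intro t
    have h1 : triTr T T' (X t) = T'.hg 1 (T.lam t) := by rw [triTr, aeval_X]
    rw [AlgHom.comp_apply, h1, triTr_hg T' T (T.deg t), hg_lam]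
    rfl
  exact DFunLike.congr_fun h G

/-! ### Factors of homogeneous polynomials -/

private noncomputable def triSc :
    MvPolynomial (Fin 3) K →ₐ[K] Polynomial (MvPolynomial (Fin 3) K) :=
  aeval fun i => Polynomial.C (X i) * Polynomial.X

private theorem triSc_monomial (e : Fin 3 →₀ ℕ) (c : K) :
    triSc (monomial e c) = Polynomial.C (monomial e c) * Polynomial.X ^ e.degree := by
  have h1 : (triSc (C c) : Polynomial (MvPolynomial (Fin 3) K)) = Polynomial.C (C c) := by
    rw [triSc, aeval_C]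
    rfl
  have h2 : e.degree = e 0 + e 1 + e 2 := by
    rw [Finsupp.degree_eq_sum, Fin.sum_univ_three]
  rw [monomial_eq, Finsupp.prod_fintype _ _ (fun _ => pow_zero _), Fin.prod_univ_three, map_mul, h1,
    map_mul, map_mul, map_pow, map_pow, map_pow, h2]
  simp only [triSc, aeval_X, mul_pow, map_mul, map_pow, pow_add]
  ring

private theorem triSc_coeff (G : MvPolynomial (Fin 3) K) (e : Fin 3 →₀ ℕ) (n : ℕ) :
    ((triSc G).coeff n).coeff e = if e.degree = n then G.coeff e else 0 := by
  classical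
  conv_lhs => rw [MvPolynomial.as_sum G]
  rw [map_sum, Polynomial.finsetSum_coeff, MvPolynomial.coeff_sum]
  have h1 : ∀ d ∈ G.support, ((triSc (monomial d (G.coeff d))).coeff n).coeff e =
      if d = e then (if e.degree = n then G.coeff e else 0) else 0 := by
    intro d _
    rw [triSc_monomial, Polynomial.coeff_C_mul_X_pow]
    by_cases h2 : d = e
    · subst h2
      rw [if_pos rfl]
      by_cases h3 : d.degree = n
      · rw [if_pos h3.symm, if_pos h3, coeff_monomial, if_pos rfl]
      · rw [if_neg (Ne.symm h3), if_neg h3, coeff_zero]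
    · rw [if_neg h2]
      by_cases h3 : n = d.degree
      · rw [if_pos h3, coeff_monomial, if_neg h2]
      · rw [if_neg h3, coeff_zero]
  rw [Finset.sum_congr rfl h1, Finset.sum_ite_eq']
  by_cases h2 : e ∈ G.support
  · rw [if_pos h2]
  · rw [if_neg h2]
    rw [notMem_support_iff] at h2
    rw [h2, ite_self]

private theorem triSc_hom {D : ℕ} {F : MvPolynomial (Fin 3) K} (hF : F.IsHomogeneous D) :
    triSc F = Polynomial.C F * Polynomial.X ^ D := by
  ext n : 1
  refine MvPolynomial.ext _ _ fun e => ?_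
  rw [triSc_coeff, Polynomial.coeff_C_mul_X_pow]
  by_cases h : n = D
  · rw [if_pos h]
    by_cases h1 : e.degree = n
    · rw [if_pos h1]
    · rw [if_neg h1, hF.coeff_eq_zero (by rwa [h] at h1)]
  · rw [if_neg h, coeff_zero]
    by_cases h1 : e.degree = n
    · rw [if_pos h1, hF.coeff_eq_zero (by rwa [h1])]
    · rw [if_neg h1]

private theorem tri_hom_left {D : ℕ} {F G H : MvPolynomial (Fin 3) K} (hF : F.IsHomogeneous D)
    (hF0 : F ≠ 0) (hGH : F = G * H) : ∃ n, G.IsHomogeneous n := by
  have hG0 : G ≠ 0 := by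
    rintro rfl
    exact hF0 (by rw [hGH, zero_mul])
  have hH0 : H ≠ 0 := by
    rintro rfl
    exact hF0 (by rw [hGH, mul_zero])
  have hne : ∀ P : MvPolynomial (Fin 3) K, P ≠ 0 → triSc P ≠ 0 := by
    intro P hP h0
    apply hP
    refine MvPolynomial.ext _ _ fun e => ?_
    have h1 := triSc_coeff P e e.degree
    rw [if_pos rfl, h0, Polynomial.coeff_zero, coeff_zero] at h1
    rw [← h1, coeff_zero]
  have h1 : triSc G * triSc H = Polynomial.C F * Polynomial.X ^ D := by
    rw [← map_mul, ← hGH, triSc_hom hF]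
  have h2 : (triSc G).natDegree + (triSc H).natDegree = D := by
    rw [← Polynomial.natDegree_mul (hne G hG0) (hne H hH0), h1,
      Polynomial.natDegree_C_mul_X_pow D F hF0]
  have h3 : (triSc G).natTrailingDegree + (triSc H).natTrailingDegree = D := by
    rw [← Polynomial.natTrailingDegree_mul (hne G hG0) (hne H hH0), h1,
      Polynomial.natTrailingDegree_mul_X_pow (Polynomial.C_ne_zero.mpr hF0),
      Polynomial.natTrailingDegree_C, zero_add]
  have h4 := Polynomial.natTrailingDegree_le_natDegree (triSc G)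
  have h5 := Polynomial.natTrailingDegree_le_natDegree (triSc H)
  refine ⟨(triSc G).natDegree, fun e he => ?_⟩
  have h6 : ((triSc G).coeff e.degree).coeff e ≠ 0 := by
    rw [triSc_coeff, if_pos rfl]
    exact he
  have h7 : (triSc G).coeff e.degree ≠ 0 := by
    intro h
    rw [h, coeff_zero] at h6
    exact h6 rfl
  have h8 := Polynomial.le_natDegree_of_ne_zero h7
  have h9 := Polynomial.natTrailingDegree_le_of_ne_zero h7
  have h10 : e.degree = (triSc G).natDegree := by omega
  rw [← h10]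
  exact (DFunLike.congr_fun (Finsupp.degree_eq_weight_one (R := ℕ)) e).symm

/-- Irreducibility of the homogeneous polynomial does not depend on the triangle.
PROOF. `T'.hg D f = aeval (fun t => T'.hg 1 (T.lam t)) (T.hg D f)`, and this algebra map has the inverse
`aeval (fun t => T.hg 1 (T'.lam t))`. -/
theorem irreducible_hg (T' : Tri K) {D : ℕ} {f : MvPolynomial (Fin 2) K} (hf : f.totalDegree ≤ D)
    (h : Irreducible (T.hg D f)) : Irreducible (T'.hg D f) := by
  let E : MvPolynomial (Fin 3) K ≃ₐ[K] MvPolynomial (Fin 3) K :=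
    AlgEquiv.ofAlgHom (triTr T T') (triTr T' T)
      (AlgHom.ext fun G => triTr_comp T' T G) (AlgHom.ext fun G => triTr_comp T T' G)
  have h1 : E (T.hg D f) = T'.hg D f := triTr_hg T T' hf
  rw [← h1]
  exact (MulEquiv.irreducible_iff E).mpr h

/-- PROOF. `f` irreducible of degree exactly `D`: if `hg D f = G H` then `G, H` are homogeneous (factors of a
nonzero homogeneous polynomial), `f = ev G * ev H`, so `ev G`, say, is a nonzero constant `c`, and
`G = hg D₁ c = c (∑ X t) ^ D₁`, `D₁ = deg G`; if `D₁ > 0` then `∑ X t` divides `hg D f`, hence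
`deg f ≤ D - 1` (`f = ev (hg D f) = ev (quotient)`). -/
theorem irreducible_hg_of_irreducible {D : ℕ} {f : MvPolynomial (Fin 2) K}
    (hf : f.totalDegree = D) (h : Irreducible f) : Irreducible (T.hg D f) := by
  have hev := ev_hg T hf.le
  have hom := hg_isHomogeneous T hf.le
  have hF0 : T.hg D f ≠ 0 := by
    intro h0
    rw [h0, map_zero] at hev
    exact h.ne_zero hev.symm
  have key : ∀ G H : MvPolynomial (Fin 3) K, T.hg D f = G * H → IsUnit (T.ev G) → IsUnit G := by
    intro G H hGH hu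
    obtain ⟨m, hm⟩ := tri_hom_left hom hF0 hGH
    obtain ⟨n, hn⟩ := tri_hom_left hom hF0 (hGH.trans (mul_comm G H))
    have hD : D = m + n := by
      have h1 := hm.mul hn
      rw [← hGH] at h1
      exact hom.inj_right h1 hF0
    obtain ⟨c, hc, hcG⟩ := MvPolynomial.isUnit_iff_eq_C_of_isReduced.mp hu
    have h2 : f = C c * T.ev H := by
      rw [← hcG, ← map_mul, ← hGH, hev]
    have h3 : D ≤ n := by
      rw [← hf]
      conv_lhs => rw [h2]
      refine (totalDegree_mul _ _).trans ?_
      rw [totalDegree_C, zero_add]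
      exact totalDegree_ev T hn
    have hm0 : m = 0 := by omega
    subst hm0
    have h4 := hg_ev T hm
    rw [hcG, ← mul_one (C c), hg_C_mul, tri_hg_zero_one, mul_one] at h4
    rw [← h4]
    exact hc.map C
  refine ⟨fun hu => h.not_isUnit ?_, fun {G H} hGH => ?_⟩
  · rw [← hev]
    exact hu.map T.ev
  · have h1 : f = T.ev G * T.ev H := by
      rw [← map_mul, ← hGH, hev]
    rcases h.isUnit_or_isUnit h1 with h2 | h2
    · exact Or.inl (key G H hGH h2)
    · exact Or.inr (key H G (hGH.trans (mul_comm G H)) h2)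

/-- PROOF. If `hg D f` (irreducible) is divisible by `X t` then they are associated. -/
theorem not_X_dvd {D : ℕ} (hD : 2 ≤ D) {f : MvPolynomial (Fin 2) K} (hf : f.totalDegree ≤ D)
    (h : Irreducible (T.hg D f)) (t : Fin 3) : ¬ X t ∣ T.hg D f := by
  rintro ⟨H, hH⟩
  rcases h.isUnit_or_isUnit hH with h1 | h1
  · have h2 := h1.map (eval (fun _ => (0 : K)) : MvPolynomial (Fin 3) K →+* K)
    rw [eval_X] at h2
    exact not_isUnit_zero h2
  · obtain ⟨c, _, hc⟩ := MvPolynomial.isUnit_iff_eq_C_of_isReduced.mp h1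
    have h2 := (hg_isHomogeneous T hf).totalDegree h.ne_zero
    have h3 : (T.hg D f).totalDegree ≤ 1 := by
      rw [hH, hc]
      refine (totalDegree_mul _ _).trans ?_
      rw [totalDegree_C, totalDegree_X]
    omega

end Tri

end ShghT
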