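import Pool.Agent.ShghC.Tri

/-!
# Multiplicities at the vertices
-/

namespace ShghT

open MvPolynomial

variable {K : Type*} [Field K]

/-- The coordinates of the standard triangle, the vertex `t` being the origin. -/
private noncomputable def triVSig (t : Fin 3) : Fin 3 → MvPolynomial (Fin 2) K :=
  t.insertNth (1 - X 0 - X 1) X

private theorem triVSig_self (t : Fin 3) : triVSig (K := K) t t = 1 - X 0 - X 1 := by
  simp [triVSig]

private theorem triVSig_succAbove (t : Fin 3) (j : Fin 2) :
    triVSig (K := K) t (t.succAbove j) = X j := by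
  simp [triVSig]

private theorem triVSig_sum (t : Fin 3) : ∑ s, triVSig (K := K) t s = 1 := by
  rw [Fin.sum_univ_succAbove _ t, triVSig_self]
  simp only [triVSig_succAbove, Fin.sum_univ_two]
  ring

/-- The affine change of coordinates. -/
private noncomputable def triVPhi (T : Tri K) (t : Fin 3) :
    MvPolynomial (Fin 2) K →ₐ[K] MvPolynomial (Fin 2) K :=
  aeval (fun i => ∑ s, triVSig t s * C (T.A s i))

private theorem triVPhi_hg (T : Tri K) (t : Fin 3) (D : ℕ) (f : MvPolynomial (Fin 2) K) :
    aeval (triVSig t) (T.hg D f) = triVPhi T t f := by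
  have h1 : ∀ i, aeval (triVSig (K := K) t) (∑ s, X s * C (T.A s i) : MvPolynomial (Fin 3) K) =
      ∑ s, triVSig t s * C (T.A s i) := by
    intro i
    simp [algebraMap_eq]
  have h2 : aeval (triVSig (K := K) t) (∑ s, X s : MvPolynomial (Fin 3) K) = 1 := by
    rw [← triVSig_sum (K := K) t]
    simp
  unfold Tri.hg
  rw [map_sum, triVPhi, aeval_def (fun i => ∑ s, triVSig t s * C (T.A s i)), eval₂_eq']
  refine Finset.sum_congr rfl fun e _ => ?_
  rw [map_mul, map_mul, map_mul, map_pow, map_pow, map_pow, h1, h1, h2, one_pow,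
    mul_one, Fin.prod_univ_two, mul_assoc]
  congr 1
  simp [algebraMap_eq]

private theorem triVPhi_map (T : Tri K) (t : Fin 3) :
    Ideal.map (triVPhi T t) (pt (T.A t 0) (T.A t 1)) ≤ idealOfVars (Fin 2) K := by
  have h : ∀ i, triVPhi T t (X i - C (T.A t i)) ∈ idealOfVars (Fin 2) K := by
    intro i
    have h1 : triVPhi T t (X i - C (T.A t i)) =
        ∑ j, X j * (C (T.A (t.succAbove j) i) - C (T.A t i)) := by
      have : triVPhi T t (C (T.A t i)) = C (T.A t i) := by simp [triVPhi, algebraMap_eq]
      rw [map_sub, this, triVPhi, aeval_X, Fin.sum_univ_succAbove _ t, triVSig_self]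
      simp only [triVSig_succAbove, Fin.sum_univ_two]
      ring
    rw [h1]
    exact Ideal.sum_mem _ fun j _ => Ideal.mul_mem_right _ _ (Ideal.subset_span ⟨j, rfl⟩)
  rw [pt, Ideal.map_span, Ideal.span_le]
  rintro x ⟨y, hy, rfl⟩
  rcases hy with rfl | rfl
  · exact h 0
  · exact h 1

/-- The inverse. -/
private noncomputable def triVPsi (T : Tri K) (t : Fin 3) :
    MvPolynomial (Fin 2) K →ₐ[K] MvPolynomial (Fin 2) K :=
  aeval (fun j => T.lam (t.succAbove j))

private theorem triVPsi_sig (T : Tri K) (t s : Fin 3) : triVPsi T t (triVSig t s) = T.lam s := by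
  rcases Fin.eq_self_or_eq_succAbove t s with rfl | ⟨j, rfl⟩
  · have := T.sum
    rw [Fin.sum_univ_succAbove _ s, Fin.sum_univ_two] at this
    rw [triVSig_self]
    simp only [triVPsi, map_sub, map_one, aeval_X]
    linear_combination -this
  · rw [triVSig_succAbove]
    simp [triVPsi]

private theorem triVPsi_phi (T : Tri K) (t : Fin 3) (f : MvPolynomial (Fin 2) K) :
    triVPsi T t (triVPhi T t f) = f := by
  have h : (triVPsi T t).comp (triVPhi T t) = AlgHom.id K _ := by
    apply MvPolynomial.algHom_ext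
    intro i
    have hC : ∀ c, triVPsi T t (C c) = C c := by
      intro c
      simp [triVPsi, algebraMap_eq]
    rw [AlgHom.comp_apply, triVPhi, aeval_X, map_sum]
    simp only [map_mul, triVPsi_sig, hC, AlgHom.id_apply]
    exact T.inv i
  exact congrArg (fun φ => φ f) h

private theorem triV_mem_pt (a : Fin 2 → K) (f : MvPolynomial (Fin 2) K) (h : eval a f = 0) :
    f ∈ pt (a 0) (a 1) := by
  have hX : ∀ i, (X i - C (a i) : MvPolynomial (Fin 2) K) ∈ pt (a 0) (a 1) := by
    intro i
    apply Ideal.subset_span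
    fin_cases i
    · exact Or.inl rfl
    · exact Or.inr rfl
  have h1 : (Ideal.Quotient.mk (pt (a 0) (a 1))) =
      ((Ideal.Quotient.mk (pt (a 0) (a 1))).comp C).comp (eval a) := by
    apply MvPolynomial.ringHom_ext
    · intro r
      simp
    · intro i
      rw [RingHom.comp_apply, RingHom.comp_apply, eval_X]
      exact Ideal.Quotient.eq.2 (hX i)
  have h2 := RingHom.congr_fun h1 f
  rw [RingHom.comp_apply, h, map_zero] at h2
  exact Ideal.Quotient.eq_zero_iff_mem.1 h2

private theorem triVPsi_map (T : Tri K) (t : Fin 3) :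
    Ideal.map (triVPsi T t) (idealOfVars (Fin 2) K) ≤ pt (T.A t 0) (T.A t 1) := by
  rw [Ideal.map_span, Ideal.span_le]
  rintro x ⟨y, ⟨j, rfl⟩, rfl⟩
  have h1 : triVPsi T t (X j) = T.lam (t.succAbove j) := by simp [triVPsi]
  rw [h1]
  apply triV_mem_pt
  rw [T.val, if_neg (Fin.succAbove_ne t j)]

private theorem triV_mem_pt_iff (T : Tri K) (t : Fin 3) (m : ℕ) (f : MvPolynomial (Fin 2) K) :
    f ∈ pt (T.A t 0) (T.A t 1) ^ m ↔ triVPhi T t f ∈ idealOfVars (Fin 2) K ^ m := by
  constructor
  · intro h
    have := Ideal.mem_map_of_mem (triVPhi T t) h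
    rw [Ideal.map_pow] at this
    exact Ideal.pow_right_mono (triVPhi_map T t) m this
  · intro h
    have := Ideal.mem_map_of_mem (triVPsi T t) h
    rw [Ideal.map_pow, triVPsi_phi] at this
    exact Ideal.pow_right_mono (triVPsi_map T t) m this

/-- The exponents of the variables other than `X t`. -/
private noncomputable def triVRed (t : Fin 3) (α : Fin 3 →₀ ℕ) : Fin 2 →₀ ℕ :=
  Finsupp.equivFunOnFinite.symm fun j => α (t.succAbove j)

private theorem triVRed_apply (t : Fin 3) (α : Fin 3 →₀ ℕ) (j : Fin 2) :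
    triVRed t α j = α (t.succAbove j) := rfl

private theorem triVRed_degree (t : Fin 3) (α : Fin 3 →₀ ℕ) :
    α t + (triVRed t α).degree = α.degree := by
  rw [Finsupp.degree_eq_sum, Finsupp.degree_eq_sum, Fin.sum_univ_succAbove _ t]
  rfl

private theorem triV_aeval_monomial (t : Fin 3) (α : Fin 3 →₀ ℕ) (c : K) :
    aeval (triVSig t) (monomial α c) =
      (C c * (1 - X 0 - X 1) ^ α t) * monomial (triVRed t α) 1 := by
  rw [aeval_monomial, Finsupp.prod_fintype _ _ (fun _ => pow_zero _),
    Fin.prod_univ_succAbove _ t, triVSig_self, algebraMap_eq, mul_assoc, monomial_eq, C_1,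
    one_mul, Finsupp.prod_fintype _ _ (fun _ => pow_zero _)]
  simp only [triVSig_succAbove, triVRed_apply]

private theorem triV_aeval_mem_iff {D : ℕ} {G : MvPolynomial (Fin 3) K} (hG : G.IsHomogeneous D)
    (t : Fin 3) (m : ℕ) :
    aeval (triVSig t) G ∈ idealOfVars (Fin 2) K ^ m ↔ ∀ α ∈ G.support, α t + m ≤ D := by
  have hdeg : ∀ α ∈ G.support, α t + (triVRed t α).degree = D := by
    intro α hα
    rw [triVRed_degree]
    have := hG (mem_support_iff.mp hα)
    rwa [Pi.one_def, ← Finsupp.degree_eq_weight_one] at this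
  have hexp : aeval (triVSig t) G = ∑ α ∈ G.support,
      (C (G.coeff α) * (1 - X 0 - X 1) ^ α t) * monomial (triVRed t α) 1 := by
    conv_lhs => rw [G.as_sum, map_sum]
    exact Finset.sum_congr rfl fun α _ => triV_aeval_monomial t α _
  rw [mem_pow_idealOfVars_iff']
  constructor
  · intro h α₀ hα₀
    obtain ⟨α, hα, hmax⟩ := Finset.exists_max_image G.support (fun α => α t) ⟨α₀, hα₀⟩
    refine le_trans (Nat.add_le_add_right (hmax α₀ hα₀) m) ?_
    by_contra hlt
    have hα' := hdeg α hα
    have hz := h (triVRed t α) (by omega)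
    rw [hexp, coeff_sum, Finset.sum_eq_single α] at hz
    · rw [coeff_mul_monomial', if_pos le_rfl, tsub_self, mul_one, ← constantCoeff_eq] at hz
      simp only [map_mul, map_pow, map_sub, map_one, constantCoeff_C, constantCoeff_X, sub_zero,
        one_pow, mul_one] at hz
      exact mem_support_iff.mp hα hz
    · intro γ hγ hne
      rw [coeff_mul_monomial', if_neg]
      intro hle
      have h1 := hdeg γ hγ
      have h2 := hmax γ hγ
      have h3 : triVRed t γ = triVRed t α := by
        ext j
        have h4 : ∀ i, triVRed t γ i ≤ triVRed t α i := fun i => hle i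
        rw [Finsupp.degree_eq_sum, Fin.sum_univ_two] at h1 hα'
        have h5 := h4 0
        have h6 := h4 1
        fin_cases j
        · show triVRed t γ 0 = triVRed t α 0
          omega
        · show triVRed t γ 1 = triVRed t α 1
          omega
      apply hne
      ext s
      rcases Fin.eq_self_or_eq_succAbove t s with rfl | ⟨j, rfl⟩
      · rw [h3] at h1
        omega
      · exact DFunLike.congr_fun h3 j
    · intro hn
      exact absurd hα hn
  · intro h β hβ
    rw [hexp, coeff_sum]
    refine Finset.sum_eq_zero fun α hα => ?_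
    rw [coeff_mul_monomial', if_neg]
    intro hle
    have h1 := hdeg α hα
    have h2 := h α hα
    have h3 := Finsupp.degree_mono hle
    omega

/-- The multiplicity at a vertex is read off from the exponents. PROOF. (⇐) `ev` maps `X ^ α` to
`∏ lam s ^ α s`, and `lam s ∈ pt (A t)` for `s ≠ t`. (⇒) Suppose that `n`, the least value of
`D - α t` (`α` in the support of `hg D f`), is `< m`. Then `f = lam t ^ (D - n) * q + (an element of pt (A t) ^ (n+1))`,
`q = ∑ c_α ∏_{s ≠ t} lam s ^ α s` over the `α` with `D - α t = n`. Since `lam t ≡ 1 mod pt (A t)`,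
`q ∈ pt (A t) ^ (n + 1)`; after the affine change of coordinates which takes the two `lam s`, `s ≠ t`, to the
coordinates (`X i = ∑ lam s A_s i`) this is a contradiction to the homogeneity of `q ≠ 0`. -/
theorem Tri.mem_pt_vertex (T : Tri K) {D : ℕ} {f : MvPolynomial (Fin 2) K}
    (hf : f.totalDegree ≤ D) (t : Fin 3) (m : ℕ) :
    f ∈ pt (T.A t 0) (T.A t 1) ^ m ↔ ∀ α ∈ (T.hg D f).support, α t + m ≤ D := by
  rw [triV_mem_pt_iff, ← triVPhi_hg T t D f]
  exact triV_aeval_mem_iff (T.hg_isHomogeneous hf) t m

end ShghT
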